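import Mathlib
import Pool.Agent.Run7.h794.MK.Stm3
import Pool.Agent.Run7.h27.MK.LawA

/-!
# Project MKM (helper794): project MK for bounded functions `g` (Moebius, Liouville)

`L = log x`. `gI g k` (Run7/h27/MK/LawA.lean) is `g k` for positive integers `k`, else `0`.
-/

set_option autoImplicit false

namespace Pool.Agent.Run7.h794.MK

open Finset
open Pool.Agent.H807R2.Dav (ee)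
open Pool.Agent.Run7.h27.MK (gI)

/-- the Moebius function -/
noncomputable def mob (n : ℕ) : ℝ := ((ArithmeticFunction.moebius n : ℤ) : ℝ)

/-- the Liouville function (zero at zero) -/
noncomputable def lio (n : ℕ) : ℝ := if n = 0 then 0 else (-1) ^ n.primeFactorsList.length

/-- **MINP_mu** (Moebius on the minor arcs; pieces `S_BIL`, `S_D2` are theorems, adapt `Run7/h788/MK/MinA-MinC.lean`). In the ring of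
arithmetic functions with `ζ μ = 1`, `μ = M + N + R` (`M` on `[1, P]`, `N` on `(P, z]`, `R` beyond `z`, `z^3 ≥ 3 x`):
`μ = 3 M - 3 M² ζ + M³ ζ² + N (3 - 3 ζ (2 M + N) + ζ² (3 M² + 3 M N + N²)) + μ (ζ R)³`; the last term vanishes up to `3 x`, `3 M` vanishes
beyond `P`, `M² ζ` is `MS_one`, `M³ ζ²` is D2, the term with `N` is type II. -/
def S_MINPm : Prop := ∃ c X₀ : ℕ, ∀ x : ℕ, X₀ ≤ x → ∀ (α : ℝ) (a : ℤ) (q : ℕ), App α a q → ∀ P Y : ℕ, 1 ≤ P →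
  (x : ℝ) ^ (1 / 3 : ℝ) * (P : ℝ) ^ 300 ≤ Y → Y * P ^ 300 ≤ x → P ^ 300 ≤ q → q * P ^ 300 ≤ Y →
  MS mob α x Y ≤ x * (Y : ℝ) ^ 2 * Real.log x ^ c / P

/-- **MIN_mu** (from MINP_mu, as `min_of`). -/
def S_MINm : Prop := ∀ U : ℕ, ∃ B C X₀ : ℕ, ∀ x : ℕ, X₀ ≤ x → ∀ (α : ℝ) (a : ℤ) (q : ℕ), App α a q → ∀ Y : ℕ,
  (x : ℝ) ^ (1 / 3 : ℝ) * Real.log x ^ C ≤ Y → (Y : ℝ) * Real.log x ^ C ≤ x → Real.log x ^ B ≤ q →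
  (q : ℝ) * Real.log x ^ B ≤ Y → MS mob α x Y ≤ x * (Y : ℝ) ^ 2 / Real.log x ^ U

/-- **MAJ_mu** (Moebius on the major arcs; from the second part of `S_SIA`, which is the theorem `sia_all`; adapt
`Run7/h777/MK/Maj.lean` or `Run7/h880/MK/Maj1.lean`). -/
def S_MAJm : Prop := ∀ B U : ℕ, ∃ C X₀ : ℕ, ∀ x : ℕ, X₀ ≤ x → ∀ q : ℕ, 1 ≤ q →
  (q : ℝ) ≤ Real.log x ^ B → ∀ Y : ℕ,
  (x : ℝ) ^ (1 / 3 : ℝ) * Real.log x ^ C ≤ Y → (Y : ℝ) * Real.log x ^ C ≤ x →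
  ∀ (a : ℤ) (α : ℝ), |α - a / q| ≤ Real.log x ^ B / Y → MS mob α x Y ≤ x * (Y : ℝ) ^ 2 / Real.log x ^ U

/-- **ALL** for a function `g`: all additive characters in almost all short intervals. For `g = mob` from MIN_mu, MAJ_mu
(Dirichlet, adapt `Run7/h777/MK/All.lean`); for `g = lio` from `g = mob` (`λ(n) = ∑_{d² | n} μ(n / d²)`, `d ≤ L^K`, the rest trivially). -/
def S_ALLg (g : ℕ → ℝ) : Prop := ∀ U : ℕ, ∃ C X₀ : ℕ, ∀ x : ℕ, X₀ ≤ x → ∀ Y : ℕ,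
  (x : ℝ) ^ (1 / 3 : ℝ) * Real.log x ^ C ≤ Y → (Y : ℝ) * Real.log x ^ C ≤ x → ∀ α : ℝ,
  MS g α x Y ≤ x * (Y : ℝ) ^ 2 / Real.log x ^ U

/-- **ARCg** (Gallagher; from ALLg if `|g| ≤ 1`) -/
def S_ARCg (g : ℕ → ℝ) : Prop := ∀ U : ℕ, ∃ C X₀ : ℕ, ∀ X : ℕ, X₀ ≤ X → ∀ M : ℕ, 2 * X ≤ M → ∀ (r : ℤ) (H : ℕ),
  (X : ℝ) ^ (1 / 3 : ℝ) * Real.log X ^ C ≤ H →
  ∑ s ∈ Icc (-((M / H : ℕ) : ℤ)) ((M / H : ℕ) : ℤ), ‖DF g X M (r + s)‖ ^ 2 ≤ M * X / Real.log X ^ U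

/-- **LAWg** (one-shift law; from ARCg if `|g| ≤ 1`; `Run7/h27/MK/LawB.core`) -/
def S_LAWg (g : ℕ → ℝ) : Prop := ∀ B U : ℕ, ∃ V : ℕ, ∀ T D : ℕ, ∃ C N₀ : ℕ, ∀ N : ℕ, N₀ ≤ N →
  ∀ M : ℕ, 2 * (B + 2) * N ≤ M → M ≤ N ^ 2 →
  ∀ (ι : Type) (Ω : Finset ι) (p : ι → ℝ) (Yv : ι → ℤ),
  (∀ ω ∈ Ω, 0 ≤ p ω) → ∑ ω ∈ Ω, p ω ≤ 1 → (∀ ω ∈ Ω, |Yv ω| ≤ B * N) → ∀ H : ℕ,
  (N : ℝ) ^ (1 / 3 : ℝ) * Real.log N ^ C ≤ H → ∀ Γ : Finset ℤ, (Γ.card : ℝ) ≤ Real.log N ^ T →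
  (∀ t : ℤ, (∀ γ ∈ Γ, ∀ k : ℤ, Real.log N ^ D * (M / H) < |((t - γ - k * M : ℤ) : ℝ)|) →
    ‖∑ ω ∈ Ω, ((p ω : ℝ) : ℂ) * ee ((Yv ω : ℝ) * ((t : ℝ) / M))‖ ≤ 1 / Real.log N ^ V) →
  ∀ Kc : ℝ, 0 < Kc → ∀ G : ℕ → ℝ, (∀ n ∈ Icc 1 N, |G n| ≤ Kc) →
  ∑ ω ∈ Ω, p ω * |∑ n ∈ Icc 1 N, G n * gI g ((n : ℤ) + Yv ω)| ≤ Kc * (N / Real.log N ^ U)

/-- **T31Gg** (sparse windows in mean square over `n`, laws of shifts with arbitrary arcs; from ARCg if `|g| ≤ 1`;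
`Run7/h18/MK/Core.core`, adapted from `Run7/h18/MK/T31G.lean`). -/
def S_T31Gg (g : ℕ → ℝ) : Prop := ∀ Bc U : ℕ, ∃ V : ℕ, ∀ T D : ℕ, ∃ C N₀ : ℕ, ∀ N : ℕ, N₀ ≤ N →
  ∀ (ι : Type) (Ω : Finset ι) (p : ι → ℝ) (Yv : ι → ℤ), (∀ ω ∈ Ω, 0 ≤ p ω) → ∑ ω ∈ Ω, p ω ≤ 1 →
  (∀ ω ∈ Ω, |Yv ω| ≤ Bc * N) → ∀ H : ℕ, (N : ℝ) ^ (1 / 3 : ℝ) * Real.log N ^ C ≤ H → H ≤ N →
  ∀ Γ : Finset ℝ, (Γ.card : ℝ) ≤ Real.log N ^ T →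
  (∀ α : ℝ, (∀ γ ∈ Γ, ∀ k : ℤ, Real.log N ^ D / H < |α - γ - k|) →
    ‖∑ ω ∈ Ω, ((p ω : ℝ) : ℂ) * ee ((Yv ω : ℝ) * α)‖ ≤ 1 / Real.log N ^ V) →
  ∑ n ∈ Icc 1 N, (∑ ω ∈ Ω, p ω * gI g ((n : ℤ) + Yv ω)) ^ 2 ≤ N / Real.log N ^ U

end Pool.Agent.Run7.h794.MK
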