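import Mathlib
import Pool.Agent.Run7.h794.MK.Stm4
import Pool.Agent.Run7.h18.MK.T31G

/-! Project MKM (helper794): sparse windows in mean square, bounded functions; proof adapted from Run7/h18/MK/T31G.lean. -/

set_option autoImplicit false

namespace Pool.Agent.Run7.h794.MK

open Finset Filter
open Pool.Agent.H807R2.Dav (ee norm_ee ee_add ee_int ee_add_int ee_zero)
open Pool.Agent.Run7.h27.MK (gI)
open Pool.Agent.Run7.h18.MK (ev)

/-- the centers of the arcs -/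
noncomputable def GamR (Γ : Finset ℝ) (M : ℕ) : Finset ℤ := Γ.image fun γ => round ((M : ℝ) * γ)

lemma GamR_card (Γ : Finset ℝ) (M : ℕ) : (GamR Γ M).card ≤ Γ.card := card_image_le

/-- away from the centers -/
lemma farR (Γ : Finset ℝ) (M : ℕ) (hM : 1 ≤ M) (R : ℝ) (t : ℤ)
    (ht : ∀ γ ∈ GamR Γ M, ∀ k : ℤ, R < |((t - γ - k * M : ℤ) : ℝ)|) (γ : ℝ) (hγ : γ ∈ Γ) (k : ℤ) :
    (R - 1 / 2) / M < |(t : ℝ) / M - γ - k| := by
  have hM0 : (0 : ℝ) < M := by exact_mod_cast hM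
  have h1 := ht (round ((M : ℝ) * γ)) (mem_image.2 ⟨γ, hγ, rfl⟩) k
  have h2 := abs_sub_round ((M : ℝ) * γ)
  have h3 : (t : ℝ) / M - γ - k = (1 / M) * ((t : ℝ) - (M : ℝ) * γ - (k : ℝ) * M) := by
    field_simp
  rw [h3, abs_mul, abs_of_nonneg (by positivity)]
  have h5 : ((t - round ((M : ℝ) * γ) - k * M : ℤ) : ℝ) =
      ((t : ℝ) - (M : ℝ) * γ - (k : ℝ) * M) + ((M : ℝ) * γ - round ((M : ℝ) * γ)) := by
    push_cast
    ring
  rw [h5] at h1
  have h6 := abs_add_le ((t : ℝ) - (M : ℝ) * γ - (k : ℝ) * M) ((M : ℝ) * γ - round ((M : ℝ) * γ))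
  have h4 : R - 1 / 2 < |(t : ℝ) - (M : ℝ) * γ - (k : ℝ) * M| := by linarith
  calc (R - 1 / 2) / M = (1 / M) * (R - 1 / 2) := by ring
    _ < _ := mul_lt_mul_of_pos_left h4 (by positivity)

theorem t31g {g : ℕ → ℝ} (hg1 : ∀ n, |g n| ≤ 1) (hA : S_ARCg g) : S_T31Gg g := by
  intro Bc U
  refine ⟨U + 2, fun T D => ?_⟩
  obtain ⟨V, hV⟩ : ∃ V, V = U + 2 := ⟨_, rfl⟩
  rw [← hV]
  obtain ⟨U', hU'⟩ : ∃ U', U' = 2 * T + D + U + 2 := ⟨_, rfl⟩
  obtain ⟨C', X₁, hA⟩ := hA U'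
  obtain ⟨N₁, hN₁⟩ := ev 1 (36 * (Bc + 1) + 2 ^ C' + Real.log (Bc + 1) + 100)
  refine ⟨C' + 2, N₁ + X₁ + 3, fun N hN ι Ω p Yv hp hp1 hY H hH1 hH2 Γ hΓc hφ => ?_⟩
  obtain ⟨hLK, -⟩ := hN₁ N (by omega)
  have hN0 : (0 : ℝ) < N := by exact_mod_cast (by omega : 0 < N)
  have hN1 : (1 : ℝ) ≤ N := by exact_mod_cast (by omega : 1 ≤ N)
  obtain ⟨L, hL⟩ : ∃ L, L = Real.log (N : ℝ) := ⟨_, rfl⟩
  rw [← hL] at hLK hH1 hΓc hφ ⊢
  have hBc0 : (0 : ℝ) ≤ Bc := Nat.cast_nonneg _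
  have h2C : (0 : ℝ) < 2 ^ C' := by positivity
  have hlB : 0 ≤ Real.log ((Bc : ℝ) + 1) := Real.log_nonneg (by linarith)
  have hL1 : 100 ≤ L := by linarith
  have hL2 : 36 * ((Bc : ℝ) + 1) ≤ L := by linarith
  have hL3 : (2 : ℝ) ^ C' ≤ L := by linarith
  have hL4 : Real.log ((Bc : ℝ) + 1) ≤ L := by linarith
  have hL0 : 0 < L := by linarith
  have hL11 : 1 ≤ L := by linarith
  -- the parameters
  obtain ⟨X, hX⟩ : ∃ X : ℕ, X = (Bc + 1) * N := ⟨_, rfl⟩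
  have hXr : (X : ℝ) = ((Bc : ℝ) + 1) * N := by rw [hX]; push_cast; ring
  have hNX : N ≤ X := by rw [hX]; exact Nat.le_mul_of_pos_left _ (by omega)
  have hX1 : 1 ≤ X := by omega
  have hX0 : (0 : ℝ) < X := by exact_mod_cast hX1
  have hNXr : (N : ℝ) ≤ X := by exact_mod_cast hNX
  obtain ⟨LX, hLX⟩ : ∃ LX, LX = Real.log (X : ℝ) := ⟨_, rfl⟩
  have hLX1 : L ≤ LX := by rw [hL, hLX]; exact Real.log_le_log hN0 hNXr
  have hLX2 : LX ≤ 2 * L := by
    rw [hLX, hXr, Real.log_mul (by linarith) hN0.ne', ← hL]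
    linarith
  have hLX0 : 0 < LX := by linarith
  have hHpos : 0 < H := by
    have h2 : (0 : ℝ) < H := lt_of_lt_of_le (by positivity) hH1
    exact_mod_cast h2
  have hH0 : (0 : ℝ) < H := by exact_mod_cast hHpos
  obtain ⟨M, hM⟩ : ∃ M, M = 4 * X := ⟨_, rfl⟩
  have hM1 : 1 ≤ M := by omega
  have hM0 : (0 : ℝ) < M := by exact_mod_cast hM1
  have hMX : (M : ℝ) = 4 * X := by rw [hM]; push_cast; ring
  have hHr : (H : ℝ) ≤ N := by exact_mod_cast hH2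
  have hMH : 1 ≤ (M : ℝ) / H := by
    rw [le_div_iff₀ hH0]
    linarith
  obtain ⟨R, hR⟩ : ∃ R : ℝ, R = 2 * L ^ D * ((M : ℝ) / H) := ⟨_, rfl⟩
  have hLD : 1 ≤ L ^ D := one_le_pow₀ hL11
  have hR1 : 1 ≤ R := by
    rw [hR]
    nlinarith
  obtain ⟨n, hn⟩ : ∃ n : ℕ, n = ⌊R⌋₊ := ⟨_, rfl⟩
  have hnR : (n : ℝ) ≤ R := by rw [hn]; exact Nat.floor_le (by linarith)
  have hRn : R < n + 1 := by rw [hn]; exact Nat.lt_floor_add_one R
  obtain ⟨J, hJ⟩ : ∃ J : ℕ, J = ⌈4 * L ^ D⌉₊ + 1 := ⟨_, rfl⟩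
  have hJ1 : 4 * L ^ D + 1 ≤ J := by
    rw [hJ]
    push_cast
    have := Nat.le_ceil (4 * L ^ D)
    linarith
  have hJ2 : (J : ℝ) ≤ 6 * L ^ D := by
    rw [hJ]
    push_cast
    have := (Nat.ceil_lt_add_one (by positivity : 0 ≤ 4 * L ^ D)).le
    linarith
  obtain ⟨w, hw⟩ : ∃ w : ℕ, w = M / H := ⟨_, rfl⟩
  have hw1 : (M : ℝ) / H ≤ 2 * w + 1 := by
    have h1 : M < H * (w + 1) := by rw [hw]; exact Nat.lt_mul_div_succ M hHpos
    have h2 : (M : ℝ) < H * (w + 1) := by exact_mod_cast h1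
    rw [div_le_iff₀ hH0]
    have h3 : (0 : ℝ) ≤ w := Nat.cast_nonneg _
    nlinarith
  have hw2 : (w : ℝ) ≤ (M : ℝ) / H := by rw [hw]; exact Nat.cast_div_le
  -- integer bounds
  have hYX : ∀ ω ∈ Ω, ∀ n' ∈ Icc 1 N, |(n' : ℤ) + Yv ω| ≤ X := by
    intro ω hω n' hn'
    rw [mem_Icc] at hn'
    have h1 := abs_le.1 (hY ω hω)
    have h3 : (X : ℤ) = Bc * N + N := by rw [hX]; push_cast; ring
    rw [abs_le]
    constructor
    · have := h1.1
      omega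
    · have := h1.2
      omega
  have hg2 : ∀ m ∈ Icc 1 X, g m ^ 2 ≤ 9 * L ^ 2 := by
    intro m _
    calc g m ^ 2 = |g m| ^ 2 := (sq_abs _).symm
      _ ≤ 1 ^ 2 := pow_le_pow_left₀ (abs_nonneg _) (hg1 m) 2
      _ ≤ 9 * L ^ 2 := by nlinarith
  obtain ⟨K, hK⟩ : ∃ K : ℝ, K = M * X / LX ^ U' := ⟨_, rfl⟩
  have hHC : (X : ℝ) ^ (1 / 3 : ℝ) * LX ^ C' ≤ H := by
    refine le_trans ?_ hH1
    have h1 : (X : ℝ) ^ (1 / 3 : ℝ) ≤ (N : ℝ) ^ (1 / 3 : ℝ) * L := by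
      rw [hXr, Real.mul_rpow (by linarith) hN0.le, mul_comm]
      apply mul_le_mul_of_nonneg_left _ (by positivity)
      calc ((Bc : ℝ) + 1) ^ (1 / 3 : ℝ) ≤ ((Bc : ℝ) + 1) ^ (1 : ℝ) :=
            Real.rpow_le_rpow_of_exponent_le (by linarith) (by norm_num)
        _ = (Bc : ℝ) + 1 := Real.rpow_one _
        _ ≤ L := by linarith
    have h2 : LX ^ C' ≤ L * L ^ C' := by
      calc LX ^ C' ≤ (2 * L) ^ C' := pow_le_pow_left₀ hLX0.le hLX2 _
        _ = 2 ^ C' * L ^ C' := mul_pow _ _ _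
        _ ≤ L * L ^ C' := mul_le_mul_of_nonneg_right hL3 (by positivity)
    calc (X : ℝ) ^ (1 / 3 : ℝ) * LX ^ C' ≤ ((N : ℝ) ^ (1 / 3 : ℝ) * L) * (L * L ^ C') :=
          mul_le_mul h1 h2 (by positivity) (by positivity)
      _ = (N : ℝ) ^ (1 / 3 : ℝ) * L ^ (C' + 2) := by ring
  have hKarc : ∀ γ ∈ GamR Γ M, ∀ c : ℤ, |c - γ| ≤ n + w →
      ∑ s ∈ Icc (-(w : ℤ)) (w : ℤ), ‖DF g X M (c + s)‖ ^ 2 ≤ K := by
    intro γ _ c _
    rw [hK, hw, hLX]
    exact hA X (by omega) M (by omega) c H (by rw [← hLX]; exact hHC)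
  have hJn : 2 * n + 1 ≤ J * (2 * w + 1) := by
    have h1 : (2 : ℝ) * n + 1 ≤ J * (2 * w + 1) := by
      calc (2 : ℝ) * n + 1 ≤ 2 * R + M / H := by linarith
        _ = (4 * L ^ D + 1) * (M / H) := by rw [hR]; ring
        _ ≤ J * (2 * w + 1) := mul_le_mul hJ1 hw1 (by positivity) (Nat.cast_nonneg _)
    exact_mod_cast h1
  have hΓ : ∀ t : ℤ, (∀ γ ∈ GamR Γ M, ∀ k : ℤ, R < |((t - γ - k * M : ℤ) : ℝ)|) →
      ‖∑ ω ∈ Ω, ((p ω : ℝ) : ℂ) * ee ((Yv ω : ℝ) * ((t : ℝ) / M))‖ ≤ 1 / L ^ V := by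
    intro t ht
    apply hφ
    intro γ hγ k
    refine lt_of_le_of_lt ?_ (farR Γ M hM1 R t ht γ hγ k)
    rw [div_le_div_iff₀ hH0 hM0]
    have e1 : L ^ D * M = (L ^ D * (M / H)) * H := by field_simp
    rw [e1]
    apply mul_le_mul_of_nonneg_right _ hH0.le
    have e2 : 1 / 2 ≤ L ^ D * ((M : ℝ) / H) := by nlinarith
    rw [hR]
    linarith
  have hcore := Pool.Agent.Run7.h18.MK.core Ω p Yv hp hp1 N X M w J n hM1
    (by omega) (by omega) g (fun v hv n' hn' => (abs_le.1 (hYX v hv n' hn')).2)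
    (fun v hv n' hn' m hm => by
      have h1 := abs_le.1 (hYX v hv n' hn')
      rw [mem_Icc] at hm
      rw [abs_lt]
      constructor
      · have := h1.2
        omega
      · have := h1.1
        omega)
    (9 * L ^ 2) K (1 / L ^ V) R hg2 (GamR Γ M) hKarc hJn hRn hΓ
  have hgoal : ∑ n' ∈ Icc 1 N, (∑ ω ∈ Ω, p ω * gI g ((n' : ℤ) + Yv ω)) ^ 2 ≤ N / L ^ U := by
    refine hcore.trans ?_
    have t1 : (1 / L ^ V) ^ 2 * (X * (9 * L ^ 2)) ≤ N / L ^ U / 2 := by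
      rw [hXr]
      calc (1 / L ^ V) ^ 2 * ((((Bc : ℝ) + 1) * N) * (9 * L ^ 2)) = (9 * ((Bc : ℝ) + 1)) * N * L ^ 2 / L ^ (2 * V) := by
            have e2 : L ^ (2 * V) = (L ^ V) ^ 2 := by rw [← pow_mul, mul_comm]
            rw [e2, div_pow]
            ring
        _ ≤ N / L ^ U / 2 := by
            rw [div_div, div_le_div_iff₀ (by positivity) (by positivity)]
            have e3 : L ^ 2 * L ^ U * L ≤ L ^ (2 * V) := by
              rw [← pow_add, ← pow_succ]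
              apply pow_le_pow_right₀ hL11
              omega
            have e4 : 0 ≤ L ^ 2 * L ^ U := by positivity
            calc (9 * ((Bc : ℝ) + 1)) * N * L ^ 2 * (L ^ U * 2) = N * ((18 * ((Bc : ℝ) + 1)) * (L ^ 2 * L ^ U)) := by ring
              _ ≤ N * (L * (L ^ 2 * L ^ U)) := by
                  apply mul_le_mul_of_nonneg_left _ hN0.le
                  apply mul_le_mul_of_nonneg_right _ e4
                  linarith
              _ = N * (L ^ 2 * L ^ U * L) := by ring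
              _ ≤ N * L ^ (2 * V) := mul_le_mul_of_nonneg_left e3 hN0.le
    have t2 : ((GamR Γ M).card : ℝ) * (J * K) / M ≤ N / L ^ U / 2 := by
      have hc : ((GamR Γ M).card : ℝ) ≤ L ^ (2 * T) := by
        have h5 : ((GamR Γ M).card : ℝ) ≤ Γ.card := by exact_mod_cast GamR_card Γ M
        exact h5.trans (hΓc.trans (pow_le_pow_right₀ hL11 (by omega)))
      have hKM : K / M ≤ (((Bc : ℝ) + 1) * N) / L ^ U' := by
        rw [hK]
        have e1 : (M : ℝ) * X / LX ^ U' / M = X / LX ^ U' := by field_simp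
        rw [e1]
        apply div_le_div₀ (by positivity) hXr.le (by positivity)
        exact pow_le_pow_left₀ hL0.le hLX1 _
      have hK0 : 0 ≤ K / M := by rw [hK]; positivity
      calc ((GamR Γ M).card : ℝ) * (J * K) / M = ((GamR Γ M).card : ℝ) * (J * (K / M)) := by ring
        _ ≤ L ^ (2 * T) * ((6 * L ^ D) * ((((Bc : ℝ) + 1) * N) / L ^ U')) := by gcongr
        _ = (6 * ((Bc : ℝ) + 1)) * N * L ^ (2 * T + D) / L ^ U' := by
            rw [pow_add L (2 * T) D]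
            ring
        _ ≤ N / L ^ U / 2 := by
            rw [div_div, div_le_div_iff₀ (by positivity) (by positivity)]
            have e3 : L ^ (2 * T + D) * L ^ U * L ≤ L ^ U' := by
              rw [← pow_add, ← pow_succ]
              apply pow_le_pow_right₀ hL11
              omega
            have e4 : 0 ≤ L ^ (2 * T + D) * L ^ U := by positivity
            calc (6 * ((Bc : ℝ) + 1)) * N * L ^ (2 * T + D) * (L ^ U * 2) =
                N * ((12 * ((Bc : ℝ) + 1)) * (L ^ (2 * T + D) * L ^ U)) := by ring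
              _ ≤ N * (L * (L ^ (2 * T + D) * L ^ U)) := by
                  apply mul_le_mul_of_nonneg_left _ hN0.le
                  apply mul_le_mul_of_nonneg_right _ e4
                  linarith
              _ = N * (L ^ (2 * T + D) * L ^ U * L) := by ring
              _ ≤ N * L ^ U' := mul_le_mul_of_nonneg_left e3 hN0.le
    linarith
  exact hgoal

end Pool.Agent.Run7.h794.MK
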