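import Mathlib
import Pool.Agent.Run7.h794.MK.Stm4
import Pool.Agent.Run7.h794.MK.SiaAll
import Pool.Agent.Run7.h777.MK.Maj
import Pool.Agent.Run7.h777.MK.All

/-! Project MKM (helper794): the Moebius function on the major arcs (adapted from Run7/h777/MK/Maj.lean), and Dirichlet's
approximation (adapted from Run7/h777/MK/All.lean). -/

set_option autoImplicit false

namespace Pool.Agent.Run7.h794.MK

open Finset
open Pool.Agent.H807R2.Dav (ee ee_add norm_ee ee_eq ee_int)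
open Pool.Agent.H373R2.T7 (ev_L' ev_log')
open Pool.Agent.Q236.CR (S_SIA)
open Pool.Agent.Run7.h777.MK (e_eq_ee ms_short)

lemma mob_abs (n : ℕ) : |mob n| ≤ 1 := by
  unfold mob
  exact_mod_cast ArithmeticFunction.abs_moebius_le_one

theorem majm : S_MAJm := by
  intro B U
  obtain ⟨C1, X1, h1⟩ := sia_all B (U + 2)
  obtain ⟨X4, h4⟩ := ev_L' (max (2 ^ (C1 + 2)) 50)
  refine ⟨C1 + (B + U + 4) + 2, X1 + X4 + 4, fun x hx q hq hqB Y hY1 hY2 a α hα => ?_⟩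
  have a1 := h1 x (by omega)
  have a1' := h1 (2 * x) (by omega)
  have a4 := h4 x (by omega)
  have hx4 : 4 ≤ x := by omega
  have hxR : (4 : ℝ) ≤ x := by exact_mod_cast hx4
  set L : ℝ := Real.log x with hLdef
  have hL50 : 50 ≤ L := (le_max_right _ _).trans a4
  have hLC : (2 : ℝ) ^ (C1 + 2) ≤ L := (le_max_left _ _).trans a4
  have hL1 : 1 ≤ L := by linarith
  have hL0 : 0 < L := by linarith
  have hLK : (0 : ℝ) < L ^ (B + U + 4) := by positivity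
  -- size of `Y`
  have hYR : (Y : ℝ) ≤ x := by
    have : (Y : ℝ) * 1 ≤ Y * L ^ (C1 + (B + U + 4) + 2) := by
      gcongr
      exact one_le_pow₀ hL1
    linarith
  have hYx : Y ≤ x := by exact_mod_cast hYR
  have hx13 : (1 : ℝ) ≤ (x : ℝ) ^ (1 / 3 : ℝ) := Real.one_le_rpow (by linarith) (by norm_num)
  have hYbig : (x : ℝ) ^ (1 / 3 : ℝ) * L ^ (C1 + 2) ≤ Y / L ^ (B + U + 4) := by
    rw [le_div_iff₀ hLK]
    refine le_trans (le_of_eq ?_) hY1
    ring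
  set Y1 : ℕ := ⌊(Y : ℝ) / L ^ (B + U + 4)⌋₊ with hY1def
  have hY1up : (Y1 : ℝ) ≤ Y / L ^ (B + U + 4) := Nat.floor_le (by positivity)
  have hY1lo : (x : ℝ) ^ (1 / 3 : ℝ) * L ^ (C1 + 2) / 2 ≤ Y1 := by
    have b1 : (Y : ℝ) / L ^ (B + U + 4) < Y1 + 1 := Nat.lt_floor_add_one _
    have b2 : (50 : ℝ) ≤ (x : ℝ) ^ (1 / 3 : ℝ) * L ^ (C1 + 2) := by
      calc (50 : ℝ) ≤ 1 * L ^ 1 := by linarith
        _ ≤ (x : ℝ) ^ (1 / 3 : ℝ) * L ^ (C1 + 2) := by
            have g1 : L ^ 1 ≤ L ^ (C1 + 2) := pow_le_pow_right₀ hL1 (by omega)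
            gcongr
    linarith
  have hlog2 : Real.log ((2 * x : ℕ) : ℝ) ≤ 2 * L := by
    push_cast
    rw [Real.log_mul (by norm_num) (by linarith)]
    have : Real.log 2 ≤ Real.log x := Real.log_le_log (by norm_num) (by linarith)
    linarith
  have hlog2' : L ≤ Real.log ((2 * x : ℕ) : ℝ) := by
    apply Real.log_le_log (by linarith)
    push_cast
    linarith
  have hY1lo2 : ((2 * x : ℕ) : ℝ) ^ (1 / 3 : ℝ) * Real.log ((2 * x : ℕ) : ℝ) ^ C1 ≤ Y1 := by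
    have b1 : ((2 * x : ℕ) : ℝ) ^ (1 / 3 : ℝ) ≤ 2 * (x : ℝ) ^ (1 / 3 : ℝ) := by
      push_cast
      rw [Real.mul_rpow (by norm_num) (by linarith)]
      gcongr
      calc (2 : ℝ) ^ (1 / 3 : ℝ) ≤ 2 ^ (1 : ℝ) := Real.rpow_le_rpow_of_exponent_le (by norm_num) (by norm_num)
        _ = 2 := by norm_num
    have b2 : Real.log ((2 * x : ℕ) : ℝ) ^ C1 ≤ (2 * L) ^ C1 := by
      gcongr
    calc _ ≤ (2 * (x : ℝ) ^ (1 / 3 : ℝ)) * (2 * L) ^ C1 := by gcongr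
      _ = (x : ℝ) ^ (1 / 3 : ℝ) * (L ^ C1 * 2 ^ (C1 + 2)) / 2 := by ring
      _ ≤ (x : ℝ) ^ (1 / 3 : ℝ) * (L ^ C1 * (L * L)) / 2 := by
          gcongr
          nlinarith
      _ = (x : ℝ) ^ (1 / 3 : ℝ) * L ^ (C1 + 2) / 2 := by ring
      _ ≤ Y1 := hY1lo
  have hY1lo1 : (x : ℝ) ^ (1 / 3 : ℝ) * L ^ C1 ≤ Y1 := by
    refine le_trans ?_ hY1lo2
    gcongr
    push_cast
    linarith
  have hY1one : (1 : ℝ) ≤ Y1 := by
    refine le_trans ?_ hY1lo1
    calc (1 : ℝ) = 1 * 1 := by norm_num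
      _ ≤ _ := by
          gcongr
          exact one_le_pow₀ hL1
  have hY1one' : 1 ≤ Y1 := by exact_mod_cast hY1one
  have hY1YR : (Y1 : ℝ) ≤ Y := hY1up.trans (div_le_self (by positivity) (one_le_pow₀ hL1))
  have hY1Y : Y1 ≤ Y := by exact_mod_cast hY1YR
  -- the rational point
  obtain ⟨a', k, hak⟩ : ∃ (a' : ℕ) (k : ℤ), a = (a' : ℤ) + k * q := by
    have hq0 : (q : ℤ) ≠ 0 := by exact_mod_cast (by omega : q ≠ 0)
    refine ⟨(a % (q : ℤ)).toNat, a / (q : ℤ), ?_⟩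
    rw [Int.toNat_of_nonneg (Int.emod_nonneg _ hq0)]
    have := Int.emod_add_mul_ediv a (q : ℤ)
    linarith
  have hqR : (0 : ℝ) < q := by exact_mod_cast hq
  have hqL' : (q : ℝ) ≤ Real.log ((2 * x : ℕ) : ℝ) ^ B := by
    refine hqB.trans ?_
    gcongr
  have hee : ∀ n : ℕ, ee (n * ((a : ℝ) / q)) = Pool.Agent.H469R2.NK.e ((a' : ℝ) * n / q) := by
    intro n
    rw [e_eq_ee]
    have : (n : ℝ) * ((a : ℝ) / q) = (a' : ℝ) * n / q + ((n * k : ℤ) : ℝ) := by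
      rw [hak]
      push_cast
      field_simp
    rw [this, ee_add, ee_int, mul_one]
  have hW1 : ∀ j : ℕ, W mob ((a : ℝ) / q) j Y1 =
      ∑ n ∈ Ioc j (j + Y1), ((ArithmeticFunction.moebius n : ℤ) : ℂ) * Pool.Agent.H469R2.NK.e ((a' : ℝ) * n / q) := by
    intro j
    unfold W mob
    exact sum_congr rfl fun n _ => by rw [hee]; push_cast; rfl
  have c5 : ∑ j ∈ Ioc x (4 * x), ‖W mob ((a : ℝ) / q) j Y1‖ ^ 2 ≤ 12 * (x * (Y1 : ℝ) ^ 2 / L ^ (U + 2)) := by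
    have d1 := (a1 q hq hqB a' Y1 hY1lo1 (hY1Y.trans hYx)).2
    have d2 := (a1' q hq hqL' a' Y1 hY1lo2 ((hY1Y.trans hYx).trans (by omega))).2
    simp only [← hW1] at d1 d2
    have d3 := Finset.sum_Ioc_consecutive (fun j => ‖W mob ((a : ℝ) / q) j Y1‖ ^ 2)
      (show x ≤ 2 * x by omega) (show 2 * x ≤ 2 * (2 * x) by omega)
    have d4 : (2 * (2 * x)) = 4 * x := by ring
    rw [d4] at d3 d2
    rw [← d3]
    have d5 : ((2 * x : ℕ) : ℝ) * (Y1 : ℝ) ^ 2 / Real.log ((2 * x : ℕ) : ℝ) ^ (U + 2) ≤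
        2 * (x * (Y1 : ℝ) ^ 2 / L ^ (U + 2)) := by
      have : ((2 * x : ℕ) : ℝ) * (Y1 : ℝ) ^ 2 / Real.log ((2 * x : ℕ) : ℝ) ^ (U + 2) ≤
          ((2 * x : ℕ) : ℝ) * (Y1 : ℝ) ^ 2 / L ^ (U + 2) := by
        gcongr
      refine this.trans (le_of_eq ?_)
      push_cast
      ring
    have d6 : 0 ≤ x * (Y1 : ℝ) ^ 2 / L ^ (U + 2) := by positivity
    linarith
  -- the bound of the coefficients
  have hG : ∀ n, x < n → n ≤ 4 * x → |mob n| ≤ 3 * L := fun n _ _ => (mob_abs n).trans (by linarith)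
  have hMS := ms_short mob ((a : ℝ) / q) (α - a / q) x Y Y1
    hY1one' hY1Y hYx (3 * L) (by linarith) hG
  rw [add_sub_cancel] at hMS
  refine hMS.trans ?_
  have hYpos : (0 : ℝ) < Y := by linarith
  have e1 : 2 * ((Y : ℝ) ^ 2 / (Y1 : ℝ) ^ 2) * (∑ j ∈ Ioc x (4 * x),
      ‖W mob ((a : ℝ) / q) j Y1‖ ^ 2) ≤
      24 * (x * (Y : ℝ) ^ 2 / L ^ (U + 2)) := by
    calc _ ≤ 2 * ((Y : ℝ) ^ 2 / (Y1 : ℝ) ^ 2) * (12 * (x * (Y1 : ℝ) ^ 2 / L ^ (U + 2))) := by gcongr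
      _ = 24 * (x * (Y : ℝ) ^ 2 / L ^ (U + 2)) := by
          have : (Y1 : ℝ) ≠ 0 := by linarith
          field_simp
          ring
  have e2 : Y * (3 * L * (2 * Real.pi * (Y1 * |α - a / q|))) + 2 * Y1 * (3 * L) ≤ 25 * (Y / L ^ (U + 3)) := by
    have f1 : Y * (3 * L * (2 * Real.pi * (Y1 * |α - a / q|))) ≤ 19 * (Y1 * (L * L ^ B)) := by
      have g1 : (Y : ℝ) * |α - a / q| ≤ L ^ B := by
        rw [le_div_iff₀ hYpos] at hα
        linarith
      calc Y * (3 * L * (2 * Real.pi * (Y1 * |α - a / q|))) =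
          (6 * Real.pi) * (Y1 * (L * (Y * |α - a / q|))) := by ring
        _ ≤ 19 * (Y1 * (L * L ^ B)) := by
            gcongr
            nlinarith [Real.pi_lt_d2]
    have f2 : 2 * Y1 * (3 * L) ≤ 6 * (Y1 * (L * L ^ B)) := by
      have : L * 1 ≤ L * L ^ B := by
        gcongr
        exact one_le_pow₀ hL1
      nlinarith
    have f3 : (Y1 : ℝ) * (L * L ^ B) ≤ Y / L ^ (U + 3) := by
      calc (Y1 : ℝ) * (L * L ^ B) ≤ Y / L ^ (B + U + 4) * (L * L ^ B) := by gcongr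
        _ = Y / L ^ (U + 3) := by
            field_simp
            ring
    linarith
  have e3 : 0 ≤ Y * (3 * L * (2 * Real.pi * (Y1 * |α - a / q|))) + 2 * Y1 * (3 * L) := by positivity
  have e4 : 2 * (x : ℝ) * (Y * (3 * L * (2 * Real.pi * (Y1 * |α - a / q|))) + 2 * Y1 * (3 * L)) ^ 2 ≤
      x * (Y : ℝ) ^ 2 / L ^ U / 2 := by
    calc _ ≤ 2 * (x : ℝ) * (25 * (Y / L ^ (U + 3))) ^ 2 := by gcongr
      _ = x * (Y : ℝ) ^ 2 / L ^ U / 2 * (2500 / L ^ (U + 6)) := by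
          field_simp
          ring
      _ ≤ x * (Y : ℝ) ^ 2 / L ^ U / 2 * 1 := by
          gcongr
          rw [div_le_one (by positivity)]
          calc (2500 : ℝ) ≤ L ^ 2 := by nlinarith
            _ ≤ L ^ (U + 6) := pow_le_pow_right₀ hL1 (by omega)
      _ = _ := by ring
  have e5 : 24 * (x * (Y : ℝ) ^ 2 / L ^ (U + 2)) ≤ x * (Y : ℝ) ^ 2 / L ^ U / 2 := by
    calc 24 * (x * (Y : ℝ) ^ 2 / L ^ (U + 2)) = x * (Y : ℝ) ^ 2 / L ^ U / 2 * (48 / L ^ 2) := by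
          field_simp
          ring
      _ ≤ x * (Y : ℝ) ^ 2 / L ^ U / 2 * 1 := by
          gcongr
          rw [div_le_one (by positivity)]
          nlinarith
      _ = _ := by ring
  have e6 : x * (Y : ℝ) ^ 2 / L ^ U / 2 + x * (Y : ℝ) ^ 2 / L ^ U / 2 = x * (Y : ℝ) ^ 2 / L ^ U := by ring
  linarith


theorem allm (hM : S_MINm) : S_ALLg mob := by
  intro U
  obtain ⟨B1, hB1⟩ : ∃ B1 : ℕ, B1 = 0 := ⟨_, rfl⟩
  obtain ⟨B2, C2, X2, hM2⟩ := hM U
  obtain ⟨C3, X3, h3⟩ := majm (B1 + B2 + 1 + 1) U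
  refine ⟨C2 + C3 + (B1 + B2 + 1) + 1, X2 + X3 + ⌈Real.exp 4⌉₊, fun x hx Y hY1 hY2 α => ?_⟩
  have hx2 : X2 ≤ x := by omega
  have hx3 : X3 ≤ x := by omega
  have hx4 : Real.exp 4 ≤ x := by
    have : ⌈Real.exp 4⌉₊ ≤ x := by omega
    exact (Nat.le_ceil _).trans (by exact_mod_cast this)
  set L := Real.log x with hLdef
  set B := B1 + B2 + 1 with hB
  set C := C2 + C3 + B + 1 with hC
  have hx0 : (0 : ℝ) < x := lt_of_lt_of_le (Real.exp_pos _) hx4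
  have hx11 : (1 : ℝ) ≤ x := le_trans (by
    have := Real.add_one_le_exp (4 : ℝ)
    linarith) hx4
  have hL4 : 4 ≤ L := by
    rw [hLdef, Real.le_log_iff_exp_le hx0]
    exact hx4
  have hL1 : 1 ≤ L := by linarith
  have hL0 : 0 < L := by linarith
  have hpow : ∀ {i j : ℕ}, i ≤ j → L ^ i ≤ L ^ j := fun h => pow_le_pow_right₀ hL1 h
  have hx13 : (1 : ℝ) ≤ (x : ℝ) ^ (1 / 3 : ℝ) := Real.one_le_rpow hx11 (by norm_num)
  have hYC : L ^ C ≤ Y := by
    refine le_trans ?_ hY1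
    exact le_mul_of_one_le_left (by positivity) hx13
  have hY0 : (0 : ℝ) < Y := lt_of_lt_of_le (by positivity) hYC
  have hYx : (Y : ℝ) ≤ x := le_trans (le_mul_of_one_le_right hY0.le (one_le_pow₀ hL1)) hY2
  have hYxN : Y ≤ x := by exact_mod_cast hYx
  have hLB0 : 0 < L ^ B := by positivity
  set Q := ⌊(Y : ℝ) / L ^ B⌋₊ with hQ
  have hQ1 : (Q : ℝ) ≤ Y / L ^ B := Nat.floor_le (by positivity)
  have hQ2 : (Y : ℝ) / L ^ B < Q + 1 := Nat.lt_floor_add_one _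
  have hQpos : 0 < Q := by
    rw [hQ, Nat.floor_pos]
    rw [le_div_iff₀ hLB0, one_mul]
    exact (hpow (by omega)).trans hYC
  obtain ⟨r, hr1, hr2⟩ := Real.exists_rat_abs_sub_le_and_den_le α hQpos
  have hq1 : 1 ≤ r.den := r.pos
  have hq1' : (1 : ℝ) ≤ r.den := by exact_mod_cast hq1
  have hq0 : (0 : ℝ) < r.den := by linarith
  have hr2' : (r.den : ℝ) ≤ Q := by exact_mod_cast hr2
  have hrc : ((r : ℚ) : ℝ) = (r.num : ℝ) / (r.den : ℝ) := by
    rw [Rat.cast_def]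
  rw [hrc] at hr1
  have hcop : IsCoprime r.num (r.den : ℤ) := by
    rw [Int.isCoprime_iff_gcd_eq_one]
    exact r.reduced
  have hApp : App α r.num r.den := by
    refine ⟨hq1, hcop, hr1.trans ?_⟩
    apply one_div_le_one_div_of_le (by positivity)
    nlinarith
  have hQY : (Q : ℝ) * L ^ B ≤ Y := by
    rw [← le_div_iff₀ hLB0]
    exact hQ1
  have hr3 : |α - (r.num : ℝ) / (r.den : ℝ)| ≤ L ^ (B + 1) / Y := by
    refine hr1.trans ?_
    rw [div_le_div_iff₀ (by positivity) hY0, one_mul]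
    have h5 : (Y : ℝ) ≤ (Q + 1) * L ^ B := by
      have := hQ2.le
      rwa [div_le_iff₀ hLB0] at this
    calc (Y : ℝ) ≤ (Q + 1) * L ^ B := h5
      _ ≤ (Q + 1) * L ^ B * (L * r.den) := by
          have h7 : (1 : ℝ) ≤ L * r.den := by nlinarith
          exact le_mul_of_one_le_right (by positivity) h7
      _ = L ^ (B + 1) * ((Q + 1) * r.den) := by
          rw [pow_succ L B]
          ring
  rcases le_or_gt (L ^ B) (r.den : ℝ) with hcase | hcase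
  · -- minor arcs
    exact hM2 x hx2 α r.num r.den hApp Y (le_trans (by
          have : L ^ C2 ≤ L ^ C := hpow (by omega)
          gcongr) hY1) (le_trans (by
          have : L ^ C2 ≤ L ^ C := hpow (by omega)
          gcongr) hY2)
        ((hpow (by omega)).trans hcase)
        (le_trans (by
          have : L ^ B2 ≤ L ^ B := hpow (by omega)
          gcongr) hQY)
  · -- major arcs
    refine h3 x hx3 r.den hq1 (hcase.le.trans (hpow (by omega))) Y ?_ ?_ r.num α hr3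
    · refine le_trans ?_ hY1
      have : L ^ C3 ≤ L ^ C := hpow (by omega)
      gcongr
    · refine le_trans ?_ hY2
      have : L ^ C3 ≤ L ^ C := hpow (by omega)
      gcongr

end Pool.Agent.Run7.h794.MK
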