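import Mathlib
import Pool.Agent.Run7.h788.MK.Min
import Pool.Agent.Run7.h794.MK.MajM

/-! Project MKM (helper794): the Moebius function on the minor arcs; adapted from Run7/h788/MK (helper788). -/

set_option autoImplicit false

namespace Pool.Agent.Run7.h794.MK

open Finset
open Pool.Agent.H807R2.Dav
open Pool.Agent.Run7.h788.MK
open scoped ArithmeticFunction

theorem identm {A : Type*} [CommRing A] (m z M N R : A) (h1 : m * z = 1) (hz : z * R = 1 - z * (M + N)) :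
    m = (M ^ 3) * z ^ 2 + (-(3 * M ^ 2)) * z + 3 * M +
      N * (3 - 3 * z * (2 * M + N) + z ^ 2 * (3 * M ^ 2 + 3 * M * N + N ^ 2)) + m * (z * R) ^ 3 := by
  rw [hz]
  linear_combination (3 * (M + N) - 3 * z * (M + N) ^ 2 + z ^ 2 * (M + N) ^ 3) * h1

section bds
variable {x : ℕ} (hx : 1 ≤ x) {M N : AF}

lemma bd_one (X : ℕ) : Bd X 1 1 (1 : AF) := by
  intro n _
  rw [pow_one, one_mul, ArithmeticFunction.one_apply]
  split_ifs with h
  · subst h; rw [ze_apply (le_refl 1)]; simp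
  · simpa using ze_nonneg n

include hx in
lemma bd_wm (hM : Bd (3 * x) 1 1 M) (hN : Bd (3 * x) 1 1 N) :
    Bd (3 * x) (19 * GG x) 5 (3 - 3 * ze * (2 * M + N) + ze ^ 2 * (3 * M ^ 2 + 3 * M * N + N ^ 2)) := by
  have hG := GG_ge hx
  have hlo := bd_one (3 * x)
  have hze := bd_ze (3 * x)
  have e3 : ((3 : ℕ) : AF) = 3 := by norm_num
  have e2 : ((2 : ℕ) : AF) = 2 := by norm_num
  have a1 : Bd (3 * x) 3 5 (3 : AF) := by
    have := Bd.smul 3 hlo
    rw [e3, mul_one, mul_one] at this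
    exact this.mono (by norm_num) (by norm_num) (by norm_num)
  have b1 : Bd (3 * x) 9 5 (3 * ze * (2 * M + N)) := by
    have c1 := Bd.smul 2 hM
    rw [e2] at c1
    have c2 := Bd.smul 3 ((c1.mono (c' := 2) (by norm_num) (by norm_num) (le_refl 1)).add hN)
    rw [e3] at c2
    have c3 := c2.mul (by norm_num) hze
    have e : 3 * ze * (2 * M + N) = 3 * (2 * M + N) * ze := by ring
    rw [e]
    exact c3.mono (by norm_num) (by norm_num) (by norm_num)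
  have d1 : Bd (3 * x) 7 5 (ze ^ 2 * (3 * M ^ 2 + 3 * M * N + N ^ 2)) := by
    have c1 := Bd.smul 3 (hM.pow 2)
    rw [e3] at c1
    have c2 := (Bd.smul 3 hM).mul (by norm_num) hN
    rw [e3] at c2
    have c3 := hN.pow 2
    have c4 := ((c1.mono (c' := 3) (k' := 2) (by norm_num) (by norm_num) (by norm_num)).add
      (c2.mono (c' := 3) (k' := 2) (by norm_num) (by norm_num) (by norm_num))).add
      (c3.mono (c' := 1) (k' := 2) (by norm_num) (by norm_num) (by norm_num))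
    have c5 := c4.mul (by norm_num) (hze.pow 2)
    have e : ze ^ 2 * (3 * M ^ 2 + 3 * M * N + N ^ 2) = (3 * M ^ 2 + 3 * M * N + N ^ 2) * ze ^ 2 := by ring
    rw [e]
    exact c5.mono (by norm_num) (by norm_num) (by norm_num)
  exact ((a1.sub b1).add d1).mono (by norm_num) (by linarith) (le_refl _)

include hx in
lemma bd_Am1 (hM : Bd (3 * x) 1 1 M) : Bd (3 * x) (5 * GG x) 5 (M ^ 3) := by
  have hG := GG_ge hx
  exact (hM.pow 3).mono (by norm_num) (by linarith) (by norm_num)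

include hx in
lemma bd_Am2 (hM : Bd (3 * x) 1 1 M) : Bd (3 * x) (5 * GG x) 5 (-(3 * M ^ 2)) := by
  have hG := GG_ge hx
  have e3 : ((3 : ℕ) : AF) = 3 := by norm_num
  have c2 := Bd.smul 3 (hM.pow 2)
  rw [e3] at c2
  exact c2.neg.mono (by norm_num) (by norm_num; linarith) (by norm_num)

end bds

lemma sup_Am1 {P : ℕ} (hP : 1 ≤ P) {M : AF} (hM : Sup M P) : Sup (M ^ 3) (P ^ 6) :=
  (hM.pow 3).mono (Nat.pow_le_pow_right hP (by norm_num))

lemma sup_Am2 {P : ℕ} (hP : 1 ≤ P) {M : AF} (hM : Sup M P) : Sup (-(3 * M ^ 2)) (P ^ 6) := by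
  have e3 : ((3 : ℕ) : AF) = 3 := by norm_num
  have c2 := sup_nat 3 (hM.pow 2)
  rw [e3] at c2
  exact (c2.mono (Nat.pow_le_pow_right hP (by norm_num))).neg

lemma sup_Am3 {P : ℕ} {M : AF} (hM : Sup M P) : Sup (3 * M) P := by
  have e3 : ((3 : ℕ) : AF) = 3 := by norm_num
  have c2 := sup_nat 3 hM
  rw [e3] at c2
  exact c2

lemma van_m {z : ℕ} {m R : AF} (hR : Van R (z + 1)) : Van (m * (ze * R) ^ 3) ((z + 1) ^ 3) := by
  have h1 : Van (ze * R) (1 * (z + 1)) := (Van.one ze).mul hR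
  have h2 := (Van.one m).mul ((h1.mul h1).mul h1)
  have e : m * (ze * R) ^ 3 = m * ((ze * R) * (ze * R) * (ze * R)) := by ring
  rw [e]
  have e2 : (z + 1) ^ 3 = 1 * ((1 * (z + 1)) * (1 * (z + 1)) * (1 * (z + 1))) := by ring
  rw [e2]
  exact h2

lemma ms_three (F : Fin 3 → ℕ → ℝ) {f : ℕ → ℝ} {α : ℝ} {x Y : ℕ} {K : ℝ} (hY : Y ≤ x)
    (hf : ∀ n, 1 ≤ n → x < n → n ≤ 3 * x → f n = ∑ i, F i n) (h : ∀ i, MS (F i) α x Y ≤ K) :
    MS f α x Y ≤ 9 * K := by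
  have e : ∀ n, x < n → n ≤ 2 * x + Y → f n = ∑ i ∈ (univ : Finset (Fin 3)), 1 * F i n := by
    intro n h1 h2
    rw [hf n (by omega) h1 (by omega)]
    simp
  rw [MS_congr α e]
  refine (MS_wsum univ (fun _ => (1 : ℝ)) F α x Y (fun i _ => h i)).trans (le_of_eq ?_)
  simp
  norm_num

lemma main_m {C₁ C₂ : ℝ} (hC₁ : 1 ≤ C₁) (hB : ∀ (α : ℝ) (a : ℤ) (q : ℕ), App α a q → ∀ x Y U : ℕ, 1 ≤ U → 1 ≤ Y → Y ≤ x →
      ∀ φ w : ℕ → ℝ,
      MS (fun n => ∑ p ∈ n.divisorsAntidiagonal, if U < p.1 ∧ p.1 ≤ 2 * U then φ p.1 * w p.2 else 0) α x Y ≤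
        C₁ * (∑ u ∈ Ioc U (2 * U), φ u ^ 2) * (∑ v ∈ Icc 1 (3 * x / U), w v ^ 2) *
          (Y * (((Y : ℝ) / (U * q) + 1) * (U + q * (1 + Real.log q)))))
    (hC₂ : 1 ≤ C₂) (hD : ∀ (α : ℝ) (a : ℤ) (q : ℕ), App α a q → ∀ x Y d J R₀ : ℕ, 1 ≤ J → 1 ≤ d → d ≤ Y →
      J * Y ≤ x → J ^ 2 * d ≤ x → 1 ≤ R₀ → 2 * R₀ ≤ q →
      MS (tau d) α x Y ≤ C₂ * x * (1 + Real.log x) ^ 2 *
        (J * d * (R₀ * (q : ℝ) ^ 2 + (Y : ℝ) ^ 2 / R₀ + √((d : ℝ) * x)) + (Y : ℝ) ^ 2 / J))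
    {α : ℝ} {a : ℤ} {q x P Y : ℕ} (h : Hyp α a q x P Y) :
    MS mob α x Y ≤ 81 * (K0 C₁ C₂ * GG x ^ 1031 * (x * (Y : ℝ) ^ 2 / P)) := by
  obtain ⟨z, hz3, hzx, hz⟩ := exists_z h.x1
  have hG := GG_ge h.x1
  have hG0 : 0 ≤ GG x := by linarith
  have hPz : P ≤ z := by
    by_contra hc
    have h1 : z + 1 ≤ P := by omega
    have h2 : (z + 1) ^ 3 ≤ P ^ 600 := (Nat.pow_le_pow_left h1 3).trans (Nat.pow_le_pow_right h.P1 (by norm_num))
    have h3 := h.Px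
    have h4 : z ^ 3 < (z + 1) ^ 3 := Nat.pow_lt_pow_left (by omega) (by norm_num)
    omega
  have hP6 : P ^ 6 ≤ x := (Nat.pow_le_pow_right h.P1 (by norm_num)).trans h.Px
  have hPx : P ≤ x := by
    have : P ^ 1 ≤ P ^ 6 := Nat.pow_le_pow_right h.P1 (by norm_num)
    rw [pow_one] at this
    omega
  set M := cutI mu 0 P with hMdef
  set N := cutI mu P z with hNdef
  set R := cutG mu z with hRdef
  have bM : Bd (3 * x) 1 1 M := bd_cutI (by norm_num) (bd_mu _) _ _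
  have bN : Bd (3 * x) 1 1 N := bd_cutI (by norm_num) (bd_mu _) _ _
  have sM : Sup M P := Sup.cutI _ _ _
  have hsplit : mu = M + N + R := cut_split mu hPz
  have hmz : mu * ze = 1 := by rw [mul_comm]; exact ze_mu
  have hzR : ze * R = 1 - ze * (M + N) := by
    have := ze_mu
    rw [hsplit] at this
    linear_combination this
  have key := identm mu ze M N R hmz hzR
  have oneG : ∀ d, d ≤ P ^ 6 → |(fun _ : ℕ => (1 : ℝ)) d| ≤ GG x := by
    intro d _; simpa using hG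
  have hT0 : 0 ≤ (x : ℝ) * (Y : ℝ) ^ 2 / P := by positivity
  have hK0 : 0 ≤ K0 C₁ C₂ := by unfold K0; linarith
  have up1 : ∀ A : ℝ, A ≤ 25 * (8 * C₂ + 14) * GG x ^ 8 * (x * (Y : ℝ) ^ 2 / P) →
      A ≤ K0 C₁ C₂ * GG x ^ 1031 * (x * (Y : ℝ) ^ 2 / P) := by
    intro A hA
    refine hA.trans (mul_le_mul_of_nonneg_right ?_ hT0)
    have e1 : 25 * (8 * C₂ + 14) ≤ K0 C₁ C₂ := by unfold K0; linarith
    exact mul_le_mul e1 (pow_le_pow_right₀ hG (by norm_num)) (pow_nonneg hG0 _) hK0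
  have up2 : ∀ A : ℝ, A ≤ 58482 * C₁ * GG x ^ 1031 * (x * (Y : ℝ) ^ 2 / P) →
      A ≤ K0 C₁ C₂ * GG x ^ 1031 * (x * (Y : ℝ) ^ 2 / P) := by
    intro A hA
    refine hA.trans (mul_le_mul_of_nonneg_right ?_ hT0)
    have e1 : 58482 * C₁ ≤ K0 C₁ C₂ := by unfold K0; linarith
    exact mul_le_mul_of_nonneg_right e1 (pow_nonneg hG0 _)
  set A1 : AF := M ^ 3 with hA1
  set A2 : AF := -(3 * M ^ 2) with hA2
  have bA1 : Bd (3 * x) (5 * GG x) 5 A1 := bd_Am1 h.x1 bM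
  have bA2 : Bd (3 * x) (5 * GG x) 5 A2 := bd_Am2 h.x1 bM
  have f0 := up1 _ (typeI hC₂ h bA1 (fun _ => 1) oneG tau (fun d h1 h2 => tt1 hC₂ hD h h1 h2))
  have f1 := up1 _ (typeI hC₂ h bA2 (fun _ => 1) oneG one (fun d h1 h2 => tt3 hC₂ h h1 h2))
  have n0 : ∀ n, ¬ (P < n ∧ n ≤ z) → N n = 0 := fun n hn => by rw [hNdef, cutI_apply, if_neg hn]
  have nG : ∀ n, |N n| ≤ GG x := by
    intro n
    rw [hNdef, cutI_apply]
    split_ifs
    · exact (mu_abs n).trans hG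
    · rw [abs_zero]; exact hG0
  have f2 := up2 _ (typeII hC₁ hB h hz hzx N _ n0 nG (bd_wm h.x1 bM bN))
  have h9 : MS mob α x Y ≤ 9 * (K0 C₁ C₂ * GG x ^ 1031 * (x * (Y : ℝ) ^ 2 / P)) := by
    refine ms_three ![fun n => ∑ d ∈ Icc 1 (P ^ 6), A1 d * 1 * tau d n,
      fun n => ∑ d ∈ Icc 1 (P ^ 6), A2 d * 1 * one d n,
      fun n => (N * (3 - 3 * ze * (2 * M + N) + ze ^ 2 * (3 * M ^ 2 + 3 * M * N + N ^ 2)) : AF) n] h.Yx ?_ ?_
    · intro n hn hxn hn3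
      have e0 : mob n = mu n := rfl
      have hlast : (mu * (ze * R) ^ 3) n = 0 :=
        van_m (Van.cutG mu z) n (by
          have h4 : z ^ 3 < (z + 1) ^ 3 := Nat.pow_lt_pow_left (by omega) (by norm_num)
          omega)
      have h5 : (3 * M) n = 0 := sup_Am3 sM n (by omega)
      rw [e0, key]
      simp only [ArithmeticFunction.add_apply]
      rw [c_tau A1 (sup_Am1 h.P1 sM) hn, c_one A2 (sup_Am2 h.P1 sM) hn, h5, hlast]
      simp [Fin.sum_univ_succ]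
      ring
    · intro i
      fin_cases i
      · exact f0
      · exact f1
      · exact f2
  have h10 : 0 ≤ K0 C₁ C₂ * GG x ^ 1031 * (x * (Y : ℝ) ^ 2 / P) :=
    mul_nonneg (mul_nonneg hK0 (pow_nonneg hG0 _)) hT0
  linarith

/-- the trivial bound -/
lemma trivm {α : ℝ} {x Y : ℕ} (hx : 1 ≤ x) :
    MS mob α x Y ≤ GG x ^ 2 * (x * (Y : ℝ) ^ 2) := by
  unfold MS
  have hG := GG_ge hx
  have h1 : ∀ m ∈ Ioc x (2 * x), ‖W mob α m Y‖ ^ 2 ≤ (Y * GG x) ^ 2 := by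
    intro m hm
    rw [mem_Ioc] at hm
    apply pow_le_pow_left₀ (norm_nonneg _)
    unfold W
    refine (norm_sum_le _ _).trans ?_
    calc ∑ n ∈ Ioc m (m + Y), ‖((mob n : ℝ) : ℂ) * ee (n * α)‖ ≤ ∑ n ∈ Ioc m (m + Y), GG x := by
          apply sum_le_sum
          intro n hn
          rw [norm_mul, norm_ee, mul_one, Complex.norm_real, Real.norm_eq_abs]
          exact (mob_abs n).trans hG
      _ = Y * GG x := by
          rw [sum_const, Nat.card_Ioc, nsmul_eq_mul]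
          congr 2
          omega
  refine (sum_le_sum h1).trans (le_of_eq ?_)
  rw [sum_const, Nat.card_Ioc, nsmul_eq_mul]
  have : 2 * x - x = x := by omega
  rw [this]
  ring

/-- **MINP** -/
theorem minpm (hBIL : S_BIL) (hD2 : S_D2) : S_MINPm := by
  obtain ⟨C₁, hC₁, hB⟩ := hBIL
  obtain ⟨C₂, hC₂, hD⟩ := hD2
  have hK0 : 1 ≤ K0 C₁ C₂ := by unfold K0; linarith
  obtain ⟨X₀, hX1, hX⟩ := absorb (81 * K0 C₁ C₂) 1031 (by linarith)
  refine ⟨1032, X₀, ?_⟩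
  intro x hx α a q hα P Y hP h1 h2 h3 h4
  have hx1 : 1 ≤ x := hX1.trans hx
  have hG := GG_ge hx1
  have hG0 : 0 ≤ GG x := by linarith
  have hb := hX x hx
  have hT0 : 0 ≤ (x : ℝ) * (Y : ℝ) ^ 2 / P := by positivity
  have hmain : MS mob α x Y ≤
      81 * (K0 C₁ C₂ * GG x ^ 1031 * (x * (Y : ℝ) ^ 2 / P)) := by
    rcases Nat.lt_or_ge P 2 with hP2 | hP2
    · have hP1 : P = 1 := by omega
      subst hP1
      refine (trivm hx1).trans ?_
      rw [Nat.cast_one, div_one]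
      have hT1 : 0 ≤ (x : ℝ) * (Y : ℝ) ^ 2 := by positivity
      have e1 : GG x ^ 2 ≤ GG x ^ 1031 := pow_le_pow_right₀ hG (by norm_num)
      have e2 : 0 ≤ GG x ^ 1031 := pow_nonneg hG0 _
      have e3 : GG x ^ 2 ≤ (81 * K0 C₁ C₂) * GG x ^ 1031 := by
        calc GG x ^ 2 ≤ GG x ^ 1031 := e1
          _ = 1 * GG x ^ 1031 := (one_mul _).symm
          _ ≤ (81 * K0 C₁ C₂) * GG x ^ 1031 := mul_le_mul_of_nonneg_right (by linarith) e2
      have e4 : 81 * (K0 C₁ C₂ * GG x ^ 1031 * ((x : ℝ) * (Y : ℝ) ^ 2)) =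
          (81 * K0 C₁ C₂ * GG x ^ 1031) * ((x : ℝ) * (Y : ℝ) ^ 2) := by
        generalize GG x ^ 1031 = T
        ring
      rw [e4]
      exact mul_le_mul_of_nonneg_right e3 hT1
    · exact main_m hC₁ hB hC₂ hD ⟨hα, hP2, hx1, h1, h2, h3, h4⟩
  refine hmain.trans ?_
  calc 81 * (K0 C₁ C₂ * GG x ^ 1031 * (x * (Y : ℝ) ^ 2 / P)) = (81 * K0 C₁ C₂ * GG x ^ 1031) * (x * (Y : ℝ) ^ 2 / P) := by
        generalize GG x ^ 1031 = T
        ring
    _ ≤ Real.log x ^ (1031 + 1) * (x * (Y : ℝ) ^ 2 / P) := mul_le_mul_of_nonneg_right hb hT0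
    _ = _ := by
        generalize Real.log x ^ (1031 + 1) = T
        ring

/-- **MIN** -/
theorem minm_of (h : S_MINPm) : S_MINm := by
  obtain ⟨c, X₀, hP⟩ := h
  intro U
  refine ⟨300 * (U + c + 2), 300 * (U + c + 2), max X₀ 9, ?_⟩
  intro x hx α a q hα Y h1 h2 h3 h4
  have hx9 : 9 ≤ x := (le_max_right _ _).trans hx
  have hx9' : (9 : ℝ) ≤ x := by exact_mod_cast hx9
  set L := Real.log x with hL
  have hL2 : 2 ≤ L := by
    have h5 : 2 * Real.log 3 ≤ L := by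
      have : 2 * Real.log 3 = Real.log 9 := by
        rw [show (9 : ℝ) = 3 ^ 2 by norm_num, Real.log_pow]; norm_num
      rw [this]
      exact Real.log_le_log (by norm_num) hx9'
    have h6 : 1 ≤ Real.log 3 := by
      rw [← Real.log_exp 1]
      apply Real.log_le_log (Real.exp_pos _)
      have := Real.exp_one_lt_d9
      linarith
    linarith
  have hL0 : 0 < L := by linarith
  set P := ⌈L ^ (U + c + 1)⌉₊ with hPdef
  have hPge : L ^ (U + c + 1) ≤ P := Nat.le_ceil _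
  have hL1 : 1 ≤ L ^ (U + c + 1) := one_le_pow₀ (by linarith)
  have hPle : (P : ℝ) ≤ L ^ (U + c + 2) := by
    have := (Nat.ceil_lt_add_one (show 0 ≤ L ^ (U + c + 1) by positivity)).le
    calc (P : ℝ) ≤ L ^ (U + c + 1) + 1 := this
      _ ≤ 2 * L ^ (U + c + 1) := by linarith
      _ ≤ L * L ^ (U + c + 1) := mul_le_mul_of_nonneg_right hL2 (by positivity)
      _ = _ := by ring
  have hP1 : 1 ≤ P := by
    have : (1 : ℝ) ≤ P := hL1.trans hPge
    exact_mod_cast this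
  have hP300 : (P : ℝ) ^ 300 ≤ L ^ (300 * (U + c + 2)) := by
    rw [mul_comm 300, pow_mul]
    exact pow_le_pow_left₀ (Nat.cast_nonneg _) hPle 300
  have hY0 : (0 : ℝ) ≤ Y := Nat.cast_nonneg _
  have hq0 : (0 : ℝ) ≤ q := Nat.cast_nonneg _
  have g1 : (x : ℝ) ^ (1 / 3 : ℝ) * (P : ℝ) ^ 300 ≤ Y :=
    (mul_le_mul_of_nonneg_left hP300 (by positivity)).trans h1
  have g2 : Y * P ^ 300 ≤ x := by
    have : (Y : ℝ) * (P : ℝ) ^ 300 ≤ x := (mul_le_mul_of_nonneg_left hP300 hY0).trans h2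
    exact_mod_cast this
  have g3 : P ^ 300 ≤ q := by
    have : (P : ℝ) ^ 300 ≤ q := hP300.trans h3
    exact_mod_cast this
  have g4 : q * P ^ 300 ≤ Y := by
    have : (q : ℝ) * (P : ℝ) ^ 300 ≤ Y := (mul_le_mul_of_nonneg_left hP300 hq0).trans h4
    exact_mod_cast this
  refine (hP x ((le_max_left _ _).trans hx) α a q hα P Y hP1 g1 g2 g3 g4).trans ?_
  have hP0 : (0 : ℝ) < P := by exact_mod_cast hP1
  rw [div_le_div_iff₀ hP0 (by positivity)]
  have hxY : 0 ≤ (x : ℝ) * (Y : ℝ) ^ 2 := by positivity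
  have e1 : L ^ c * L ^ U ≤ P := by
    refine le_trans ?_ hPge
    rw [← pow_add]
    exact pow_le_pow_right₀ (by linarith) (by omega)
  calc (x : ℝ) * (Y : ℝ) ^ 2 * L ^ c * L ^ U = (x * (Y : ℝ) ^ 2) * (L ^ c * L ^ U) := by ring
    _ ≤ (x * (Y : ℝ) ^ 2) * P := mul_le_mul_of_nonneg_left e1 hxY

theorem minm : S_MINm := minm_of (minpm Run7.h284.MK.bil (Pool.Agent.Run7.h880.MK.t_D2 Pool.Agent.Run7.h788.MK.ti))

/-- **ALL** for the Moebius function -/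
theorem all_mob : S_ALLg mob := allm minm

end Pool.Agent.Run7.h794.MK
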