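import Mathlib
import Pool.Agent.Run7.h794.MK.MinM
import Pool.Agent.Run7.h794.MK.GenArc
import Pool.Agent.Run7.h794.MK.GenLaw
import Pool.Agent.Run7.h794.MK.GenT31

/-! Project MKM (helper794) put together for the Moebius function. -/

set_option autoImplicit false

namespace Pool.Agent.Run7.h794.MK

theorem arc_mob : S_ARCg mob := arcg mob_abs all_mob

theorem law_mob : S_LAWg mob := lawg mob_abs arc_mob

theorem t31_mob : S_T31Gg mob := t31g mob_abs arc_mob

end Pool.Agent.Run7.h794.MK
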