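import Mathlib
import Pool.Agent.Run7.h794.MK.Stm4
import Pool.Agent.Run7.h364.MK.One

/-! Project MKM (helper794): the one-shift law for short flat distributions and bounded functions, uniformly in the dilation
and in the centre. -/

set_option autoImplicit false

namespace Pool.Agent.Run7.h794.MK

open Finset Filter
open Pool.Agent.H807R2.Dav (ee norm_ee ee_add)
open Pool.Agent.N384.MQ (Sm ev_log_ge)
open Pool.Agent.Run7.h27.MK (gI)
open Pool.Agent.Run7.h364.MK (Gam Gam_card far charf)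

lemma logN_le {N K : ℕ} (hN : 1 ≤ N) (hK : 1 ≤ K) {L : ℝ} (hL : L = Real.log (N : ℝ)) {T : ℕ} (hKT : (K : ℝ) ≤ L ^ (T + 1))
    (hT : (T + 1 : ℝ) * Real.log L ≤ L) : L ≤ Real.log ((N * K : ℕ) : ℝ) ∧ Real.log ((N * K : ℕ) : ℝ) ≤ 2 * L := by
  have hN0 : (0 : ℝ) < N := by exact_mod_cast hN
  have hK0 : (0 : ℝ) < K := by exact_mod_cast hK
  push_cast
  rw [Real.log_mul hN0.ne' hK0.ne', ← hL]
  have h1 : 0 ≤ Real.log (K : ℝ) := Real.log_natCast_nonneg K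
  have h2 : Real.log (K : ℝ) ≤ L := by
    refine (Real.log_le_log hK0 hKT).trans ?_
    rw [Real.log_pow]
    push_cast
    exact hT
  constructor <;> linarith

/-- the common numerics -/
lemma ev_oneg (T V C Bq : ℕ) : ∃ N₀ : ℕ, ∀ N : ℕ, N₀ ≤ N → 100 ≤ Real.log N ∧ (2 : ℝ) ^ V ≤ Real.log N ∧
    (2 : ℝ) ^ C ≤ Real.log N ∧ 2 * ((Bq : ℝ) + 1) ≤ Real.log N ∧ (T + 1 : ℝ) * Real.log (Real.log N) ≤ Real.log N := by
  have h1 := (Real.isLittleO_log_id_atTop.bound (show (0 : ℝ) < 1 / (T + 2) by positivity))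
  have h2 := (Real.tendsto_log_atTop.comp (tendsto_natCast_atTop_atTop (R := ℝ))).eventually h1
  obtain ⟨N₀, h⟩ := eventually_atTop.1 ((((ev_log_ge 100).and (ev_log_ge (2 ^ V))).and ((ev_log_ge (2 ^ C)).and
    (ev_log_ge (2 * ((Bq : ℝ) + 1))))).and h2)
  refine ⟨N₀, fun N hN => ?_⟩
  obtain ⟨⟨⟨a1, a2⟩, a3, a4⟩, a5⟩ := h N hN
  refine ⟨a1, a2, a3, a4, ?_⟩
  simp only [Function.comp_apply, id_eq] at a5
  rw [Real.norm_of_nonneg (Real.log_nonneg (by linarith)), Real.norm_of_nonneg (by linarith)] at a5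
  have h5 : (T + 1 : ℝ) * Real.log (Real.log N) ≤ (T + 1 : ℝ) * (1 / (T + 2) * Real.log N) :=
    mul_le_mul_of_nonneg_left a5 (by positivity)
  have h6 : (T + 1 : ℝ) * (1 / (T + 2) * Real.log N) = ((T + 1 : ℝ) / (T + 2)) * Real.log N := by ring
  have h7 : ((T + 1 : ℝ) / (T + 2)) ≤ 1 := by rw [div_le_one (by positivity)]; linarith
  rw [h6] at h5
  nlinarith

/-- **ONE** for bounded functions, uniform in the dilation and the centre -/
theorem oneg {g : ℕ → ℝ} (hlaw : S_LAWg g) (T Bq U : ℕ) : ∃ V C N₀ : ℕ, ∀ N : ℕ, N₀ ≤ N →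
    ∀ (q : ℕ) (p : ℕ → ℝ), Msh V C Bq N q p → ∀ κ : ℤ, κ ≠ 0 → (κ.natAbs : ℝ) ≤ Real.log N ^ T →
    ∀ cc : ℤ, (|cc| : ℝ) ≤ N * Real.log N ^ T → ∀ Kc : ℝ, 0 < Kc → ∀ G : ℕ → ℝ, (∀ n ∈ Icc 1 N, |G n| ≤ Kc) →
    ∑ v ∈ range q, p v * |∑ n ∈ Icc 1 N, G n * gI g ((n : ℤ) + (cc + κ * (v : ℕ)))| ≤ Kc * (N / Real.log N ^ U) := by
  obtain ⟨V₁, h1⟩ := hlaw 1 (U + T + 1)
  obtain ⟨C₁, N₁, h3⟩ := h1 T (V₁ + 2)
  obtain ⟨N₂, h4⟩ := ev_oneg T (V₁ + 3) C₁ Bq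
  refine ⟨V₁ + 3, C₁ + T + 2, N₁ + N₂ + 6, fun N hN q p hp κ hκ hκT cc hcc Kc hKc G hG => ?_⟩
  obtain ⟨hp1, hp2, hp3, hp4, hp5⟩ := hp
  obtain ⟨a1, a2, a3, a4, a5⟩ := h4 N (by omega)
  obtain ⟨L, hL⟩ : ∃ L, L = Real.log (N : ℝ) := ⟨_, rfl⟩
  rw [← hL] at a1 a2 a3 a4 a5 hp1 hp5 hκT hcc ⊢
  have hL0 : 0 < L := by linarith
  have hL1 : 1 ≤ L := by linarith
  have hN1 : 1 ≤ N := by omega
  have hN0 : (0 : ℝ) < N := by exact_mod_cast hN1
  have hq := hp5.pos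
  have hq0 : (0 : ℝ) < q := by exact_mod_cast hq
  have hBq0 : (0 : ℝ) ≤ Bq := Nat.cast_nonneg _
  have hLT : 1 ≤ L ^ T := one_le_pow₀ hL1
  obtain ⟨K, hK⟩ : ∃ K : ℕ, K = ⌈((Bq : ℝ) + 1) * L ^ T⌉₊ := ⟨_, rfl⟩
  have hK1 : ((Bq : ℝ) + 1) * L ^ T ≤ K := by rw [hK]; exact Nat.le_ceil _
  have hKB : (Bq : ℝ) + 1 ≤ K := le_trans (le_mul_of_one_le_right (by positivity) hLT) hK1
  have hKpos : 1 ≤ K := by
    have : (1 : ℝ) ≤ K := by linarith
    exact_mod_cast this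
  have hK2 : (K : ℝ) ≤ L ^ (T + 1) := by
    have h5 : (K : ℝ) ≤ ((Bq : ℝ) + 1) * L ^ T + 1 := by
      rw [hK]; exact (Nat.ceil_lt_add_one (by positivity)).le
    rw [pow_succ]
    nlinarith
  obtain ⟨hLL1, hLL2⟩ := logN_le hN1 hKpos hL hK2 a5
  obtain ⟨N', hN'⟩ : ∃ N' : ℕ, N' = N * K := ⟨_, rfl⟩
  obtain ⟨L', hL'⟩ : ∃ L', L' = Real.log (N' : ℝ) := ⟨_, rfl⟩
  rw [← hN', ← hL'] at hLL1 hLL2
  have hNN' : N ≤ N' := by rw [hN']; exact Nat.le_mul_of_pos_right _ hKpos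
  have hN'r : (N' : ℝ) = N * K := by rw [hN']; push_cast; ring
  have hN'0 : (0 : ℝ) < N' := by exact_mod_cast (by omega : 0 < N')
  have hL'0 : 0 < L' := by linarith
  have hL'1 : 1 ≤ L' := by linarith
  have hqN' : (q : ℝ) ≤ N' := by
    have h5 : (q : ℝ) ≤ Bq * N := by exact_mod_cast hp2
    rw [hN'r]
    nlinarith
  obtain ⟨M, hM⟩ : ∃ M, M = 2 * (1 + 2) * N' := ⟨_, rfl⟩
  have hM2 : M ≤ N' ^ 2 := by
    rw [hM, pow_two]
    exact Nat.mul_le_mul_right _ (by omega)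
  have hM1 : 1 ≤ M := by omega
  have hM0 : (0 : ℝ) < M := by exact_mod_cast hM1
  have hMq' : 2 ≤ (M : ℝ) / q := by
    rw [le_div_iff₀ hq0, hM]
    push_cast
    linarith
  have key := h3 N' (by omega) M (by rw [hM]) hM2 ℕ (range q) p (fun v => cc + κ * (v : ℕ))
    (fun v _ => hp3 v) hp4.le (fun v hv => by
      rw [mem_range] at hv
      have hvq : (v : ℝ) ≤ Bq * N := by
        have : v ≤ Bq * N := by omega
        exact_mod_cast this
      have h5 : (|((cc + κ * (v : ℕ) : ℤ) : ℝ)|) ≤ (N' : ℝ) := by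
        push_cast
        refine (abs_add_le _ _).trans ?_
        rw [abs_mul, abs_of_nonneg (by positivity : (0 : ℝ) ≤ (v : ℝ))]
        have h6 : |(κ : ℝ)| = κ.natAbs := by
          rw [← Int.cast_abs, Int.abs_eq_natAbs]; simp
        rw [h6]
        have h7 : (κ.natAbs : ℝ) * v ≤ L ^ T * (Bq * N) := mul_le_mul hκT hvq (by positivity) (by positivity)
        calc |(cc : ℝ)| + κ.natAbs * v ≤ N * L ^ T + L ^ T * (Bq * N) := add_le_add hcc h7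
          _ = N * (((Bq : ℝ) + 1) * L ^ T) := by ring
          _ ≤ N * K := mul_le_mul_of_nonneg_left hK1 hN0.le
          _ = N' := hN'r.symm
      have h6 : |(cc + κ * (v : ℕ) : ℤ)| ≤ (N' : ℤ) := by
        have h8 : ((|(cc + κ * (v : ℕ) : ℤ)| : ℤ) : ℝ) ≤ ((N' : ℤ) : ℝ) := by
          rw [Int.cast_abs]; exact_mod_cast h5
        exact_mod_cast h8
      push_cast
      linarith) q (by
      rw [← hL', hN'r, Real.mul_rpow hN0.le (Nat.cast_nonneg _)]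
      refine le_trans ?_ hp1
      have h5 : (K : ℝ) ^ (1 / 3 : ℝ) ≤ L ^ (T + 1) := by
        have h6 : (1 : ℝ) ≤ K := by exact_mod_cast hKpos
        calc (K : ℝ) ^ (1 / 3 : ℝ) ≤ (K : ℝ) ^ (1 : ℝ) := Real.rpow_le_rpow_of_exponent_le h6 (by norm_num)
          _ = K := Real.rpow_one _
          _ ≤ _ := hK2
      have h7 : L' ^ C₁ ≤ L * L ^ C₁ := by
        calc L' ^ C₁ ≤ (2 * L) ^ C₁ := pow_le_pow_left₀ hL'0.le hLL2 _
          _ = 2 ^ C₁ * L ^ C₁ := mul_pow _ _ _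
          _ ≤ L * L ^ C₁ := mul_le_mul_of_nonneg_right a3 (by positivity)
      calc (N : ℝ) ^ (1 / 3 : ℝ) * (K : ℝ) ^ (1 / 3 : ℝ) * L' ^ C₁ ≤
          (N : ℝ) ^ (1 / 3 : ℝ) * L ^ (T + 1) * (L * L ^ C₁) := by gcongr
        _ = (N : ℝ) ^ (1 / 3 : ℝ) * L ^ (C₁ + T + 2) := by ring) (Gam κ M) (by
      rw [← hL']
      have h5 : ((Gam κ M).card : ℝ) ≤ κ.natAbs := by exact_mod_cast Gam_card κ M
      exact h5.trans (hκT.trans (pow_le_pow_left₀ hL0.le hLL1 _))) (fun t ht => ?_) Kc hKc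
      (fun n => if n ≤ N then G n else 0) (fun n hn => by
      rw [mem_Icc] at hn
      split_ifs with h5
      · exact hG n (mem_Icc.2 ⟨hn.1, h5⟩)
      · rw [abs_zero]; exact hKc.le)
  · -- conclusion
    rw [← hL'] at key
    have e1 : ∀ y : ℤ, ∑ n ∈ Icc 1 N', (if n ≤ N then G n else 0) * gI g ((n : ℤ) + y) =
        ∑ n ∈ Icc 1 N, G n * gI g ((n : ℤ) + y) := by
      intro y
      have h5 : Icc 1 N ⊆ Icc 1 N' := Icc_subset_Icc le_rfl hNN'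
      rw [← sum_subset h5]
      · refine sum_congr rfl fun n hn => ?_
        rw [mem_Icc] at hn
        rw [if_pos hn.2]
      · intro n hn hn'
        rw [mem_Icc] at hn hn'
        rw [if_neg (by omega), zero_mul]
    simp only [e1] at key
    refine key.trans ?_
    apply mul_le_mul_of_nonneg_left _ hKc.le
    rw [div_le_div_iff₀ (by positivity) (by positivity), hN'r]
    have h5 : L ^ (U + T + 1) ≤ L' ^ (U + T + 1) := pow_le_pow_left₀ hL0.le hLL1 _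
    calc (N : ℝ) * K * L ^ U ≤ N * L ^ (T + 1) * L ^ U := by gcongr
      _ = N * L ^ (U + T + 1) := by ring
      _ ≤ N * L' ^ (U + T + 1) := mul_le_mul_of_nonneg_left h5 hN0.le
  · -- the characteristic function is small
    rw [← hL'] at ht ⊢
    have hLD : 1 ≤ L' ^ (V₁ + 2) := one_le_pow₀ hL'1
    have hR : 2 ≤ L' ^ (V₁ + 2) * ((M : ℝ) / q) := by nlinarith
    have hfar := far κ hκ M hM1 t (L' ^ (V₁ + 2) * ((M : ℝ) / q)) hR ht
    have hδ : L' ^ (V₁ + 2) * ((M : ℝ) / q) / (4 * M) = L' ^ (V₁ + 2) / (4 * q) := by field_simp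
    rw [hδ] at hfar
    refine (charf hp5 (by positivity) κ cc ((t : ℝ) / M) (L' ^ (V₁ + 2) / (4 * q)) (by positivity) hfar).trans ?_
    have e1 : 1 / (L' ^ (V₁ + 2) / (4 * q) * q) = 4 / L' ^ (V₁ + 2) := by field_simp
    rw [e1]
    have hlogq : Real.log q ≤ L' := by
      rw [hL']; exact Real.log_le_log hq0 hqN'
    have hlogq0 : 0 ≤ Real.log (q : ℝ) := Real.log_natCast_nonneg q
    have h6 : 1 / L ^ (V₁ + 3) ≤ 1 / L' ^ (V₁ + 2) := by
      rw [div_le_div_iff₀ (by positivity) (by positivity), one_mul, one_mul]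
      calc L' ^ (V₁ + 2) ≤ (2 * L) ^ (V₁ + 2) := pow_le_pow_left₀ hL'0.le hLL2 _
        _ = 2 ^ (V₁ + 2) * L ^ (V₁ + 2) := mul_pow _ _ _
        _ ≤ L * L ^ (V₁ + 2) := by
            apply mul_le_mul_of_nonneg_right _ (by positivity)
            refine le_trans ?_ a2
            exact pow_le_pow_right₀ (by norm_num) (by omega)
        _ = L ^ (V₁ + 3) := by ring
    calc 4 / L' ^ (V₁ + 2) + 1 / L ^ (V₁ + 3) * (42 + 3 * Real.log q) ≤
        4 / L' ^ (V₁ + 2) + 1 / L' ^ (V₁ + 2) * (42 + 3 * L') := by gcongr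
      _ = (46 + 3 * L') / L' ^ 2 * (1 / L' ^ V₁) := by
          rw [pow_add]
          field_simp
          ring
      _ ≤ 1 * (1 / L' ^ V₁) := by
          apply mul_le_mul_of_nonneg_right _ (by positivity)
          rw [div_le_one (by positivity)]
          nlinarith
      _ = 1 / L' ^ V₁ := one_mul _

end Pool.Agent.Run7.h794.MK
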