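import Mathlib

/-! Marginals of uniform tuples (helper794). -/

set_option autoImplicit false

namespace Pool.Agent.Run7.h794.MK

open Finset

/-- two coordinates of a uniform tuple from `s` -/
lemma pair_marg {ι : Type} [DecidableEq ι] (s : Finset ι) (m : ℕ) (l l' : Fin m) (hll : l ≠ l') (B : Finset (ι × ι)) (hB : B ⊆ s ×ˢ s) :
    (((Fintype.piFinset (fun _ : Fin m => s)).filter (fun ω => (ω l, ω l') ∈ B)).card : ℝ) * (s.card : ℝ) ^ 2 =
      (s.card : ℝ) ^ m * B.card := by
  classical
  have h1 : ((Fintype.piFinset (fun _ : Fin m => s)).filter (fun ω => (ω l, ω l') ∈ B)).card =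
      ∑ b ∈ B, ((Fintype.piFinset (fun _ : Fin m => s)).filter (fun ω => (ω l, ω l') = b)).card := by
    rw [← card_biUnion]
    · congr 1
      ext ω
      simp only [mem_filter, mem_biUnion]
      constructor
      · rintro ⟨h2, h3⟩; exact ⟨_, h3, h2, rfl⟩
      · rintro ⟨b, hb, h2, rfl⟩; exact ⟨h2, hb⟩
    · intro b _ b' _ hbb
      rw [Function.onFun, disjoint_left]
      intro ω h2 h3
      rw [mem_filter] at h2 h3
      exact hbb (h2.2.symm.trans h3.2)
  have h2 : ∀ b ∈ B, (((Fintype.piFinset (fun _ : Fin m => s)).filter (fun ω => (ω l, ω l') = b)).card : ℝ) *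
      (s.card : ℝ) ^ 2 = (s.card : ℝ) ^ m := by
    intro b hb
    have hb1 := mem_product.1 (hB hb)
    have h3 : (Fintype.piFinset (fun _ : Fin m => s)).filter (fun ω => (ω l, ω l') = b) =
        Fintype.piFinset (fun k : Fin m => if k = l then {b.1} else if k = l' then {b.2} else s) := by
      ext ω
      rw [mem_filter, Fintype.mem_piFinset, Fintype.mem_piFinset]
      constructor
      · rintro ⟨h4, h5⟩ k
        split_ifs with h6 h7
        · rw [h6, mem_singleton, ← h5]
        · rw [h7, mem_singleton, ← h5]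
        · exact h4 k
      · intro h4
        have h5 := h4 l
        have h6 := h4 l'
        rw [if_pos rfl, mem_singleton] at h5
        rw [if_neg (Ne.symm hll), if_pos rfl, mem_singleton] at h6
        refine ⟨fun k => ?_, Prod.ext h5 h6⟩
        by_cases h7 : k = l
        · rw [h7, h5]; exact hb1.1
        · by_cases h8 : k = l'
          · rw [h8, h6]; exact hb1.2
          · have h9 := h4 k
            rw [if_neg h7, if_neg h8] at h9
            exact h9
    rw [h3, Fintype.card_piFinset]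
    push_cast
    have h4 : (s.card : ℝ) ^ 2 = ∏ k : Fin m, ((if k = l then (s.card : ℝ) else 1) * (if k = l' then (s.card : ℝ) else 1)) := by
      rw [prod_mul_distrib, prod_ite_eq' univ l, prod_ite_eq' univ l', if_pos (mem_univ _), if_pos (mem_univ _), pow_two]
    have h5 : (s.card : ℝ) ^ m = ∏ _k : Fin m, (s.card : ℝ) := by simp
    rw [h4, h5, ← prod_mul_distrib]
    apply prod_congr rfl
    intro k _
    by_cases h7 : k = l
    · subst h7
      rw [if_pos rfl, if_pos rfl, if_neg hll]; simp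
    · by_cases h8 : k = l'
      · subst h8
        rw [if_neg h7, if_pos rfl, if_neg h7, if_pos rfl]; simp
      · rw [if_neg h7, if_neg h8, if_neg h7, if_neg h8]; simp
  rw [h1]
  push_cast
  rw [sum_mul, sum_congr rfl h2, sum_const, nsmul_eq_mul, mul_comm]

/-- few tuples contain a bad pair -/
lemma few_bad {ι : Type} [DecidableEq ι] (s : Finset ι) (hs : s.Nonempty) (m : ℕ) (B : Finset (ι × ι)) (hB : B ⊆ s ×ˢ s) :
    (((Fintype.piFinset (fun _ : Fin m => s)).filter (fun ω => ∃ l l', l ≠ l' ∧ (ω l, ω l') ∈ B)).card : ℝ) ≤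
      (m : ℝ) ^ 2 * ((s.card : ℝ) ^ m * (B.card / (s.card : ℝ) ^ 2)) := by
  classical
  have hs0 : (0 : ℝ) < s.card := by exact_mod_cast hs.card_pos
  have h1 : (Fintype.piFinset (fun _ : Fin m => s)).filter (fun ω => ∃ l l', l ≠ l' ∧ (ω l, ω l') ∈ B) ⊆
      ((univ : Finset (Fin m × Fin m)).filter (fun p => p.1 ≠ p.2)).biUnion
        (fun p => (Fintype.piFinset (fun _ : Fin m => s)).filter (fun ω => (ω p.1, ω p.2) ∈ B)) := by
    intro ω hω
    rw [mem_filter] at hω
    obtain ⟨h2, l, l', h3, h4⟩ := hω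
    rw [mem_biUnion]
    exact ⟨(l, l'), mem_filter.2 ⟨mem_univ _, h3⟩, mem_filter.2 ⟨h2, h4⟩⟩
  have h2 := (card_le_card h1).trans card_biUnion_le
  have h3 : ∀ p ∈ (univ : Finset (Fin m × Fin m)).filter (fun p => p.1 ≠ p.2),
      (((Fintype.piFinset (fun _ : Fin m => s)).filter (fun ω => (ω p.1, ω p.2) ∈ B)).card : ℝ) ≤
        (s.card : ℝ) ^ m * (B.card / (s.card : ℝ) ^ 2) := by
    intro p hp
    rw [mem_filter] at hp
    have h4 := pair_marg s m p.1 p.2 hp.2 B hB
    rw [← mul_div_assoc, le_div_iff₀ (by positivity)]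
    exact h4.le
  have h4 : ((((univ : Finset (Fin m × Fin m)).filter (fun p => p.1 ≠ p.2)).card : ℕ) : ℝ) ≤ (m : ℝ) ^ 2 := by
    have : ((univ : Finset (Fin m × Fin m)).filter (fun p => p.1 ≠ p.2)).card ≤ m ^ 2 := by
      refine (card_filter_le _ _).trans (le_of_eq ?_)
      rw [card_univ, Fintype.card_prod, Fintype.card_fin, pow_two]
    exact_mod_cast this
  have h5 : ((∑ p ∈ (univ : Finset (Fin m × Fin m)).filter (fun p => p.1 ≠ p.2),
      ((Fintype.piFinset (fun _ : Fin m => s)).filter (fun ω => (ω p.1, ω p.2) ∈ B)).card : ℕ) : ℝ) ≤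
      (m : ℝ) ^ 2 * ((s.card : ℝ) ^ m * (B.card / (s.card : ℝ) ^ 2)) := by
    push_cast
    refine (sum_le_sum h3).trans ?_
    rw [sum_const, nsmul_eq_mul]
    exact mul_le_mul_of_nonneg_right h4 (by positivity)
  exact le_trans (by exact_mod_cast h2) h5

end Pool.Agent.Run7.h794.MK
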