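import Mathlib
import Pool.Agent.Run7.h794.MK.Stm4

/-! The number of squarefree integers (helper794). -/

set_option autoImplicit false

namespace Pool.Agent.Run7.h794.MK

open Finset Filter Topology
open scoped ArithmeticFunction ArithmeticFunction.Moebius ArithmeticFunction.zeta

lemma sq_dvd_iff {a b d : ℕ} (hb : 0 < b) (ha : Squarefree a) : d ^ 2 ∣ b ^ 2 * a ↔ d ∣ b := by
  constructor
  · intro h
    rcases Nat.eq_zero_or_pos d with h0 | hd
    · subst h0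
      have h1 : b ^ 2 * a = 0 := by simpa using h
      have h2 : a ≠ 0 := ha.ne_zero
      have h3 : b ^ 2 ≠ 0 := by positivity
      rcases Nat.mul_eq_zero.1 h1 with h4 | h4
      · exact absurd h4 h3
      · exact absurd h4 h2
    obtain ⟨g, hg⟩ : ∃ g, g = Nat.gcd d b := ⟨_, rfl⟩
    have hg0 : 0 < g := by rw [hg]; exact Nat.gcd_pos_of_pos_left _ hd
    obtain ⟨d', hd'⟩ : g ∣ d := by rw [hg]; exact Nat.gcd_dvd_left _ _
    obtain ⟨b', hb'⟩ : g ∣ b := by rw [hg]; exact Nat.gcd_dvd_right _ _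
    have hc : Nat.Coprime d' b' := by
      have h1 : Nat.gcd (g * d') (g * b') = g := by rw [← hd', ← hb', ← hg]
      rw [Nat.gcd_mul_left] at h1
      exact Nat.eq_of_mul_eq_mul_left hg0 (by rw [h1, mul_one])
    have h2 : d' ^ 2 ∣ b' ^ 2 * a := by
      rw [hd', hb'] at h
      have e1 : (g * d') ^ 2 = g ^ 2 * d' ^ 2 := by ring
      have e2 : (g * b') ^ 2 * a = g ^ 2 * (b' ^ 2 * a) := by ring
      rw [e1, e2] at h
      exact Nat.dvd_of_mul_dvd_mul_left (by positivity) h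
    have h3 : d' ^ 2 ∣ a := (Nat.Coprime.pow 2 2 hc).dvd_of_dvd_mul_left h2
    have h4 : IsUnit d' := ha d' (by rw [← pow_two]; exact h3)
    rw [Nat.isUnit_iff] at h4
    rw [hd', h4, mul_one, hb']
    exact Dvd.intro _ rfl
  · intro h
    exact (pow_dvd_pow_of_dvd h 2).trans (Dvd.intro _ rfl)

/-- `μ(n)² = ∑_{d² ∣ n} μ(d)` -/
lemma mobsq {n D : ℕ} (hn : 1 ≤ n) (hD : n < (D + 1) ^ 2) :
    ∑ d ∈ (Icc 1 D).filter (fun d => d ^ 2 ∣ n), mob d = mob n ^ 2 := by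
  obtain ⟨a, b, ha, hb, hab, hsq⟩ := Nat.sq_mul_squarefree_of_pos (show 0 < n by omega)
  have h1 : (Icc 1 D).filter (fun d => d ^ 2 ∣ n) = b.divisors := by
    ext d
    rw [mem_filter, mem_Icc, Nat.mem_divisors, ← hab, sq_dvd_iff hb hsq]
    constructor
    · rintro ⟨-, h⟩; exact ⟨h, by omega⟩
    · rintro ⟨h, -⟩
      refine ⟨⟨Nat.pos_of_dvd_of_pos h hb, ?_⟩, h⟩
      have h2 : d ≤ b := Nat.le_of_dvd hb h
      have h3 : b ^ 2 ≤ n := by rw [← hab]; exact Nat.le_mul_of_pos_right _ ha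
      have h4 : b < D + 1 := lt_of_pow_lt_pow_left₀ 2 (by omega) (lt_of_le_of_lt h3 hD)
      omega
  rw [h1]
  have h2 : ∑ d ∈ b.divisors, mob d = if b = 1 then 1 else 0 := by
    have h3 : (((ζ : ArithmeticFunction ℤ) * μ) b : ℤ) = (1 : ArithmeticFunction ℤ) b := by
      rw [ArithmeticFunction.coe_zeta_mul_moebius]
    rw [ArithmeticFunction.coe_zeta_mul_apply, ArithmeticFunction.one_apply] at h3
    unfold mob
    exact_mod_cast h3
  rw [h2]
  unfold mob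
  split_ifs with h3
  · subst h3
    have h4 : n = a := by rw [← hab]; ring
    rw [h4]
    exact_mod_cast (ArithmeticFunction.moebius_sq_eq_one_of_squarefree hsq).symm
  · have h4 : ¬ Squarefree n := by
      intro h5
      have h6 : IsUnit b := h5 b (by rw [← pow_two, ← hab]; exact Dvd.intro _ rfl)
      exact h3 (Nat.isUnit_iff.1 h6)
    rw [ArithmeticFunction.moebius_eq_zero_of_not_squarefree h4]
    norm_num

lemma mob_hasSum : HasSum (fun d : ℕ => mob d * (1 / (d : ℝ) ^ 2)) (6 / Real.pi ^ 2) := by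
  have h2 : (1 : ℝ) < (2 : ℂ).re := by norm_num
  have hs : LSeriesSummable (fun n => ((ArithmeticFunction.moebius n : ℤ) : ℂ)) 2 :=
    ArithmeticFunction.LSeriesSummable_moebius_iff.mpr h2
  have hL := ArithmeticFunction.LSeries_zeta_mul_Lseries_moebius h2
  rw [ArithmeticFunction.LSeries_zeta_eq_riemannZeta h2, riemannZeta_two] at hL
  have hpi : (Real.pi : ℂ) ≠ 0 := by exact_mod_cast Real.pi_ne_zero
  have hval : LSeries (fun n => ((ArithmeticFunction.moebius n : ℤ) : ℂ)) 2 = 6 / (Real.pi : ℂ) ^ 2 := by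
    field_simp
    field_simp at hL
    linear_combination hL
  have hsum := hs.LSeriesHasSum
  rw [hval] at hsum
  have h3 : HasSum (fun d : ℕ => ((mob d * (1 / (d : ℝ) ^ 2) : ℝ) : ℂ)) (((6 / Real.pi ^ 2 : ℝ)) : ℂ) := by
    have e : (((6 / Real.pi ^ 2 : ℝ)) : ℂ) = 6 / (Real.pi : ℂ) ^ 2 := by push_cast; ring
    rw [e]
    unfold LSeriesHasSum at hsum
    refine hsum.congr_fun ?_
    intro d
    rcases eq_or_ne d 0 with rfl | hd
    · simp [mob]
    · rw [LSeries.term_of_ne_zero hd]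
      unfold mob
      push_cast
      rw [show ((d : ℂ) ^ (2 : ℂ)) = (d : ℂ) ^ (2 : ℕ) by norm_cast]
      ring
  exact Complex.hasSum_ofReal.mp h3

lemma mob_abs' (n : ℕ) : |mob n| ≤ 1 := by
  unfold mob
  exact_mod_cast ArithmeticFunction.abs_moebius_le_one

lemma mob_tail {D : ℕ} (hD : 1 ≤ D) : |∑ d ∈ Icc 1 D, mob d * (1 / (d : ℝ) ^ 2) - 6 / Real.pi ^ 2| ≤ 1 / (D : ℝ) := by
  have hD0 : (0 : ℝ) < D := by exact_mod_cast hD
  have h1 := (mob_hasSum.tendsto_sum_nat).comp (tendsto_add_atTop_nat 1)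
  obtain ⟨S, hS⟩ : ∃ S : ℝ, S = ∑ d ∈ Icc 1 D, mob d * (1 / (d : ℝ) ^ 2) := ⟨_, rfl⟩
  have h2 : Tendsto (fun n : ℕ => (|S - (∑ d ∈ range (n + 1), mob d * (1 / (d : ℝ) ^ 2))| : ℝ)) atTop
      (𝓝 (|S - 6 / Real.pi ^ 2| : ℝ)) :=
    (tendsto_const_nhds.sub h1).abs
  rw [← hS]
  refine le_of_tendsto h2 ?_
  filter_upwards [eventually_ge_atTop D] with n hn
  have h3 : ∑ d ∈ range (n + 1), mob d * (1 / (d : ℝ) ^ 2) =
      ∑ d ∈ Icc 1 D, mob d * (1 / (d : ℝ) ^ 2) + ∑ d ∈ Ioc D n, mob d * (1 / (d : ℝ) ^ 2) := by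
    have e1 : range (n + 1) = {0} ∪ (Icc 1 D ∪ Ioc D n) := by
      ext d
      simp only [mem_range, mem_union, mem_singleton, mem_Icc, mem_Ioc]
      omega
    rw [e1, sum_union, sum_union, sum_singleton]
    · simp [mob]
    · rw [disjoint_left]
      intro d h4 h5
      rw [mem_Icc] at h4
      rw [mem_Ioc] at h5
      omega
    · rw [disjoint_left]
      intro d h4 h5
      simp only [mem_singleton, mem_union, mem_Icc, mem_Ioc] at h4 h5
      omega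
  rw [h3, hS, sub_add_cancel_left, abs_neg]
  refine (abs_sum_le_sum_abs _ _).trans ?_
  calc ∑ d ∈ Ioc D n, |mob d * (1 / (d : ℝ) ^ 2)| ≤ ∑ d ∈ Ioc D n, ((d : ℝ) ^ 2)⁻¹ := by
        apply sum_le_sum
        intro d _
        rw [abs_mul, one_div, abs_of_nonneg (by positivity : 0 ≤ ((d : ℝ) ^ 2)⁻¹)]
        exact mul_le_of_le_one_left (by positivity) (mob_abs' d)
    _ ≤ (D : ℝ)⁻¹ - (n : ℝ)⁻¹ := sum_Ioc_inv_sq_le_sub (by omega) hn
    _ ≤ 1 / D := by
        rw [one_div]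
        have : (0 : ℝ) ≤ (n : ℝ)⁻¹ := by positivity
        linarith

/-- the number of squarefree integers up to `v` -/
theorem sqf_count (v : ℕ) : |∑ n ∈ Icc 1 v, mob n ^ 2 - 6 / Real.pi ^ 2 * v| ≤ 6 * √v := by
  rcases Nat.eq_zero_or_pos v with h0 | hv
  · subst h0; simp
  obtain ⟨D, hD⟩ : ∃ D, D = Nat.sqrt v := ⟨_, rfl⟩
  have hD1 : 1 ≤ D := by rw [hD]; exact Nat.sqrt_pos.2 hv
  have hD0 : (0 : ℝ) < D := by exact_mod_cast hD1
  have hDv : v < (D + 1) ^ 2 := by rw [hD]; exact Nat.lt_succ_sqrt' v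
  have hDv' : (D : ℝ) ≤ √v := by
    apply Real.le_sqrt_of_sq_le
    have : D ^ 2 ≤ v := by rw [hD]; exact Nat.sqrt_le' v
    exact_mod_cast this
  have h1 : ∑ n ∈ Icc 1 v, mob n ^ 2 = ∑ d ∈ Icc 1 D, mob d * ((v / d ^ 2 : ℕ) : ℝ) := by
    have e1 : ∀ n ∈ Icc 1 v, mob n ^ 2 = ∑ d ∈ Icc 1 D, if d ^ 2 ∣ n then mob d else 0 := by
      intro n hn
      rw [mem_Icc] at hn
      rw [← mobsq hn.1 (lt_of_le_of_lt hn.2 hDv), sum_filter]
    rw [sum_congr rfl e1, sum_comm]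
    apply sum_congr rfl
    intro d _
    rw [← sum_filter, sum_const, nsmul_eq_mul, mul_comm]
    congr 2
    have h3 := Nat.Ioc_filter_dvd_card_eq_div v (d ^ 2)
    have h4 : Icc 1 v = Ioc 0 v := by ext x; simp only [mem_Icc, mem_Ioc]; omega
    rw [h4]
    exact h3
  have h2 : |∑ d ∈ Icc 1 D, mob d * ((v / d ^ 2 : ℕ) : ℝ) - v * ∑ d ∈ Icc 1 D, mob d * (1 / (d : ℝ) ^ 2)| ≤ (D : ℝ) := by
    rw [mul_sum, ← sum_sub_distrib]
    refine (abs_sum_le_sum_abs _ _).trans ?_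
    calc ∑ d ∈ Icc 1 D, |mob d * ((v / d ^ 2 : ℕ) : ℝ) - v * (mob d * (1 / (d : ℝ) ^ 2))| ≤ ∑ d ∈ Icc 1 D, (1 : ℝ) := by
          apply sum_le_sum
          intro d hd
          rw [mem_Icc] at hd
          have hd0 : (0 : ℝ) < (d : ℝ) ^ 2 := by
            have : (0 : ℝ) < d := by exact_mod_cast hd.1
            positivity
          have e1 : mob d * ((v / d ^ 2 : ℕ) : ℝ) - v * (mob d * (1 / (d : ℝ) ^ 2)) =
              mob d * (((v / d ^ 2 : ℕ) : ℝ) - v / (d : ℝ) ^ 2) := by ring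
          rw [e1, abs_mul]
          have e2 : ((v / d ^ 2 : ℕ) : ℝ) ≤ v / (d : ℝ) ^ 2 := by
            have := Nat.cast_div_le (α := ℝ) (m := v) (n := d ^ 2)
            push_cast at this
            exact this
          have e3 : (v : ℝ) / (d : ℝ) ^ 2 ≤ ((v / d ^ 2 : ℕ) : ℝ) + 1 := by
            rw [div_le_iff₀ hd0]
            have h5 : v < (v / d ^ 2 + 1) * d ^ 2 := by
              have h6 := Nat.lt_mul_div_succ v (show 0 < d ^ 2 by
                have : 0 < d := hd.1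
                positivity)
              rw [mul_comm] at h6
              exact h6
            exact_mod_cast h5.le
          have e4 : |((v / d ^ 2 : ℕ) : ℝ) - v / (d : ℝ) ^ 2| ≤ 1 := by
            rw [abs_le]; constructor <;> linarith
          calc |mob d| * |((v / d ^ 2 : ℕ) : ℝ) - v / (d : ℝ) ^ 2| ≤ 1 * 1 :=
                mul_le_mul (mob_abs' d) e4 (abs_nonneg _) zero_le_one
            _ = 1 := one_mul 1
      _ = D := by rw [sum_const, Nat.card_Icc, nsmul_eq_mul, Nat.add_sub_cancel, mul_one]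
  have h3 := mob_tail hD1
  have h4 : |v * ∑ d ∈ Icc 1 D, mob d * (1 / (d : ℝ) ^ 2) - 6 / Real.pi ^ 2 * v| ≤ 4 * (D : ℝ) := by
    have e1 : v * ∑ d ∈ Icc 1 D, mob d * (1 / (d : ℝ) ^ 2) - 6 / Real.pi ^ 2 * v =
        v * (∑ d ∈ Icc 1 D, mob d * (1 / (d : ℝ) ^ 2) - 6 / Real.pi ^ 2) := by ring
    rw [e1, abs_mul, abs_of_nonneg (Nat.cast_nonneg v)]
    have hvr : (v : ℝ) ≤ 4 * (D : ℝ) ^ 2 := by
      have h5 : (v : ℝ) < ((D : ℝ) + 1) ^ 2 := by exact_mod_cast hDv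
      have h6 : (1 : ℝ) ≤ D := by exact_mod_cast hD1
      nlinarith
    calc (v : ℝ) * |∑ d ∈ Icc 1 D, mob d * (1 / (d : ℝ) ^ 2) - 6 / Real.pi ^ 2| ≤ (4 * (D : ℝ) ^ 2) * (1 / D) :=
          mul_le_mul hvr h3 (abs_nonneg _) (by positivity)
      _ = 4 * D := by field_simp
  rw [h1]
  have h5 : ∑ d ∈ Icc 1 D, mob d * ((v / d ^ 2 : ℕ) : ℝ) - 6 / Real.pi ^ 2 * v =
      (∑ d ∈ Icc 1 D, mob d * ((v / d ^ 2 : ℕ) : ℝ) - v * ∑ d ∈ Icc 1 D, mob d * (1 / (d : ℝ) ^ 2)) +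
      (v * ∑ d ∈ Icc 1 D, mob d * (1 / (d : ℝ) ^ 2) - 6 / Real.pi ^ 2 * v) := by ring
  rw [h5]
  refine (abs_add_le _ _).trans ?_
  linarith

end Pool.Agent.Run7.h794.MK
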