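import Mathlib
import Pool.Agent.Run7.h794.MK.OneG
import Pool.Agent.Run7.h794.MK.Sqf
import Pool.Agent.Run7.h794.MK.Pair
import Pool.Agent.Run7.h794.MK.Tra
import Pool.Agent.Run7.h794.MK.AllM

/-! Project MKM (helper794): almost orthogonality of the shifts of the Moebius function by members of short flat families. -/

set_option autoImplicit false

namespace Pool.Agent.Run7.h794.MK

open Finset Filter
open Pool.Agent.N384.MQ (Flat dis dis_nonneg dis_sum_real ev_log_pow ev_log_ge)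
open Pool.Agent.Run7.h27.MK (gI)

lemma gI_mob (n Y : ℕ) (hn : 1 ≤ n) : gI mob ((n : ℤ) + (0 + (Y : ℤ))) = mob (n + Y) := by
  unfold gI
  rw [if_pos (by omega)]
  congr 1
  omega

/-- all prefixes from a grid -/
lemma prefix_grid (f : ℕ → ℝ) (hf : ∀ n, |f n| ≤ 1) (N h : ℕ) (hh : 1 ≤ h) (w : ℕ) (hw : w ≤ N) :
    |∑ n ∈ Icc 1 w, f n| ≤ ∑ j ∈ range (N / h + 1), |∑ n ∈ Icc 1 (j * h), f n| + h := by
  obtain ⟨j, hj⟩ : ∃ j, j = w / h := ⟨_, rfl⟩
  have h1 : j * h ≤ w := by rw [hj]; exact Nat.div_mul_le_self w h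
  have h2 : w < j * h + h := by
    rw [hj]
    have := Nat.lt_div_mul_add (a := w) (b := h) (by omega)
    exact this
  have h3 : ∑ n ∈ Icc 1 w, f n = ∑ n ∈ Icc 1 (j * h), f n + ∑ n ∈ Ioc (j * h) w, f n := by
    have e1 : Icc 1 w = Ioc 0 w := by ext x; simp only [mem_Icc, mem_Ioc]; omega
    have e2 : Icc 1 (j * h) = Ioc 0 (j * h) := by ext x; simp only [mem_Icc, mem_Ioc]; omega
    rw [e1, e2, sum_Ioc_consecutive _ (Nat.zero_le _) h1]
  have h4 : |∑ n ∈ Ioc (j * h) w, f n| ≤ h := by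
    refine (abs_sum_le_sum_abs _ _).trans ?_
    refine (sum_le_sum fun n _ => hf n).trans ?_
    rw [sum_const, Nat.card_Ioc, nsmul_eq_mul, mul_one]
    have : w - j * h ≤ h := by omega
    exact_mod_cast this
  have h5 : |∑ n ∈ Icc 1 (j * h), f n| ≤ ∑ j ∈ range (N / h + 1), |∑ n ∈ Icc 1 (j * h), f n| := by
    have h6 : j ∈ range (N / h + 1) := by
      rw [mem_range, hj]
      have := Nat.div_le_div_right (c := h) hw
      omega
    exact single_le_sum (f := fun j => |∑ n ∈ Icc 1 (j * h), f n|) (fun j _ => abs_nonneg _) h6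
  rw [h3]
  refine (abs_add_le _ _).trans ?_
  linarith

/-- the correlations over the grid, all dilations -/
noncomputable def RR (N h K : ℕ) (a b : ℕ) : ℝ :=
  ∑ κ ∈ Icc 1 K, ∑ j ∈ range (N / h + 1), |∑ n ∈ Icc 1 (j * h), mob (n + κ * a) * mob (n + κ * b)|

/-- the mean over the pairs -/
lemma pairs_mean (T Bq U : ℕ) : ∃ V C N₀ : ℕ, ∀ N : ℕ, N₀ ≤ N → ∀ (q : ℕ) [NeZero q],
    (N : ℝ) ^ (1 / 3 : ℝ) * Real.log N ^ C ≤ q → q ≤ Bq * N → ∀ {ι : Type} (s : Finset ι) (y : ι → ZMod q), s.Nonempty →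
    Flat q (1 / Real.log N ^ V) s y → ∀ h K : ℕ, 1 ≤ h → (K : ℝ) ≤ Real.log N ^ T →
    ∑ i ∈ s, ∑ i' ∈ s, RR N h K (y i).val (y i').val ≤
      (s.card : ℝ) ^ 2 * (K * ((N / h + 1 : ℕ) * (N / Real.log N ^ U))) := by
  obtain ⟨V, C, N₀, h1⟩ := oneg law_mob T Bq U
  refine ⟨V, C, N₀ + 3, fun N hN q _ hq1 hq2 ι s y hs hf h K hh hK => ?_⟩
  have hs0 : (0 : ℝ) < s.card := by exact_mod_cast hs.card_pos
  have hmsh : Msh V C Bq N q (dis s y) := msh_dis hs hq1 hq2 hf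
  have hL0 : 0 < Real.log (N : ℝ) := Real.log_pos (by exact_mod_cast (by omega : 1 < N))
  have key : ∀ i ∈ s, ∀ κ ∈ Icc 1 K, ∀ j ∈ range (N / h + 1),
      ∑ i' ∈ s, |∑ n ∈ Icc 1 (j * h), mob (n + κ * (y i).val) * mob (n + κ * (y i').val)| ≤
        s.card * (N / Real.log N ^ U) := by
    intro i _ κ hκ j hj
    rw [mem_Icc] at hκ
    rw [mem_range] at hj
    have hjN : j * h ≤ N := by
      calc j * h ≤ (N / h) * h := Nat.mul_le_mul_right _ (by omega)
        _ ≤ N := Nat.div_mul_le_self N h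
    have h2 := h1 N (by omega) q (dis s y) hmsh (κ : ℤ) (by omega) (by
      rw [Int.natAbs_natCast]
      have : (κ : ℝ) ≤ K := by exact_mod_cast hκ.2
      exact this.trans hK) 0 (by
      simp only [Int.cast_zero, abs_zero]
      positivity) 1 one_pos (fun n => if n ≤ j * h then mob (n + κ * (y i).val) else 0) (by
      intro n _
      split_ifs
      · exact mob_abs _
      · simp)
    rw [one_mul] at h2
    have h3 : ∀ v : ℕ, ∑ n ∈ Icc 1 N, (if n ≤ j * h then mob (n + κ * (y i).val) else 0) *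
        gI mob ((n : ℤ) + (0 + (κ : ℤ) * (v : ℕ))) = ∑ n ∈ Icc 1 (j * h), mob (n + κ * (y i).val) * mob (n + κ * v) := by
      intro v
      rw [← sum_subset (Icc_subset_Icc (le_refl 1) hjN)]
      · apply sum_congr rfl
        intro n hn
        rw [mem_Icc] at hn
        rw [if_pos hn.2]
        have := gI_mob n (κ * v) hn.1
        push_cast at this
        rw [this]
      · intro n hn hn'
        rw [mem_Icc] at hn hn'
        rw [if_neg (by omega), zero_mul]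
    simp only [h3] at h2
    have h4 := dis_sum_real s y q le_rfl
      (fun v => |∑ n ∈ Icc 1 (j * h), mob (n + κ * (y i).val) * mob (n + κ * v)|)
    rw [h4, div_le_iff₀ hs0] at h2
    linarith
  unfold RR
  calc ∑ i ∈ s, ∑ i' ∈ s, ∑ κ ∈ Icc 1 K, ∑ j ∈ range (N / h + 1),
        |∑ n ∈ Icc 1 (j * h), mob (n + κ * (y i).val) * mob (n + κ * (y i').val)|
      = ∑ i ∈ s, ∑ κ ∈ Icc 1 K, ∑ j ∈ range (N / h + 1), ∑ i' ∈ s,
        |∑ n ∈ Icc 1 (j * h), mob (n + κ * (y i).val) * mob (n + κ * (y i').val)| := by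
        apply sum_congr rfl
        intro i _
        rw [sum_comm]
        apply sum_congr rfl
        intro κ _
        rw [sum_comm]
    _ ≤ ∑ i ∈ s, ∑ κ ∈ Icc 1 K, ∑ j ∈ range (N / h + 1), (s.card : ℝ) * (N / Real.log N ^ U) :=
        sum_le_sum fun i hi => sum_le_sum fun κ hκ => sum_le_sum fun j hj => key i hi κ hκ j hj
    _ = _ := by
        rw [sum_const, sum_const, sum_const, Nat.card_Icc, card_range, Nat.add_sub_cancel]
        simp only [nsmul_eq_mul]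
        ring

lemma shift_sum (f : ℕ → ℝ) (u v Y : ℕ) (huv : u ≤ v) :
    ∑ n ∈ Ioc u v, f (n + Y) = ∑ n ∈ Icc 1 (v + Y), f n - ∑ n ∈ Icc 1 (u + Y), f n := by
  have e1 : Icc 1 (v + Y) = Ioc 0 (v + Y) := by ext x; simp only [mem_Icc, mem_Ioc]; omega
  have e2 : Icc 1 (u + Y) = Ioc 0 (u + Y) := by ext x; simp only [mem_Icc, mem_Ioc]; omega
  have e3 : ∑ n ∈ Ioc u v, f (n + Y) = ∑ n ∈ Ioc (u + Y) (v + Y), f n := by
    rw [← Finset.sum_image (s := Ioc u v) (g := fun n => n + Y) (f := f)]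
    · apply sum_congr _ (fun _ _ => rfl)
      ext n
      simp only [mem_Ioc, mem_image]
      constructor
      · rintro ⟨j, hj, rfl⟩; omega
      · intro h; exact ⟨n - Y, by omega, by omega⟩
    · intro a _ b _ h; exact Nat.add_right_cancel h
  rw [e1, e2, e3, ← sum_Ioc_consecutive _ (Nat.zero_le (u + Y)) (by omega : u + Y ≤ v + Y)]
  ring

lemma quad (m : ℕ) (a : Fin m → ℝ) (c δ ρ : ℝ) (hδ : 0 ≤ δ) (s : Finset ℕ) (x : Fin m → ℕ → ℝ)
    (h1 : ∀ l, |∑ n ∈ s, x l n ^ 2 - c| ≤ ρ) (h2 : ∀ l l', l ≠ l' → |∑ n ∈ s, x l n * x l' n| ≤ δ) :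
    |∑ n ∈ s, (∑ l, a l * x l n) ^ 2 - c * ∑ l, a l ^ 2| ≤ (ρ + m * δ) * ∑ l, a l ^ 2 := by
  have e1 : ∑ n ∈ s, (∑ l, a l * x l n) ^ 2 = ∑ l, ∑ l', a l * a l' * ∑ n ∈ s, x l n * x l' n := by
    have e0 : ∀ n ∈ s, (∑ l, a l * x l n) ^ 2 = ∑ l, ∑ l', a l * a l' * (x l n * x l' n) := by
      intro n _
      rw [pow_two, sum_mul_sum]
      apply sum_congr rfl
      intro l _
      apply sum_congr rfl
      intro l' _
      ring
    rw [sum_congr rfl e0, sum_comm]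
    apply sum_congr rfl
    intro l _
    rw [sum_comm]
    apply sum_congr rfl
    intro l' _
    rw [mul_sum]
  have e2 : ∑ n ∈ s, (∑ l, a l * x l n) ^ 2 - c * ∑ l, a l ^ 2 =
      ∑ l, (a l ^ 2 * (∑ n ∈ s, x l n ^ 2 - c) + ∑ l' ∈ univ.erase l, a l * a l' * ∑ n ∈ s, x l n * x l' n) := by
    rw [e1, mul_sum, ← sum_sub_distrib]
    apply sum_congr rfl
    intro l _
    rw [← add_sum_erase _ _ (mem_univ l)]
    have e3 : ∑ n ∈ s, x l n * x l n = ∑ n ∈ s, x l n ^ 2 := sum_congr rfl fun n _ => by ring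
    rw [e3]
    ring
  rw [e2]
  refine (abs_sum_le_sum_abs _ _).trans ?_
  have h3 : ∀ l ∈ (univ : Finset (Fin m)), |a l ^ 2 * (∑ n ∈ s, x l n ^ 2 - c) +
      ∑ l' ∈ univ.erase l, a l * a l' * ∑ n ∈ s, x l n * x l' n| ≤ a l ^ 2 * ρ + |a l| * (δ * ∑ l', |a l'|) := by
    intro l _
    refine (abs_add_le _ _).trans (add_le_add ?_ ?_)
    · rw [abs_mul, abs_of_nonneg (sq_nonneg _)]
      exact mul_le_mul_of_nonneg_left (h1 l) (sq_nonneg _)
    · refine (abs_sum_le_sum_abs _ _).trans ?_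
      calc ∑ l' ∈ univ.erase l, |a l * a l' * ∑ n ∈ s, x l n * x l' n| ≤
          ∑ l' ∈ univ.erase l, |a l| * (δ * |a l'|) := by
            apply sum_le_sum
            intro l' hl'
            rw [mem_erase] at hl'
            rw [abs_mul, abs_mul]
            have h4 := h2 l l' (Ne.symm hl'.1)
            calc |a l| * |a l'| * |∑ n ∈ s, x l n * x l' n| ≤ |a l| * |a l'| * δ :=
                  mul_le_mul_of_nonneg_left h4 (by positivity)
              _ = _ := by ring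
        _ ≤ ∑ l', |a l| * (δ * |a l'|) :=
            sum_le_sum_of_subset_of_nonneg (subset_univ _) fun _ _ _ => by positivity
        _ = _ := by rw [← mul_sum, ← mul_sum]
  refine (sum_le_sum h3).trans ?_
  rw [sum_add_distrib, ← sum_mul, ← sum_mul]
  have h5 : (∑ l, |a l|) * (∑ l', |a l'|) ≤ m * ∑ l, a l ^ 2 := by
    have h6 := sq_sum_le_card_mul_sum_sq (s := (univ : Finset (Fin m))) (f := fun l => |a l|)
    simp only [sq_abs, card_univ, Fintype.card_fin] at h6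
    rw [← pow_two]
    exact h6
  calc (∑ i, a i ^ 2) * ρ + (∑ i, |a i|) * (δ * ∑ l', |a l'|) =
      (∑ i, a i ^ 2) * ρ + δ * ((∑ i, |a i|) * ∑ l', |a l'|) := by ring
    _ ≤ (∑ i, a i ^ 2) * ρ + δ * (m * ∑ l, a l ^ 2) := by gcongr
    _ = _ := by ring

lemma ev_orth (A T Bq : ℕ) : ∃ N₀ : ℕ, ∀ N : ℕ, N₀ ≤ N → 100 ≤ Real.log N ∧ (Bq : ℝ) + 1 ≤ Real.log N ∧
    24 * Real.log N ^ (2 * T + A + 1) ≤ √(N : ℝ) ∧ Real.log N ^ (2 * A + T + 2) ≤ N := by
  obtain ⟨n1, h1⟩ := Pool.Agent.H373R2.T7.ev_log' (2 * T + A + 1) 24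
  obtain ⟨n2, h2⟩ := eventually_atTop.1 (((ev_log_ge 100).and (ev_log_ge ((Bq : ℝ) + 1))).and (ev_log_pow (2 * A + T + 2) 1))
  refine ⟨n1 + n2, fun N hN => ?_⟩
  obtain ⟨⟨a1, a2⟩, a3⟩ := h2 N (by omega)
  exact ⟨a1, a2, h1 N (by omega), by linarith⟩

/-- **Almost orthogonality**, all intervals, all dilations, all weights. -/
theorem orth (A T Bq : ℕ) : ∃ V C N₀ : ℕ, ∀ N : ℕ, N₀ ≤ N → ∀ (q : ℕ) [NeZero q],
    (N : ℝ) ^ (1 / 3 : ℝ) * Real.log N ^ C ≤ q → q ≤ Bq * N → ∀ {ι : Type} [DecidableEq ι] (s : Finset ι) (y : ι → ZMod q),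
    s.Nonempty → Flat q (1 / Real.log N ^ V) s y → ∀ m : ℕ, (m : ℝ) ≤ Real.log N ^ A →
    ∃ Bad ⊆ Fintype.piFinset (fun _ : Fin m => s), (Bad.card : ℝ) ≤ (s.card : ℝ) ^ m / Real.log N ^ A ∧
      ∀ i ∈ Fintype.piFinset (fun _ : Fin m => s), i ∉ Bad → ∀ κ : ℕ, 1 ≤ κ → (κ : ℝ) ≤ Real.log N ^ T →
      ∀ u v : ℕ, v ≤ N → (u : ℝ) + N / Real.log N ^ T ≤ v → ∀ a : Fin m → ℝ,
      |∑ n ∈ Ioc u v, (∑ l, a l * mob (n + κ * (y (i l)).val)) ^ 2 - 6 / Real.pi ^ 2 * ((v : ℝ) - u) * ∑ l, a l ^ 2| ≤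
        ((v : ℝ) - u) / Real.log N ^ A * ∑ l, a l ^ 2 := by
  classical
  obtain ⟨W, hW⟩ : ∃ W, W = 2 * A + T + 2 := ⟨_, rfl⟩
  obtain ⟨U, hU⟩ : ∃ U, U = 3 * A + T + 2 * W + 1 := ⟨_, rfl⟩
  obtain ⟨V, C, N₁, hmean⟩ := pairs_mean T Bq U
  obtain ⟨N₂, hev⟩ := ev_orth A T Bq
  refine ⟨V, C, N₁ + N₂ + 3, fun N hN q _ hq1 hq2 ι _ s y hs hf m hm => ?_⟩
  obtain ⟨a1, a2, a3, a4⟩ := hev N (by omega)
  have hN0 : (0 : ℝ) < N := by exact_mod_cast (by omega : 0 < N)
  have hs0 : (0 : ℝ) < s.card := by exact_mod_cast hs.card_pos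
  have hmean := hmean N (by omega) q hq1 hq2 s y hs hf
  obtain ⟨L, hL⟩ : ∃ L, L = Real.log (N : ℝ) := ⟨_, rfl⟩
  rw [← hL] at a1 a2 a3 a4 hm hmean ⊢
  have hL0 : 0 < L := by linarith
  have hL1 : 1 ≤ L := by linarith
  obtain ⟨h, hh⟩ : ∃ h : ℕ, h = ⌈(N : ℝ) / L ^ W⌉₊ := ⟨_, rfl⟩
  have hNW : 1 ≤ (N : ℝ) / L ^ W := by
    rw [le_div_iff₀ (by positivity), one_mul, hW]
    exact a4
  have hh1 : (N : ℝ) / L ^ W ≤ h := by rw [hh]; exact Nat.le_ceil _
  have hh2 : (h : ℝ) ≤ 2 * ((N : ℝ) / L ^ W) := by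
    rw [hh]
    have := (Nat.ceil_lt_add_one (by positivity : 0 ≤ (N : ℝ) / L ^ W)).le
    linarith
  have hhpos : 1 ≤ h := by
    have : (1 : ℝ) ≤ h := hNW.trans hh1
    exact_mod_cast this
  have hh0 : (0 : ℝ) < h := by exact_mod_cast hhpos
  obtain ⟨K, hK⟩ : ∃ K : ℕ, K = ⌊L ^ T⌋₊ := ⟨_, rfl⟩
  have hK1 : (K : ℝ) ≤ L ^ T := by rw [hK]; exact Nat.floor_le (by positivity)
  have hNh : ((N / h + 1 : ℕ) : ℝ) ≤ 2 * L ^ W := by
    push_cast
    have h1 : ((N / h : ℕ) : ℝ) ≤ (N : ℝ) / h := Nat.cast_div_le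
    have h2 : (N : ℝ) / h ≤ L ^ W := by
      rw [div_le_iff₀ hh0]
      have h3 : (N : ℝ) = L ^ W * (N / L ^ W) := by field_simp
      calc (N : ℝ) = L ^ W * (N / L ^ W) := h3
        _ ≤ L ^ W * h := mul_le_mul_of_nonneg_left hh1 (by positivity)
    have h4 : 1 ≤ L ^ W := one_le_pow₀ hL1
    linarith
  have hmean := hmean h K hhpos hK1
  obtain ⟨B, hB⟩ : ∃ B : Finset (ι × ι), B = (s ×ˢ s).filter (fun p => (N : ℝ) / L ^ W < RR N h K (y p.1).val (y p.2).val) := ⟨_, rfl⟩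
  have hBs : B ⊆ s ×ˢ s := by rw [hB]; exact filter_subset _ _
  have hRR0 : ∀ a b, 0 ≤ RR N h K a b := fun a b => sum_nonneg fun _ _ => sum_nonneg fun _ _ => abs_nonneg _
  have hBc : (B.card : ℝ) / (s.card : ℝ) ^ 2 ≤ 2 / L ^ (3 * A + 1) := by
    have h1 : (B.card : ℝ) * ((N : ℝ) / L ^ W) ≤ ∑ i ∈ s, ∑ i' ∈ s, RR N h K (y i).val (y i').val := by
      rw [← sum_product']
      calc (B.card : ℝ) * ((N : ℝ) / L ^ W) = ∑ p ∈ B, ((N : ℝ) / L ^ W) := by rw [sum_const, nsmul_eq_mul]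
        _ ≤ ∑ p ∈ B, RR N h K (y p.1).val (y p.2).val := sum_le_sum fun p hp => by
            rw [hB, mem_filter] at hp
            exact hp.2.le
        _ ≤ _ := sum_le_sum_of_subset_of_nonneg hBs fun _ _ _ => hRR0 _ _
    have h2 := h1.trans hmean
    rw [div_le_div_iff₀ (by positivity) (by positivity)]
    have h3 : (s.card : ℝ) ^ 2 * (K * ((N / h + 1 : ℕ) * (N / L ^ U))) ≤
        (s.card : ℝ) ^ 2 * (L ^ T * ((2 * L ^ W) * (N / L ^ U))) := by gcongr
    have h4 := h2.trans h3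
    have e1 : L ^ U = L ^ T * L ^ W * L ^ W * L ^ (3 * A + 1) := by
      rw [← pow_add, ← pow_add, ← pow_add, hU]; congr 1; ring
    have e2 : (s.card : ℝ) ^ 2 * (L ^ T * ((2 * L ^ W) * (N / L ^ U))) =
        (2 * (s.card : ℝ) ^ 2 / L ^ (3 * A + 1)) * (N / L ^ W) := by
      rw [e1]; field_simp
    rw [e2] at h4
    have h5 : (B.card : ℝ) ≤ 2 * (s.card : ℝ) ^ 2 / L ^ (3 * A + 1) :=
      le_of_mul_le_mul_right h4 (by linarith)
    rwa [le_div_iff₀ (by positivity)] at h5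
  refine ⟨(Fintype.piFinset (fun _ : Fin m => s)).filter (fun ω => ∃ l l', l ≠ l' ∧ (ω l, ω l') ∈ B), filter_subset _ _, ?_, ?_⟩
  · refine (few_bad s hs m B hBs).trans ?_
    calc (m : ℝ) ^ 2 * ((s.card : ℝ) ^ m * (B.card / (s.card : ℝ) ^ 2)) ≤
        (L ^ A) ^ 2 * ((s.card : ℝ) ^ m * (2 / L ^ (3 * A + 1))) := by gcongr
      _ = (s.card : ℝ) ^ m / L ^ A * (2 / L) := by
          have e1 : L ^ (3 * A + 1) = (L ^ A) ^ 2 * L ^ A * L := by ring
          rw [e1]; field_simp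
      _ ≤ (s.card : ℝ) ^ m / L ^ A * 1 := by
          apply mul_le_mul_of_nonneg_left _ (by positivity)
          rw [div_le_one hL0]; linarith
      _ = _ := mul_one _
  · intro i hi hbad κ hκ1 hκ2 u v hvN huv a
    have hgood : ∀ l l', l ≠ l' → RR N h K (y (i l)).val (y (i l')).val ≤ N / L ^ W := by
      intro l l' hll
      by_contra hcon
      push Not at hcon
      apply hbad
      rw [mem_filter]
      refine ⟨hi, l, l', hll, ?_⟩
      rw [hB, mem_filter, mem_product]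
      exact ⟨⟨Fintype.mem_piFinset.1 hi l, Fintype.mem_piFinset.1 hi l'⟩, hcon⟩
    have hκK : κ ∈ Icc 1 K := by
      rw [mem_Icc, hK]; exact ⟨hκ1, Nat.le_floor hκ2⟩
    have hpre : ∀ l l', l ≠ l' → ∀ w, w ≤ N →
        |∑ n ∈ Icc 1 w, mob (n + κ * (y (i l)).val) * mob (n + κ * (y (i l')).val)| ≤ 3 * (N / L ^ W) := by
      intro l l' hll w hw
      have h1 := prefix_grid (fun n => mob (n + κ * (y (i l)).val) * mob (n + κ * (y (i l')).val)) (fun n => by
        rw [abs_mul]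
        exact mul_le_one₀ (mob_abs _) (abs_nonneg _) (mob_abs _)) N h hhpos w hw
      have h2 : ∑ j ∈ range (N / h + 1), |∑ n ∈ Icc 1 (j * h), mob (n + κ * (y (i l)).val) * mob (n + κ * (y (i l')).val)| ≤
          RR N h K (y (i l)).val (y (i l')).val := by
        unfold RR
        exact single_le_sum (f := fun κ => ∑ j ∈ range (N / h + 1), |∑ n ∈ Icc 1 (j * h),
          mob (n + κ * (y (i l)).val) * mob (n + κ * (y (i l')).val)|)
          (fun κ _ => sum_nonneg fun _ _ => abs_nonneg _) hκK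
      have h3 := hgood l l' hll
      refine h1.trans ?_
      linarith
    have huv' : u ≤ v := by
      have h1 : (u : ℝ) ≤ v := by
        have : 0 ≤ (N : ℝ) / L ^ T := by positivity
        linarith
      exact_mod_cast h1
    have hoff : ∀ l l', l ≠ l' → |∑ n ∈ Ioc u v, mob (n + κ * (y (i l)).val) * mob (n + κ * (y (i l')).val)| ≤
        6 * (N / L ^ W) := by
      intro l l' hll
      have h1 := shift_sum (fun n => mob (n + κ * (y (i l)).val) * mob (n + κ * (y (i l')).val)) u v 0 huv'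
      simp only [add_zero] at h1
      rw [h1]
      have h2 := hpre l l' hll v hvN
      have h3 := hpre l l' hll u (huv'.trans hvN)
      rw [abs_le] at h2 h3 ⊢
      constructor <;> linarith [h2.1, h2.2, h3.1, h3.2]
    have hsqN : √(N : ℝ) * √N = N := Real.mul_self_sqrt hN0.le
    have hdiag : ∀ l, |∑ n ∈ Ioc u v, mob (n + κ * (y (i l)).val) ^ 2 - 6 / Real.pi ^ 2 * ((v : ℝ) - u)| ≤
        12 * (√N * L ^ (T + 1)) := by
      intro l
      obtain ⟨Y, hY⟩ : ∃ Y, Y = κ * (y (i l)).val := ⟨_, rfl⟩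
      rw [← hY, shift_sum (fun n => mob n ^ 2) u v Y huv']
      have hYle : (Y : ℝ) ≤ L ^ T * (Bq * N) := by
        rw [hY]
        push_cast
        have h1 : ((y (i l)).val : ℝ) ≤ Bq * N := by
          have := (ZMod.val_lt (y (i l))).le.trans hq2
          exact_mod_cast this
        exact mul_le_mul hκ2 h1 (by positivity) (by positivity)
      have hsq : ∀ w : ℕ, w ≤ N → √((w + Y : ℕ) : ℝ) ≤ √N * L ^ (T + 1) := by
        intro w hw
        have h1 : ((w + Y : ℕ) : ℝ) ≤ N * (L ^ (T + 1)) ^ 2 := by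
          push_cast
          have h2 : (w : ℝ) ≤ N := by exact_mod_cast hw
          have h3 : 1 ≤ L ^ T := one_le_pow₀ hL1
          have h4 : 1 + L ^ T * Bq ≤ L ^ (T + 1) := by
            rw [pow_succ]
            nlinarith
          have h5 : 1 ≤ L ^ (T + 1) := one_le_pow₀ hL1
          calc (w : ℝ) + Y ≤ N + L ^ T * (Bq * N) := add_le_add h2 hYle
            _ = N * (1 + L ^ T * Bq) := by ring
            _ ≤ N * (L ^ (T + 1)) := mul_le_mul_of_nonneg_left h4 hN0.le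
            _ ≤ N * (L ^ (T + 1)) ^ 2 := by
                apply mul_le_mul_of_nonneg_left _ hN0.le
                exact le_self_pow₀ h5 (by norm_num)
        calc √((w + Y : ℕ) : ℝ) ≤ √(N * (L ^ (T + 1)) ^ 2) := Real.sqrt_le_sqrt h1
          _ = √N * L ^ (T + 1) := by rw [Real.sqrt_mul hN0.le, Real.sqrt_sq (by positivity)]
      have h1 := sqf_count (v + Y)
      have h2 := sqf_count (u + Y)
      have h3 := hsq v hvN
      have h4 := hsq u (huv'.trans hvN)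
      have e : ∑ n ∈ Icc 1 (v + Y), mob n ^ 2 - ∑ n ∈ Icc 1 (u + Y), mob n ^ 2 - 6 / Real.pi ^ 2 * ((v : ℝ) - u) =
          (∑ n ∈ Icc 1 (v + Y), mob n ^ 2 - 6 / Real.pi ^ 2 * ((v + Y : ℕ) : ℝ)) -
          (∑ n ∈ Icc 1 (u + Y), mob n ^ 2 - 6 / Real.pi ^ 2 * ((u + Y : ℕ) : ℝ)) := by
        push_cast
        ring
      rw [e]
      refine (abs_sub _ _).trans ?_
      linarith
    have hq := quad m a (6 / Real.pi ^ 2 * ((v : ℝ) - u)) (6 * (N / L ^ W)) (12 * (√N * L ^ (T + 1))) (by positivity)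
      (Ioc u v) (fun l n => mob (n + κ * (y (i l)).val)) hdiag hoff
    refine hq.trans ?_
    apply mul_le_mul_of_nonneg_right _ (sum_nonneg fun _ _ => sq_nonneg _)
    have h1 : N / L ^ T / L ^ A ≤ ((v : ℝ) - u) / L ^ A := by
      apply div_le_div_of_nonneg_right _ (by positivity)
      linarith
    refine le_trans ?_ h1
    have h2 : 12 * (√(N : ℝ) * L ^ (T + 1)) ≤ N / L ^ T / L ^ A / 2 := by
      rw [div_div, div_div, le_div_iff₀ (by positivity)]
      calc 12 * (√(N : ℝ) * L ^ (T + 1)) * (L ^ T * (L ^ A * 2)) = √N * (24 * L ^ (2 * T + A + 1)) := by ring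
        _ ≤ √N * √N := mul_le_mul_of_nonneg_left a3 (Real.sqrt_nonneg _)
        _ = N := hsqN
    have h3 : (m : ℝ) * (6 * (N / L ^ W)) ≤ N / L ^ T / L ^ A / 2 := by
      calc (m : ℝ) * (6 * (N / L ^ W)) ≤ L ^ A * (6 * (N / L ^ W)) := mul_le_mul_of_nonneg_right hm (by positivity)
        _ = N / L ^ T / L ^ A / 2 * (12 / L ^ 2) := by
            rw [hW]
            have e1 : L ^ (2 * A + T + 2) = L ^ A * L ^ A * L ^ T * L ^ 2 := by ring
            rw [e1]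
            field_simp
            ring
        _ ≤ N / L ^ T / L ^ A / 2 * 1 := by
            apply mul_le_mul_of_nonneg_left _ (by positivity)
            rw [div_le_one (by positivity)]
            nlinarith
        _ = _ := mul_one _
    linarith

end Pool.Agent.Run7.h794.MK
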