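import Mathlib

set_option autoImplicit false

/-! Independent choices: the number of successes for two events, binomial probabilities, the Poisson limit. -/

namespace Pool.Agent.Run7.h794.MK.Poi

open Finset Filter

variable {α : Type} [Fintype α]

/-- sums over choices -/
noncomputable def S (m : ℕ) (f : α → ℕ) (Φ : ℕ → ℝ) : ℝ := ∑ ω : Fin m → α, Φ (∑ l, f (ω l))
noncomputable def T (m : ℕ) (f g : α → ℕ) (Φ Ψ : ℕ → ℝ) : ℝ :=
  ∑ ω : Fin m → α, Φ (∑ l, f (ω l)) * Ψ (∑ l, g (ω l))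

lemma sum_succ (m : ℕ) (F : (Fin (m + 1) → α) → ℝ) :
    ∑ ω : Fin (m + 1) → α, F ω = ∑ a : α, ∑ ω : Fin m → α, F (Fin.cons a ω) := by
  rw [← (Fin.consEquiv (fun _ : Fin (m + 1) => α)).sum_comp, Fintype.sum_prod_type]
  rfl

lemma S_succ (m : ℕ) (f : α → ℕ) (Φ : ℕ → ℝ) : S (m + 1) f Φ = ∑ a : α, S m f (fun x => Φ (f a + x)) := by
  unfold S
  rw [sum_succ]
  apply sum_congr rfl
  intro a _
  apply sum_congr rfl
  intro ω _
  rw [Fin.sum_univ_succ]
  simp

lemma T_succ (m : ℕ) (f g : α → ℕ) (Φ Ψ : ℕ → ℝ) :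
    T (m + 1) f g Φ Ψ = ∑ a : α, T m f g (fun x => Φ (f a + x)) (fun x => Ψ (g a + x)) := by
  unfold T
  rw [sum_succ]
  apply sum_congr rfl
  intro a _
  apply sum_congr rfl
  intro ω _
  rw [Fin.sum_univ_succ, Fin.sum_univ_succ]
  simp

/-- normalised -/
noncomputable def s (m : ℕ) (f : α → ℕ) (Φ : ℕ → ℝ) : ℝ := S m f Φ / (Fintype.card α : ℝ) ^ m
noncomputable def t (m : ℕ) (f g : α → ℕ) (Φ Ψ : ℕ → ℝ) : ℝ := T m f g Φ Ψ / (Fintype.card α : ℝ) ^ m

variable [Nonempty α]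

lemma card_pos' : (0 : ℝ) < Fintype.card α := by exact_mod_cast Fintype.card_pos

lemma s_zero (f : α → ℕ) (Φ : ℕ → ℝ) : s 0 f Φ = Φ 0 := by
  unfold s S; simp
lemma t_zero (f g : α → ℕ) (Φ Ψ : ℕ → ℝ) : t 0 f g Φ Ψ = Φ 0 * Ψ 0 := by
  unfold t T; simp

lemma s_succ (m : ℕ) (f : α → ℕ) (Φ : ℕ → ℝ) :
    s (m + 1) f Φ = (∑ a : α, s m f (fun x => Φ (f a + x))) / Fintype.card α := by
  have := card_pos' (α := α)
  unfold s
  rw [S_succ, ← sum_div, div_div, pow_succ]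

lemma t_succ (m : ℕ) (f g : α → ℕ) (Φ Ψ : ℕ → ℝ) :
    t (m + 1) f g Φ Ψ = (∑ a : α, t m f g (fun x => Φ (f a + x)) (fun x => Ψ (g a + x))) / Fintype.card α := by
  have := card_pos' (α := α)
  unfold t
  rw [T_succ, ← sum_div, div_div, pow_succ]

lemma s_le (m : ℕ) (f : α → ℕ) (Φ : ℕ → ℝ) (hΦ : ∀ x, |Φ x| ≤ 1) : |s m f Φ| ≤ 1 := by
  have h0 := card_pos' (α := α)
  unfold s S
  rw [abs_div, abs_of_pos (by positivity : (0 : ℝ) < (Fintype.card α : ℝ) ^ m), div_le_one (by positivity)]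
  refine (abs_sum_le_sum_abs _ _).trans ?_
  refine (sum_le_sum fun ω _ => hΦ _).trans (le_of_eq ?_)
  rw [sum_const, nsmul_eq_mul, mul_one, card_univ, Fintype.card_fun, Fintype.card_fin]
  push_cast; rfl

/-- the covariance -/
theorem cov (f g : α → ℕ) (δ : ℝ)
    (hδ : ∀ F : ℕ → ℕ → ℝ, (∀ x y, |F x y| ≤ 1) → |(∑ a : α, F (f a) (g a)) / Fintype.card α -
      (∑ a : α, ∑ b : α, F (f a) (g b)) / (Fintype.card α : ℝ) ^ 2| ≤ δ) (m : ℕ) :
    ∀ Φ Ψ : ℕ → ℝ, (∀ x, |Φ x| ≤ 1) → (∀ x, |Ψ x| ≤ 1) → |t m f g Φ Ψ - s m f Φ * s m g Ψ| ≤ m * δ := by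
  have h0 := card_pos' (α := α)
  induction m with
  | zero =>
    intro Φ Ψ _ _
    rw [t_zero, s_zero, s_zero]
    simp
  | succ m ih =>
    intro Φ Ψ hΦ hΨ
    have e1 : s (m + 1) f Φ * s (m + 1) g Ψ = (∑ a : α, ∑ b : α, s m f (fun x => Φ (f a + x)) * s m g (fun x => Ψ (g b + x))) /
        (Fintype.card α : ℝ) ^ 2 := by
      rw [s_succ, s_succ, div_mul_div_comm, sum_mul_sum, pow_two]
    have e2 : t (m + 1) f g Φ Ψ - s (m + 1) f Φ * s (m + 1) g Ψ =
        (∑ a : α, (t m f g (fun x => Φ (f a + x)) (fun x => Ψ (g a + x)) - s m f (fun x => Φ (f a + x)) * s m g (fun x => Ψ (g a + x)))) /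
          Fintype.card α +
        ((∑ a : α, s m f (fun x => Φ (f a + x)) * s m g (fun x => Ψ (g a + x))) / Fintype.card α -
          (∑ a : α, ∑ b : α, s m f (fun x => Φ (f a + x)) * s m g (fun x => Ψ (g b + x))) / (Fintype.card α : ℝ) ^ 2) := by
      rw [e1, t_succ, sum_sub_distrib, sub_div]
      ring
    rw [e2]
    refine (abs_add_le _ _).trans ?_
    have h1 := hδ (fun x y => s m f (fun z => Φ (x + z)) * s m g (fun z => Ψ (y + z))) (fun x y => by
      rw [abs_mul]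
      calc |s m f (fun z => Φ (x + z))| * |s m g (fun z => Ψ (y + z))| ≤ 1 * 1 :=
            mul_le_mul (s_le m f _ (fun _ => hΦ _)) (s_le m g _ (fun _ => hΨ _)) (abs_nonneg _) zero_le_one
        _ = 1 := one_mul _)
    have h2 : |(∑ a : α, (t m f g (fun x => Φ (f a + x)) (fun x => Ψ (g a + x)) - s m f (fun x => Φ (f a + x)) * s m g (fun x => Ψ (g a + x)))) /
          Fintype.card α| ≤ m * δ := by
      rw [abs_div, abs_of_pos h0, div_le_iff₀ h0]
      refine (abs_sum_le_sum_abs _ _).trans ?_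
      refine (sum_le_sum fun a _ => ih _ _ (fun _ => hΦ _) (fun _ => hΨ _)).trans (le_of_eq ?_)
      rw [sum_const, nsmul_eq_mul, card_univ]
      ring
    calc _ ≤ m * δ + δ := add_le_add h2 h1
      _ = _ := by push_cast; ring

/-- the covariance of indicators -/
theorem cov01 (f g : α → ℕ) (hf : ∀ a, f a = 0 ∨ f a = 1) (hg : ∀ a, g a = 0 ∨ g a = 1) (m : ℕ)
    (Φ Ψ : ℕ → ℝ) (hΦ : ∀ x, |Φ x| ≤ 1) (hΨ : ∀ x, |Ψ x| ≤ 1) :
    |t m f g Φ Ψ - s m f Φ * s m g Ψ| ≤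
      m * (4 * ((∑ a : α, (f a : ℝ) * g a) / Fintype.card α + (∑ a : α, (f a : ℝ)) / Fintype.card α * ((∑ a : α, (g a : ℝ)) / Fintype.card α))) := by
  have h0 := card_pos' (α := α)
  refine cov f g _ (fun F hF => ?_) m Φ Ψ hΦ hΨ
  obtain ⟨P, hP⟩ : ∃ P : ℝ, P = (∑ a : α, (f a : ℝ) * g a) / Fintype.card α := ⟨_, rfl⟩
  obtain ⟨p, hp⟩ : ∃ p : ℝ, p = (∑ a : α, (f a : ℝ)) / Fintype.card α := ⟨_, rfl⟩
  obtain ⟨r, hr⟩ : ∃ r : ℝ, r = (∑ a : α, (g a : ℝ)) / Fintype.card α := ⟨_, rfl⟩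
  have hP0 : 0 ≤ P := by rw [hP]; positivity
  have hp0 : 0 ≤ p := by rw [hp]; positivity
  have hr0 : 0 ≤ r := by rw [hr]; positivity
  obtain ⟨D, hD⟩ : ∃ D, D = F 1 1 - F 1 0 - F 0 1 + F 0 0 := ⟨_, rfl⟩
  have key : ∀ x y : ℕ, (x = 0 ∨ x = 1) → (y = 0 ∨ y = 1) →
      F x y = F 0 0 + x * (F 1 0 - F 0 0) + y * (F 0 1 - F 0 0) + (x * y) * D := by
    intro x y hx hy
    rw [hD]
    rcases hx with rfl | rfl <;> rcases hy with rfl | rfl <;> push_cast <;> ring
  have e1 : (∑ a : α, F (f a) (g a)) / Fintype.card α =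
      F 0 0 + p * (F 1 0 - F 0 0) + r * (F 0 1 - F 0 0) + P * D := by
    rw [sum_congr rfl (fun a _ => key _ _ (hf a) (hg a)), sum_add_distrib, sum_add_distrib, sum_add_distrib,
      sum_const, nsmul_eq_mul, ← sum_mul, ← sum_mul, ← sum_mul, card_univ, hp, hr, hP]
    field_simp
  have e2 : (∑ a : α, ∑ b : α, F (f a) (g b)) / (Fintype.card α : ℝ) ^ 2 =
      F 0 0 + p * (F 1 0 - F 0 0) + r * (F 0 1 - F 0 0) + (p * r) * D := by
    have e3 : ∀ a : α, ∑ b : α, F (f a) (g b) = Fintype.card α * (F 0 0 + f a * (F 1 0 - F 0 0)) +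
        (Fintype.card α * r) * ((F 0 1 - F 0 0) + f a * D) := by
      intro a
      rw [sum_congr rfl (fun b _ => key _ _ (hf a) (hg b))]
      have e4 : ∀ b : α, F 0 0 + (f a : ℝ) * (F 1 0 - F 0 0) + (g b : ℝ) * (F 0 1 - F 0 0) + ((f a : ℝ) * g b) * D =
          (F 0 0 + (f a : ℝ) * (F 1 0 - F 0 0)) + (g b : ℝ) * ((F 0 1 - F 0 0) + f a * D) := fun b => by ring
      rw [sum_congr rfl (fun b _ => e4 b), sum_add_distrib, sum_const, nsmul_eq_mul, ← sum_mul, card_univ, hr]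
      field_simp
    rw [sum_congr rfl (fun a _ => e3 a), sum_add_distrib, ← mul_sum, ← mul_sum, sum_add_distrib, sum_add_distrib,
      sum_const, sum_const, nsmul_eq_mul, nsmul_eq_mul, ← sum_mul, ← sum_mul, card_univ]
    have e5 : (∑ a : α, (f a : ℝ)) = p * Fintype.card α := by rw [hp]; field_simp
    rw [e5]
    field_simp
    ring
  rw [e1, e2, ← hP, ← hp, ← hr]
  have e3 : F 0 0 + p * (F 1 0 - F 0 0) + r * (F 0 1 - F 0 0) + P * D -
      (F 0 0 + p * (F 1 0 - F 0 0) + r * (F 0 1 - F 0 0) + (p * r) * D) = (P - p * r) * D := by ring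
  rw [e3, abs_mul]
  have hD4 : |D| ≤ 4 := by
    rw [hD]
    have a1 := abs_le.1 (hF 1 1)
    have a2 := abs_le.1 (hF 1 0)
    have a3 := abs_le.1 (hF 0 1)
    have a4 := abs_le.1 (hF 0 0)
    rw [abs_le]
    constructor <;> linarith
  have hPp : |P - p * r| ≤ P + p * r := by
    rw [abs_le]
    have : 0 ≤ p * r := by positivity
    constructor <;> linarith
  calc |P - p * r| * |D| ≤ (P + p * r) * 4 := mul_le_mul hPp hD4 (abs_nonneg _) (by positivity)
    _ = _ := by ring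

/-- binomial probabilities -/
theorem binom (f : α → ℕ) (hf : ∀ a, f a = 0 ∨ f a = 1) (p : ℝ) (hp : p = (∑ a : α, (f a : ℝ)) / Fintype.card α) (m : ℕ) :
    ∀ j : ℕ, s m f (fun x => if x = j then 1 else 0) = (m.choose j : ℝ) * p ^ j * (1 - p) ^ (m - j) := by
  have h0 := card_pos' (α := α)
  have hs : ∀ (m : ℕ) (Φ : ℕ → ℝ), s (m + 1) f Φ = (1 - p) * s m f Φ + p * s m f (fun x => Φ (1 + x)) := by
    intro m Φ
    rw [s_succ]
    have e1 : ∀ a : α, s m f (fun x => Φ (f a + x)) = s m f Φ + (f a : ℝ) * (s m f (fun x => Φ (1 + x)) - s m f Φ) := by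
      intro a
      rcases hf a with h | h
      · rw [h]; simp
      · rw [h]; push_cast; ring
    rw [sum_congr rfl (fun a _ => e1 a), sum_add_distrib, sum_const, nsmul_eq_mul, ← sum_mul, card_univ, hp]
    field_simp
    ring
  induction m with
  | zero =>
    intro j
    rw [s_zero]
    rcases Nat.eq_zero_or_pos j with hj | hj
    · subst hj; simp
    · rw [if_neg (by omega), Nat.choose_eq_zero_of_lt hj]; simp
  | succ m ih =>
    intro j
    rw [hs, ih j]
    rcases Nat.eq_zero_or_pos j with hj | hj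
    · subst hj
      have e2 : s m f (fun x => if 1 + x = 0 then (1 : ℝ) else 0) = 0 := by
        unfold s S
        rw [sum_eq_zero, zero_div]
        intro ω _
        show (if 1 + (∑ l, f (ω l)) = 0 then (1 : ℝ) else 0) = 0
        rw [if_neg (by omega)]
      rw [e2]
      simp [pow_succ]
      ring
    · obtain ⟨i, rfl⟩ : ∃ i, j = i + 1 := ⟨j - 1, by omega⟩
      have e2 : s m f (fun x => if 1 + x = i + 1 then (1 : ℝ) else 0) = (m.choose i : ℝ) * p ^ i * (1 - p) ^ (m - i) := by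
        rw [← ih i]
        congr 1
        funext x
        by_cases h : x = i
        · rw [if_pos h, if_pos (by omega)]
        · rw [if_neg h, if_neg (by omega)]
      rw [e2, Nat.choose_succ_succ]
      push_cast
      rcases Nat.lt_or_ge m (i + 1) with h | h
      · rw [Nat.choose_eq_zero_of_lt h]
        push_cast
        ring
      · rw [show m - i = (m - (i + 1)) + 1 by omega]
        ring

/-- the Poisson limit, uniformly -/
theorem unif (lam : ℝ) (j : ℕ) (ε : ℝ) (hε : 0 < ε) : ∃ δ : ℝ, 0 < δ ∧ ∃ M₀ : ℕ, ∀ m : ℕ, M₀ ≤ m → ∀ p : ℝ,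
    |m * p - lam| ≤ δ → |(m.choose j : ℝ) * p ^ j * (1 - p) ^ (m - j) - Real.exp (-lam) * lam ^ j / j.factorial| ≤ ε := by
  by_contra hcon
  push Not at hcon
  choose mm hmm pp hpp hbad using fun k : ℕ => hcon (1 / (k + 1)) (by positivity) k
  classical
  obtain ⟨P, hP⟩ : ∃ P : ℕ → ℝ, P = fun n => if h : ∃ k, mm k = n then pp h.choose else lam / n := ⟨_, rfl⟩
  have hlim : Tendsto (fun n : ℕ => (n : ℝ) * P n) atTop (nhds lam) := by
    rw [Metric.tendsto_atTop]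
    intro η hη
    obtain ⟨K, hK⟩ := exists_nat_gt (1 / η)
    refine ⟨∑ k ∈ range (K + 1), mm k + 1, fun n hn => ?_⟩
    rw [Real.dist_eq, hP]
    simp only
    split_ifs with h
    · have h1 := h.choose_spec
      obtain ⟨k, hk⟩ : ∃ k, k = h.choose := ⟨_, rfl⟩
      rw [← hk] at h1 ⊢
      have h2 := hpp k
      rw [h1] at h2
      have h3 : K < k := by
        by_contra hcon2
        have := single_le_sum (f := mm) (fun _ _ => Nat.zero_le _) (mem_range.2 (by omega : k < K + 1))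
        omega
      have h4 : (1 : ℝ) / (k + 1) < η := by
        rw [div_lt_iff₀ (by positivity)]
        have h5 : (K : ℝ) < k := by exact_mod_cast h3
        rw [div_lt_iff₀ hη] at hK
        nlinarith
      linarith
    · have hn0 : (n : ℝ) ≠ 0 := by
        have : 0 < n := by omega
        positivity
      have : (n : ℝ) * (lam / n) - lam = 0 := by field_simp; ring
      rw [this, abs_zero]; exact hη
  have h1 := ProbabilityTheory.tendsto_choose_mul_pow_of_tendsto_mul_atTop j hlim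
  rw [Metric.tendsto_atTop] at h1
  obtain ⟨n0, hn0⟩ := h1 ε hε
  have h2 := hn0 (mm n0) (hmm n0)
  -- the chosen index for `mm n0` may differ
  have h : ∃ k, mm k = mm n0 := ⟨n0, rfl⟩
  have h3 := h.choose_spec
  have h4 : P (mm n0) = pp h.choose := by rw [hP]; simp only; rw [dif_pos h]
  have h5 := hbad h.choose
  rw [h3] at h5
  rw [h4, Real.dist_eq] at h2
  exact absurd h2 (not_lt.2 h5.le)

end Pool.Agent.Run7.h794.MK.Poi
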