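import Mathlib
import Pool.Agent.Run7.h794.MK.Stm3
import Pool.Agent.Run7.h794.MK.Poi

set_option autoImplicit false

/-! The Poisson law of the number of primes in random sparse windows. -/

namespace Pool.Agent.Run7.h794.MK

open Finset Filter
open Pool.Agent.N384.MQ (Flat ev_log_pow ev_log_ge)

/-- the Poisson weights -/
noncomputable def pw (lam : ℝ) (j : ℕ) : ℝ := Real.exp (-lam) * lam ^ j / j.factorial

lemma pw_nonneg {lam : ℝ} (h : 0 ≤ lam) (j : ℕ) : 0 ≤ pw lam j := by unfold pw; positivity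

lemma pw_sum (lam : ℝ) (hlam : 0 ≤ lam) (ε : ℝ) (hε : 0 < ε) : ∃ J : ℕ, 1 - ε ≤ ∑ j ∈ range J, pw lam j ∧
    (∀ J', ∑ j ∈ range J', pw lam j ≤ 1) := by
  have h1 : HasSum (fun j : ℕ => lam ^ j / j.factorial) (Real.exp lam) := by
    rw [Real.exp_eq_exp_ℝ]; exact NormedSpace.expSeries_div_hasSum_exp (𝔸 := ℝ) lam
  have h2 : HasSum (pw lam) 1 := by
    have h3 := h1.mul_left (Real.exp (-lam))
    rw [← Real.exp_add, neg_add_cancel, Real.exp_zero] at h3
    refine h3.congr_fun ?_ |> fun h => h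
    intro j; unfold pw; ring
  have h4 := h2.tendsto_sum_nat
  obtain ⟨J, hJ⟩ := (h4.eventually (lt_mem_nhds (show 1 - ε < 1 by linarith))).exists
  exact ⟨J, hJ.le, fun J' => h2.summable.sum_le_tsum _ (fun j _ => pw_nonneg hlam j) |>.trans_eq h2.tsum_eq⟩

lemma cheb : ∃ X₀ : ℕ, ∀ X : ℕ, X₀ ≤ X → ((((Icc 1 X).filter Nat.Prime).card : ℕ) : ℝ) ≤ 2 * X / Real.log X := by
  have h1 := Chebyshev.eventually_primeCounting_le (ε := 1 / 2) (by norm_num)
  have h2 := (tendsto_natCast_atTop_atTop (R := ℝ)).eventually (h1.and (eventually_ge_atTop 2))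
  obtain ⟨X₀, h3⟩ := eventually_atTop.1 h2
  refine ⟨X₀, fun X hX => ?_⟩
  obtain ⟨h4, h5⟩ := h3 X hX
  rw [Nat.floor_natCast] at h4
  have e : ((Icc 1 X).filter Nat.Prime).card = Nat.primeCounting X := by
    rw [Nat.primeCounting, Nat.primeCounting', Nat.count_eq_card_filter_range]
    congr 1
    ext n
    simp only [mem_filter, mem_Icc, mem_range]
    constructor
    · rintro ⟨h, hp⟩; exact ⟨by omega, hp⟩
    · rintro ⟨h, hp⟩; exact ⟨⟨hp.one_le, by omega⟩, hp⟩
  rw [e]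
  refine h4.trans ?_
  have hlog : 0 < Real.log X := Real.log_pos (by linarith)
  apply div_le_div_of_nonneg_right _ hlog.le
  have : Real.log 4 + 1 / 2 ≤ 2 := by
    have : Real.log 4 = 2 * Real.log 2 := by
      rw [show (4 : ℝ) = 2 ^ 2 by norm_num, Real.log_pow]; norm_num
    rw [this]
    linarith [Real.log_two_lt_d9]
  have hX0 : (0 : ℝ) ≤ X := Nat.cast_nonneg _
  nlinarith

/-- the input of the Poisson law: the special case `j = κ = 1`, `c = 0` of `S_SW` -/
def S_SW0 : Prop := ∀ (Bq : ℕ) (ε : ℝ), 0 < ε → ∃ V C N₀ : ℕ, ∀ N : ℕ, N₀ ≤ N → ∀ (q : ℕ) [NeZero q],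
  (N : ℝ) ^ (1 / 3 : ℝ) * Real.log N ^ C ≤ q → q ≤ Bq * N → ∀ {ι : Type} (s : Finset ι) (y : ι → ZMod q), s.Nonempty →
  Flat q (1 / Real.log N ^ V) s y → ∃ E : Finset ℕ, (E.card : ℝ) ≤ N / Real.log N ^ 1 ∧
  ∀ n : ℕ, 1 ≤ n → n ≤ N → n ∉ E →
    |((s.filter fun i => (n + (y i).val).Prime).card : ℝ) - s.card / Real.log N| ≤ ε * (s.card / Real.log N)

open Classical in
/-- **The Poisson law.** -/
theorem poi (hSW : S_SW0) (lam : ℝ) (hlam : 0 < lam) (ε : ℝ) (hε : 0 < ε) (B : ℕ) : ∃ V C K N₀ : ℕ, ∀ N : ℕ, N₀ ≤ N →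
    ∀ (q : ℕ) [NeZero q], (N : ℝ) ^ (1 / 3 : ℝ) * Real.log N ^ C ≤ q → q ≤ B * N →
    ∀ {ι : Type} (s : Finset ι) (y : ι → ZMod q), s.Nonempty → Flat q (1 / Real.log N ^ V) s y →
    ∀ c : ℕ, c ≤ B * N → ∀ m : ℕ, |(m : ℝ) - lam * Real.log N| ≤ 1 →
    (((univ : Finset (Fin m → s)).filter (fun ω => ¬ ∀ j : ℕ,
      |((((Icc 1 N).filter (fun n => ((univ : Finset (Fin m)).filter
        (fun l => (n + c + (y (ω l)).val).Prime)).card = j)).card : ℕ) : ℝ) - pw lam j * N| ≤ ε * N)).card : ℝ) ≤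
      K / Real.log N * (s.card : ℝ) ^ m := by
  obtain ⟨J, hJ1, hJ2⟩ := pw_sum lam hlam.le (ε / 4) (by positivity)
  obtain ⟨ε₁, hε₁⟩ : ∃ ε₁ : ℝ, ε₁ = ε / (8 * (J + 1)) := ⟨_, rfl⟩
  have hε₁0 : 0 < ε₁ := by rw [hε₁]; positivity
  choose δ hδ0 M₀ hM₀ using fun j : ℕ => Poi.unif lam j (ε₁ / 2) (by positivity)
  obtain ⟨δ', hδ'⟩ : ∃ δ' : ℝ, δ' = (∑ j ∈ range J, 1 / δ j + 1)⁻¹ := ⟨_, rfl⟩
  have hs0 : 0 ≤ ∑ j ∈ range J, 1 / δ j := sum_nonneg fun j _ => by have := hδ0 j; positivity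
  have hδ'0 : 0 < δ' := by rw [hδ']; positivity
  have hδ'1 : ∀ j < J, δ' ≤ δ j := by
    intro j hj
    have h1 : 1 / δ j ≤ ∑ j ∈ range J, 1 / δ j + 1 := by
      have := single_le_sum (f := fun j => 1 / δ j) (fun j _ => by have := hδ0 j; positivity) (mem_range.2 hj)
      linarith
    rw [hδ', inv_le_comm₀ (by positivity) (hδ0 j)]
    rwa [one_div] at h1
  obtain ⟨ε', hε'⟩ : ∃ ε' : ℝ, ε' = min 1 (δ' / (2 * (lam + 1))) := ⟨_, rfl⟩
  have hε'0 : 0 < ε' := by rw [hε']; positivity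
  obtain ⟨V, C, N₁, hsw⟩ := hSW (B + 1) ε' hε'0
  obtain ⟨X₀, hcheb⟩ := cheb
  obtain ⟨B', hB'⟩ : ∃ B' : ℝ, B' = 2 * B + 1 := ⟨_, rfl⟩
  have hB'1 : 1 ≤ B' := by rw [hB']; have : (0 : ℝ) ≤ B := Nat.cast_nonneg _; linarith
  obtain ⟨K, hK⟩ := exists_nat_ge (J * (32 * (lam + 1) * B' ^ 2 / ε₁ ^ 2))
  obtain ⟨bb, hbb⟩ : ∃ bb : ℝ, bb = Real.log ((B + 1 : ℕ) : ℝ) := ⟨_, rfl⟩
  have hbb0 : 0 ≤ bb := by rw [hbb]; exact Real.log_natCast_nonneg _
  obtain ⟨N₂, hN₂⟩ := eventually_atTop.1 (ev_log_ge (bb + 2 ^ V + (B + 1) * 2 ^ C + 2 * (1 + lam * bb) / δ' +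
    4 * (B + 1) / ε₁ + (∑ j ∈ range J, (M₀ j : ℝ) + 1) / lam + 4 + 1 / lam))
  refine ⟨V + 1, C + 1, K, N₁ + N₂ + X₀ + 4, fun N hN q _ hq1 hq2 ι s y hs hf c hc m hm => ?_⟩
  -- constants
  obtain ⟨L, hL⟩ : ∃ L : ℝ, L = Real.log (N : ℝ) := ⟨_, rfl⟩
  have hNpos : 0 < N := by omega
  have hN0 : (0 : ℝ) < N := by exact_mod_cast hNpos
  have hbig := hN₂ N (by omega)
  rw [← hL] at hbig hm
  have t1 : (0 : ℝ) < 2 ^ V := by positivity
  have t2 : (0 : ℝ) < (B + 1) * 2 ^ C := by positivity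
  have t3 : 0 < 2 * (1 + lam * bb) / δ' := by positivity
  have t4 : 0 < 4 * ((B : ℝ) + 1) / ε₁ := by positivity
  have t5 : 0 ≤ (∑ j ∈ range J, (M₀ j : ℝ) + 1) / lam := by positivity
  have t6 : 0 < 1 / lam := by positivity
  have hL4 : 4 ≤ L := by linarith
  have hL0 : 0 < L := by linarith
  obtain ⟨N', hN'⟩ : ∃ N', N' = (B + 1) * N := ⟨_, rfl⟩
  have hNN' : N ≤ N' := by rw [hN']; exact Nat.le_mul_of_pos_left _ (by omega)
  obtain ⟨L', hL'⟩ : ∃ L' : ℝ, L' = Real.log (N' : ℝ) := ⟨_, rfl⟩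
  have hL'e : L' = L + bb := by
    rw [hL', hN', hL, hbb, Nat.cast_mul, Real.log_mul (by positivity) hN0.ne']
    ring
  have hLL' : L ≤ L' := by linarith
  have hL'2 : L' ≤ 2 * L := by rw [hL'e]; linarith
  have hL'0 : 0 < L' := by linarith
  -- sparse windows
  obtain ⟨E, hE1, hE2⟩ := hsw N' (by omega) q (by
      refine le_trans ?_ hq1
      rw [← hL, ← hL', hN']
      push_cast
      rw [Real.mul_rpow (by positivity) hN0.le, mul_comm (((B : ℝ) + 1) ^ (1 / 3 : ℝ)), mul_assoc]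
      apply mul_le_mul_of_nonneg_left _ (by positivity)
      have e1 : ((B : ℝ) + 1) ^ (1 / 3 : ℝ) ≤ B + 1 := by
        calc ((B : ℝ) + 1) ^ (1 / 3 : ℝ) ≤ ((B : ℝ) + 1) ^ (1 : ℝ) :=
              Real.rpow_le_rpow_of_exponent_le (by have : (0 : ℝ) ≤ B := Nat.cast_nonneg _; linarith) (by norm_num)
          _ = _ := Real.rpow_one _
      calc ((B : ℝ) + 1) ^ (1 / 3 : ℝ) * L' ^ C ≤ (B + 1) * (2 * L) ^ C :=
            mul_le_mul e1 (pow_le_pow_left₀ hL'0.le hL'2 C) (by positivity) (by positivity)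
        _ = ((B + 1) * 2 ^ C) * L ^ C := by rw [mul_pow]; ring
        _ ≤ L * L ^ C := mul_le_mul_of_nonneg_right (by linarith) (by positivity)
        _ = L ^ (C + 1) := by ring) (by
      calc q ≤ B * N := hq2
        _ ≤ (B + 1) * N' := Nat.mul_le_mul (by omega) hNN') s y hs (by
      intro h hh
      refine (hf h hh).trans ?_
      apply mul_le_mul_of_nonneg_right _ (Nat.cast_nonneg _)
      rw [← hL, ← hL']
      apply one_div_le_one_div_of_le (by positivity)
      calc L' ^ V ≤ (2 * L) ^ V := pow_le_pow_left₀ hL'0.le hL'2 V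
        _ = 2 ^ V * L ^ V := mul_pow _ _ _
        _ ≤ L * L ^ V := mul_le_mul_of_nonneg_right (by linarith) (by positivity)
        _ = L ^ (V + 1) := by ring)
  rw [← hL'] at hE1 hE2
  haveI : Nonempty s := hs.to_subtype
  obtain ⟨A, hA⟩ : ∃ A : ℝ, A = (Fintype.card s : ℝ) := ⟨_, rfl⟩
  have hAs : (s.card : ℝ) = A := by rw [hA, Fintype.card_coe]
  have hA0 : 0 < A := by rw [hA]; exact Poi.card_pos'
  -- the events
  obtain ⟨f, hfdef⟩ : ∃ f : ℕ → s → ℕ, f = fun (n : ℕ) (a : s) => if (n + c + (y a.1).val).Prime then 1 else 0 := ⟨_, rfl⟩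
  have hf01 : ∀ n a, f n a = 0 ∨ f n a = 1 := by
    intro n a; rw [hfdef]; simp only; split_ifs <;> simp
  have hX : ∀ (n : ℕ) (ω : Fin m → s), ((univ : Finset (Fin m)).filter (fun l => (n + c + (y (ω l)).val).Prime)).card =
      ∑ l, f n (ω l) := by
    intro n ω; rw [hfdef, card_filter]
  obtain ⟨Φ, hΦ⟩ : ∃ Φ : ℕ → ℕ → ℝ, Φ = fun j x => if x = j then 1 else 0 := ⟨_, rfl⟩
  have hΦ1 : ∀ j x, |Φ j x| ≤ 1 := by
    intro j x; rw [hΦ]; simp only; split_ifs <;> norm_num
  obtain ⟨D, hD⟩ : ∃ D : ℕ → (Fin m → s) → ℝ, D = fun j ω => ∑ n ∈ Icc 1 N, Φ j (∑ l, f n (ω l)) := ⟨_, rfl⟩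
  have hDe : ∀ (j : ℕ) (ω : Fin m → s), ((((Icc 1 N).filter (fun n => ((univ : Finset (Fin m)).filter
        (fun l => (n + c + (y (ω l)).val).Prime)).card = j)).card : ℕ) : ℝ) = D j ω := by
    intro j ω
    rw [hD, card_filter]
    push_cast
    apply sum_congr rfl
    intro n _
    rw [hX n ω, hΦ]
  -- the density of `f n`
  obtain ⟨p, hp⟩ : ∃ p : ℕ → ℝ, p = fun n => (∑ a : s, (f n a : ℝ)) / Fintype.card s := ⟨_, rfl⟩
  have hp0 : ∀ n, 0 ≤ p n := by intro n; rw [hp]; positivity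
  have hpcard : ∀ n, ∑ a : s, (f n a : ℝ) = ((s.filter fun i => (n + c + (y i).val).Prime).card : ℝ) := by
    intro n
    rw [card_filter, ← Finset.sum_coe_sort s (fun i => if (n + c + (y i).val).Prime then 1 else 0)]
    push_cast
    apply sum_congr rfl
    intro a _
    rw [hfdef]
    push_cast
    rfl
  have hgood : ∀ n ∈ Icc 1 N, n + c ∉ E → |p n - 1 / L'| ≤ ε' / L' := by
    intro n hn hnE
    rw [mem_Icc] at hn
    have h1 := hE2 (n + c) (by omega) (by rw [hN']; nlinarith) hnE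
    rw [hp]
    simp only
    rw [hpcard n, ← hA]
    rw [hAs] at h1
    have e1 : ((s.filter fun i => (n + c + (y i).val).Prime).card : ℝ) / A - 1 / L' =
        (((s.filter fun i => (n + c + (y i).val).Prime).card : ℝ) - A / L') / A := by field_simp
    rw [e1, abs_div, abs_of_pos hA0, div_le_iff₀ hA0]
    refine h1.trans (le_of_eq ?_)
    ring
  -- upper bounds
  have hfsum : ∀ a : s, ∑ n ∈ Icc 1 N, (f n a : ℝ) ≤ 2 * B' * (N / L) := by
    intro a
    have h1 : ∑ n ∈ Icc 1 N, (f n a : ℝ) = (((Icc 1 N).filter (fun n => (n + c + (y a).val).Prime)).card : ℝ) := by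
      rw [card_filter, hfdef]
      push_cast
      rfl
    obtain ⟨X, hXd⟩ : ∃ X, X = (2 * B + 1) * N := ⟨_, rfl⟩
    have h2 : ((Icc 1 N).filter (fun n => (n + c + (y a).val).Prime)).card ≤ ((Icc 1 X).filter Nat.Prime).card := by
      apply card_le_card_of_injOn (fun n => n + c + (y a).val)
      · intro n hn
        simp only [coe_filter, mem_Icc, Set.mem_ofPred_eq] at hn ⊢
        have hv : (y a).val < q := ZMod.val_lt _
        refine ⟨⟨by omega, ?_⟩, hn.2⟩
        have e : X = N + B * N + B * N := by rw [hXd]; ring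
        omega
      · intro n _ n' _ h
        simp only at h
        omega
    have hXN : N ≤ X := by rw [hXd]; exact Nat.le_mul_of_pos_left _ (by omega)
    have h3 := hcheb X (by omega)
    rw [h1]
    calc (((Icc 1 N).filter (fun n => (n + c + (y a).val).Prime)).card : ℝ) ≤ (((Icc 1 X).filter Nat.Prime).card : ℝ) := by
          exact_mod_cast h2
      _ ≤ 2 * X / Real.log X := h3
      _ ≤ 2 * X / L := by
          apply div_le_div_of_nonneg_left (by positivity) hL0
          rw [hL]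
          exact Real.log_le_log hN0 (by exact_mod_cast hXN)
      _ = 2 * B' * (N / L) := by rw [hXd, hB']; push_cast; ring
  have hfs0 : ∀ a : s, 0 ≤ ∑ n ∈ Icc 1 N, (f n a : ℝ) := fun a => sum_nonneg fun _ _ => Nat.cast_nonneg _
  have hpsum : ∑ n ∈ Icc 1 N, p n ≤ 2 * B' * (N / L) := by
    rw [hp]
    simp only
    rw [← sum_div, sum_comm, div_le_iff₀ (Poi.card_pos')]
    refine (sum_le_sum fun a _ => hfsum a).trans (le_of_eq ?_)
    rw [sum_const, nsmul_eq_mul, card_univ]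
    ring
  have hpp : ∑ n ∈ Icc 1 N, ∑ n' ∈ Icc 1 N, (∑ a : s, (f n a : ℝ) * f n' a) / Fintype.card s ≤ (2 * B' * (N / L)) ^ 2 := by
    have e1 : ∑ n ∈ Icc 1 N, ∑ n' ∈ Icc 1 N, (∑ a : s, (f n a : ℝ) * f n' a) / Fintype.card s =
        (∑ a : s, (∑ n ∈ Icc 1 N, (f n a : ℝ)) ^ 2) / Fintype.card s := by
      simp_rw [← sum_div]
      congr 1
      have e2 : ∀ n, ∑ n' ∈ Icc 1 N, ∑ a : s, (f n a : ℝ) * f n' a = ∑ a : s, (f n a : ℝ) * ∑ n' ∈ Icc 1 N, (f n' a : ℝ) := by
        intro n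
        rw [sum_comm]
        apply sum_congr rfl
        intro a _
        rw [mul_sum]
      rw [sum_congr rfl (fun n _ => e2 n), sum_comm]
      apply sum_congr rfl
      intro a _
      rw [← sum_mul, pow_two]
    rw [e1, div_le_iff₀ (Poi.card_pos')]
    refine (sum_le_sum fun a _ => pow_le_pow_left₀ (hfs0 a) (hfsum a) 2).trans (le_of_eq ?_)
    rw [sum_const, nsmul_eq_mul, card_univ]
    ring
  -- first moment
  obtain ⟨sn, hsn⟩ : ∃ sn : ℕ → ℕ → ℝ, sn = fun j n => Poi.s m (f n) (Φ j) := ⟨_, rfl⟩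
  obtain ⟨μ, hμ⟩ : ∃ μ : ℕ → ℝ, μ = fun j => ∑ n ∈ Icc 1 N, sn j n := ⟨_, rfl⟩
  have hmL : (m : ℝ) ≤ lam * L + 1 := by have := (abs_le.1 hm).2; linarith
  have hmL2 : lam * L - 1 ≤ m := by have := (abs_le.1 hm).1; linarith
  have hlamL : 1 ≤ lam * L := by
    have : 1 / lam ≤ L := by linarith
    rw [div_le_iff₀ hlam] at this
    linarith
  have hmbig : ∑ j ∈ range J, (M₀ j : ℝ) ≤ m := by
    have h1 : (∑ j ∈ range J, (M₀ j : ℝ) + 1) / lam ≤ L := by linarith
    rw [div_le_iff₀ hlam] at h1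
    linarith
  have hfirst : ∀ j < J, |μ j - pw lam j * N| ≤ ε₁ * N := by
    intro j hj
    have hMj : M₀ j ≤ m := by
      have h1 : M₀ j ≤ ∑ j ∈ range J, M₀ j := single_le_sum (fun _ _ => Nat.zero_le _) (mem_range.2 hj)
      have h2 : ((∑ j ∈ range J, M₀ j : ℕ) : ℝ) ≤ m := by push_cast; exact hmbig
      have h3 : ∑ j ∈ range J, M₀ j ≤ m := by exact_mod_cast h2
      omega
    have hs1 : ∀ n ∈ Icc 1 N, n + c ∉ E → |sn j n - pw lam j| ≤ ε₁ / 2 := by
      intro n hn hnE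
      have h1 := hgood n hn hnE
      have h2 : |m * p n - lam| ≤ δ j := by
        have e1 : m * p n - lam = (m / L' - lam) + m * (p n - 1 / L') := by ring
        rw [e1]
        have h3 : |(m : ℝ) / L' - lam| ≤ δ' / 2 := by
          have e2 : (m : ℝ) / L' - lam = ((m - lam * L) - lam * bb) / L' := by
            rw [hL'e] at hL'0 ⊢
            field_simp
            ring
          rw [e2, abs_div, abs_of_pos hL'0, div_le_iff₀ hL'0]
          have h4 : |((m : ℝ) - lam * L) - lam * bb| ≤ 1 + lam * bb := by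
            refine (abs_sub _ _).trans ?_
            rw [abs_of_nonneg (by positivity : 0 ≤ lam * bb)]
            linarith
          refine h4.trans ?_
          have h5 : 2 * (1 + lam * bb) / δ' ≤ L' := by linarith
          rw [div_le_iff₀ hδ'0] at h5
          linarith
        have h4 : |(m : ℝ) * (p n - 1 / L')| ≤ δ' / 2 := by
          rw [abs_mul, abs_of_nonneg (Nat.cast_nonneg m)]
          calc (m : ℝ) * |p n - 1 / L'| ≤ m * (ε' / L') := mul_le_mul_of_nonneg_left h1 (Nat.cast_nonneg _)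
            _ = (m / L') * ε' := by ring
            _ ≤ (lam + 1) * (δ' / (2 * (lam + 1))) := by
                apply mul_le_mul _ (by rw [hε']; exact min_le_right _ _) hε'0.le (by positivity)
                rw [div_le_iff₀ hL'0]
                nlinarith
            _ = δ' / 2 := by field_simp
        calc _ ≤ |(m : ℝ) / L' - lam| + |(m : ℝ) * (p n - 1 / L')| := abs_add_le _ _
          _ ≤ δ' / 2 + δ' / 2 := add_le_add h3 h4
          _ = δ' := by ring
          _ ≤ δ j := hδ'1 j hj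
      have h3 := hM₀ j m hMj (p n) h2
      have h4 : sn j n = (m.choose j : ℝ) * p n ^ j * (1 - p n) ^ (m - j) := by
        rw [hsn]
        simp only
        have := Poi.binom (f n) (hf01 n) (p n) (by rw [hp]) m j
        rw [hΦ]
        exact this
      rw [h4]
      exact h3
    have hs2 : ∀ n, |sn j n - pw lam j| ≤ 2 := by
      intro n
      have h1 : |sn j n| ≤ 1 := by rw [hsn]; exact Poi.s_le m (f n) (Φ j) (hΦ1 j)
      have h2 : |pw lam j| ≤ 1 := by
        rw [abs_of_nonneg (pw_nonneg hlam.le j)]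
        exact (single_le_sum (fun i _ => pw_nonneg hlam.le i) (mem_range.2 (Nat.lt_succ_self j))).trans (hJ2 (j + 1))
      calc |sn j n - pw lam j| ≤ |sn j n| + |pw lam j| := abs_sub _ _
        _ ≤ 2 := by linarith
    have e1 : μ j - pw lam j * N = ∑ n ∈ Icc 1 N, (sn j n - pw lam j) := by
      rw [sum_sub_distrib, sum_const, Nat.card_Icc, nsmul_eq_mul, hμ]
      simp
      ring
    rw [e1]
    refine (abs_sum_le_sum_abs _ _).trans ?_
    rw [← sum_filter_add_sum_filter_not (Icc 1 N) (fun n => n + c ∈ E)]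
    have h1 : ∑ n ∈ (Icc 1 N).filter (fun n => n + c ∈ E), |sn j n - pw lam j| ≤ ε₁ / 2 * N := by
      have h2 : ((Icc 1 N).filter (fun n => n + c ∈ E)).card ≤ E.card := by
        apply card_le_card_of_injOn (fun n => n + c)
        · intro n hn; simp only [coe_filter, Set.mem_ofPred_eq] at hn; exact hn.2
        · intro n _ n' _ h; simp only at h; omega
      calc ∑ n ∈ (Icc 1 N).filter (fun n => n + c ∈ E), |sn j n - pw lam j| ≤
          ∑ _n ∈ (Icc 1 N).filter (fun n => n + c ∈ E), (2 : ℝ) := sum_le_sum fun n _ => hs2 n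
        _ = ((Icc 1 N).filter (fun n => n + c ∈ E)).card * 2 := by rw [sum_const, nsmul_eq_mul]
        _ ≤ (E.card : ℝ) * 2 := by
            apply mul_le_mul_of_nonneg_right _ (by norm_num)
            exact_mod_cast h2
        _ ≤ (N' / L' ^ 1) * 2 := mul_le_mul_of_nonneg_right hE1 (by norm_num)
        _ ≤ ε₁ / 2 * N := by
            rw [pow_one, div_mul_eq_mul_div, div_le_iff₀ hL'0, hN']
            push_cast
            have h5 : 4 * ((B : ℝ) + 1) / ε₁ ≤ L' := by linarith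
            rw [div_le_iff₀ hε₁0] at h5
            have h6 : 4 * ((B : ℝ) + 1) * N ≤ (L' * ε₁) * N := mul_le_mul_of_nonneg_right h5 hN0.le
            linarith
    have h2 : ∑ n ∈ (Icc 1 N).filter (fun n => ¬ n + c ∈ E), |sn j n - pw lam j| ≤ ε₁ / 2 * N := by
      calc ∑ n ∈ (Icc 1 N).filter (fun n => ¬ n + c ∈ E), |sn j n - pw lam j| ≤
          ∑ _n ∈ (Icc 1 N).filter (fun n => ¬ n + c ∈ E), ε₁ / 2 := by
            apply sum_le_sum
            intro n hn
            rw [mem_filter] at hn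
            exact hs1 n hn.1 hn.2
        _ = ((Icc 1 N).filter (fun n => ¬ n + c ∈ E)).card * (ε₁ / 2) := by rw [sum_const, nsmul_eq_mul]
        _ ≤ (N : ℝ) * (ε₁ / 2) := by
            apply mul_le_mul_of_nonneg_right _ (by positivity)
            have := card_filter_le (Icc 1 N) (fun n => ¬ n + c ∈ E)
            rw [Nat.card_Icc] at this
            exact_mod_cast this
        _ = _ := by ring
    linarith
  -- second moment
  have hsecond : ∀ j, ∑ ω : Fin m → s, (D j ω - μ j) ^ 2 ≤ A ^ m * (32 * (lam + 1) * B' ^ 2 * N ^ 2 / L) := by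
    intro j
    have e1 : ∑ ω : Fin m → s, D j ω = A ^ m * μ j := by
      rw [hD, hμ, hsn]
      simp only
      rw [sum_comm, mul_sum]
      apply sum_congr rfl
      intro n _
      unfold Poi.s Poi.S
      rw [← hA]
      field_simp
    have e2 : ∑ ω : Fin m → s, D j ω ^ 2 = A ^ m * ∑ n ∈ Icc 1 N, ∑ n' ∈ Icc 1 N, Poi.t m (f n) (f n') (Φ j) (Φ j) := by
      rw [hD]
      simp only
      have e3 : ∀ ω : Fin m → s, (∑ n ∈ Icc 1 N, Φ j (∑ l, f n (ω l))) ^ 2 =
          ∑ n ∈ Icc 1 N, ∑ n' ∈ Icc 1 N, Φ j (∑ l, f n (ω l)) * Φ j (∑ l, f n' (ω l)) := by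
        intro ω; rw [pow_two, sum_mul_sum]
      rw [sum_congr rfl (fun ω _ => e3 ω), sum_comm, mul_sum]
      apply sum_congr rfl
      intro n _
      rw [sum_comm, mul_sum]
      apply sum_congr rfl
      intro n' _
      unfold Poi.t Poi.T
      rw [← hA]
      field_simp
    have hcardω : ((univ : Finset (Fin m → s)).card : ℝ) = A ^ m := by
      rw [card_univ, Fintype.card_fun, Fintype.card_fin, hA]
      push_cast; rfl
    have e4 : ∑ ω : Fin m → s, (D j ω - μ j) ^ 2 =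
        A ^ m * ∑ n ∈ Icc 1 N, ∑ n' ∈ Icc 1 N, (Poi.t m (f n) (f n') (Φ j) (Φ j) - Poi.s m (f n) (Φ j) * Poi.s m (f n') (Φ j)) := by
      have e5 : ∀ ω : Fin m → s, (D j ω - μ j) ^ 2 = D j ω ^ 2 - 2 * μ j * D j ω + μ j ^ 2 := fun ω => by ring
      rw [sum_congr rfl (fun ω _ => e5 ω), sum_add_distrib, sum_sub_distrib, ← mul_sum, e1, e2, sum_const, nsmul_eq_mul,
        hcardω]
      simp_rw [sum_sub_distrib]
      have e6 : ∑ n ∈ Icc 1 N, ∑ n' ∈ Icc 1 N, Poi.s m (f n) (Φ j) * Poi.s m (f n') (Φ j) = μ j ^ 2 := by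
        rw [hμ, hsn]
        simp only
        rw [pow_two, sum_mul_sum]
      rw [e6]
      ring
    rw [e4]
    apply mul_le_mul_of_nonneg_left _ (by positivity)
    have h1 : ∀ n n', Poi.t m (f n) (f n') (Φ j) (Φ j) - Poi.s m (f n) (Φ j) * Poi.s m (f n') (Φ j) ≤
        m * (4 * ((∑ a : s, (f n a : ℝ) * f n' a) / Fintype.card s + p n * p n')) := by
      intro n n'
      refine (le_abs_self _).trans ?_
      have := Poi.cov01 (f n) (f n') (hf01 n) (hf01 n') m (Φ j) (Φ j) (hΦ1 j) (hΦ1 j)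
      rw [hp]
      exact this
    refine (sum_le_sum fun n _ => sum_le_sum fun n' _ => h1 n n').trans ?_
    have e7 : ∑ n ∈ Icc 1 N, ∑ n' ∈ Icc 1 N, (m : ℝ) * (4 * ((∑ a : s, (f n a : ℝ) * f n' a) / Fintype.card s + p n * p n')) =
        m * 4 * (∑ n ∈ Icc 1 N, ∑ n' ∈ Icc 1 N, (∑ a : s, (f n a : ℝ) * f n' a) / Fintype.card s + (∑ n ∈ Icc 1 N, p n) ^ 2) := by
      rw [pow_two, sum_mul_sum, ← sum_add_distrib, mul_sum]
      apply sum_congr rfl
      intro n _
      rw [← sum_add_distrib, mul_sum]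
      apply sum_congr rfl
      intro n' _
      ring
    rw [e7]
    have h2 : (∑ n ∈ Icc 1 N, p n) ^ 2 ≤ (2 * B' * (N / L)) ^ 2 := pow_le_pow_left₀ (sum_nonneg fun n _ => hp0 n) hpsum 2
    have h3 : (m : ℝ) ≤ (lam + 1) * L := by nlinarith
    calc (m : ℝ) * 4 * (∑ n ∈ Icc 1 N, ∑ n' ∈ Icc 1 N, (∑ a : s, (f n a : ℝ) * f n' a) / Fintype.card s + (∑ n ∈ Icc 1 N, p n) ^ 2)
        ≤ ((lam + 1) * L) * 4 * ((2 * B' * (N / L)) ^ 2 + (2 * B' * (N / L)) ^ 2) := by
          apply mul_le_mul (mul_le_mul_of_nonneg_right h3 (by norm_num)) (add_le_add hpp h2) _ (by positivity)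
          apply add_nonneg _ (by positivity)
          exact sum_nonneg fun n _ => sum_nonneg fun n' _ => by positivity
      _ = _ := by field_simp; ring
  -- Chebyshev and the union
  have hch : ∀ j < J, (((univ : Finset (Fin m → s)).filter (fun ω => 2 * ε₁ * N < |D j ω - pw lam j * N|)).card : ℝ) ≤
      (32 * (lam + 1) * B' ^ 2 / ε₁ ^ 2) / L * A ^ m := by
    intro j hj
    have h1 : (((univ : Finset (Fin m → s)).filter (fun ω => 2 * ε₁ * N < |D j ω - pw lam j * N|)).card : ℝ) * (ε₁ * N) ^ 2 ≤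
        ∑ ω : Fin m → s, (D j ω - μ j) ^ 2 := by
      rw [card_eq_sum_ones, Nat.cast_sum, sum_mul]
      refine (sum_le_sum (fun ω hω => ?_)).trans (sum_le_sum_of_subset_of_nonneg (filter_subset _ _) fun ω _ _ => by positivity)
      rw [mem_filter] at hω
      rw [Nat.cast_one, one_mul, ← sq_abs (D j ω - μ j)]
      apply pow_le_pow_left₀ (by positivity)
      have h2 := hfirst j hj
      have h3 : D j ω - pw lam j * N = (D j ω - μ j) + (μ j - pw lam j * N) := by ring
      have h4 := abs_add_le (D j ω - μ j) (μ j - pw lam j * N)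
      rw [← h3] at h4
      linarith [hω.2]
    have h2 := h1.trans (hsecond j)
    have h3 : 0 < (ε₁ * N) ^ 2 := by positivity
    rw [← le_div_iff₀ h3] at h2
    refine h2.trans (le_of_eq ?_)
    field_simp
  have hsub : (univ : Finset (Fin m → s)).filter (fun ω => ¬ ∀ j : ℕ,
      |((((Icc 1 N).filter (fun n => ((univ : Finset (Fin m)).filter
        (fun l => (n + c + (y (ω l)).val).Prime)).card = j)).card : ℕ) : ℝ) - pw lam j * N| ≤ ε * N) ⊆
      (range J).biUnion (fun j => (univ : Finset (Fin m → s)).filter (fun ω => 2 * ε₁ * N < |D j ω - pw lam j * N|)) := by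
    intro ω hω
    rw [mem_filter] at hω
    rw [mem_biUnion]
    by_contra hcon
    push Not at hcon
    apply hω.2
    have hc1 : ∀ j < J, |D j ω - pw lam j * N| ≤ 2 * ε₁ * N := by
      intro j hj
      have := hcon j (mem_range.2 hj)
      rw [mem_filter] at this
      push Not at this
      exact this (mem_univ _)
    intro j
    rw [hDe j ω]
    have hJ0 : 0 < ((J : ℝ) + 1) := by positivity
    have he1 : 2 * ε₁ ≤ ε / 4 := by
      rw [hε₁]
      rw [mul_div_assoc', div_le_div_iff₀ (by positivity) (by norm_num)]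
      have : (0 : ℝ) ≤ J := Nat.cast_nonneg _
      nlinarith
    have he2 : J * (2 * ε₁) ≤ ε / 4 := by
      rw [hε₁]
      rw [mul_div_assoc', mul_div_assoc', div_le_div_iff₀ (by positivity) (by norm_num)]
      nlinarith
    rcases Nat.lt_or_ge j J with hj | hj
    · refine (hc1 j hj).trans ?_
      apply mul_le_mul_of_nonneg_right _ hN0.le
      linarith
    · -- the tail
      have hDn : ∀ i, 0 ≤ D i ω := by
        intro i
        rw [hD, hΦ]
        simp only
        exact sum_nonneg fun n _ => by split_ifs <;> norm_num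
      have hDs : ∑ i ∈ range (j + 1), D i ω ≤ N := by
        rw [hD]
        simp only
        rw [sum_comm]
        calc ∑ n ∈ Icc 1 N, ∑ i ∈ range (j + 1), Φ i (∑ l, f n (ω l)) ≤ ∑ _n ∈ Icc 1 N, (1 : ℝ) := by
              apply sum_le_sum
              intro n _
              rw [hΦ]
              simp only
              rw [sum_ite_eq]
              split_ifs <;> norm_num
          _ = N := by rw [sum_const, Nat.card_Icc, nsmul_eq_mul]; simp
      have h1 : (∑ i ∈ range J, D i ω) + D j ω ≤ N := by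
        refine le_trans ?_ hDs
        rw [sum_range_succ]
        apply add_le_add _ le_rfl
        exact sum_le_sum_of_subset_of_nonneg (range_subset_range.2 hj) fun i _ _ => hDn i
      have h2 : ∑ i ∈ range J, (pw lam i * N - 2 * ε₁ * N) ≤ ∑ i ∈ range J, D i ω := by
        apply sum_le_sum
        intro i hi
        have := (abs_le.1 (hc1 i (mem_range.1 hi))).1
        linarith
      rw [sum_sub_distrib, ← sum_mul, sum_const, card_range, nsmul_eq_mul] at h2
      have h3 : pw lam j ≤ ε / 4 := by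
        have h4 := hJ2 (j + 1)
        rw [sum_range_succ] at h4
        have h5 : ∑ i ∈ range J, pw lam i ≤ ∑ i ∈ range j, pw lam i :=
          sum_le_sum_of_subset_of_nonneg (range_subset_range.2 hj) fun i _ _ => pw_nonneg hlam.le i
        linarith
      have h6 := pw_nonneg hlam.le j
      rw [abs_le]
      have h7 : D j ω ≤ N * (ε / 2) := by
        have h8 : (1 - ε / 4) * N ≤ (∑ i ∈ range J, pw lam i) * N := mul_le_mul_of_nonneg_right hJ1 hN0.le
        have h9 : (J : ℝ) * (2 * ε₁ * N) ≤ ε / 4 * N := by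
          calc (J : ℝ) * (2 * ε₁ * N) = (J * (2 * ε₁)) * N := by ring
            _ ≤ _ := mul_le_mul_of_nonneg_right he2 hN0.le
        linarith
      have h10 := hDn j
      constructor
      · nlinarith
      · nlinarith
  calc _ ≤ (((range J).biUnion (fun j => (univ : Finset (Fin m → s)).filter (fun ω => 2 * ε₁ * N < |D j ω - pw lam j * N|))).card : ℝ) := by
        exact_mod_cast card_le_card hsub
    _ ≤ ∑ j ∈ range J, (((univ : Finset (Fin m → s)).filter (fun ω => 2 * ε₁ * N < |D j ω - pw lam j * N|)).card : ℝ) := by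
        exact_mod_cast card_biUnion_le
    _ ≤ ∑ _j ∈ range J, (32 * (lam + 1) * B' ^ 2 / ε₁ ^ 2) / L * A ^ m := sum_le_sum fun j hj => hch j (mem_range.1 hj)
    _ = (J * (32 * (lam + 1) * B' ^ 2 / ε₁ ^ 2)) / L * A ^ m := by rw [sum_const, card_range, nsmul_eq_mul]; ring
    _ ≤ K / L * A ^ m := by
        apply mul_le_mul_of_nonneg_right _ (by positivity)
        exact div_le_div_of_nonneg_right hK hL0.le
    _ = _ := by rw [hL, hAs]

end Pool.Agent.Run7.h794.MK
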