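import Mathlib
import Pool.Agent.Run7.h931.MK.Ev
import Pool.Agent.Run7.h794.MK.Tra
import Pool.Agent.Run7.h794.MK.Poi2

set_option autoImplicit false

/-! Sparse windows with a precise main term. -/

namespace Pool.Agent.Run7.h794.MK

open Finset Filter
open Pool.Agent.H373R2.T7 (lamz lamI lamzI lamI_nonneg)
open Pool.Agent.N384.MQ (Flat dis dis_nonneg dis_sum_real ev_log_pow ev_log_ge)
open Pool.Agent.Run7.h931.MK (pp_inner card_markov card_small cnt det ev_sub)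

lemma ev1 (B U : ℕ) : ∀ᶠ N : ℕ in atTop, 4 ≤ Real.log N ∧ (U + 1) * Real.log (Real.log N) ≤ Real.log N / 2 ∧
    Real.log (2 * B + 1) + 2 ≤ Real.log (Real.log N) ∧
    2 * √((2 * B + 1) * N) * Real.log ((2 * B + 1) * N) / (1 / Real.log N ^ 2) ≤ N / (4 * Real.log N ^ U) ∧
    1 < N / Real.log N ^ (U + 1) ∧ 1 ≤ N := by
  have h0 : Tendsto (fun N : ℕ => Real.log (Real.log N)) atTop atTop :=
    Real.tendsto_log_atTop.comp (Real.tendsto_log_atTop.comp (tendsto_natCast_atTop_atTop (R := ℝ)))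
  filter_upwards [ev_log_ge 4, ev_sub (U + 1) 0 (1 / 2) (by norm_num), h0.eventually_ge_atTop (Real.log (2 * B + 1) + 2),
    ev_log_ge (Real.log (2 * B + 1)), ev_log_pow (2 * U + 6) (256 * (2 * B + 1)), ev_log_pow (U + 1) 2,
    eventually_ge_atTop 1] with N h1 h2 h3 h4 h5 h6 h7
  have hN : (1 : ℝ) ≤ N := by exact_mod_cast h7
  obtain ⟨L, hL⟩ : ∃ L, L = Real.log N := ⟨_, rfl⟩
  rw [← hL] at h1 h2 h3 h4 h5 h6 ⊢
  have hL0 : 0 < L := by linarith
  have hB0 : (0 : ℝ) < 2 * B + 1 := by positivity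
  refine ⟨h1, ?_, h3, ?_, ?_, h7⟩
  · push_cast at h2; linarith
  · have hlX : Real.log ((2 * B + 1) * N) ≤ 2 * L := by
      rw [Real.log_mul hB0.ne' (by positivity), ← hL]; linarith
    have hs : √((2 * B + 1) * (N : ℝ)) ≤ N / (16 * L ^ (U + 3)) := by
      rw [Real.sqrt_le_left (by positivity), div_pow, le_div_iff₀ (by positivity)]
      calc (2 * (B : ℝ) + 1) * N * (16 * L ^ (U + 3)) ^ 2 = (256 * (2 * B + 1) * L ^ (2 * U + 6)) * N := by ring
        _ ≤ N * N := mul_le_mul_of_nonneg_right h5 (by linarith)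
        _ = (N : ℝ) ^ 2 := (sq _).symm
    rw [div_div_eq_mul_div, div_one]
    have hlX0 : 0 ≤ Real.log ((2 * B + 1) * N) := by
      apply Real.log_nonneg
      have : (0 : ℝ) ≤ B := Nat.cast_nonneg _
      nlinarith
    calc 2 * √((2 * B + 1) * (N : ℝ)) * Real.log ((2 * B + 1) * N) * L ^ 2 ≤
        2 * (N / (16 * L ^ (U + 3))) * (2 * L) * L ^ 2 := by gcongr
      _ = N / (4 * L ^ U) := by field_simp; ring
  · rw [lt_div_iff₀ (by positivity), one_mul]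
    have : 0 < L ^ (U + 1) := by positivity
    linarith

theorem sw1 (h31 : S_T31) (B U : ℕ) : ∃ V C K N₀ : ℕ, ∀ N : ℕ, N₀ ≤ N →
    ∀ (q : ℕ) [NeZero q], (N : ℝ) ^ (1 / 3 : ℝ) * Real.log N ^ C ≤ q → q ≤ B * N →
    ∀ {ι : Type} (s : Finset ι) (y : ι → ZMod q), s.Nonempty → Flat q (1 / Real.log N ^ V) s y →
    ∀ c : ℕ, c ≤ B * N → ∃ E : Finset ℕ, (E.card : ℝ) ≤ N / Real.log N ^ U ∧ ∀ n : ℕ, 1 ≤ n → n ≤ N → n ∉ E →
      |((s.filter fun i => (n + c + (y i).val).Prime).card : ℝ) / s.card - 1 / Real.log N| ≤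
        K * (Real.log (Real.log N) / Real.log N ^ 2) := by
  classical
  obtain ⟨V, C, N₁, h31'⟩ := h31 1 B (U + 5)
  obtain ⟨N₂, hev⟩ := eventually_atTop.1 ((ev1 B U).and (ev_log_ge B))
  refine ⟨V, C, 2 * (U + 2), N₁ + N₂, fun N hN q _ hq1 hq2 ι s y hs hf c hc => ?_⟩
  obtain ⟨⟨e1, e2, e3, e4, e5, e6⟩, e7⟩ := hev N (by omega)
  have hM := msh_dis hs hq1 hq2 hf
  have hN1 : (1 : ℝ) ≤ N := by exact_mod_cast e6
  have h1 := h31' N (by omega) q _ hM 1 one_ne_zero (by simp; linarith) c (by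
    rw [pow_one, Int.cast_natCast, Nat.abs_cast]
    calc (c : ℝ) ≤ B * N := by exact_mod_cast hc
      _ ≤ Real.log N * N := mul_le_mul_of_nonneg_right e7 (by linarith)
      _ = _ := mul_comm _ _)
  obtain ⟨-, -, hp0, hp1, -⟩ := hM
  obtain ⟨p, hp⟩ : ∃ p : ℕ → ℝ, p = dis s y := ⟨_, rfl⟩
  rw [← hp] at h1 hp0 hp1
  obtain ⟨L, hL⟩ : ∃ L, L = Real.log N := ⟨_, rfl⟩
  rw [← hL] at e1 e2 e3 e4 e5 e7 h1 ⊢
  have hL0 : 0 < L := by linarith
  have hLU : (0 : ℝ) < L ^ U := pow_pos hL0 U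
  obtain ⟨X, hX⟩ : ∃ X : ℝ, X = (2 * B + 1) * N := ⟨_, rfl⟩
  obtain ⟨R, hR⟩ : ∃ R : ℝ, R = N / L ^ (U + 1) := ⟨_, rfl⟩
  rw [← hX] at e4
  rw [← hR] at e5
  have hB0 : (0 : ℝ) ≤ B := Nat.cast_nonneg _
  have hX1 : 1 ≤ X := by rw [hX]; nlinarith
  have hup : ∀ n ∈ Icc 1 N, ∀ v ∈ range q, (((n : ℤ) + ((c : ℤ) + 1 * (v : ℕ)) : ℤ) : ℝ) ≤ X := by
    intro n hn v hv
    rw [mem_Icc] at hn
    rw [mem_range] at hv
    have h2 : n + (c + v) ≤ (2 * B + 1) * N := by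
      have : (2 * B + 1) * N = N + (B * N + B * N) := by ring
      omega
    have h3 : ((n + (c + v) : ℕ) : ℝ) ≤ (2 * B + 1) * N := by exact_mod_cast h2
    rw [hX]
    push_cast at h3 ⊢
    linarith
  -- the three bad sets
  obtain ⟨F, hF⟩ : ∃ F : ℕ → ℝ, F = fun n : ℕ => ∑ v ∈ range q, p v *
      (lamI ((n : ℤ) + ((c : ℤ) + 1 * (v : ℕ))) - mkI (1 : ℤ).natAbs ((n : ℤ) + ((c : ℤ) + 1 * (v : ℕ)))) := ⟨_, rfl⟩
  obtain ⟨G, hG⟩ : ∃ G : ℕ → ℝ, G = fun n : ℕ => ∑ v ∈ range q, p v *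
      (if ((n : ℤ) + ((c : ℤ) + 1 * (v : ℕ))).toNat.Prime then 0 else lamI ((n : ℤ) + ((c : ℤ) + 1 * (v : ℕ)))) := ⟨_, rfl⟩
  have hFs : ∑ n ∈ Icc 1 N, F n ^ 2 ≤ N / L ^ (U + 5) := by rw [hF]; exact h1
  have hG0 : ∀ n, 0 ≤ G n := by
    intro n
    rw [hG]
    apply sum_nonneg
    intro v _
    apply mul_nonneg (hp0 v)
    split_ifs
    · exact le_rfl
    · exact lamI_nonneg _
  have hGs : ∑ n ∈ Icc 1 N, G n ≤ 2 * √X * Real.log X := by
    rw [hG]
    rw [sum_comm]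
    calc ∑ v ∈ range q, ∑ n ∈ Icc 1 N, p v *
        (if ((n : ℤ) + ((c : ℤ) + 1 * (v : ℕ))).toNat.Prime then 0 else lamI ((n : ℤ) + ((c : ℤ) + 1 * (v : ℕ)))) ≤
        ∑ v ∈ range q, p v * (2 * √X * Real.log X) := by
          apply sum_le_sum
          intro v hv
          rw [← mul_sum]
          exact mul_le_mul_of_nonneg_left (pp_inner N _ X hX1 fun n hn => hup n hn v hv) (hp0 v)
      _ = 2 * √X * Real.log X := by rw [← sum_mul, hp1, one_mul]
  obtain ⟨B1, hB1⟩ : ∃ B : Finset ℕ, B = (Icc 1 N).filter (fun n => (1 / L ^ 2) ^ 2 < F n ^ 2) := ⟨_, rfl⟩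
  obtain ⟨B2, hB2⟩ : ∃ B : Finset ℕ, B = (Icc 1 N).filter (fun n => 1 / L ^ 2 < G n) := ⟨_, rfl⟩
  obtain ⟨B3, hB3⟩ : ∃ B : Finset ℕ, B = (Icc 1 N).filter
      (fun n : ℕ => 0 < (n : ℤ) + 0 ∧ (((n : ℤ) + 0 : ℤ) : ℝ) < N / L ^ (U + 1)) := ⟨_, rfl⟩
  have hLL : 4 * L ^ U ≤ L ^ (U + 1) := by rw [pow_succ]; nlinarith
  have c1 : (B1.card : ℝ) ≤ N / (4 * L ^ U) := by
    rw [hB1]
    refine (card_markov _ (fun n => F n ^ 2) (fun i _ => sq_nonneg _) ((1 / L ^ 2) ^ 2) _ (by positivity) hFs).trans ?_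
    have e : (N : ℝ) / L ^ (U + 5) / (1 / L ^ 2) ^ 2 = N / L ^ (U + 1) := by
      field_simp
      ring
    rw [e]
    exact div_le_div_of_nonneg_left (by linarith) (by positivity) hLL
  have c2 : (B2.card : ℝ) ≤ N / (4 * L ^ U) := by
    rw [hB2]
    exact (card_markov _ G (fun i _ => hG0 i) (1 / L ^ 2) _ (by positivity) hGs).trans e4
  have c3 : (B3.card : ℝ) ≤ N / (4 * L ^ U) := by
    rw [hB3]
    refine (card_small N 0 _ (by positivity)).trans ?_
    exact div_le_div_of_nonneg_left (by linarith) (by positivity) hLL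
  refine ⟨B1 ∪ B2 ∪ B3, ?_, fun n hn1 hnN hnE => ?_⟩
  · have h2 : ((B1 ∪ B2 ∪ B3).card : ℝ) ≤ B1.card + B2.card + B3.card := by
      exact_mod_cast (card_union_le _ _).trans (Nat.add_le_add_right (card_union_le _ _) _)
    have h3 : (N : ℝ) / (4 * L ^ U) = N / L ^ U / 4 := by rw [div_div, mul_comm]
    have h4 : 0 ≤ (N : ℝ) / L ^ U := by positivity
    rw [h3] at c1 c2 c3
    linarith
  · have hnI : n ∈ Icc 1 N := mem_Icc.2 ⟨hn1, hnN⟩
    rw [mem_union, mem_union, not_or, not_or] at hnE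
    obtain ⟨⟨n1, n2⟩, n3⟩ := hnE
    rw [hB1, mem_filter, not_and] at n1
    rw [hB2, mem_filter, not_and] at n2
    rw [hB3, mem_filter, not_and] at n3
    have n1' := not_lt.1 (n1 hnI)
    have n2' := not_lt.1 (n2 hnI)
    have n3' : R ≤ n := by
      have h2 := n3 hnI
      rw [not_and] at h2
      have h3 := not_lt.1 (h2 (by omega))
      rw [← hR] at h3
      push_cast at h3
      linarith
    have hdet := det q p hp0 1 c n R X e5 (fun v hv => ⟨by
      push_cast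
      have : (0 : ℝ) ≤ c := Nat.cast_nonneg _
      have : (0 : ℝ) ≤ v := Nat.cast_nonneg _
      linarith, hup n hnI v hv⟩)
    obtain ⟨S, hS⟩ : ∃ S, S = ∑ v ∈ range q, p v * lamI ((n : ℤ) + ((c : ℤ) + 1 * (v : ℕ))) := ⟨_, rfl⟩
    have hFS : F n = S - 1 := by
      rw [hF, hS]
      simp only [mul_sub, sum_sub_distrib]
      congr 1
      rw [← hp1]
      apply sum_congr rfl
      intro v _
      have : mkI (1 : ℤ).natAbs ((n : ℤ) + ((c : ℤ) + 1 * (v : ℕ))) = 1 := by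
        unfold mkI mk
        rw [if_pos (by omega)]
        simp
      rw [this, mul_one]
    have hGn : ∑ v ∈ range q, p v *
      (if ((n : ℤ) + ((c : ℤ) + 1 * (v : ℕ))).toNat.Prime then 0 else lamI ((n : ℤ) + ((c : ℤ) + 1 * (v : ℕ)))) = G n := by
      rw [hG]
    rw [← hS, hGn] at hdet
    rw [hFS] at n1'
    have hcnt : cnt q p 1 c n = ((s.filter fun i => (n + c + (y i).val).Prime).card : ℝ) / s.card := by
      unfold cnt
      rw [hp]
      have h3 := dis_sum_real s y q le_rfl (fun v => if ((n : ℤ) + ((c : ℤ) + 1 * (v : ℕ))).toNat.Prime then (1 : ℝ) else 0)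
      rw [h3]
      congr 1
      rw [card_filter]
      push_cast
      apply sum_congr rfl
      intro i _
      have : ((n : ℤ) + ((c : ℤ) + 1 * (((y i).val : ℕ) : ℤ))).toNat = n + c + (y i).val := by omega
      rw [this]
    rw [hcnt] at hdet
    obtain ⟨P, hP⟩ : ∃ P : ℝ, P = ((s.filter fun i => (n + c + (y i).val).Prime).card : ℝ) / s.card := ⟨_, rfl⟩
    rw [← hP] at hdet ⊢
    have hP0 : 0 ≤ P := by rw [hP]; positivity
    have hS2 : |S - 1| ≤ 1 / L ^ 2 := abs_le_of_sq_le_sq n1' (by positivity)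
    obtain ⟨ℓ, hℓ⟩ : ∃ ℓ, ℓ = Real.log L := ⟨_, rfl⟩
    rw [← hℓ] at e2 e3 ⊢
    have hlR : Real.log R = L - (U + 1) * ℓ := by
      rw [hR, Real.log_div (by positivity) (by positivity), Real.log_pow, ← hL, ← hℓ]; push_cast; ring
    have hlX : Real.log X = L + Real.log (2 * B + 1) := by
      rw [hX, Real.log_mul (by positivity) (by positivity), ← hL]; ring
    have hlB : 0 ≤ Real.log (2 * (B : ℝ) + 1) := Real.log_nonneg (by linarith)
    rw [hlR, hlX] at hdet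
    have hS3 := abs_le.1 hS2
    have hL2 : 1 / L ^ 2 ≤ 1 / L := by
      apply one_div_le_one_div_of_le hL0
      nlinarith
    have hL3 : 1 / L ≤ 1 := by rw [div_le_one hL0]; linarith
    have hℓ2 : 2 ≤ ℓ := by linarith
    have hU0 : (0 : ℝ) ≤ U := Nat.cast_nonneg _
    rw [abs_le]
    push_cast
    constructor
    · -- lower bound
      have h5 : 1 - 2 / L ^ 2 ≤ (L + Real.log (2 * B + 1)) * P := by
        have : 2 / L ^ 2 = 1 / L ^ 2 + 1 / L ^ 2 := by ring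
        linarith [hdet.2]
      have h6 : (1 - 2 / L ^ 2) ≤ (L + ℓ) * P := h5.trans (mul_le_mul_of_nonneg_right (by linarith) hP0)
      have h7 : 1 / L - 2 * ((U : ℝ) + 2) * (ℓ / L ^ 2) ≤ P := by
        have h8 : (1 / L - 2 * ((U : ℝ) + 2) * (ℓ / L ^ 2)) * (L + ℓ) ≤ 1 - 2 / L ^ 2 := by
          have e : (1 / L - 2 * ((U : ℝ) + 2) * (ℓ / L ^ 2)) * (L + ℓ) =
              1 + ℓ / L - 2 * (U + 2) * (ℓ / L) - 2 * (U + 2) * (ℓ ^ 2 / L ^ 2) := by
            field_simp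
            ring
          rw [e]
          have h9 : 0 ≤ ℓ / L := by positivity
          have h10 : 2 / L ^ 2 ≤ ℓ ^ 2 / L ^ 2 := by
            apply div_le_div_of_nonneg_right _ (by positivity); nlinarith
          have h11 : 0 ≤ ℓ ^ 2 / L ^ 2 := by positivity
          nlinarith [mul_nonneg hU0 h9, mul_nonneg hU0 h11]
        have h12 : 0 < L + ℓ := by linarith
        have h13 : (1 / L - 2 * ((U : ℝ) + 2) * (ℓ / L ^ 2)) * (L + ℓ) ≤ P * (L + ℓ) := by linarith [h8, h6]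
        exact le_of_mul_le_mul_right h13 h12
      linarith
    · -- upper bound
      have h5 : (L - (U + 1) * ℓ) * P ≤ 1 + 1 / L ^ 2 := by linarith [hdet.1]
      have h6 : 0 < L - (U + 1) * ℓ := by linarith
      have h7 : P ≤ (1 + 1 / L ^ 2) / (L - (U + 1) * ℓ) := by
        rw [le_div_iff₀ h6]; linarith
      refine (sub_le_sub_right h7 _).trans ?_
      have e : (1 + 1 / L ^ 2) / (L - (U + 1) * ℓ) - 1 / L = (1 / L + (U + 1) * ℓ) / (L * (L - (U + 1) * ℓ)) := by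
        field_simp
        ring
      rw [e]
      calc (1 / L + (U + 1) * ℓ) / (L * (L - (U + 1) * ℓ)) ≤ ((U + 2) * ℓ) / (L * (L / 2)) := by
            apply div_le_div₀ (by positivity) (by nlinarith) (by positivity)
            apply mul_le_mul_of_nonneg_left _ hL0.le
            linarith
        _ = 2 * (U + 2) * (ℓ / L ^ 2) := by field_simp

end Pool.Agent.Run7.h794.MK
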