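import Mathlib

set_option autoImplicit false

/-! The first two moments of the number of the rows which avoid a random sample of columns. -/

namespace Pool.Agent.Run7.h794.MK.Emp

open Finset Filter

variable {α : Type} [Fintype α] [Nonempty α]

/-- the proportion of the columns avoided by the row `n` -/
noncomputable def u (f : ℕ → α → ℝ) (n : ℕ) : ℝ := (∑ a, (1 - f n a)) / Fintype.card α
/-- the proportion of the columns avoided by the rows `n`, `k` -/
noncomputable def w (f : ℕ → α → ℝ) (n k : ℕ) : ℝ := (∑ a, (1 - f n a) * (1 - f k a)) / Fintype.card α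
/-- the proportion of the columns hit by both rows -/
noncomputable def c (f : ℕ → α → ℝ) (n k : ℕ) : ℝ := (∑ a, f n a * f k a) / Fintype.card α
/-- the number of the rows which avoid the sample -/
noncomputable def D (N m : ℕ) (f : ℕ → α → ℝ) (ω : Fin m → α) : ℝ := ∑ n ∈ Icc 1 N, ∏ l, (1 - f n (ω l))

lemma cA : (0 : ℝ) < Fintype.card α := by exact_mod_cast Fintype.card_pos

lemma first (N m : ℕ) (f : ℕ → α → ℝ) :
    ∑ ω : Fin m → α, D N m f ω = (Fintype.card α : ℝ) ^ m * ∑ n ∈ Icc 1 N, u f n ^ m := by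
  have h0 := cA (α := α)
  unfold D
  rw [sum_comm, mul_sum]
  apply sum_congr rfl
  intro n _
  unfold u
  rw [div_pow, mul_div_cancel₀ _ (by positivity), Fintype.sum_pow]

lemma second (N m : ℕ) (f : ℕ → α → ℝ) (M : ℝ) :
    ∑ ω : Fin m → α, (D N m f ω - M) ^ 2 = (Fintype.card α : ℝ) ^ m *
      (∑ n ∈ Icc 1 N, ∑ k ∈ Icc 1 N, w f n k ^ m - 2 * M * ∑ n ∈ Icc 1 N, u f n ^ m + M ^ 2) := by
  have h0 := cA (α := α)
  have h1 := first N m f
  have h2 : ∑ ω : Fin m → α, D N m f ω ^ 2 = (Fintype.card α : ℝ) ^ m * ∑ n ∈ Icc 1 N, ∑ k ∈ Icc 1 N, w f n k ^ m := by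
    have e : ∀ ω : Fin m → α, D N m f ω ^ 2 =
        ∑ n ∈ Icc 1 N, ∑ k ∈ Icc 1 N, ∏ l, ((1 - f n (ω l)) * (1 - f k (ω l))) := by
      intro ω
      unfold D
      rw [sq, sum_mul_sum]
      apply sum_congr rfl
      intro n _
      apply sum_congr rfl
      intro k _
      rw [prod_mul_distrib]
    simp only [e]
    rw [sum_comm, mul_sum]
    apply sum_congr rfl
    intro n _
    rw [sum_comm, mul_sum]
    apply sum_congr rfl
    intro k _
    unfold w
    rw [div_pow, mul_div_cancel₀ _ (by positivity), Fintype.sum_pow]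
  have h3 : ∑ _ω : Fin m → α, M ^ 2 = (Fintype.card α : ℝ) ^ m * M ^ 2 := by
    rw [sum_const, card_univ, nsmul_eq_mul, Fintype.card_fun, Fintype.card_fin]
    push_cast
    rfl
  have e2 : ∀ ω : Fin m → α, (D N m f ω - M) ^ 2 = D N m f ω ^ 2 - 2 * M * D N m f ω + M ^ 2 := by
    intro ω; ring
  simp only [e2]
  rw [sum_add_distrib, sum_sub_distrib, ← mul_sum, h1, h2, h3]
  ring

lemma u_eq (f : ℕ → α → ℝ) (n : ℕ) : u f n = 1 - (∑ a, f n a) / Fintype.card α := by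
  have h0 := cA (α := α)
  unfold u
  rw [sum_sub_distrib, sum_const, card_univ, nsmul_eq_mul, mul_one]
  field_simp

lemma u_nonneg (f : ℕ → α → ℝ) (hf : ∀ n a, 0 ≤ f n a ∧ f n a ≤ 1) (n : ℕ) : 0 ≤ u f n := by
  have h0 := cA (α := α)
  unfold u
  apply div_nonneg _ h0.le
  exact sum_nonneg fun a _ => by linarith [(hf n a).2]

lemma w_nonneg (f : ℕ → α → ℝ) (hf : ∀ n a, 0 ≤ f n a ∧ f n a ≤ 1) (n k : ℕ) : 0 ≤ w f n k := by
  have h0 := cA (α := α)
  unfold w
  apply div_nonneg _ h0.le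
  exact sum_nonneg fun a _ => mul_nonneg (by linarith [(hf n a).2]) (by linarith [(hf k a).2])

lemma c_nonneg (f : ℕ → α → ℝ) (hf : ∀ n a, 0 ≤ f n a ∧ f n a ≤ 1) (n k : ℕ) : 0 ≤ c f n k := by
  have h0 := cA (α := α)
  unfold c
  apply div_nonneg _ h0.le
  exact sum_nonneg fun a _ => mul_nonneg (hf n a).1 (hf k a).1

lemma w_le_one (f : ℕ → α → ℝ) (hf : ∀ n a, 0 ≤ f n a ∧ f n a ≤ 1) (n k : ℕ) : w f n k ≤ 1 := by
  have h0 := cA (α := α)
  unfold w
  rw [div_le_one h0]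
  calc ∑ a, (1 - f n a) * (1 - f k a) ≤ ∑ _a : α, (1 : ℝ) := by
        apply sum_le_sum
        intro a _
        have h1 := hf n a
        have h2 := hf k a
        nlinarith [mul_nonneg h1.1 (by linarith [h2.2] : 0 ≤ 1 - f k a)]
    _ = Fintype.card α := by rw [sum_const, card_univ, nsmul_eq_mul, mul_one]

lemma c_le (f : ℕ → α → ℝ) (hf : ∀ n a, 0 ≤ f n a ∧ f n a ≤ 1) (n k : ℕ) : c f n k ≤ 1 - u f n := by
  have h0 := cA (α := α)
  rw [u_eq]
  unfold c
  rw [sub_sub_cancel]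
  apply div_le_div_of_nonneg_right _ h0.le
  apply sum_le_sum
  intro a _
  exact mul_le_of_le_one_right (hf n a).1 (hf k a).2

lemma w_le (f : ℕ → α → ℝ) (hf : ∀ n a, 0 ≤ f n a ∧ f n a ≤ 1) (n k : ℕ) : w f n k ≤ u f n * u f k + c f n k := by
  have h0 := cA (α := α)
  have e1 : w f n k = 1 - (∑ a, f n a) / Fintype.card α - (∑ a, f k a) / Fintype.card α + c f n k := by
    unfold w c
    have : ∀ a, (1 - f n a) * (1 - f k a) = 1 - f n a - f k a + f n a * f k a := by intro a; ring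
    simp only [this]
    rw [sum_add_distrib, sum_sub_distrib, sum_sub_distrib, sum_const, card_univ, nsmul_eq_mul, mul_one]
    field_simp
  have h1 : 0 ≤ (∑ a, f n a) / Fintype.card α := div_nonneg (sum_nonneg fun a _ => (hf n a).1) h0.le
  have h2 : 0 ≤ (∑ a, f k a) / Fintype.card α := div_nonneg (sum_nonneg fun a _ => (hf k a).1) h0.le
  rw [e1, u_eq, u_eq]
  nlinarith [mul_nonneg h1 h2]

/-- the deterministic inequality -/
lemma determ (N m : ℕ) (hN : 1 ≤ N) (f : ℕ → α → ℝ) (hf : ∀ n a, 0 ≤ f n a ∧ f n a ≤ 1) (E : Finset ℕ)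
    (L ℓ δ K K' G : ℝ) (hL : 8 ≤ L) (hℓ : Real.exp ℓ = L) (hK : 0 ≤ K) (hK' : 0 ≤ K')
    (hδ : 0 < δ) (hδ1 : δ ≤ 1) (hm : (m : ℝ) ≤ (1 - δ) * (L * ℓ))
    (hE : (E.card : ℝ) ≤ N / L ^ 4)
    (hu : ∀ n ∈ Icc 1 N, n ∉ E → |(1 - u f n) - 1 / L| ≤ K * (ℓ / L ^ 2))
    (hc : ∑ n ∈ Icc 1 N, ∑ k ∈ Icc 1 N, c f n k ≤ K' * (N / L) ^ 2)
    (hL1 : K * ℓ ≤ L) (hL2 : 4 * K * ℓ ^ 2 ≤ L) (hL3 : ℓ * (8 / L + K * ℓ / L + 8 * K * ℓ / L ^ 2) ≤ Real.log 2)
    (hL4 : 2 ≤ δ * L) (hG1 : 1 ≤ G) (hG : (1 - δ) * ℓ ≤ Real.log G) :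
    ∑ n ∈ Icc 1 N, ∑ k ∈ Icc 1 N, w f n k ^ m - 2 * (N * (1 - 1 / L) ^ m) * ∑ n ∈ Icc 1 N, u f n ^ m +
      (N * (1 - 1 / L) ^ m) ^ 2 ≤ (N * (1 - 1 / L) ^ m) ^ 2 * (20 * K * ℓ ^ 2 / L + 16 * K' * ℓ * G / L + 4 / L) := by
  have hL0 : 0 < L := by linarith
  have hℓ1 : 1 ≤ ℓ := by
    by_contra hcon
    push Not at hcon
    have : Real.exp ℓ < Real.exp 1 := Real.exp_lt_exp.2 hcon
    linarith [Real.exp_one_lt_d9]
  have hN0 : (0 : ℝ) < N := by exact_mod_cast (by omega : 0 < N)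
  obtain ⟨ρ, hρ⟩ : ∃ ρ : ℝ, ρ = 1 - 1 / L := ⟨_, rfl⟩
  have hLi : 1 / L ≤ 1 / 8 := one_div_le_one_div_of_le (by norm_num) hL
  have hLi0 : 0 < 1 / L := by positivity
  have hρ1 : 1 / 2 ≤ ρ := by rw [hρ]; linarith
  have hρ2 : ρ < 1 := by rw [hρ]; linarith
  have hρ0 : 0 < ρ := by linarith
  obtain ⟨η, hη⟩ : ∃ η : ℝ, η = 4 * K * ℓ ^ 2 / L := ⟨_, rfl⟩
  have hη0 : 0 ≤ η := by rw [hη]; positivity
  have hη1 : η ≤ 1 := by rw [hη, div_le_one hL0]; exact hL2
  obtain ⟨θ, hθ⟩ : ∃ θ : ℝ, θ = 2 * K * ℓ / L ^ 2 := ⟨_, rfl⟩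
  have hθ0 : 0 ≤ θ := by rw [hθ]; positivity
  have hmL : (m : ℝ) ≤ L * ℓ := by
    refine hm.trans ?_
    have : 0 ≤ L * ℓ := by positivity
    nlinarith
  have hmθ : m * θ ≤ η / 2 := by
    calc m * θ ≤ L * ℓ * θ := mul_le_mul_of_nonneg_right hmL hθ0
      _ = η / 2 := by rw [hθ, hη]; field_simp; ring
  have hθ1 : θ ≤ 1 := by
    rw [hθ, div_le_one (by positivity)]
    nlinarith
  -- the good rows
  have hgood : ∀ n ∈ Icc 1 N, n ∉ E → |u f n / ρ - 1| ≤ θ := by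
    intro n hn hnE
    have h1 := hu n hn hnE
    have e : u f n / ρ - 1 = -((1 - u f n) - 1 / L) / ρ := by
      rw [show -((1 - u f n) - 1 / L) = u f n - ρ by rw [hρ]; ring]
      field_simp
    rw [e, abs_div, abs_neg, abs_of_pos hρ0, div_le_iff₀ hρ0]
    refine h1.trans ?_
    have h2 : K * (ℓ / L ^ 2) = θ * (1 / 2) := by rw [hθ]; ring
    rw [h2]
    exact mul_le_mul_of_nonneg_left hρ1 hθ0
  have hup : ∀ n ∈ Icc 1 N, n ∉ E → u f n ^ m ≤ ρ ^ m * (1 + η) := by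
    intro n hn hnE
    have h1 := (abs_le.1 (hgood n hn hnE)).2
    have h2 : u f n ≤ ρ * (1 + θ) := by
      have : u f n / ρ ≤ 1 + θ := by linarith
      rw [div_le_iff₀ hρ0] at this
      linarith
    calc u f n ^ m ≤ (ρ * (1 + θ)) ^ m := pow_le_pow_left₀ (u_nonneg f hf n) h2 m
      _ = ρ ^ m * (1 + θ) ^ m := mul_pow _ _ _
      _ ≤ ρ ^ m * (1 + η) := by
          apply mul_le_mul_of_nonneg_left _ (by positivity)
          have h3 : (1 + θ) ^ m ≤ Real.exp (m * θ) := by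
            rw [mul_comm, Real.exp_mul, Real.rpow_natCast]
            apply pow_le_pow_left₀ (by linarith)
            linarith [Real.add_one_le_exp θ]
          refine h3.trans ?_
          have h4 : Real.exp (m * θ) ≤ 1 + (m * θ) + (m * θ) ^ 2 := by
            have h5 := Real.abs_exp_sub_one_sub_id_le (x := m * θ) (by rw [abs_of_nonneg (by positivity)]; linarith)
            linarith [(abs_le.1 h5).2]
          have h6 : 0 ≤ m * θ := by positivity
          nlinarith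
  have hlow : ∀ n ∈ Icc 1 N, n ∉ E → ρ ^ m * (1 - η) ≤ u f n ^ m := by
    intro n hn hnE
    have h1 := (abs_le.1 (hgood n hn hnE)).1
    have h2 : ρ * (1 - θ) ≤ u f n := by
      have : 1 - θ ≤ u f n / ρ := by linarith
      rw [le_div_iff₀ hρ0] at this
      linarith
    calc ρ ^ m * (1 - η) ≤ ρ ^ m * (1 - θ) ^ m := by
          apply mul_le_mul_of_nonneg_left _ (by positivity)
          have h3 := one_add_mul_le_pow (a := -θ) (by linarith) m
          have h4 : 1 + (m : ℝ) * -θ = 1 - m * θ := by ring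
          rw [h4] at h3
          have h5 : (1 + -θ) ^ m = (1 - θ) ^ m := by ring
          rw [h5] at h3
          linarith
      _ = (ρ * (1 - θ)) ^ m := (mul_pow _ _ _).symm
      _ ≤ u f n ^ m := pow_le_pow_left₀ (mul_nonneg hρ0.le (by linarith)) h2 m
  -- `ρ ^ m` is not small
  have hρm : 1 / L ≤ ρ ^ m := by
    have h1 : -(1 / L + 2 / L ^ 2) ≤ Real.log ρ := by
      have h2 := Real.one_sub_inv_le_log_of_pos hρ0
      have h3 : 1 - ρ⁻¹ = -(1 / (L - 1)) := by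
        rw [hρ]
        have : L - 1 ≠ 0 := by linarith
        field_simp
        ring
      rw [h3] at h2
      refine le_trans ?_ h2
      rw [neg_le_neg_iff, div_le_iff₀ (by linarith)]
      have e : (1 / L + 2 / L ^ 2) * (L - 1) = 1 + (1 / L) * (1 - 2 / L) := by
        field_simp
        ring
      rw [e]
      have e2 : 2 / L ≤ 1 := by rw [div_le_one hL0]; linarith
      have : 0 ≤ (1 / L) * (1 - 2 / L) := mul_nonneg hLi0.le (by linarith)
      linarith
    have hLlog : Real.log L = ℓ := by rw [← hℓ, Real.log_exp]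
    have h4 : Real.log (1 / L) ≤ Real.log (ρ ^ m) := by
      rw [Real.log_pow, one_div, Real.log_inv, hLlog]
      have h5 : (m : ℝ) * -(1 / L + 2 / L ^ 2) ≤ m * Real.log ρ := mul_le_mul_of_nonneg_left h1 (Nat.cast_nonneg _)
      have h6 : (m : ℝ) * (1 / L + 2 / L ^ 2) ≤ ℓ := by
        calc (m : ℝ) * (1 / L + 2 / L ^ 2) ≤ ((1 - δ) * (L * ℓ)) * (1 / L + 2 / L ^ 2) :=
              mul_le_mul_of_nonneg_right hm (by positivity)
          _ = ℓ * ((1 - δ) * (1 + 2 / L)) := by field_simp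
          _ ≤ ℓ * 1 := by
              apply mul_le_mul_of_nonneg_left _ (by linarith)
              have : 2 / L ≤ δ := by rw [div_le_iff₀ hL0]; exact hL4
              nlinarith
          _ = ℓ := mul_one _
      linarith
    exact (Real.log_le_log_iff (by positivity) (by positivity)).1 h4
  -- the good pairs
  have hpair : ∀ n ∈ Icc 1 N, n ∉ E → ∀ k ∈ Icc 1 N, k ∉ E →
      w f n k ^ m ≤ (ρ ^ m * (1 + η)) ^ 2 * (1 + 4 * (L * ℓ) * G * c f n k) := by
    intro n hn hnE k hk hkE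
    have hun := u_nonneg f hf n
    have huk := u_nonneg f hf k
    have hc0 := c_nonneg f hf n k
    have hKL : K * (ℓ / L ^ 2) ≤ 1 / L := by
      have : K * (ℓ / L ^ 2) = (K * ℓ) / L * (1 / L) := by ring
      rw [this]
      have h2 : (K * ℓ) / L ≤ 1 := by rw [div_le_one hL0]; exact hL1
      calc (K * ℓ) / L * (1 / L) ≤ 1 * (1 / L) := mul_le_mul_of_nonneg_right h2 hLi0.le
        _ = 1 / L := one_mul _
    have hn2 : 1 - 2 / L ≤ u f n := by
      have := (abs_le.1 (hu n hn hnE)).2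
      have e : 2 / L = 1 / L + 1 / L := by ring
      rw [e]; linarith
    have hk2 : 1 - 2 / L ≤ u f k := by
      have := (abs_le.1 (hu k hk hkE)).2
      have e : 2 / L = 1 / L + 1 / L := by ring
      rw [e]; linarith
    have h2L : 2 / L = 2 * (1 / L) := by ring
    have hprod : 1 - 4 / L ≤ u f n * u f k := by
      calc 1 - 4 / L ≤ (1 - 2 / L) * (1 - 2 / L) := by
            have e : (1 - 2 / L) * (1 - 2 / L) = 1 - 4 / L + (2 / L) ^ 2 := by ring
            rw [e]; nlinarith [sq_nonneg (2 / L)]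
        _ ≤ u f n * u f k := mul_le_mul hn2 hk2 (by rw [h2L]; linarith) hun
    have h8 : 1 ≤ u f n * u f k * (1 + 8 / L) := by
      calc (1 : ℝ) ≤ (1 - 4 / L) * (1 + 8 / L) := by
            have e : (1 - 4 / L) * (1 + 8 / L) = 1 + (4 / L) * (1 - 8 / L) := by ring
            rw [e]
            have e2 : 8 / L ≤ 1 := by rw [div_le_one hL0]; exact hL
            have : 0 ≤ 4 / L * (1 - 8 / L) := mul_nonneg (by positivity) (by linarith)
            linarith
        _ ≤ u f n * u f k * (1 + 8 / L) := mul_le_mul_of_nonneg_right hprod (by positivity)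
    obtain ⟨x, hx⟩ : ∃ x : ℝ, x = m * ((1 + 8 / L) * c f n k) := ⟨_, rfl⟩
    have hx0 : 0 ≤ x := by rw [hx]; positivity
    have hw1 : w f n k ≤ u f n * u f k * (1 + (1 + 8 / L) * c f n k) := by
      refine (w_le f hf n k).trans ?_
      nlinarith [mul_le_mul_of_nonneg_right h8 hc0]
    have hw2 : w f n k ^ m ≤ (u f n ^ m * u f k ^ m) * Real.exp x := by
      calc w f n k ^ m ≤ (u f n * u f k * (1 + (1 + 8 / L) * c f n k)) ^ m := pow_le_pow_left₀ (w_nonneg f hf n k) hw1 m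
        _ = (u f n ^ m * u f k ^ m) * (1 + (1 + 8 / L) * c f n k) ^ m := by rw [mul_pow, mul_pow]
        _ ≤ (u f n ^ m * u f k ^ m) * Real.exp x := by
            apply mul_le_mul_of_nonneg_left _ (by positivity)
            rw [hx, mul_comm (m : ℝ), Real.exp_mul, Real.rpow_natCast]
            apply pow_le_pow_left₀ (by positivity)
            linarith [Real.add_one_le_exp ((1 + 8 / L) * c f n k)]
    -- `x` is bounded by `(1 - δ) ℓ + log 2`
    have hcle : c f n k ≤ 1 / L + K * (ℓ / L ^ 2) := by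
      have h1 := c_le f hf n k
      have h2 := (abs_le.1 (hu n hn hnE)).2
      linarith
    have hxle : x ≤ Real.log G + Real.log 2 := by
      have h1 : x ≤ ((1 - δ) * (L * ℓ)) * ((1 + 8 / L) * (1 / L + K * (ℓ / L ^ 2))) := by
        rw [hx]
        apply mul_le_mul hm _ (by positivity) (mul_nonneg (by linarith) (by positivity))
        exact mul_le_mul_of_nonneg_left hcle (by positivity)
      have h2 : ((1 - δ) * (L * ℓ)) * ((1 + 8 / L) * (1 / L + K * (ℓ / L ^ 2))) =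
          (1 - δ) * ℓ + (1 - δ) * (ℓ * (8 / L + K * ℓ / L + 8 * K * ℓ / L ^ 2)) := by
        field_simp
        ring
      rw [h2] at h1
      have h3 : (1 - δ) * (ℓ * (8 / L + K * ℓ / L + 8 * K * ℓ / L ^ 2)) ≤ 1 * Real.log 2 := by
        apply mul_le_mul (by linarith) hL3 (by positivity) (by norm_num)
      linarith
    have hexp : Real.exp x ≤ 2 * G := by
      calc Real.exp x ≤ Real.exp (Real.log G + Real.log 2) := Real.exp_le_exp.2 hxle
        _ = 2 * G := by rw [Real.exp_add, Real.exp_log (by linarith), Real.exp_log (by norm_num)]; ring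
    have hexp2 : Real.exp x ≤ 1 + 4 * (L * ℓ) * G * c f n k := by
      have h1 : Real.exp x ≤ 1 + x * Real.exp x := by
        have h2 := Real.add_one_le_exp (-x)
        rw [Real.exp_neg] at h2
        have h3 := Real.exp_pos x
        have h4 : (-x + 1) * Real.exp x ≤ (Real.exp x)⁻¹ * Real.exp x := mul_le_mul_of_nonneg_right h2 h3.le
        rw [inv_mul_cancel₀ h3.ne'] at h4
        nlinarith
      have h5 : x ≤ 2 * (L * ℓ) * c f n k := by
        rw [hx]
        have h6 : 8 / L ≤ 1 := by rw [div_le_one hL0]; exact hL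
        calc (m : ℝ) * ((1 + 8 / L) * c f n k) ≤ (L * ℓ) * (2 * c f n k) := by
              apply mul_le_mul hmL _ (by positivity) (by positivity)
              exact mul_le_mul_of_nonneg_right (by linarith) hc0
          _ = _ := by ring
      have h7 : x * Real.exp x ≤ (2 * (L * ℓ) * c f n k) * (2 * G) :=
        mul_le_mul h5 hexp (Real.exp_pos x).le (by positivity)
      calc Real.exp x ≤ 1 + x * Real.exp x := h1
        _ ≤ 1 + (2 * (L * ℓ) * c f n k) * (2 * G) := by linarith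
        _ = _ := by ring
    have hu1 := hup n hn hnE
    have hu2 := hup k hk hkE
    calc w f n k ^ m ≤ (u f n ^ m * u f k ^ m) * Real.exp x := hw2
      _ ≤ ((ρ ^ m * (1 + η)) * (ρ ^ m * (1 + η))) * (1 + 4 * (L * ℓ) * G * c f n k) := by
          apply mul_le_mul _ hexp2 (Real.exp_pos x).le (by positivity)
          exact mul_le_mul hu1 hu2 (by positivity) (by positivity)
      _ = _ := by ring
  -- the sum over all pairs
  obtain ⟨M, hM⟩ : ∃ M : ℝ, M = N * ρ ^ m := ⟨_, rfl⟩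
  have hM0 : 0 < M := by rw [hM]; positivity
  have hIc : ((Icc 1 N).card : ℝ) = N := by rw [Nat.card_Icc, Nat.add_sub_cancel]
  have hpairs : ∑ n ∈ Icc 1 N, ∑ k ∈ Icc 1 N, w f n k ^ m ≤
      M ^ 2 * ((1 + η) ^ 2 * (1 + 4 * K' * ℓ * G / L)) + M ^ 2 * (2 / L ^ 2) := by
    have hterm : ∀ n ∈ Icc 1 N, ∀ k ∈ Icc 1 N, w f n k ^ m ≤
        (ρ ^ m * (1 + η)) ^ 2 * (1 + 4 * (L * ℓ) * G * c f n k) + ((if n ∈ E then 1 else 0) + (if k ∈ E then 1 else 0)) := by
      intro n hn k hk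
      have hpos : 0 ≤ (ρ ^ m * (1 + η)) ^ 2 * (1 + 4 * (L * ℓ) * G * c f n k) := by
        have := c_nonneg f hf n k
        positivity
      have hle : w f n k ^ m ≤ 1 := pow_le_one₀ (w_nonneg f hf n k) (w_le_one f hf n k)
      by_cases h1 : n ∈ E
      · rw [if_pos h1]
        have : (0 : ℝ) ≤ (if k ∈ E then 1 else 0) := by split_ifs <;> norm_num
        linarith
      · by_cases h2 : k ∈ E
        · rw [if_neg h1, if_pos h2]; linarith
        · rw [if_neg h1, if_neg h2]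
          linarith [hpair n hn h1 k hk h2]
    have hEs : ∑ n ∈ Icc 1 N, (if n ∈ E then (1 : ℝ) else 0) ≤ N / L ^ 4 := by
      rw [← sum_filter, sum_const, nsmul_eq_mul, mul_one]
      refine le_trans ?_ hE
      exact_mod_cast card_le_card (fun n hn => (mem_filter.1 hn).2)
    calc ∑ n ∈ Icc 1 N, ∑ k ∈ Icc 1 N, w f n k ^ m ≤ ∑ n ∈ Icc 1 N, ∑ k ∈ Icc 1 N,
          ((ρ ^ m * (1 + η)) ^ 2 * (1 + 4 * (L * ℓ) * G * c f n k) + ((if n ∈ E then 1 else 0) + (if k ∈ E then 1 else 0))) :=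
          sum_le_sum fun n hn => sum_le_sum fun k hk => hterm n hn k hk
      _ = (ρ ^ m * (1 + η)) ^ 2 * ((N : ℝ) * N + 4 * (L * ℓ) * G * ∑ n ∈ Icc 1 N, ∑ k ∈ Icc 1 N, c f n k) +
          2 * (N * ∑ n ∈ Icc 1 N, (if n ∈ E then (1 : ℝ) else 0)) := by
          simp only [sum_add_distrib, mul_add, mul_one, ← mul_sum, sum_const, nsmul_eq_mul, hIc]
          ring
      _ ≤ (ρ ^ m * (1 + η)) ^ 2 * ((N : ℝ) * N + 4 * (L * ℓ) * G * (K' * (N / L) ^ 2)) + 2 * (N * (N / L ^ 4)) := by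
          gcongr
      _ = M ^ 2 * ((1 + η) ^ 2 * (1 + 4 * K' * ℓ * G / L)) + N ^ 2 * (1 / L) ^ 2 * (2 / L ^ 2) := by
          rw [hM]; field_simp
      _ ≤ M ^ 2 * ((1 + η) ^ 2 * (1 + 4 * K' * ℓ * G / L)) + M ^ 2 * (2 / L ^ 2) := by
          have : (N : ℝ) ^ 2 * (1 / L) ^ 2 ≤ M ^ 2 := by
            rw [hM, mul_pow]
            gcongr
          have h2 : (0 : ℝ) ≤ 2 / L ^ 2 := by positivity
          linarith [mul_le_mul_of_nonneg_right this h2]
  have hsum : M * (1 - η - 1 / L) ≤ ∑ n ∈ Icc 1 N, u f n ^ m := by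
    have h1 : ∀ n ∈ Icc 1 N, ρ ^ m * (1 - η) - ρ ^ m * (1 - η) * (if n ∈ E then 1 else 0) ≤ u f n ^ m := by
      intro n hn
      by_cases h : n ∈ E
      · rw [if_pos h]
        have : 0 ≤ u f n ^ m := pow_nonneg (u_nonneg f hf n) m
        linarith
      · rw [if_neg h]
        linarith [hlow n hn h]
    have hEs : ∑ n ∈ Icc 1 N, (if n ∈ E then (1 : ℝ) else 0) ≤ N / L ^ 4 := by
      rw [← sum_filter, sum_const, nsmul_eq_mul, mul_one]
      refine le_trans ?_ hE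
      exact_mod_cast card_le_card (fun n hn => (mem_filter.1 hn).2)
    have h2 := sum_le_sum h1
    have h2' : ∑ n ∈ Icc 1 N, (ρ ^ m * (1 - η) - ρ ^ m * (1 - η) * (if n ∈ E then (1 : ℝ) else 0)) =
        N * (ρ ^ m * (1 - η)) - ρ ^ m * (1 - η) * ∑ n ∈ Icc 1 N, (if n ∈ E then (1 : ℝ) else 0) := by
      rw [sum_sub_distrib, mul_sum, sum_const, nsmul_eq_mul, hIc]
    rw [h2'] at h2
    refine le_trans ?_ h2
    have h3 : ρ ^ m * (1 - η) * ∑ n ∈ Icc 1 N, (if n ∈ E then (1 : ℝ) else 0) ≤ ρ ^ m * 1 * (N / L ^ 4) := by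
      apply mul_le_mul _ hEs (sum_nonneg fun n _ => by split_ifs <;> norm_num) (by positivity)
      exact mul_le_mul_of_nonneg_left (by linarith) (by positivity)
    have h4 : ρ ^ m * 1 * (N / L ^ 4) ≤ M * (1 / L) := by
      rw [hM]
      have : (1 : ℝ) / L ^ 4 ≤ 1 / L := by
        apply one_div_le_one_div_of_le hL0
        calc L = L ^ 1 := (pow_one L).symm
          _ ≤ L ^ 4 := pow_le_pow_right₀ (by linarith) (by norm_num)
      calc ρ ^ m * 1 * (N / L ^ 4) = (N * ρ ^ m) * (1 / L ^ 4) := by ring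
        _ ≤ (N * ρ ^ m) * (1 / L) := mul_le_mul_of_nonneg_left this (by positivity)
    have h5 : (N : ℝ) * (ρ ^ m * (1 - η)) = M * (1 - η) := by rw [hM]; ring
    rw [h5]
    nlinarith
  rw [← hρ, ← hM]
  obtain ⟨κ, hκ⟩ : ∃ κ : ℝ, κ = 4 * K' * ℓ * G / L := ⟨_, rfl⟩
  have hκ0 : 0 ≤ κ := by rw [hκ]; positivity
  rw [← hκ] at hpairs
  have e1 : (1 + η) ^ 2 * (1 + κ) ≤ 1 + 3 * η + 4 * κ := by nlinarith [mul_nonneg hη0 hκ0]
  have e2 : 2 / L ^ 2 ≤ 2 / L := by
    apply div_le_div_of_nonneg_left (by norm_num) hL0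
    nlinarith
  have e3 : 20 * K * ℓ ^ 2 / L + 16 * K' * ℓ * G / L + 4 / L = 5 * η + 4 * κ + 4 / L := by
    rw [hη, hκ]; ring
  rw [e3]
  have h1 : 2 * M * (M * (1 - η - 1 / L)) ≤ 2 * M * ∑ n ∈ Icc 1 N, u f n ^ m :=
    mul_le_mul_of_nonneg_left hsum (by positivity)
  have h2 : M ^ 2 * ((1 + η) ^ 2 * (1 + κ)) ≤ M ^ 2 * (1 + 3 * η + 4 * κ) := mul_le_mul_of_nonneg_left e1 (by positivity)
  have h3 : M ^ 2 * (2 / L ^ 2) ≤ M ^ 2 * (2 / L) := mul_le_mul_of_nonneg_left e2 (by positivity)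
  have h4 : M ^ 2 * (5 * η + 4 * κ + 4 / L) - (M ^ 2 * (1 + 3 * η + 4 * κ) + M ^ 2 * (2 / L) - 2 * M * (M * (1 - η - 1 / L)) + M ^ 2)
      = 0 := by ring
  linarith

end Pool.Agent.Run7.h794.MK.Emp
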