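import Mathlib
import Pool.Agent.Run7.h794.MK.Tail
import Pool.Agent.Run7.h794.MK.Tail2

set_option autoImplicit false

/-! The integers without primes in random sparse windows. -/

namespace Pool.Agent.Run7.h794.MK

open Finset Filter
open Pool.Agent.N384.MQ (Flat ev_log_pow ev_log_ge)

lemma ev_lr (k : ℕ) (r c : ℝ) (hr : 0 < r) (hc : 0 < c) : ∀ᶠ x : ℝ in atTop, Real.log x ^ k ≤ c * x ^ r := by
  have h := (isLittleO_log_rpow_rpow_atTop (k : ℝ) hr).bound hc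
  filter_upwards [h, eventually_ge_atTop 1] with x hx hx1
  rw [Real.rpow_natCast, Real.norm_of_nonneg (pow_nonneg (Real.log_nonneg hx1) _),
    Real.norm_of_nonneg (Real.rpow_nonneg (by linarith) _)] at hx
  exact hx

lemma ev_L (K K' δ ε : ℝ) (hK : 0 ≤ K) (hK' : 0 ≤ K') (hδ : 0 < δ) (hδ1 : δ ≤ 1) (hε : 0 < ε) : ∀ᶠ x : ℝ in atTop,
    8 ≤ x ∧ K * Real.log x ≤ x ∧ 4 * K * Real.log x ^ 2 ≤ x ∧
    Real.log x * (8 / x + K * Real.log x / x + 8 * K * Real.log x / x ^ 2) ≤ Real.log 2 ∧ 2 ≤ δ * x ∧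
    20 * K * Real.log x ^ 2 / x + 16 * K' * Real.log x * x ^ (1 - δ) / x + 4 / x ≤ ε ^ 2 / x ^ (δ / 4) := by
  filter_upwards [eventually_ge_atTop 8, ev_lr 2 1 (1 / (2 * (8 + 9 * K))) one_pos (by positivity),
    eventually_ge_atTop (2 / δ), ev_lr 2 (δ / 4) (ε ^ 2 / (20 * K + 16 * K' + 4)) (by positivity) (by positivity)]
    with x h1 h2 h3 h4
  have hx0 : 0 < x := by linarith
  have hlx : 1 ≤ Real.log x := by
    rw [Real.le_log_iff_exp_le hx0]
    linarith [Real.exp_one_lt_d9]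
  have hl2 : Real.log x ≤ Real.log x ^ 2 := by nlinarith
  rw [Real.rpow_one] at h2
  obtain ⟨t, ht⟩ : ∃ t : ℝ, t = Real.log x := ⟨_, rfl⟩
  rw [← ht] at hlx hl2 h2 h4 ⊢
  have h5 : t ^ 2 * (2 * (8 + 9 * K)) ≤ x := by
    have := mul_le_mul_of_nonneg_right h2 (show 0 ≤ 2 * (8 + 9 * K) by positivity)
    refine this.trans (le_of_eq ?_)
    field_simp
  have ht0 : 0 ≤ t ^ 2 := sq_nonneg _
  refine ⟨h1, ?_, ?_, ?_, ?_, ?_⟩
  · nlinarith [mul_nonneg hK ht0, mul_nonneg hK (by linarith : 0 ≤ t)]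
  · nlinarith [mul_nonneg hK ht0]
  · have h6 : t * (8 / x + K * t / x + 8 * K * t / x ^ 2) ≤ (t ^ 2 * (8 + 9 * K)) / x := by
      rw [le_div_iff₀ hx0]
      have e : t * (8 / x + K * t / x + 8 * K * t / x ^ 2) * x = 8 * t + K * t ^ 2 + 8 * K * t ^ 2 / x := by
        field_simp
      rw [e]
      have h7 : 8 * K * t ^ 2 / x ≤ 8 * K * t ^ 2 := by
        apply div_le_self (by positivity); linarith
      nlinarith
    refine h6.trans ?_
    have h8 : (t ^ 2 * (8 + 9 * K)) / x ≤ 1 / 2 := by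
      rw [div_le_iff₀ hx0]; linarith
    linarith [Real.log_two_gt_d9]
  · rw [div_le_iff₀ hδ] at h3; linarith
  · have hc0 : 0 < 20 * K + 16 * K' + 4 := by positivity
    have h9 : (20 * K + 16 * K' + 4) * t ^ 2 ≤ ε ^ 2 * x ^ (δ / 4) := by
      have := mul_le_mul_of_nonneg_left h4 hc0.le
      refine this.trans (le_of_eq ?_)
      field_simp
    have hG1 : 1 ≤ x ^ (1 - δ) := Real.one_le_rpow (by linarith) (by linarith)
    have h10 : 20 * K * t ^ 2 / x + 16 * K' * t * x ^ (1 - δ) / x + 4 / x ≤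
        ((20 * K + 16 * K' + 4) * t ^ 2) * x ^ (1 - δ) / x := by
      rw [← add_div, ← add_div]
      apply div_le_div_of_nonneg_right _ hx0.le
      have a1 : 20 * K * t ^ 2 ≤ 20 * K * t ^ 2 * x ^ (1 - δ) := le_mul_of_one_le_right (by positivity) hG1
      have a2 : 16 * K' * t * x ^ (1 - δ) ≤ 16 * K' * t ^ 2 * x ^ (1 - δ) := by
        apply mul_le_mul_of_nonneg_right _ (by positivity)
        exact mul_le_mul_of_nonneg_left hl2 (by positivity)
      have a3 : (4 : ℝ) ≤ 4 * t ^ 2 * x ^ (1 - δ) := by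
        have : 1 ≤ t ^ 2 := by nlinarith
        nlinarith [mul_le_mul this hG1 zero_le_one ht0]
      nlinarith
    refine h10.trans ?_
    rw [div_le_div_iff₀ hx0 (by positivity)]
    calc (20 * K + 16 * K' + 4) * t ^ 2 * x ^ (1 - δ) * x ^ (δ / 4) ≤
        ε ^ 2 * x ^ (δ / 4) * x ^ (1 - δ) * x ^ (δ / 4) := by gcongr
      _ = ε ^ 2 * x ^ (1 - δ / 2) := by
          rw [mul_assoc, mul_assoc, ← Real.rpow_add hx0, ← Real.rpow_add hx0]
          congr 2
          ring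
      _ ≤ ε ^ 2 * x ^ (1 : ℝ) := by
          apply mul_le_mul_of_nonneg_left _ (by positivity)
          exact Real.rpow_le_rpow_of_exponent_le (by linarith) (by linarith)
      _ = ε ^ 2 * x := by rw [Real.rpow_one]

/-- the columns -/
noncomputable def fI {q : ℕ} {ι : Type} (s : Finset ι) (y : ι → ZMod q) (c : ℕ) (n : ℕ) (a : s) : ℝ :=
  if (n + c + (y a.1).val).Prime then 1 else 0

lemma fI01 {q : ℕ} {ι : Type} (s : Finset ι) (y : ι → ZMod q) (c : ℕ) (n : ℕ) (a : s) :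
    0 ≤ fI s y c n a ∧ fI s y c n a ≤ 1 := by
  unfold fI; split_ifs <;> norm_num

lemma D_eq {q : ℕ} {ι : Type} (s : Finset ι) (y : ι → ZMod q) (c N m : ℕ) (ω : Fin m → s) :
    ((((Icc 1 N).filter (fun n => ∀ l, ¬ (n + c + (y (ω l)).val).Prime)).card : ℕ) : ℝ) = Emp.D N m (fI s y c) ω := by
  unfold Emp.D
  rw [card_filter]
  push_cast
  apply sum_congr rfl
  intro n _
  by_cases h : ∀ l, ¬ (n + c + (y (ω l)).val).Prime
  · rw [if_pos h]
    symm
    apply prod_eq_one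
    intro l _
    unfold fI
    rw [if_neg (h l), sub_zero]
  · rw [if_neg h]
    push Not at h
    obtain ⟨l, hl⟩ := h
    symm
    apply prod_eq_zero (mem_univ l)
    unfold fI
    rw [if_pos hl, sub_self]

lemma u_fI {q : ℕ} {ι : Type} (s : Finset ι) [Nonempty s] (y : ι → ZMod q) (c n : ℕ) :
    1 - Emp.u (fI s y c) n = ((s.filter fun i => (n + c + (y i).val).Prime).card : ℝ) / s.card := by
  rw [Emp.u_eq, sub_sub_cancel, Fintype.card_coe]
  congr 1
  rw [card_filter, ← Finset.sum_coe_sort s (fun i => if (n + c + (y i).val).Prime then 1 else 0)]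
  push_cast
  rfl

lemma pairs {q : ℕ} [NeZero q] {ι : Type} (s : Finset ι) [Nonempty s] (y : ι → ZMod q) (X₀ : ℕ)
    (hcheb : ∀ X : ℕ, X₀ ≤ X → ((((Icc 1 X).filter Nat.Prime).card : ℕ) : ℝ) ≤ 2 * X / Real.log X)
    (B c N : ℕ) (hN : X₀ ≤ N) (hN4 : 2 ≤ N) (hc : c ≤ B * N) (hq : q ≤ B * N) :
    ∑ n ∈ Icc 1 N, ∑ k ∈ Icc 1 N, Emp.c (fI s y c) n k ≤ (2 * (2 * B + 1)) ^ 2 * (N / Real.log N) ^ 2 := by
  have hN0 : (0 : ℝ) < N := by exact_mod_cast (by omega : 0 < N)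
  have hL0 : 0 < Real.log N := Real.log_pos (by exact_mod_cast (by omega : 1 < N))
  have hfsum : ∀ a : s, ∑ n ∈ Icc 1 N, fI s y c n a ≤ 2 * (2 * B + 1) * (N / Real.log N) := by
    intro a
    have h1 : ∑ n ∈ Icc 1 N, fI s y c n a = (((Icc 1 N).filter (fun n => (n + c + (y a).val).Prime)).card : ℝ) := by
      rw [card_filter]
      unfold fI
      push_cast
      rfl
    obtain ⟨X, hXd⟩ : ∃ X, X = (2 * B + 1) * N := ⟨_, rfl⟩
    have h2 : ((Icc 1 N).filter (fun n => (n + c + (y a).val).Prime)).card ≤ ((Icc 1 X).filter Nat.Prime).card := by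
      apply card_le_card_of_injOn (fun n => n + c + (y a).val)
      · intro n hn
        simp only [coe_filter, mem_Icc, Set.mem_ofPred_eq] at hn ⊢
        have hv : (y a).val < q := ZMod.val_lt _
        refine ⟨⟨by omega, ?_⟩, hn.2⟩
        have e : X = N + B * N + B * N := by rw [hXd]; ring
        omega
      · intro n _ n' _ h
        simp only at h
        omega
    have hXN : N ≤ X := by rw [hXd]; exact Nat.le_mul_of_pos_left _ (by omega)
    have h3 := hcheb X (by omega)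
    rw [h1]
    calc (((Icc 1 N).filter (fun n => (n + c + (y a).val).Prime)).card : ℝ) ≤ (((Icc 1 X).filter Nat.Prime).card : ℝ) := by
          exact_mod_cast h2
      _ ≤ 2 * X / Real.log X := h3
      _ ≤ 2 * X / Real.log N := by
          apply div_le_div_of_nonneg_left (by positivity) hL0
          exact Real.log_le_log hN0 (by exact_mod_cast hXN)
      _ = 2 * (2 * B + 1) * (N / Real.log N) := by rw [hXd]; push_cast; ring
  have hfs0 : ∀ a : s, 0 ≤ ∑ n ∈ Icc 1 N, fI s y c n a := fun a => sum_nonneg fun n _ => (fI01 s y c n a).1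
  have e1 : ∑ n ∈ Icc 1 N, ∑ k ∈ Icc 1 N, Emp.c (fI s y c) n k =
      (∑ a : s, (∑ n ∈ Icc 1 N, fI s y c n a) ^ 2) / Fintype.card s := by
    unfold Emp.c
    simp_rw [← sum_div]
    congr 1
    have e2 : ∀ n, ∑ n' ∈ Icc 1 N, ∑ a : s, fI s y c n a * fI s y c n' a =
        ∑ a : s, fI s y c n a * ∑ n' ∈ Icc 1 N, fI s y c n' a := by
      intro n
      rw [sum_comm]
      apply sum_congr rfl
      intro a _
      rw [mul_sum]
    rw [sum_congr rfl (fun n _ => e2 n), sum_comm]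
    apply sum_congr rfl
    intro a _
    rw [← sum_mul, pow_two]
  rw [e1, div_le_iff₀ (Emp.cA)]
  refine (sum_le_sum fun a _ => pow_le_pow_left₀ (hfs0 a) (hfsum a) 2).trans (le_of_eq ?_)
  rw [sum_const, nsmul_eq_mul, card_univ]
  ring

open Classical in
/-- **Windows with at most `(1 - δ) log N log log N` random elements.** -/
theorem tail (h31 : S_T31) (B : ℕ) (δ ε : ℝ) (hδ : 0 < δ) (hδ1 : δ ≤ 1) (hε : 0 < ε) : ∃ V C N₀ : ℕ, ∀ N : ℕ, N₀ ≤ N →
    ∀ (q : ℕ) [NeZero q], (N : ℝ) ^ (1 / 3 : ℝ) * Real.log N ^ C ≤ q → q ≤ B * N →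
    ∀ {ι : Type} (s : Finset ι) (y : ι → ZMod q), s.Nonempty → Flat q (1 / Real.log N ^ V) s y →
    ∀ c : ℕ, c ≤ B * N → ∀ m : ℕ, (m : ℝ) ≤ (1 - δ) * (Real.log N * Real.log (Real.log N)) →
    (((univ : Finset (Fin m → s)).filter (fun ω => ¬
      |((((Icc 1 N).filter (fun n => ∀ l, ¬ (n + c + (y (ω l)).val).Prime)).card : ℕ) : ℝ) - N * (1 - 1 / Real.log N) ^ m| ≤
        ε * (N * (1 - 1 / Real.log N) ^ m))).card : ℝ) ≤ (s.card : ℝ) ^ m / Real.log N ^ (δ / 4) := by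
  obtain ⟨V, C, K, N₁, hsw⟩ := sw1 h31 B 4
  obtain ⟨X₀, hcheb⟩ := cheb
  have hlogt : Tendsto (fun N : ℕ => Real.log N) atTop atTop :=
    Real.tendsto_log_atTop.comp (tendsto_natCast_atTop_atTop (R := ℝ))
  obtain ⟨N₂, hN₂⟩ := eventually_atTop.1 (hlogt.eventually (ev_L K ((2 * (2 * B + 1)) ^ 2) δ ε (Nat.cast_nonneg _)
    (by positivity) hδ hδ1 hε))
  refine ⟨V, C, N₁ + N₂ + X₀ + 2, fun N hN q _ hq1 hq2 ι s y hs hf c hc m hm => ?_⟩
  obtain ⟨E, hE1, hE2⟩ := hsw N (by omega) q hq1 hq2 s y hs hf c hc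
  obtain ⟨g1, g2, g3, g4, g5, g6⟩ := hN₂ N (by omega)
  have hpairs := fun (inst : Nonempty s) => @pairs q _ ι s inst y X₀ hcheb B c N (by omega) (by omega) hc hq2
  have : Nonempty s := hs.to_subtype
  have hpairs := hpairs this
  obtain ⟨L, hL⟩ : ∃ L : ℝ, L = Real.log (N : ℝ) := ⟨_, rfl⟩
  rw [← hL] at g1 g2 g3 g4 g5 g6 hm hE1 hpairs ⊢
  have hL0 : 0 < L := by linarith
  have hN0 : (0 : ℝ) < N := by exact_mod_cast (by omega : 0 < N)
  have hdet := Emp.determ N m (by omega) (fI s y c) (fun n a => fI01 s y c n a) E L (Real.log L) δ K ((2 * (2 * B + 1)) ^ 2)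
    (L ^ (1 - δ)) g1 (Real.exp_log hL0) (Nat.cast_nonneg _) (by positivity) hδ hδ1 hm hE1 (fun n hn hnE => by
      rw [u_fI]
      rw [mem_Icc] at hn
      have := hE2 n hn.1 hn.2 hnE
      rw [← hL] at this
      exact this) hpairs g2 g3 g4 g5 (Real.one_le_rpow (by linarith) (by linarith)) (by rw [Real.log_rpow hL0])
  obtain ⟨M, hM⟩ : ∃ M : ℝ, M = N * (1 - 1 / L) ^ m := ⟨_, rfl⟩
  have hM0 : 0 < M := by
    rw [hM]
    have : 1 / L < 1 := by rw [div_lt_one hL0]; linarith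
    have : 0 < 1 - 1 / L := by linarith
    positivity
  have hsec := Emp.second N m (fI s y c) M
  rw [← hM] at hdet ⊢
  have hA0 : (0 : ℝ) < (Fintype.card s : ℝ) ^ m := by have := Emp.cA (α := s); positivity
  have hsum : ∑ ω : Fin m → s, (Emp.D N m (fI s y c) ω - M) ^ 2 ≤ (Fintype.card s : ℝ) ^ m * (M ^ 2 * (ε ^ 2 / L ^ (δ / 4))) := by
    rw [hsec]
    apply mul_le_mul_of_nonneg_left _ hA0.le
    exact hdet.trans (mul_le_mul_of_nonneg_left g6 (by positivity))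
  have hcard : (Fintype.card s : ℝ) = s.card := by rw [Fintype.card_coe]
  obtain ⟨Bd, hBd⟩ : ∃ Bd : Finset (Fin m → s), Bd = (univ : Finset (Fin m → s)).filter (fun ω => ¬
      |((((Icc 1 N).filter (fun n => ∀ l, ¬ (n + c + (y (ω l)).val).Prime)).card : ℕ) : ℝ) - M| ≤ ε * M) := ⟨_, rfl⟩
  have h1 : (Bd.card : ℝ) * (ε * M) ^ 2 ≤ ∑ ω : Fin m → s, (Emp.D N m (fI s y c) ω - M) ^ 2 := by
    calc (Bd.card : ℝ) * (ε * M) ^ 2 = ∑ ω ∈ Bd, (ε * M) ^ 2 := by rw [sum_const, nsmul_eq_mul]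
      _ ≤ ∑ ω ∈ Bd, (Emp.D N m (fI s y c) ω - M) ^ 2 := by
          apply sum_le_sum
          intro ω hω
          rw [hBd, mem_filter, D_eq] at hω
          have h2 := not_le.1 hω.2
          rw [← sq_abs (Emp.D N m (fI s y c) ω - M)]
          exact pow_le_pow_left₀ (by positivity) h2.le 2
      _ ≤ _ := sum_le_sum_of_subset_of_nonneg (subset_univ _) fun _ _ _ => sq_nonneg _
  rw [← hBd]
  have h2 := h1.trans hsum
  have hx0 : 0 < L ^ (δ / 4) := Real.rpow_pos_of_pos hL0 _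
  rw [hcard] at h2
  have h3 : (Bd.card : ℝ) * (ε * M) ^ 2 ≤ ((s.card : ℝ) ^ m / L ^ (δ / 4)) * (ε * M) ^ 2 := by
    refine h2.trans (le_of_eq ?_)
    ring
  exact le_of_mul_le_mul_right h3 (by positivity)

lemma ev_L2 (K A ε : ℝ) (hA : 0 ≤ A) (hε : 0 < ε) : ∀ᶠ x : ℝ in atTop,
    8 ≤ x ∧ K * Real.log x ≤ x ∧ (A + ε) * K * Real.log x ^ 2 ≤ x ∧ 4 ≤ x ^ (ε / 2) := by
  filter_upwards [eventually_ge_atTop 8, ev_lr 1 1 (1 / (|K| + 1)) one_pos (by positivity),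
    ev_lr 2 1 (1 / ((A + ε) * (|K| + 1))) one_pos (by positivity),
    (tendsto_rpow_atTop (show 0 < ε / 2 by positivity)).eventually_ge_atTop 4] with x h1 h2 h3 h4
  have hlx : 0 ≤ Real.log x := Real.log_nonneg (by linarith)
  rw [Real.rpow_one] at h2 h3
  rw [pow_one] at h2
  have hK : K ≤ |K| + 1 := by linarith [le_abs_self K]
  have hK0 : 0 < |K| + 1 := by positivity
  refine ⟨h1, ?_, ?_, h4⟩
  · calc K * Real.log x ≤ (|K| + 1) * Real.log x := mul_le_mul_of_nonneg_right hK hlx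
      _ ≤ (|K| + 1) * (1 / (|K| + 1) * x) := mul_le_mul_of_nonneg_left h2 hK0.le
      _ = x := by field_simp
  · calc (A + ε) * K * Real.log x ^ 2 ≤ (A + ε) * (|K| + 1) * Real.log x ^ 2 := by
          apply mul_le_mul_of_nonneg_right _ (sq_nonneg _)
          exact mul_le_mul_of_nonneg_left hK (by linarith)
      _ ≤ (A + ε) * (|K| + 1) * (1 / ((A + ε) * (|K| + 1)) * x) := mul_le_mul_of_nonneg_left h3 (by positivity)
      _ = x := by field_simp

open Classical in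
/-- **Windows with more than `(A + ε) log N log log N` random elements.** -/
theorem tail_up (h31 : S_T31) (B : ℕ) (A ε : ℝ) (hA : 0 ≤ A) (hε : 0 < ε) (hε1 : ε ≤ 1) : ∃ V C N₀ : ℕ, ∀ N : ℕ, N₀ ≤ N →
    ∀ (q : ℕ) [NeZero q], (N : ℝ) ^ (1 / 3 : ℝ) * Real.log N ^ C ≤ q → q ≤ B * N →
    ∀ {ι : Type} (s : Finset ι) (y : ι → ZMod q), s.Nonempty → Flat q (1 / Real.log N ^ V) s y →
    ∀ c : ℕ, c ≤ B * N → ∀ m : ℕ, (A + ε) * (Real.log N * Real.log (Real.log N)) ≤ m →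
    (((univ : Finset (Fin m → s)).filter (fun ω => N / Real.log N ^ A <
      ((((Icc 1 N).filter (fun n => ∀ l, ¬ (n + c + (y (ω l)).val).Prime)).card : ℕ) : ℝ))).card : ℝ) ≤
        (s.card : ℝ) ^ m / Real.log N ^ (ε / 2) := by
  obtain ⟨U, hU⟩ := exists_nat_ge (A + ε)
  obtain ⟨V, C, K, N₁, hsw⟩ := sw1 h31 B U
  have hlogt : Tendsto (fun N : ℕ => Real.log N) atTop atTop :=
    Real.tendsto_log_atTop.comp (tendsto_natCast_atTop_atTop (R := ℝ))
  obtain ⟨N₂, hN₂⟩ := eventually_atTop.1 (hlogt.eventually (ev_L2 K A ε hA hε))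
  refine ⟨V, C, N₁ + N₂ + 2, fun N hN q _ hq1 hq2 ι s y hs hf c hc m hm => ?_⟩
  obtain ⟨E, hE1, hE2⟩ := hsw N (by omega) q hq1 hq2 s y hs hf c hc
  obtain ⟨g1, g2, g3, g4⟩ := hN₂ N (by omega)
  have : Nonempty s := hs.to_subtype
  obtain ⟨L, hL⟩ : ∃ L : ℝ, L = Real.log (N : ℝ) := ⟨_, rfl⟩
  obtain ⟨ℓ, hℓ⟩ : ∃ ℓ : ℝ, ℓ = Real.log L := ⟨_, rfl⟩
  rw [← hL] at g1 g2 g3 g4 hm hE1 ⊢
  rw [← hℓ] at g2 g3 hm
  have hL0 : 0 < L := by linarith
  have hN0 : (0 : ℝ) < N := by exact_mod_cast (by omega : 0 < N)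
  have hK0 : (0 : ℝ) ≤ K := Nat.cast_nonneg _
  have hℓ0 : 0 ≤ ℓ := by rw [hℓ]; exact Real.log_nonneg (by linarith)
  have hA0 : (0 : ℝ) < (Fintype.card s : ℝ) ^ m := by have := Emp.cA (α := s); positivity
  have hcard : (Fintype.card s : ℝ) = s.card := by rw [Fintype.card_coe]
  have hAe : 0 ≤ A + ε := by linarith
  -- the good rows
  have hgood : ∀ n ∈ Icc 1 N, n ∉ E → Emp.u (fI s y c) n ^ m ≤ 3 * L ^ (-(A + ε)) := by
    intro n hn hnE
    rw [mem_Icc] at hn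
    have h1 := hE2 n hn.1 hn.2 hnE
    rw [← hL, ← u_fI, ← hℓ] at h1
    have h2 := (abs_le.1 h1).1
    have hu : Emp.u (fI s y c) n ≤ 1 - (1 / L) * (1 - K * ℓ / L) := by
      have e : (1 / L) * (1 - K * ℓ / L) = 1 / L - K * (ℓ / L ^ 2) := by field_simp
      rw [e]; linarith
    have hKL : K * ℓ / L ≤ 1 := by rw [div_le_one hL0]; exact g2
    obtain ⟨t, ht⟩ : ∃ t : ℝ, t = (1 / L) * (1 - K * ℓ / L) := ⟨_, rfl⟩
    have ht0 : 0 ≤ t := by rw [ht]; exact mul_nonneg (by positivity) (by linarith)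
    rw [← ht] at hu
    have hu0 := Emp.u_nonneg (fI s y c) (fun n a => fI01 s y c n a) n
    calc Emp.u (fI s y c) n ^ m ≤ (Real.exp (-t)) ^ m := by
          apply pow_le_pow_left₀ hu0
          linarith [Real.add_one_le_exp (-t)]
      _ = Real.exp (-(m * t)) := by
          rw [← Real.exp_nat_mul]; congr 1; ring
      _ ≤ Real.exp (-((A + ε) * ℓ) + 1) := by
          apply Real.exp_le_exp.2
          have h3 : ((A + ε) * (L * ℓ)) * t ≤ m * t := mul_le_mul_of_nonneg_right hm ht0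
          have h4 : ((A + ε) * (L * ℓ)) * t = (A + ε) * ℓ - (A + ε) * K * ℓ ^ 2 / L := by
            rw [ht]; field_simp
          have h5 : (A + ε) * K * ℓ ^ 2 / L ≤ 1 := by rw [div_le_one hL0]; exact g3
          linarith
      _ ≤ 3 * L ^ (-(A + ε)) := by
          rw [Real.exp_add, mul_comm]
          have h6 : Real.exp (-((A + ε) * ℓ)) = L ^ (-(A + ε)) := by
            rw [hℓ, Real.rpow_def_of_pos hL0]; congr 1; ring
          rw [h6]
          apply mul_le_mul_of_nonneg_right _ (by positivity)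
          linarith [Real.exp_one_lt_d9]
  have hsumu : ∑ n ∈ Icc 1 N, Emp.u (fI s y c) n ^ m ≤ 4 * N * L ^ (-(A + ε)) := by
    have h1 : ∀ n ∈ Icc 1 N, Emp.u (fI s y c) n ^ m ≤ 3 * L ^ (-(A + ε)) + (if n ∈ E then 1 else 0) := by
      intro n hn
      have hpos : 0 ≤ 3 * L ^ (-(A + ε)) := by positivity
      by_cases h : n ∈ E
      · rw [if_pos h]
        have h2 : Emp.u (fI s y c) n ^ m ≤ 1 := by
          apply pow_le_one₀ (Emp.u_nonneg (fI s y c) (fun n a => fI01 s y c n a) n)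
          have := Emp.c_le (fI s y c) (fun n a => fI01 s y c n a) n n
          have h3 := Emp.c_nonneg (fI s y c) (fun n a => fI01 s y c n a) n n
          linarith
        linarith
      · rw [if_neg h, add_zero]; exact hgood n hn h
    have h2 := sum_le_sum h1
    rw [sum_add_distrib, sum_const, nsmul_eq_mul, Nat.card_Icc, Nat.add_sub_cancel, ← sum_filter, sum_const, nsmul_eq_mul,
      mul_one] at h2
    have h3 : (((Icc 1 N).filter (fun n => n ∈ E)).card : ℝ) ≤ N * L ^ (-(A + ε)) := by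
      calc (((Icc 1 N).filter (fun n => n ∈ E)).card : ℝ) ≤ E.card := by
            exact_mod_cast card_le_card (fun n hn => (mem_filter.1 hn).2)
        _ ≤ N / L ^ U := hE1
        _ ≤ N * L ^ (-(A + ε)) := by
            rw [div_eq_mul_inv, ← Real.rpow_natCast L U, ← Real.rpow_neg hL0.le]
            apply mul_le_mul_of_nonneg_left _ hN0.le
            exact Real.rpow_le_rpow_of_exponent_le (by linarith) (by linarith)
    calc ∑ n ∈ Icc 1 N, Emp.u (fI s y c) n ^ m ≤ _ := h2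
      _ ≤ N * (3 * L ^ (-(A + ε))) + N * L ^ (-(A + ε)) := by linarith
      _ = _ := by ring
  have hfirst := Emp.first N m (fI s y c)
  obtain ⟨Bd, hBd⟩ : ∃ Bd : Finset (Fin m → s), Bd = (univ : Finset (Fin m → s)).filter (fun ω => N / L ^ A <
      ((((Icc 1 N).filter (fun n => ∀ l, ¬ (n + c + (y (ω l)).val).Prime)).card : ℕ) : ℝ)) := ⟨_, rfl⟩
  rw [← hBd]
  have hD0 : ∀ ω : Fin m → s, 0 ≤ Emp.D N m (fI s y c) ω := fun ω => by
    rw [← D_eq]; exact Nat.cast_nonneg _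
  have hLA : 0 < L ^ A := Real.rpow_pos_of_pos hL0 _
  have h1 : (Bd.card : ℝ) * (N / L ^ A) ≤ ∑ ω : Fin m → s, Emp.D N m (fI s y c) ω := by
    calc (Bd.card : ℝ) * (N / L ^ A) = ∑ ω ∈ Bd, (N / L ^ A) := by rw [sum_const, nsmul_eq_mul]
      _ ≤ ∑ ω ∈ Bd, Emp.D N m (fI s y c) ω := by
          apply sum_le_sum
          intro ω hω
          rw [hBd, mem_filter, D_eq] at hω
          exact hω.2.le
      _ ≤ _ := sum_le_sum_of_subset_of_nonneg (subset_univ _) fun _ _ _ => hD0 _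
  rw [hfirst, hcard] at h1
  have h2 : (Bd.card : ℝ) * (N / L ^ A) ≤ (s.card : ℝ) ^ m * (4 * N * L ^ (-(A + ε))) := by
    refine h1.trans ?_
    exact mul_le_mul_of_nonneg_left hsumu (by positivity)
  have hx0 : 0 < L ^ (ε / 2) := Real.rpow_pos_of_pos hL0 _
  have h3 : (s.card : ℝ) ^ m * (4 * N * L ^ (-(A + ε))) ≤ ((s.card : ℝ) ^ m / L ^ (ε / 2)) * (N / L ^ A) := by
    have e1 : L ^ (-(A + ε)) = (L ^ A)⁻¹ * ((L ^ (ε / 2))⁻¹ * (L ^ (ε / 2))⁻¹) := by
      rw [← Real.rpow_neg hL0.le, ← Real.rpow_neg hL0.le, ← Real.rpow_add hL0, ← Real.rpow_add hL0]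
      congr 1; ring
    rw [e1]
    have h4 : 4 * (L ^ (ε / 2))⁻¹ ≤ 1 := by
      rw [← div_eq_mul_inv, div_le_one hx0]; exact g4
    calc (s.card : ℝ) ^ m * (4 * N * ((L ^ A)⁻¹ * ((L ^ (ε / 2))⁻¹ * (L ^ (ε / 2))⁻¹))) =
        ((s.card : ℝ) ^ m * (L ^ (ε / 2))⁻¹ * (N * (L ^ A)⁻¹)) * (4 * (L ^ (ε / 2))⁻¹) := by ring
      _ ≤ ((s.card : ℝ) ^ m * (L ^ (ε / 2))⁻¹ * (N * (L ^ A)⁻¹)) * 1 := mul_le_mul_of_nonneg_left h4 (by positivity)
      _ = ((s.card : ℝ) ^ m / L ^ (ε / 2)) * (N / L ^ A) := by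
          rw [mul_one, div_eq_mul_inv ((s.card : ℝ) ^ m), div_eq_mul_inv (N : ℝ)]
  exact le_of_mul_le_mul_right (h2.trans h3) (by positivity)

end Pool.Agent.Run7.h794.MK
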