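import Mathlib
import Pool.Agent.Run7.h794.MK.Tail3
import Pool.Agent.Run7.h931.MK.Fin

set_option autoImplicit false

/-! Random sparse windows: the final theorems. -/

namespace Pool.Agent.Run7.h794.MK

open Finset Filter
open Pool.Agent.N384.MQ (Flat ev_log_pow ev_log_ge)

theorem sw00 (h31 : S_T31) : S_SW0 := by
  intro Bq ε hε
  obtain ⟨V, C, K, N₁, hsw⟩ := sw1 h31 Bq 1
  have hlogt : Tendsto (fun N : ℕ => Real.log N) atTop atTop :=
    Real.tendsto_log_atTop.comp (tendsto_natCast_atTop_atTop (R := ℝ))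
  obtain ⟨N₂, hN₂⟩ := eventually_atTop.1 (hlogt.eventually ((ev_lr 1 1 (ε / (K + 1)) one_pos (by positivity)).and
    (eventually_ge_atTop 1)))
  refine ⟨V, C, N₁ + N₂, fun N hN q _ hq1 hq2 ι s y hs hf => ?_⟩
  obtain ⟨E, hE1, hE2⟩ := hsw N (by omega) q hq1 hq2 s y hs hf 0 (Nat.zero_le _)
  obtain ⟨g1, g2⟩ := hN₂ N (by omega)
  refine ⟨E, hE1, fun n hn1 hn2 hnE => ?_⟩
  have h1 := hE2 n hn1 hn2 hnE
  rw [add_zero] at h1
  obtain ⟨L, hL⟩ : ∃ L : ℝ, L = Real.log (N : ℝ) := ⟨_, rfl⟩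
  rw [← hL] at h1 g1 g2 ⊢
  rw [Real.rpow_one, pow_one] at g1
  have hL0 : 0 < L := by linarith
  have hs0 : (0 : ℝ) < s.card := by exact_mod_cast hs.card_pos
  have hK0 : (0 : ℝ) ≤ K := Nat.cast_nonneg _
  have e : ((s.filter fun i => (n + (y i).val).Prime).card : ℝ) - s.card / L =
      s.card * (((s.filter fun i => (n + (y i).val).Prime).card : ℝ) / s.card - 1 / L) := by field_simp
  rw [e, abs_mul, abs_of_pos hs0]
  calc (s.card : ℝ) * |((s.filter fun i => (n + (y i).val).Prime).card : ℝ) / s.card - 1 / L| ≤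
      s.card * (K * (Real.log L / L ^ 2)) := mul_le_mul_of_nonneg_left h1 hs0.le
    _ ≤ s.card * (ε / L) := by
        apply mul_le_mul_of_nonneg_left _ hs0.le
        have hl0 : 0 ≤ Real.log L := Real.log_nonneg g2
        calc (K : ℝ) * (Real.log L / L ^ 2) ≤ (K + 1) * (Real.log L / L ^ 2) := by
              apply mul_le_mul_of_nonneg_right (by linarith) (by positivity)
          _ ≤ (K + 1) * ((ε / (K + 1) * L) / L ^ 2) := by
              apply mul_le_mul_of_nonneg_left _ (by positivity)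
              exact div_le_div_of_nonneg_right g1 (by positivity)
          _ = ε / L := by field_simp
    _ = ε * (s.card / L) := by ring

/-- the flatness in terms of `log q` -/
lemma flat_log (V : ℕ) : ∃ N₀ : ℕ, ∀ N : ℕ, N₀ ≤ N → ∀ (q : ℕ) [NeZero q] (C : ℕ), (N : ℝ) ^ (1 / 3 : ℝ) * Real.log N ^ C ≤ q →
    ∀ {ι : Type} (s : Finset ι) (y : ι → ZMod q), Flat q (1 / Real.log q ^ (V + 1)) s y → Flat q (1 / Real.log N ^ V) s y := by
  obtain ⟨N₁, hN₁⟩ := eventually_atTop.1 (ev_log_ge (3 ^ (V + 1)))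
  refine ⟨N₁ + 1, fun N hN q _ C hq ι s y hf => Flat.mono' hf ?_⟩
  have h1 := hN₁ N (by omega)
  have hN0 : (0 : ℝ) < N := by exact_mod_cast (by omega : 0 < N)
  have hL1 : 1 ≤ Real.log N := le_trans (one_le_pow₀ (by norm_num)) h1
  have hq1 : (N : ℝ) ^ (1 / 3 : ℝ) ≤ q := by
    refine le_trans ?_ hq
    exact le_mul_of_one_le_right (by positivity) (one_le_pow₀ hL1)
  have hlq : Real.log N / 3 ≤ Real.log q := by
    have h2 := Real.log_le_log (by positivity) hq1
    rw [Real.log_rpow hN0] at h2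
    linarith
  have hpos : 0 < Real.log N / 3 := by positivity
  apply one_div_le_one_div_of_le (by positivity)
  calc Real.log N ^ V = Real.log N ^ V * 1 := (mul_one _).symm
    _ ≤ Real.log N ^ V * (Real.log N / 3 ^ (V + 1)) := by
        apply mul_le_mul_of_nonneg_left _ (by positivity)
        rw [le_div_iff₀ (by positivity)]; linarith
    _ = (Real.log N / 3) ^ (V + 1) := by rw [div_pow, pow_succ (Real.log (N : ℝ))]; ring
    _ ≤ Real.log q ^ (V + 1) := pow_le_pow_left₀ hpos.le hlq _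

end Pool.Agent.Run7.h794.MK
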