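import Mathlib
import Pool.Agent.Run7.h458.MK.Lio
import Pool.Agent.Run7.h794.MK.AllM

/-! Project MKM (helper794) put together for the Liouville function. -/

set_option autoImplicit false

namespace Pool.Agent.Run7.h794.MK

theorem lio_abs (n : ℕ) : |lio n| ≤ 1 := by
  unfold lio
  split_ifs
  · simp
  · simp [abs_pow]

theorem all_lio : S_ALLg lio := Pool.Agent.Run7.h458.MK.lio_of_mob all_mob

theorem arc_lio : S_ARCg lio := arcg lio_abs all_lio

theorem law_lio : S_LAWg lio := lawg lio_abs arc_lio

theorem t31_lio : S_T31Gg lio := t31g lio_abs arc_lio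

end Pool.Agent.Run7.h794.MK
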