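import Mathlib
import Pool.Agent.Run7.h794.MK.Orth

/-! Project MKM (helper794): Chowla's conjecture for almost all tuples of members of a short flat family, growing number of
factors, all exponent patterns, arbitrary additional weights. -/

set_option autoImplicit false

namespace Pool.Agent.Run7.h794.MK

open Finset Filter
open Pool.Agent.N384.MQ (Flat dis dis_nonneg dis_sum_real ev_log_pow ev_log_ge)
open Pool.Agent.Run7.h27.MK (gI)

/-- one coordinate of a uniform tuple -/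
lemma update_sum {ι : Type} [DecidableEq ι] (s : Finset ι) (r : ℕ) (l : Fin r) (F : (Fin r → ι) → ℝ) :
    ∑ ω ∈ Fintype.piFinset (fun _ : Fin r => s), ∑ b ∈ s, F (Function.update ω l b) =
      s.card * ∑ ω ∈ Fintype.piFinset (fun _ : Fin r => s), F ω := by
  classical
  have h1 : ∑ ω ∈ Fintype.piFinset (fun _ : Fin r => s), ∑ b ∈ s, F (Function.update ω l b) =
      ∑ p ∈ Fintype.piFinset (fun _ : Fin r => s) ×ˢ s, F (Function.update p.1 l p.2) := by
    rw [sum_product]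
  have h2 : (s.card : ℝ) * ∑ ω ∈ Fintype.piFinset (fun _ : Fin r => s), F ω =
      ∑ p ∈ Fintype.piFinset (fun _ : Fin r => s) ×ˢ s, F p.1 := by
    rw [sum_product, mul_sum]
    apply sum_congr rfl
    intro ω _
    simp [sum_const, nsmul_eq_mul]
  rw [h1, h2]
  apply sum_nbij' (fun p => (Function.update p.1 l p.2, p.1 l)) (fun p => (Function.update p.1 l p.2, p.1 l))
  · intro p hp
    rw [mem_product, Fintype.mem_piFinset] at hp ⊢
    refine ⟨fun k => ?_, hp.1 l⟩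
    by_cases hk : k = l
    · subst hk
      simp only [Function.update_self]
      exact hp.2
    · simp only [Function.update_of_ne hk]
      exact hp.1 k
  · intro p hp
    rw [mem_product, Fintype.mem_piFinset] at hp ⊢
    refine ⟨fun k => ?_, hp.1 l⟩
    by_cases hk : k = l
    · subst hk
      simp only [Function.update_self]
      exact hp.2
    · simp only [Function.update_of_ne hk]
      exact hp.1 k
  · intro p _
    apply Prod.ext
    · simp
    · simp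
  · intro p _
    apply Prod.ext
    · simp
    · simp
  · intro p _
    rfl

/-- the patterns of exponents with an exponent one -/
def Ex (r : ℕ) : Finset (Fin r → Fin 3) := univ.filter fun e => ∃ l, e l = 1

/-- the products -/
noncomputable def Pr (g : ℕ → ℝ) {r : ℕ} (e : Fin r → Fin 3) (Y : Fin r → ℕ) (n : ℕ) : ℝ := ∏ l, g (n + Y l) ^ (e l : ℕ)

lemma Pr_abs {g : ℕ → ℝ} (hg1 : ∀ n, |g n| ≤ 1) {r : ℕ} (e : Fin r → Fin 3) (Y : Fin r → ℕ) (n : ℕ) :
    |Pr g e Y n| ≤ 1 := by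
  unfold Pr
  rw [abs_prod]
  apply prod_le_one
  · intro l _; exact abs_nonneg _
  · intro l _
    rw [abs_pow]
    exact pow_le_one₀ (abs_nonneg _) (hg1 _)

/-- the total of the correlations over the grid -/
noncomputable def RT (g : ℕ → ℝ) (N h K : ℕ) (ℱ : Finset (ℕ → ℝ)) {r : ℕ} (y : Fin r → ℕ) : ℝ :=
  ∑ G ∈ ℱ, ∑ e ∈ Ex r, ∑ κ ∈ Icc 1 K, ∑ j ∈ range (N / h + 1), |∑ n ∈ Icc 1 (j * h), G n * Pr g e (fun l => κ * y l) n|

/-- the mean over the tuples -/
lemma tuples_mean {g : ℕ → ℝ} (hg1 : ∀ n, |g n| ≤ 1) (hlaw : S_LAWg g) (T Bq U : ℕ) :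
    ∃ V C N₀ : ℕ, ∀ N : ℕ, N₀ ≤ N → ∀ (q : ℕ) [NeZero q],
    (N : ℝ) ^ (1 / 3 : ℝ) * Real.log N ^ C ≤ q → q ≤ Bq * N → ∀ {ι : Type} [DecidableEq ι] (s : Finset ι) (y : ι → ZMod q), s.Nonempty →
    Flat q (1 / Real.log N ^ V) s y → ∀ h K : ℕ, 1 ≤ h → (K : ℝ) ≤ Real.log N ^ T → ∀ ℱ : Finset (ℕ → ℝ),
    (∀ G ∈ ℱ, ∀ n, |G n| ≤ 1) → ∀ r : ℕ,
    ∑ ω ∈ Fintype.piFinset (fun _ : Fin r => s), RT g N h K ℱ (fun l => (y (ω l)).val) ≤
      (s.card : ℝ) ^ r * (ℱ.card * ((3 : ℝ) ^ r * (K * ((N / h + 1 : ℕ) * (N / Real.log N ^ U))))) := by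
  classical
  obtain ⟨V, C, N₀, h1⟩ := oneg hlaw T Bq U
  refine ⟨V, C, N₀ + 3, fun N hN q _ hq1 hq2 ι _ s y hs hf h K hh hK ℱ hℱ r => ?_⟩
  have hs0 : (0 : ℝ) < s.card := by exact_mod_cast hs.card_pos
  have hmsh : Msh V C Bq N q (dis s y) := msh_dis hs hq1 hq2 hf
  have hL0 : 0 < Real.log (N : ℝ) := Real.log_pos (by exact_mod_cast (by omega : 1 < N))
  have key : ∀ G ∈ ℱ, ∀ e ∈ Ex r, ∀ κ ∈ Icc 1 K, ∀ j ∈ range (N / h + 1),
      ∑ ω ∈ Fintype.piFinset (fun _ : Fin r => s), |∑ n ∈ Icc 1 (j * h), G n * Pr g e (fun l => κ * (y (ω l)).val) n| ≤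
        (s.card : ℝ) ^ r * (N / Real.log N ^ U) := by
    intro G hG e he κ hκ j hj
    rw [mem_Icc] at hκ
    rw [mem_range] at hj
    unfold Ex at he
    rw [mem_filter] at he
    obtain ⟨-, l, hl⟩ := he
    have hjN : j * h ≤ N := by
      calc j * h ≤ (N / h) * h := Nat.mul_le_mul_right _ (by omega)
        _ ≤ N := Nat.div_mul_le_self N h
    obtain ⟨F, hF⟩ : ∃ F : (Fin r → ι) → ℝ, ∀ ω, F ω = |∑ n ∈ Icc 1 (j * h), G n * Pr g e (fun l => κ * (y (ω l)).val) n| :=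
      ⟨_, fun _ => rfl⟩
    have h2 := update_sum s r l F
    have h3 : ∀ ω ∈ Fintype.piFinset (fun _ : Fin r => s), ∑ b ∈ s, F (Function.update ω l b) ≤
        s.card * (N / Real.log N ^ U) := by
      intro ω _
      obtain ⟨G', hG'⟩ : ∃ G' : ℕ → ℝ, ∀ n, G' n = if n ≤ j * h then
          G n * ∏ k ∈ univ.erase l, g (n + κ * (y (ω k)).val) ^ (e k : ℕ) else 0 := ⟨_, fun _ => rfl⟩
      have h4 := h1 N (by omega) q (dis s y) hmsh (κ : ℤ) (by omega) (by
        rw [Int.natAbs_natCast]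
        have : (κ : ℝ) ≤ K := by exact_mod_cast hκ.2
        exact this.trans hK) 0 (by
        simp only [Int.cast_zero, abs_zero]
        positivity) 1 one_pos G' (by
        intro n _
        rw [hG']
        split_ifs
        · rw [abs_mul]
          refine mul_le_one₀ (hℱ G hG n) (abs_nonneg _) ?_
          rw [abs_prod]
          apply prod_le_one
          · intro k _; exact abs_nonneg _
          · intro k _
            rw [abs_pow]
            exact pow_le_one₀ (abs_nonneg _) (hg1 _)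
        · simp)
      rw [one_mul] at h4
      have h5 : ∀ b : ι, F (Function.update ω l b) =
          |∑ n ∈ Icc 1 N, G' n * gI g ((n : ℤ) + (0 + (κ : ℤ) * (((y b).val : ℕ) : ℤ)))| := by
        intro b
        rw [hF]
        congr 1
        rw [← sum_subset (Icc_subset_Icc (le_refl 1) hjN)]
        · apply sum_congr rfl
          intro n hn
          rw [mem_Icc] at hn
          rw [hG', if_pos hn.2]
          have e1 : gI g ((n : ℤ) + (0 + (κ : ℤ) * (((y b).val : ℕ) : ℤ))) = g (n + κ * (y b).val) := by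
            unfold gI
            have e0 : (0 : ℤ) ≤ (κ : ℤ) * (((y b).val : ℕ) : ℤ) := by positivity
            rw [if_pos (by omega)]
            congr 1
            have : (n : ℤ) + (0 + (κ : ℤ) * (((y b).val : ℕ) : ℤ)) = ((n + κ * (y b).val : ℕ) : ℤ) := by push_cast; ring
            rw [this, Int.toNat_natCast]
          rw [e1]
          unfold Pr
          rw [← mul_prod_erase univ _ (mem_univ l)]
          have e2 : ∀ k ∈ univ.erase l, g (n + κ * (y (Function.update ω l b k)).val) ^ (e k : ℕ) =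
              g (n + κ * (y (ω k)).val) ^ (e k : ℕ) := by
            intro k hk
            rw [mem_erase] at hk
            rw [Function.update_of_ne hk.1]
          rw [prod_congr rfl e2]
          simp only [Function.update_self, hl, Fin.val_one, pow_one]
          ring
        · intro n hn hn'
          rw [mem_Icc] at hn hn'
          rw [hG', if_neg (by omega), zero_mul]
      have h6 := dis_sum_real s y q le_rfl
        (fun v => |∑ n ∈ Icc 1 N, G' n * gI g ((n : ℤ) + (0 + (κ : ℤ) * ((v : ℕ) : ℤ)))|)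
      rw [h6, div_le_iff₀ hs0] at h4
      rw [sum_congr rfl fun b _ => h5 b]
      linarith
    have h7 := sum_le_sum h3
    rw [h2, sum_const, Fintype.card_piFinset_const, nsmul_eq_mul] at h7
    simp only [hF] at h7
    push_cast at h7
    have h8 : (s.card : ℝ) * ∑ ω ∈ Fintype.piFinset (fun _ : Fin r => s),
        |∑ n ∈ Icc 1 (j * h), G n * Pr g e (fun l => κ * (y (ω l)).val) n| ≤
        s.card * ((s.card : ℝ) ^ r * (N / Real.log N ^ U)) := by
      refine h7.trans (le_of_eq ?_)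
      ring
    exact le_of_mul_le_mul_left h8 hs0
  have hEx : ((Ex r).card : ℝ) ≤ (3 : ℝ) ^ r := by
    have : (Ex r).card ≤ 3 ^ r := by
      unfold Ex
      refine (card_filter_le _ _).trans (le_of_eq ?_)
      rw [card_univ, Fintype.card_fun, Fintype.card_fin, Fintype.card_fin]
    exact_mod_cast this
  unfold RT
  calc ∑ ω ∈ Fintype.piFinset (fun _ : Fin r => s), ∑ G ∈ ℱ, ∑ e ∈ Ex r, ∑ κ ∈ Icc 1 K, ∑ j ∈ range (N / h + 1),
        |∑ n ∈ Icc 1 (j * h), G n * Pr g e (fun l => κ * (y (ω l)).val) n|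
      = ∑ G ∈ ℱ, ∑ e ∈ Ex r, ∑ κ ∈ Icc 1 K, ∑ j ∈ range (N / h + 1), ∑ ω ∈ Fintype.piFinset (fun _ : Fin r => s),
        |∑ n ∈ Icc 1 (j * h), G n * Pr g e (fun l => κ * (y (ω l)).val) n| := by
        rw [sum_comm]
        apply sum_congr rfl; intro G _
        rw [sum_comm]
        apply sum_congr rfl; intro e _
        rw [sum_comm]
        apply sum_congr rfl; intro κ _
        rw [sum_comm]
    _ ≤ ∑ G ∈ ℱ, ∑ e ∈ Ex r, ∑ κ ∈ Icc 1 K, ∑ j ∈ range (N / h + 1), (s.card : ℝ) ^ r * (N / Real.log N ^ U) :=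
        sum_le_sum fun G hG => sum_le_sum fun e he => sum_le_sum fun κ hκ => sum_le_sum fun j hj => key G hG e he κ hκ j hj
    _ = (s.card : ℝ) ^ r * (ℱ.card * (((Ex r).card : ℝ) * (K * ((N / h + 1 : ℕ) * (N / Real.log N ^ U))))) := by
        rw [sum_const, sum_const, sum_const, sum_const, Nat.card_Icc, card_range, Nat.add_sub_cancel]
        simp only [nsmul_eq_mul]
        ring
    _ ≤ _ := by
        have h9 : 0 ≤ (N : ℝ) / Real.log N ^ U := by positivity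
        gcongr

lemma one_le_sum4 {α β γ δ : Type} (F : α → β → γ → δ → ℝ) (h0 : ∀ a b c d, 0 ≤ F a b c d) (sa : Finset α) (sb : Finset β)
    (sc : Finset γ) (sd : Finset δ) {a : α} (ha : a ∈ sa) {b : β} (hb : b ∈ sb) {c : γ} (hc : c ∈ sc) :
    ∑ d ∈ sd, F a b c d ≤ ∑ a ∈ sa, ∑ b ∈ sb, ∑ c ∈ sc, ∑ d ∈ sd, F a b c d := by
  have h1 : ∑ d ∈ sd, F a b c d ≤ ∑ c ∈ sc, ∑ d ∈ sd, F a b c d :=
    single_le_sum (f := fun c => ∑ d ∈ sd, F a b c d) (fun _ _ => sum_nonneg fun _ _ => h0 _ _ _ _) hc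
  have h2 : ∑ c ∈ sc, ∑ d ∈ sd, F a b c d ≤ ∑ b ∈ sb, ∑ c ∈ sc, ∑ d ∈ sd, F a b c d :=
    single_le_sum (f := fun b => ∑ c ∈ sc, ∑ d ∈ sd, F a b c d)
      (fun _ _ => sum_nonneg fun _ _ => sum_nonneg fun _ _ => h0 _ _ _ _) hb
  have h3 : ∑ b ∈ sb, ∑ c ∈ sc, ∑ d ∈ sd, F a b c d ≤ ∑ a ∈ sa, ∑ b ∈ sb, ∑ c ∈ sc, ∑ d ∈ sd, F a b c d :=
    single_le_sum (f := fun a => ∑ b ∈ sb, ∑ c ∈ sc, ∑ d ∈ sd, F a b c d)
      (fun _ _ => sum_nonneg fun _ _ => sum_nonneg fun _ _ => sum_nonneg fun _ _ => h0 _ _ _ _) ha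
  exact h1.trans (h2.trans h3)

lemma ev_tup (W : ℕ) : ∃ N₀ : ℕ, ∀ N : ℕ, N₀ ≤ N → 100 ≤ Real.log N ∧ Real.log N ^ W ≤ N := by
  obtain ⟨n2, h2⟩ := eventually_atTop.1 ((ev_log_ge 100).and (ev_log_pow W 1))
  refine ⟨n2, fun N hN => ?_⟩
  obtain ⟨a1, a3⟩ := h2 N hN
  exact ⟨a1, by linarith⟩

/-- **Chowla's conjecture for almost all tuples**, a growing number of factors, all exponent patterns with an exponent one,
all intervals, all dilations, a family of additional weights. -/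
theorem tuples {g : ℕ → ℝ} (hg1 : ∀ n, |g n| ≤ 1) (hlaw : S_LAWg g) (A T Bq : ℕ) :
    ∃ V C N₀ : ℕ, ∀ N : ℕ, N₀ ≤ N → ∀ (q : ℕ) [NeZero q],
    (N : ℝ) ^ (1 / 3 : ℝ) * Real.log N ^ C ≤ q → q ≤ Bq * N → ∀ {ι : Type} [DecidableEq ι] (s : Finset ι) (y : ι → ZMod q),
    s.Nonempty → Flat q (1 / Real.log N ^ V) s y → ∀ r : ℕ, (3 : ℝ) ^ r ≤ Real.log N ^ A →
    ∀ ℱ : Finset (ℕ → ℝ), (ℱ.card : ℝ) ≤ Real.log N ^ A → (∀ G ∈ ℱ, ∀ n, |G n| ≤ 1) →
    ∃ Bad ⊆ Fintype.piFinset (fun _ : Fin r => s), (Bad.card : ℝ) ≤ (s.card : ℝ) ^ r / Real.log N ^ A ∧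
      ∀ i ∈ Fintype.piFinset (fun _ : Fin r => s), i ∉ Bad → ∀ κ : ℕ, 1 ≤ κ → (κ : ℝ) ≤ Real.log N ^ T →
      ∀ u v : ℕ, v ≤ N → (u : ℝ) + N / Real.log N ^ T ≤ v → ∀ G ∈ ℱ, ∀ e : Fin r → Fin 3, (∃ l, e l = 1) →
      |∑ n ∈ Ioc u v, G n * ∏ l, g (n + κ * (y (i l)).val) ^ (e l : ℕ)| ≤ ((v : ℝ) - u) / Real.log N ^ A := by
  classical
  obtain ⟨W, hW⟩ : ∃ W, W = A + T + 1 := ⟨_, rfl⟩
  obtain ⟨U, hU⟩ : ∃ U, U = 3 * A + T + 2 * W + 1 := ⟨_, rfl⟩
  obtain ⟨V, C, N₁, hmean⟩ := tuples_mean hg1 hlaw T Bq U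
  obtain ⟨N₂, hev⟩ := ev_tup W
  refine ⟨V, C, N₁ + N₂ + 3, fun N hN q _ hq1 hq2 ι _ s y hs hf r hr ℱ hℱc hℱ => ?_⟩
  obtain ⟨a1, a4⟩ := hev N (by omega)
  have hN0 : (0 : ℝ) < N := by exact_mod_cast (by omega : 0 < N)
  have hs0 : (0 : ℝ) < s.card := by exact_mod_cast hs.card_pos
  have hmean := hmean N (by omega) q hq1 hq2 s y hs hf
  obtain ⟨L, hL⟩ : ∃ L, L = Real.log (N : ℝ) := ⟨_, rfl⟩
  rw [← hL] at a1 a4 hr hℱc hmean ⊢
  have hL0 : 0 < L := by linarith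
  have hL1 : 1 ≤ L := by linarith
  obtain ⟨h, hh⟩ : ∃ h : ℕ, h = ⌈(N : ℝ) / L ^ W⌉₊ := ⟨_, rfl⟩
  have hNW : 1 ≤ (N : ℝ) / L ^ W := by
    rw [le_div_iff₀ (by positivity), one_mul]
    exact a4
  have hh1 : (N : ℝ) / L ^ W ≤ h := by rw [hh]; exact Nat.le_ceil _
  have hh2 : (h : ℝ) ≤ 2 * ((N : ℝ) / L ^ W) := by
    rw [hh]
    have := (Nat.ceil_lt_add_one (by positivity : 0 ≤ (N : ℝ) / L ^ W)).le
    linarith
  have hhpos : 1 ≤ h := by
    have : (1 : ℝ) ≤ h := hNW.trans hh1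
    exact_mod_cast this
  have hh0 : (0 : ℝ) < h := by exact_mod_cast hhpos
  obtain ⟨K, hK⟩ : ∃ K : ℕ, K = ⌊L ^ T⌋₊ := ⟨_, rfl⟩
  have hK1 : (K : ℝ) ≤ L ^ T := by rw [hK]; exact Nat.floor_le (by positivity)
  have hNh : ((N / h + 1 : ℕ) : ℝ) ≤ 2 * L ^ W := by
    push_cast
    have h1 : ((N / h : ℕ) : ℝ) ≤ (N : ℝ) / h := Nat.cast_div_le
    have h2 : (N : ℝ) / h ≤ L ^ W := by
      rw [div_le_iff₀ hh0]
      have h3 : (N : ℝ) = L ^ W * (N / L ^ W) := by field_simp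
      calc (N : ℝ) = L ^ W * (N / L ^ W) := h3
        _ ≤ L ^ W * h := mul_le_mul_of_nonneg_left hh1 (by positivity)
    have h4 : 1 ≤ L ^ W := one_le_pow₀ hL1
    linarith
  have hmean := hmean h K hhpos hK1 ℱ hℱ r
  have hRT0 : ∀ Y : Fin r → ℕ, 0 ≤ RT g N h K ℱ Y := fun Y =>
    sum_nonneg fun _ _ => sum_nonneg fun _ _ => sum_nonneg fun _ _ => sum_nonneg fun _ _ => abs_nonneg _
  obtain ⟨B, hB⟩ : ∃ B : Finset (Fin r → ι), B = (Fintype.piFinset (fun _ : Fin r => s)).filter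
    (fun ω => (N : ℝ) / L ^ W < RT g N h K ℱ (fun l => (y (ω l)).val)) := ⟨_, rfl⟩
  have hBs : B ⊆ Fintype.piFinset (fun _ : Fin r => s) := by rw [hB]; exact filter_subset _ _
  refine ⟨B, hBs, ?_, ?_⟩
  · have h1 : (B.card : ℝ) * ((N : ℝ) / L ^ W) ≤
        ∑ ω ∈ Fintype.piFinset (fun _ : Fin r => s), RT g N h K ℱ (fun l => (y (ω l)).val) := by
      calc (B.card : ℝ) * ((N : ℝ) / L ^ W) = ∑ p ∈ B, ((N : ℝ) / L ^ W) := by rw [sum_const, nsmul_eq_mul]
        _ ≤ ∑ ω ∈ B, RT g N h K ℱ (fun l => (y (ω l)).val) := sum_le_sum fun p hp => by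
            rw [hB, mem_filter] at hp
            exact hp.2.le
        _ ≤ _ := sum_le_sum_of_subset_of_nonneg hBs fun _ _ _ => hRT0 _
    have h2 := h1.trans hmean
    have h3 : (s.card : ℝ) ^ r * (ℱ.card * ((3 : ℝ) ^ r * (K * ((N / h + 1 : ℕ) * (N / L ^ U))))) ≤
        (s.card : ℝ) ^ r * (L ^ A * (L ^ A * (L ^ T * ((2 * L ^ W) * (N / L ^ U))))) := by gcongr
    have h4 := h2.trans h3
    have e1 : L ^ U = L ^ A * L ^ A * L ^ A * L ^ T * L ^ W * L ^ W * L := by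
      rw [hU]; ring
    have e2 : (s.card : ℝ) ^ r * (L ^ A * (L ^ A * (L ^ T * ((2 * L ^ W) * (N / L ^ U))))) =
        (2 * (s.card : ℝ) ^ r / (L ^ A * L)) * (N / L ^ W) := by
      rw [e1]; field_simp
    rw [e2] at h4
    have h5 : (B.card : ℝ) ≤ 2 * (s.card : ℝ) ^ r / (L ^ A * L) :=
      le_of_mul_le_mul_right h4 (by linarith)
    calc (B.card : ℝ) ≤ 2 * (s.card : ℝ) ^ r / (L ^ A * L) := h5
      _ = (s.card : ℝ) ^ r / L ^ A * (2 / L) := by field_simp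
      _ ≤ (s.card : ℝ) ^ r / L ^ A * 1 := by
          apply mul_le_mul_of_nonneg_left _ (by positivity)
          rw [div_le_one hL0]; linarith
      _ = _ := mul_one _
  · intro i hi hbad κ hκ1 hκ2 u v hvN huv G hG e he
    have hgood : RT g N h K ℱ (fun l => (y (i l)).val) ≤ N / L ^ W := by
      by_contra hcon
      push Not at hcon
      apply hbad
      rw [hB, mem_filter]
      exact ⟨hi, hcon⟩
    have hκK : κ ∈ Icc 1 K := by
      rw [mem_Icc, hK]; exact ⟨hκ1, Nat.le_floor hκ2⟩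
    have heE : e ∈ Ex r := by unfold Ex; rw [mem_filter]; exact ⟨mem_univ _, he⟩
    have hpre : ∀ w, w ≤ N → |∑ n ∈ Icc 1 w, G n * Pr g e (fun l => κ * (y (i l)).val) n| ≤ 3 * (N / L ^ W) := by
      intro w hw
      have h1 := prefix_grid (fun n => G n * Pr g e (fun l => κ * (y (i l)).val) n) (fun n => by
        rw [abs_mul]
        exact mul_le_one₀ (hℱ G hG n) (abs_nonneg _) (Pr_abs hg1 _ _ _)) N h hhpos w hw
      have h2 : ∑ j ∈ range (N / h + 1), |∑ n ∈ Icc 1 (j * h), G n * Pr g e (fun l => κ * (y (i l)).val) n| ≤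
          RT g N h K ℱ (fun l => (y (i l)).val) := by
        unfold RT
        exact one_le_sum4 (fun (G : ℕ → ℝ) (e : Fin r → Fin 3) (κ j : ℕ) =>
          |∑ n ∈ Icc 1 (j * h), G n * Pr g e (fun l => κ * (y (i l)).val) n|) (fun _ _ _ _ => abs_nonneg _)
          ℱ (Ex r) (Icc 1 K) (range (N / h + 1)) hG heE hκK
      refine h1.trans ?_
      linarith
    have huv' : u ≤ v := by
      have h1 : (u : ℝ) ≤ v := by
        have : 0 ≤ (N : ℝ) / L ^ T := by positivity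
        linarith
      exact_mod_cast h1
    have h1 := shift_sum (fun n => G n * Pr g e (fun l => κ * (y (i l)).val) n) u v 0 huv'
    simp only [add_zero] at h1
    have h2 := hpre v hvN
    have h3 := hpre u (huv'.trans hvN)
    have h4 : |∑ n ∈ Ioc u v, G n * Pr g e (fun l => κ * (y (i l)).val) n| ≤ 6 * (N / L ^ W) := by
      rw [h1]
      rw [abs_le] at h2 h3 ⊢
      constructor <;> linarith [h2.1, h2.2, h3.1, h3.2]
    have h5 : |∑ n ∈ Ioc u v, G n * ∏ l, g (n + κ * (y (i l)).val) ^ (e l : ℕ)| ≤ 6 * (N / L ^ W) := h4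
    refine h5.trans ?_
    have h6 : N / L ^ T / L ^ A ≤ ((v : ℝ) - u) / L ^ A := by
      apply div_le_div_of_nonneg_right _ (by positivity)
      linarith
    refine le_trans ?_ h6
    calc 6 * ((N : ℝ) / L ^ W) = N / L ^ T / L ^ A * (6 / L) := by
          rw [hW]
          have e1 : L ^ (A + T + 1) = L ^ A * L ^ T * L := by ring
          rw [e1]
          field_simp
      _ ≤ N / L ^ T / L ^ A * 1 := by
          apply mul_le_mul_of_nonneg_left _ (by positivity)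
          rw [div_le_one hL0]; linarith
      _ = _ := mul_one _

end Pool.Agent.Run7.h794.MK
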