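import Mathlib
import Pool.Agent.Run7.h794.MK.TupG

/-! Project MKM (helper794): sums along random sequences of members of short flat families: Hoeffding's inequality and the
one-point law. -/

set_option autoImplicit false

namespace Pool.Agent.Run7.h794.MK

open Finset Filter
open Pool.Agent.N384.MQ (Flat dis dis_nonneg dis_sum_real ev_log_pow ev_log_ge)
open Pool.Agent.Run7.h27.MK (gI)

/-- the moment generating function over tuples -/
lemma mgf_tuples {ι : Type} [DecidableEq ι] (s : Finset ι) (M : ℕ) (w : Fin M → ι → ℝ) :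
    ∑ i ∈ Fintype.piFinset (fun _ : Fin M => s), Real.exp (∑ l, w l (i l)) = ∏ l, ∑ b ∈ s, Real.exp (w l b) := by
  rw [Finset.prod_univ_sum]
  apply sum_congr rfl
  intro i _
  rw [Real.exp_sum]

/-- Chernoff's inequality over tuples -/
lemma chernoff {ι : Type} [DecidableEq ι] (s : Finset ι) (M : ℕ) (w : Fin M → ι → ℝ) (ρ : Fin M → ℝ) (τ : ℝ)
    (hw : ∀ l, ∑ b ∈ s, Real.exp (w l b) ≤ s.card * Real.exp (ρ l)) :
    (((Fintype.piFinset (fun _ : Fin M => s)).filter (fun i => τ ≤ ∑ l, w l (i l))).card : ℝ) ≤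
      (s.card : ℝ) ^ M * Real.exp (∑ l, ρ l - τ) := by
  classical
  have h1 : (((Fintype.piFinset (fun _ : Fin M => s)).filter (fun i => τ ≤ ∑ l, w l (i l))).card : ℝ) * Real.exp τ ≤
      ∑ i ∈ Fintype.piFinset (fun _ : Fin M => s), Real.exp (∑ l, w l (i l)) := by
    calc (((Fintype.piFinset (fun _ : Fin M => s)).filter (fun i => τ ≤ ∑ l, w l (i l))).card : ℝ) * Real.exp τ =
        ∑ i ∈ (Fintype.piFinset (fun _ : Fin M => s)).filter (fun i => τ ≤ ∑ l, w l (i l)), Real.exp τ := by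
          rw [sum_const, nsmul_eq_mul]
      _ ≤ ∑ i ∈ (Fintype.piFinset (fun _ : Fin M => s)).filter (fun i => τ ≤ ∑ l, w l (i l)), Real.exp (∑ l, w l (i l)) :=
          sum_le_sum fun i hi => Real.exp_le_exp.2 (mem_filter.1 hi).2
      _ ≤ _ := sum_le_sum_of_subset_of_nonneg (filter_subset _ _) fun _ _ _ => (Real.exp_pos _).le
  rw [mgf_tuples] at h1
  have h2 : ∏ l, ∑ b ∈ s, Real.exp (w l b) ≤ ∏ l : Fin M, ((s.card : ℝ) * Real.exp (ρ l)) :=
    prod_le_prod (fun l _ => sum_nonneg fun b _ => (Real.exp_pos _).le) fun l _ => hw l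
  rw [prod_mul_distrib, prod_const, card_univ, Fintype.card_fin, ← Real.exp_sum] at h2
  have h3 := h1.trans h2
  rw [Real.exp_sub, ← mul_div_assoc, le_div_iff₀ (Real.exp_pos _)]
  exact h3

lemma exp_convex (u x : ℝ) (hx : |x| ≤ 1) : Real.exp (u * x) ≤ Real.cosh u + x * Real.sinh u := by
  rw [abs_le] at hx
  have h1 := convexOn_exp.2 (Set.mem_univ u) (Set.mem_univ (-u)) (by linarith : 0 ≤ (1 + x) / 2)
    (by linarith : 0 ≤ (1 - x) / 2) (by ring)
  simp only [smul_eq_mul] at h1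
  have e1 : (1 + x) / 2 * u + (1 - x) / 2 * -u = u * x := by ring
  rw [e1] at h1
  refine h1.trans (le_of_eq ?_)
  rw [Real.cosh_eq, Real.sinh_eq]
  ring

/-- Hoeffding's lemma for a nearly centred function on a finite set -/
lemma hoeffding_one {ι : Type} (s : Finset ι) (f : ι → ℝ) (hf : ∀ b ∈ s, |f b| ≤ 1) (δ : ℝ)
    (hmean : |∑ b ∈ s, f b| ≤ δ * s.card) (u : ℝ) :
    ∑ b ∈ s, Real.exp (u * f b) ≤ s.card * Real.exp (u ^ 2 / 2 + δ) := by
  have h1 : ∑ b ∈ s, Real.exp (u * f b) ≤ ∑ b ∈ s, (Real.cosh u + f b * Real.sinh u) :=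
    sum_le_sum fun b hb => exp_convex u (f b) (hf b hb)
  rw [sum_add_distrib, sum_const, nsmul_eq_mul, ← sum_mul] at h1
  have h2 : (∑ b ∈ s, f b) * Real.sinh u ≤ (δ * s.card) * Real.cosh u := by
    have h3 : |Real.sinh u| ≤ Real.cosh u := by
      rw [abs_le]
      constructor
      · have := Real.cosh_add_sinh u
        have := Real.exp_pos u
        linarith
      · exact (Real.sinh_lt_cosh u).le
    calc (∑ b ∈ s, f b) * Real.sinh u ≤ |(∑ b ∈ s, f b) * Real.sinh u| := le_abs_self _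
      _ = |∑ b ∈ s, f b| * |Real.sinh u| := abs_mul _ _
      _ ≤ (δ * s.card) * Real.cosh u := mul_le_mul hmean h3 (abs_nonneg _) ((abs_nonneg _).trans hmean)
  have h4 : 1 + δ ≤ Real.exp δ := by
    have := Real.add_one_le_exp δ
    linarith
  have h5 := Real.cosh_le_exp_half_sq u
  have h6 : 0 < Real.cosh u := Real.cosh_pos u
  calc ∑ b ∈ s, Real.exp (u * f b) ≤ s.card * Real.cosh u + (δ * s.card) * Real.cosh u := by linarith
    _ = s.card * (Real.cosh u * (1 + δ)) := by ring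
    _ ≤ s.card * (Real.exp (u ^ 2 / 2) * Real.exp δ) := by
        apply mul_le_mul_of_nonneg_left _ (Nat.cast_nonneg _)
        calc Real.cosh u * (1 + δ) ≤ Real.cosh u * Real.exp δ := mul_le_mul_of_nonneg_left h4 h6.le
          _ ≤ Real.exp (u ^ 2 / 2) * Real.exp δ := mul_le_mul_of_nonneg_right h5 (Real.exp_pos _).le
    _ = _ := by rw [Real.exp_add]

/-- the numbers of tuples with a large sum -/
lemma hoeffding {ι : Type} [DecidableEq ι] (s : Finset ι) (M : ℕ) (f : ι → ℝ) (hf : ∀ b ∈ s, |f b| ≤ 1) (δ : ℝ)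
    (hMδ : M * δ ≤ 1) (hmean : |∑ b ∈ s, f b| ≤ δ * s.card) (c : Fin M → ℝ) (τ : ℝ) (hτ : 0 ≤ τ) :
    (((Fintype.piFinset (fun _ : Fin M => s)).filter (fun i => τ * √(∑ l, c l ^ 2) < |∑ l, c l * f (i l)|)).card : ℝ) ≤
      (s.card : ℝ) ^ M * (6 * Real.exp (-(τ ^ 2 / 2))) := by
  classical
  obtain ⟨σ, hσ⟩ : ∃ σ, σ = √(∑ l, c l ^ 2) := ⟨_, rfl⟩
  rw [← hσ]
  have hσ0 : 0 ≤ σ := by rw [hσ]; exact Real.sqrt_nonneg _
  have hσ2 : σ ^ 2 = ∑ l, c l ^ 2 := by rw [hσ, Real.sq_sqrt (sum_nonneg fun _ _ => sq_nonneg _)]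
  rcases hσ0.eq_or_lt with h0 | h0
  · have hc : ∀ l, c l = 0 := by
      intro l
      rw [← h0] at hσ2
      have h1 : ∑ l, c l ^ 2 = 0 := by rw [← hσ2]; ring
      have h2 := (sum_eq_zero_iff_of_nonneg (fun _ _ => sq_nonneg _)).1 h1 l (mem_univ l)
      exact pow_eq_zero_iff (two_ne_zero) |>.1 h2
    have hempty : (Fintype.piFinset (fun _ : Fin M => s)).filter (fun i => τ * σ < |∑ l, c l * f (i l)|) = ∅ := by
      rw [filter_eq_empty_iff]
      intro i _
      rw [← h0]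
      simp [hc]
    rw [hempty, card_empty, Nat.cast_zero]
    exact mul_nonneg (pow_nonneg (Nat.cast_nonneg _) _) (mul_nonneg (by norm_num) (Real.exp_pos _).le)
  have key : ∀ sg : ℝ, |sg| = 1 →
      (((Fintype.piFinset (fun _ : Fin M => s)).filter
        (fun i => τ ^ 2 ≤ ∑ l, (τ / σ * sg * c l) * f (i l))).card : ℝ) ≤
      (s.card : ℝ) ^ M * (3 * Real.exp (-(τ ^ 2 / 2))) := by
    intro sg hsg
    have h1 := chernoff s M (fun l b => (τ / σ * sg * c l) * f b) (fun l => (τ / σ * sg * c l) ^ 2 / 2 + δ) (τ ^ 2)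
      (fun l => hoeffding_one s f hf δ hmean _)
    refine h1.trans ?_
    apply mul_le_mul_of_nonneg_left _ (by positivity)
    rw [sum_add_distrib, sum_const, card_univ, Fintype.card_fin, nsmul_eq_mul, ← sum_div]
    have e1 : ∑ l, (τ / σ * sg * c l) ^ 2 = τ ^ 2 := by
      have e2 : ∀ l, (τ / σ * sg * c l) ^ 2 = (τ / σ) ^ 2 * (sg ^ 2) * c l ^ 2 := fun l => by ring
      rw [sum_congr rfl fun l _ => e2 l, ← mul_sum, ← hσ2]
      have e3 : sg ^ 2 = 1 := by rw [← sq_abs, hsg, one_pow]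
      rw [e3]
      field_simp
    rw [e1]
    calc Real.exp (τ ^ 2 / 2 + M * δ - τ ^ 2) ≤ Real.exp (-(τ ^ 2 / 2) + 1) := by
          apply Real.exp_le_exp.2
          linarith
      _ = Real.exp 1 * Real.exp (-(τ ^ 2 / 2)) := by rw [← Real.exp_add]; congr 1; ring
      _ ≤ 3 * Real.exp (-(τ ^ 2 / 2)) := by
          apply mul_le_mul_of_nonneg_right _ (Real.exp_pos _).le
          exact Real.exp_one_lt_three.le
  have hsub : (Fintype.piFinset (fun _ : Fin M => s)).filter (fun i => τ * σ < |∑ l, c l * f (i l)|) ⊆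
      (Fintype.piFinset (fun _ : Fin M => s)).filter (fun i => τ ^ 2 ≤ ∑ l, (τ / σ * 1 * c l) * f (i l)) ∪
      (Fintype.piFinset (fun _ : Fin M => s)).filter (fun i => τ ^ 2 ≤ ∑ l, (τ / σ * (-1) * c l) * f (i l)) := by
    intro i hi
    rw [mem_filter] at hi
    rw [mem_union, mem_filter, mem_filter]
    have e1 : ∀ sg : ℝ, ∑ l, (τ / σ * sg * c l) * f (i l) = τ / σ * (sg * ∑ l, c l * f (i l)) := by
      intro sg
      rw [mul_sum, mul_sum]
      apply sum_congr rfl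
      intro l _
      ring
    have e2 : ∀ S : ℝ, τ * σ ≤ S → τ ^ 2 ≤ τ / σ * S := by
      intro S hS
      have h1 : τ / σ * (τ * σ) ≤ τ / σ * S := mul_le_mul_of_nonneg_left hS (by positivity)
      have h2 : τ / σ * (τ * σ) = τ ^ 2 := by field_simp
      linarith
    rcases le_abs.1 hi.2.le with h | h
    · left
      refine ⟨hi.1, ?_⟩
      rw [e1, one_mul]
      exact e2 _ h
    · right
      refine ⟨hi.1, ?_⟩
      rw [e1]
      apply e2
      linarith
  have h1 := key 1 (by norm_num)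
  have h2 := key (-1) (by norm_num)
  have h3 : (((Fintype.piFinset (fun _ : Fin M => s)).filter (fun i => τ * σ < |∑ l, c l * f (i l)|)).card : ℝ) ≤
      (((Fintype.piFinset (fun _ : Fin M => s)).filter (fun i => τ ^ 2 ≤ ∑ l, (τ / σ * 1 * c l) * f (i l))).card : ℝ) +
      (((Fintype.piFinset (fun _ : Fin M => s)).filter (fun i => τ ^ 2 ≤ ∑ l, (τ / σ * (-1) * c l) * f (i l))).card : ℝ) := by
    exact_mod_cast (card_le_card hsub).trans (card_union_le _ _)
  linarith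

/-- the one-point law: the mean over a short flat distribution is small at almost all points -/
lemma one_point {g : ℕ → ℝ} (hg1 : ∀ n, |g n| ≤ 1) (hlaw : S_LAWg g) (T Bq U : ℕ) : ∃ V C N₀ : ℕ, ∀ N : ℕ, N₀ ≤ N →
    ∀ (q : ℕ) (p : ℕ → ℝ), Msh V C Bq N q p → ∀ κ : ℤ, κ ≠ 0 → (κ.natAbs : ℝ) ≤ Real.log N ^ T →
    ∀ cc : ℤ, (|cc| : ℝ) ≤ N * Real.log N ^ T →
    ∑ n ∈ Icc 1 N, (∑ v ∈ range q, p v * gI g ((n : ℤ) + (cc + κ * (v : ℕ)))) ^ 2 ≤ N / Real.log N ^ U := by
  obtain ⟨V, C, N₀, h1⟩ := oneg hlaw T Bq U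
  refine ⟨V, C, N₀, fun N hN q p hp κ hκ hκT cc hcc => ?_⟩
  have hp' := hp
  obtain ⟨-, -, hp0, hp1, -⟩ := hp'
  have hgI : ∀ k : ℤ, |gI g k| ≤ 1 := by
    intro k
    unfold gI
    split_ifs
    · exact hg1 _
    · simp
  obtain ⟨G, hG⟩ : ∃ G : ℕ → ℝ, ∀ n, G n = ∑ v ∈ range q, p v * gI g ((n : ℤ) + (cc + κ * (v : ℕ))) := ⟨_, fun _ => rfl⟩
  have hG1 : ∀ n, |G n| ≤ 1 := by
    intro n
    rw [hG]
    refine (abs_sum_le_sum_abs _ _).trans ?_
    calc ∑ v ∈ range q, |p v * gI g ((n : ℤ) + (cc + κ * (v : ℕ)))| ≤ ∑ v ∈ range q, p v := by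
          apply sum_le_sum
          intro v _
          rw [abs_mul, abs_of_nonneg (hp0 v)]
          exact mul_le_of_le_one_right (hp0 v) (hgI _)
      _ = 1 := hp1
  have h2 := h1 N hN q p hp κ hκ hκT cc hcc 1 one_pos G (fun n _ => hG1 n)
  rw [one_mul] at h2
  refine le_trans ?_ h2
  calc ∑ n ∈ Icc 1 N, (∑ v ∈ range q, p v * gI g ((n : ℤ) + (cc + κ * (v : ℕ)))) ^ 2 =
      ∑ v ∈ range q, p v * ∑ n ∈ Icc 1 N, G n * gI g ((n : ℤ) + (cc + κ * (v : ℕ))) := by
        have e1 : ∀ n ∈ Icc 1 N, (∑ v ∈ range q, p v * gI g ((n : ℤ) + (cc + κ * (v : ℕ)))) ^ 2 =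
            ∑ v ∈ range q, p v * (G n * gI g ((n : ℤ) + (cc + κ * (v : ℕ)))) := by
          intro n _
          rw [← hG, pow_two]
          nth_rw 2 [hG]
          rw [mul_sum]
          apply sum_congr rfl
          intro v _
          ring
        rw [sum_congr rfl e1, sum_comm]
        apply sum_congr rfl
        intro v _
        rw [mul_sum]
    _ ≤ _ := by
        apply sum_le_sum
        intro v _
        exact mul_le_mul_of_nonneg_left (le_abs_self _) (hp0 v)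

end Pool.Agent.Run7.h794.MK
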