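import Mathlib
import Pool.Agent.Run7.h794.MK.Hoe

/-! Project MKM (helper794): sub-Gaussian bounds along random sequences of members of short flat families, for finite classes of
coefficient vectors. -/

set_option autoImplicit false

namespace Pool.Agent.Run7.h794.MK

open Finset Filter
open Pool.Agent.N384.MQ (Flat dis dis_nonneg dis_sum_real ev_log_pow ev_log_ge)
open Pool.Agent.Run7.h27.MK (gI)

lemma ex_filter {α : Type} (s : Finset α) (P : α → Prop) : ∃ B : Finset α, ∀ n, n ∈ B ↔ n ∈ s ∧ P n := by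
  classical
  exact ⟨s.filter P, fun n => Finset.mem_filter⟩

/-- **The class theorem.** -/
theorem sparse_class {g : ℕ → ℝ} (hg1 : ∀ n, |g n| ≤ 1) (hlaw : S_LAWg g) (A T Bq U S : ℕ) :
    ∃ V C N₀ : ℕ, ∀ N : ℕ, N₀ ≤ N → ∀ (q : ℕ) [NeZero q],
    (N : ℝ) ^ (1 / 3 : ℝ) * Real.log N ^ C ≤ q → q ≤ Bq * N → ∀ {ι : Type} [DecidableEq ι] (s : Finset ι) (y : ι → ZMod q),
    s.Nonempty → Flat q (1 / Real.log N ^ V) s y → ∀ cc : ℕ, (cc : ℝ) ≤ N * Real.log N ^ T →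
    ∀ M : ℕ, (M : ℝ) ≤ Real.log N ^ U → ∀ 𝒞 : Finset (Fin M → ℝ), (𝒞.card : ℝ) ≤ Real.log N ^ S →
    ∃ Bad ⊆ Fintype.piFinset (fun _ : Fin M => s), (Bad.card : ℝ) ≤ (s.card : ℝ) ^ M / Real.log N ^ A ∧
      ∀ i ∈ Fintype.piFinset (fun _ : Fin M => s), i ∉ Bad →
      ∃ E ⊆ Icc 1 N, (E.card : ℝ) ≤ N / Real.log N ^ A ∧ ∀ n ∈ Icc 1 N, n ∉ E →
      ∀ κ : ℕ, 1 ≤ κ → (κ : ℝ) ≤ Real.log N ^ T → ∀ c ∈ 𝒞,
      |∑ l, c l * g (n + cc + κ * (y (i l)).val)| ≤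
        √(2 * ((T + S + 2 * A + 1 : ℕ) * Real.log (Real.log N))) * √(∑ l, c l ^ 2) := by
  classical
  obtain ⟨R, hR⟩ : ∃ R, R = T + S + 2 * A + 1 := ⟨_, rfl⟩
  rw [← hR]
  obtain ⟨V, C, N₁, h1p⟩ := one_point hg1 hlaw T Bq (T + 2 * U + A + 1)
  obtain ⟨N₂, hev⟩ := ev_tup 1
  refine ⟨V, C, N₁ + N₂ + 3, fun N hN q _ hq1 hq2 ι _ s y hs hf cc hcc M hM 𝒞 h𝒞 => ?_⟩
  obtain ⟨a1, -⟩ := hev N (by omega)
  have hN0 : (0 : ℝ) < N := by exact_mod_cast (by omega : 0 < N)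
  have hs0 : (0 : ℝ) < s.card := by exact_mod_cast hs.card_pos
  have hmsh : Msh V C Bq N q (dis s y) := msh_dis hs hq1 hq2 hf
  have h1p := h1p N (by omega) q (dis s y) hmsh
  obtain ⟨L, hL⟩ : ∃ L, L = Real.log (N : ℝ) := ⟨_, rfl⟩
  rw [← hL] at a1 hcc hM h𝒞 h1p ⊢
  have hL0 : 0 < L := by linarith
  have hL1 : 1 ≤ L := by linarith
  have hlogL : 0 ≤ Real.log L := Real.log_nonneg hL1
  obtain ⟨K, hK⟩ : ∃ K : ℕ, K = ⌊L ^ T⌋₊ := ⟨_, rfl⟩
  have hK1 : (K : ℝ) ≤ L ^ T := by rw [hK]; exact Nat.floor_le (by positivity)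
  obtain ⟨f, hfd⟩ : ∃ f : ℕ → ℕ → ι → ℝ, ∀ n κ b, f n κ b = g (n + cc + κ * (y b).val) := ⟨_, fun _ _ _ => rfl⟩
  obtain ⟨τ, hτ⟩ : ∃ τ, τ = √(2 * (R * Real.log L)) := ⟨_, rfl⟩
  have hτ0 : 0 ≤ τ := by rw [hτ]; exact Real.sqrt_nonneg _
  have hτ2 : Real.exp (-(τ ^ 2 / 2)) = 1 / L ^ R := by
    rw [hτ, Real.sq_sqrt (by positivity)]
    have e1 : 2 * ((R : ℝ) * Real.log L) / 2 = R * Real.log L := by ring
    rw [e1, Real.exp_neg, Real.exp_nat_mul, Real.exp_log hL0, one_div]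
  -- the bad points
  obtain ⟨B, hB⟩ : ∃ B : Finset ℕ, ∀ n, n ∈ B ↔ n ∈ Icc 1 N ∧ ∃ κ ∈ Icc 1 K, 1 / L ^ U * s.card < |∑ b ∈ s, f n κ b| :=
    ex_filter _ _
  have hBs : B ⊆ Icc 1 N := fun n hn => ((hB n).1 hn).1
  have hsum : ∀ κ ∈ Icc 1 K, ∑ n ∈ Icc 1 N, ((∑ b ∈ s, f n κ b) / s.card) ^ 2 ≤ N / L ^ (T + 2 * U + A + 1) := by
    intro κ hκ
    rw [mem_Icc] at hκ
    have h2 := h1p (κ : ℤ) (by omega) (by
      rw [Int.natAbs_natCast]
      have : (κ : ℝ) ≤ K := by exact_mod_cast hκ.2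
      exact this.trans hK1) (cc : ℤ) (by
      rw [Int.cast_natCast, abs_of_nonneg (Nat.cast_nonneg _)]
      exact hcc)
    refine le_trans (le_of_eq ?_) h2
    apply sum_congr rfl
    intro n hn
    rw [mem_Icc] at hn
    congr 1
    have h3 := dis_sum_real s y q le_rfl (fun v => gI g ((n : ℤ) + ((cc : ℤ) + (κ : ℤ) * (v : ℕ))))
    rw [h3]
    congr 1
    apply sum_congr rfl
    intro b _
    rw [hfd]
    unfold gI
    have e0 : (0 : ℤ) ≤ (κ : ℤ) * (((y b).val : ℕ) : ℤ) := by positivity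
    rw [if_pos (by omega)]
    congr 1
    have : (n : ℤ) + ((cc : ℤ) + (κ : ℤ) * (((y b).val : ℕ) : ℤ)) = ((n + cc + κ * (y b).val : ℕ) : ℤ) := by push_cast; ring
    rw [this, Int.toNat_natCast]
  have hBc : (B.card : ℝ) ≤ N / L ^ A * (1 / L) := by
    have h2 : (B.card : ℝ) * (1 / L ^ U) ^ 2 ≤ ∑ κ ∈ Icc 1 K, ∑ n ∈ Icc 1 N, ((∑ b ∈ s, f n κ b) / s.card) ^ 2 := by
      rw [sum_comm]
      calc (B.card : ℝ) * (1 / L ^ U) ^ 2 = ∑ n ∈ B, (1 / L ^ U) ^ 2 := by rw [sum_const, nsmul_eq_mul]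
        _ ≤ ∑ n ∈ B, ∑ κ ∈ Icc 1 K, ((∑ b ∈ s, f n κ b) / s.card) ^ 2 := by
            apply sum_le_sum
            intro n hn
            rw [hB] at hn
            obtain ⟨-, κ, hκ, h3⟩ := hn
            refine le_trans ?_ (single_le_sum (f := fun κ => ((∑ b ∈ s, f n κ b) / s.card) ^ 2) (fun _ _ => sq_nonneg _) hκ)
            rw [← sq_abs ((∑ b ∈ s, f n κ b) / s.card)]
            apply pow_le_pow_left₀ (by positivity)
            rw [abs_div, abs_of_pos hs0, le_div_iff₀ hs0]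
            exact h3.le
        _ ≤ _ := sum_le_sum_of_subset_of_nonneg hBs
            fun _ _ _ => sum_nonneg fun _ _ => sq_nonneg _
    have h3 : ∑ κ ∈ Icc 1 K, ∑ n ∈ Icc 1 N, ((∑ b ∈ s, f n κ b) / s.card) ^ 2 ≤ L ^ T * (N / L ^ (T + 2 * U + A + 1)) := by
      refine (sum_le_sum hsum).trans ?_
      rw [sum_const, Nat.card_Icc, Nat.add_sub_cancel, nsmul_eq_mul]
      exact mul_le_mul_of_nonneg_right hK1 (by positivity)
    have h4 := h2.trans h3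
    have e1 : L ^ T * (N / L ^ (T + 2 * U + A + 1)) = (N / L ^ A * (1 / L)) * (1 / L ^ U) ^ 2 := by
      have : L ^ (T + 2 * U + A + 1) = L ^ T * (L ^ U) ^ 2 * L ^ A * L := by ring
      rw [this]
      field_simp
    rw [e1] at h4
    exact le_of_mul_le_mul_right h4 (by positivity)
  -- Hoeffding at the good points
  have hgood : ∀ n ∈ Icc 1 N \ B, ∀ κ ∈ Icc 1 K, ∀ c ∈ 𝒞,
      (((Fintype.piFinset (fun _ : Fin M => s)).filter
        (fun i => τ * √(∑ l, c l ^ 2) < |∑ l, c l * f n κ (i l)|)).card : ℝ) ≤ (s.card : ℝ) ^ M * (6 * (1 / L ^ R)) := by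
    intro n hn κ hκ c _
    rw [Finset.mem_sdiff] at hn
    have hm : |∑ b ∈ s, f n κ b| ≤ 1 / L ^ U * s.card := by
      by_contra hcon
      push Not at hcon
      apply hn.2
      rw [hB]
      exact ⟨hn.1, κ, hκ, hcon⟩
    have h2 := hoeffding s M (f n κ) (fun b _ => by rw [hfd]; exact hg1 _) (1 / L ^ U) (by
      rw [mul_one_div, div_le_one (by positivity)]
      exact hM) hm c τ hτ0
    rw [hτ2] at h2
    exact h2
  obtain ⟨cnt, hcnt⟩ : ∃ cnt : (Fin M → ι) → ℝ, ∀ i, cnt i = ∑ n ∈ Icc 1 N \ B, ∑ κ ∈ Icc 1 K, ∑ c ∈ 𝒞,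
    (if τ * √(∑ l, c l ^ 2) < |∑ l, c l * f n κ (i l)| then (1 : ℝ) else 0) := ⟨_, fun _ => rfl⟩
  have hcnt0 : ∀ i, 0 ≤ cnt i := by
    intro i
    rw [hcnt]
    exact sum_nonneg fun _ _ => sum_nonneg fun _ _ => sum_nonneg fun _ _ => by split_ifs <;> norm_num
  have htot : ∑ i ∈ Fintype.piFinset (fun _ : Fin M => s), cnt i ≤
      N * (L ^ T * (L ^ S * ((s.card : ℝ) ^ M * (6 * (1 / L ^ R))))) := by
    have e1 : ∑ i ∈ Fintype.piFinset (fun _ : Fin M => s), cnt i = ∑ n ∈ Icc 1 N \ B, ∑ κ ∈ Icc 1 K, ∑ c ∈ 𝒞,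
        (((Fintype.piFinset (fun _ : Fin M => s)).filter
          (fun i => τ * √(∑ l, c l ^ 2) < |∑ l, c l * f n κ (i l)|)).card : ℝ) := by
      simp only [hcnt]
      rw [sum_comm]
      apply sum_congr rfl; intro n _
      rw [sum_comm]
      apply sum_congr rfl; intro κ _
      rw [sum_comm]
      apply sum_congr rfl; intro c _
      rw [card_filter]
      push_cast
      rfl
    rw [e1]
    have e2 : ((Icc 1 N \ B).card : ℝ) ≤ N := by
      have := card_le_card (sdiff_subset : Icc 1 N \ B ⊆ Icc 1 N)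
      rw [Nat.card_Icc, Nat.add_sub_cancel] at this
      exact_mod_cast this
    calc ∑ n ∈ Icc 1 N \ B, ∑ κ ∈ Icc 1 K, ∑ c ∈ 𝒞, (((Fintype.piFinset (fun _ : Fin M => s)).filter
          (fun i => τ * √(∑ l, c l ^ 2) < |∑ l, c l * f n κ (i l)|)).card : ℝ)
        ≤ ∑ n ∈ Icc 1 N \ B, ∑ κ ∈ Icc 1 K, ∑ c ∈ 𝒞, ((s.card : ℝ) ^ M * (6 * (1 / L ^ R))) :=
          sum_le_sum fun n hn => sum_le_sum fun κ hκ => sum_le_sum fun c hc => hgood n hn κ hκ c hc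
      _ = ((Icc 1 N \ B).card : ℝ) * (K * (𝒞.card * ((s.card : ℝ) ^ M * (6 * (1 / L ^ R))))) := by
          rw [sum_const, sum_const, sum_const, Nat.card_Icc, Nat.add_sub_cancel]
          simp only [nsmul_eq_mul]
      _ ≤ _ := by gcongr
  obtain ⟨Bad, hBad⟩ : ∃ Bad : Finset (Fin M → ι), ∀ i, i ∈ Bad ↔ i ∈ Fintype.piFinset (fun _ : Fin M => s) ∧
    (N : ℝ) / L ^ A * (1 / 2) < cnt i := ex_filter _ _
  have hBads : Bad ⊆ Fintype.piFinset (fun _ : Fin M => s) := fun i hi => ((hBad i).1 hi).1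
  refine ⟨Bad, hBads, ?_, ?_⟩
  · have h1 : (Bad.card : ℝ) * ((N : ℝ) / L ^ A * (1 / 2)) ≤ ∑ i ∈ Fintype.piFinset (fun _ : Fin M => s), cnt i := by
      calc (Bad.card : ℝ) * ((N : ℝ) / L ^ A * (1 / 2)) = ∑ i ∈ Bad, ((N : ℝ) / L ^ A * (1 / 2)) := by
            rw [sum_const, nsmul_eq_mul]
        _ ≤ ∑ i ∈ Bad, cnt i := sum_le_sum fun i hi => by
            rw [hBad] at hi
            exact hi.2.le
        _ ≤ _ := sum_le_sum_of_subset_of_nonneg hBads fun _ _ _ => hcnt0 _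
    have h2 := h1.trans htot
    have e1 : L ^ R = L ^ T * L ^ S * L ^ A * L ^ A * L := by
      rw [hR]; ring
    have e2 : N * (L ^ T * (L ^ S * ((s.card : ℝ) ^ M * (6 * (1 / L ^ R))))) =
        ((s.card : ℝ) ^ M / L ^ A * (12 / L)) * (N / L ^ A * (1 / 2)) := by
      rw [e1]; field_simp; ring
    rw [e2] at h2
    have h3 : (Bad.card : ℝ) ≤ (s.card : ℝ) ^ M / L ^ A * (12 / L) := le_of_mul_le_mul_right h2 (by positivity)
    refine h3.trans ?_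
    have h4 : 12 / L ≤ 1 := by rw [div_le_one hL0]; linarith
    exact mul_le_of_le_one_right (by positivity) h4
  · intro i hi hbad
    have hci : cnt i ≤ N / L ^ A * (1 / 2) := by
      by_contra hcon
      push Not at hcon
      apply hbad
      rw [hBad]
      exact ⟨hi, hcon⟩
    obtain ⟨E', hE'⟩ : ∃ E' : Finset ℕ, ∀ n, n ∈ E' ↔ n ∈ Icc 1 N \ B ∧
      ∃ κ ∈ Icc 1 K, ∃ c ∈ 𝒞, τ * √(∑ l, c l ^ 2) < |∑ l, c l * f n κ (i l)| := ex_filter _ _
    have hE's : E' ⊆ Icc 1 N \ B := fun n hn => ((hE' n).1 hn).1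
    have hE'c : (E'.card : ℝ) ≤ cnt i := by
      rw [hcnt]
      calc (E'.card : ℝ) = ∑ n ∈ E', (1 : ℝ) := by rw [sum_const, nsmul_eq_mul, mul_one]
        _ ≤ ∑ n ∈ E', ∑ κ ∈ Icc 1 K, ∑ c ∈ 𝒞,
            (if τ * √(∑ l, c l ^ 2) < |∑ l, c l * f n κ (i l)| then (1 : ℝ) else 0) := by
          apply sum_le_sum
          intro n hn
          rw [hE'] at hn
          obtain ⟨-, κ, hκ, c, hc, h2⟩ := hn
          refine le_trans ?_ (single_le_sum (f := fun κ => ∑ c ∈ 𝒞,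
            (if τ * √(∑ l, c l ^ 2) < |∑ l, c l * f n κ (i l)| then (1 : ℝ) else 0))
            (fun _ _ => sum_nonneg fun _ _ => by split_ifs <;> norm_num) hκ)
          refine le_trans ?_ (single_le_sum (f := fun c : Fin M → ℝ =>
            (if τ * √(∑ l, c l ^ 2) < |∑ l, c l * f n κ (i l)| then (1 : ℝ) else 0))
            (fun _ _ => by split_ifs <;> norm_num) hc)
          simp only [if_pos h2, le_refl]
        _ ≤ _ := sum_le_sum_of_subset_of_nonneg hE's fun _ _ _ =>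
            sum_nonneg fun _ _ => sum_nonneg fun _ _ => by split_ifs <;> norm_num
    refine ⟨B ∪ E', union_subset hBs (hE's.trans sdiff_subset), ?_, ?_⟩
    · have h1 : ((B ∪ E').card : ℝ) ≤ B.card + E'.card := by exact_mod_cast card_union_le _ _
      have h2 : (N : ℝ) / L ^ A * (1 / L) ≤ N / L ^ A * (1 / 2) := by
        apply mul_le_mul_of_nonneg_left _ (by positivity)
        apply one_div_le_one_div_of_le (by norm_num)
        linarith
      calc ((B ∪ E').card : ℝ) ≤ B.card + E'.card := h1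
        _ ≤ N / L ^ A * (1 / 2) + N / L ^ A * (1 / 2) := add_le_add (hBc.trans h2) (hE'c.trans hci)
        _ = _ := by ring
    · intro n hn hnE κ hκ1 hκ2 c hc
      rw [mem_union, not_or] at hnE
      by_contra hcon
      push Not at hcon
      apply hnE.2
      rw [hE']
      refine ⟨Finset.mem_sdiff.2 ⟨hn, hnE.1⟩, κ, ?_, c, hc, ?_⟩
      · rw [mem_Icc, hK]; exact ⟨hκ1, Nat.le_floor hκ2⟩
      · rw [hτ]
        simp only [hfd]
        exact hcon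

end Pool.Agent.Run7.h794.MK
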