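import Mathlib
import Pool.Agent.Run7.h794.MK.SupN
import Pool.Agent.H373R2.T7.BilF

/-! Project MKM (helper794): sup norms of exponential sums along random sequences of members of short flat families. -/

set_option autoImplicit false

namespace Pool.Agent.Run7.h794.MK

open Finset Filter
open Pool.Agent.N384.MQ (Flat ev_log_ge)
open Pool.Agent.H807R2.Dav (ee norm_ee ee_add ee_int dd dd_le)

/-- the exponential sum of the first `m` values -/
noncomputable def Pol (g : ℕ → ℝ) {M : ℕ} (Y : Fin M → ℕ) (m : ℕ) (x : ℝ) : ℂ :=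
  ∑ l : Fin M, if (l : ℕ) < m then (g (Y l) : ℂ) * Complex.exp (2 * Real.pi * Complex.I * (((l : ℕ) * x : ℝ) : ℂ)) else 0

lemma Pol_eq (g : ℕ → ℝ) {M : ℕ} (Y : Fin M → ℕ) (m : ℕ) (x : ℝ) :
    Pol g Y m x = ∑ l : Fin M, if (l : ℕ) < m then (g (Y l) : ℂ) * ee ((l : ℕ) * x) else 0 := rfl

lemma ee_diff (x y : ℝ) : ‖ee x - ee y‖ ≤ 2 * Real.pi * |x - y| := by
  have h1 : ee x - ee y = ee y * (ee (x - y) - 1) := by
    rw [mul_sub, ← ee_add, mul_one]
    congr 2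
    ring
  rw [h1, norm_mul, norm_ee, one_mul, norm_sub_rev]
  exact dd_le (x - y)

lemma card_lt {M m : ℕ} (hm : m ≤ M) : ((univ : Finset (Fin M)).filter (fun l : Fin M => (l : ℕ) < m)).card = m := by
  have : ((univ : Finset (Fin M)).filter (fun l : Fin M => (l : ℕ) < m)).card = (range m).card := by
    apply card_bij (fun (l : Fin M) _ => (l : ℕ))
    · intro l hl
      rw [mem_filter] at hl
      exact mem_range.2 hl.2
    · intro l _ l' _ h
      exact Fin.ext h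
    · intro b hb
      rw [mem_range] at hb
      exact ⟨⟨b, by omega⟩, by rw [mem_filter]; exact ⟨mem_univ _, hb⟩, rfl⟩
  rw [this, card_range]

lemma Pol_lip {g : ℕ → ℝ} (hg1 : ∀ n, |g n| ≤ 1) {M : ℕ} (Y : Fin M → ℕ) (m : ℕ) (hm : m ≤ M) (x y : ℝ) :
    ‖Pol g Y m x - Pol g Y m y‖ ≤ m * (m * (2 * Real.pi * |x - y|)) := by
  rw [Pol_eq, Pol_eq, ← sum_sub_distrib]
  refine (norm_sum_le _ _).trans ?_
  have h1 : ∀ l : Fin M, ‖(if (l : ℕ) < m then (g (Y l) : ℂ) * ee ((l : ℕ) * x) else 0) -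
      (if (l : ℕ) < m then (g (Y l) : ℂ) * ee ((l : ℕ) * y) else 0)‖ ≤
      if (l : ℕ) < m then (m * (2 * Real.pi * |x - y|)) else 0 := by
    intro l
    by_cases hl : (l : ℕ) < m
    · rw [if_pos hl, if_pos hl, if_pos hl, ← mul_sub, norm_mul, Complex.norm_real, Real.norm_eq_abs]
      have h2 := ee_diff ((l : ℕ) * x) ((l : ℕ) * y)
      rw [← mul_sub, abs_mul, abs_of_nonneg (Nat.cast_nonneg (l : ℕ))] at h2
      have h3 : ((l : ℕ) : ℝ) ≤ m := by exact_mod_cast hl.le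
      have hpi : 0 ≤ 2 * Real.pi * |x - y| := by positivity
      calc |g (Y l)| * ‖ee ((l : ℕ) * x) - ee ((l : ℕ) * y)‖ ≤ 1 * (2 * Real.pi * ((l : ℕ) * |x - y|)) :=
            mul_le_mul (hg1 _) h2 (norm_nonneg _) zero_le_one
        _ = (l : ℕ) * (2 * Real.pi * |x - y|) := by ring
        _ ≤ m * (2 * Real.pi * |x - y|) := mul_le_mul_of_nonneg_right h3 hpi
    · rw [if_neg hl, if_neg hl, if_neg hl, sub_zero, norm_zero]
  refine (sum_le_sum fun l _ => h1 l).trans ?_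
  rw [← sum_filter, sum_const, card_lt hm, nsmul_eq_mul]

lemma Pol_per (g : ℕ → ℝ) {M : ℕ} (Y : Fin M → ℕ) (m : ℕ) (x : ℝ) (k : ℤ) : Pol g Y m (x + k) = Pol g Y m x := by
  rw [Pol_eq, Pol_eq]
  apply sum_congr rfl
  intro l _
  split_ifs
  · congr 1
    have : ((l : ℕ) : ℝ) * (x + k) = (l : ℕ) * x + (((l : ℕ) * k : ℤ) : ℝ) := by push_cast; ring
    rw [this, ee_add, ee_int, mul_one]
  · rfl

/-- a value from the grid -/
lemma Pol_grid {g : ℕ → ℝ} (hg1 : ∀ n, |g n| ≤ 1) {M : ℕ} (Y : Fin M → ℕ) (m : ℕ) (hm : m ≤ M) (G : ℕ) (hG : 7 * (M + 1) ^ 2 ≤ G)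
    (x : ℝ) : ∃ a ∈ range G, ‖Pol g Y m x‖ ≤ ‖Pol g Y m ((a : ℝ) / G)‖ + 1 := by
  have hG0 : (0 : ℝ) < G := by
    have : 0 < G := lt_of_lt_of_le (by positivity) hG
    exact_mod_cast this
  have h1 : 0 ≤ Int.fract x := Int.fract_nonneg x
  have h2 : Int.fract x < 1 := Int.fract_lt_one x
  refine ⟨⌊Int.fract x * G⌋₊, ?_, ?_⟩
  · rw [mem_range, Nat.floor_lt (by positivity)]
    nlinarith
  · have h3 : Pol g Y m x = Pol g Y m (Int.fract x) := by
      have := Pol_per g Y m (Int.fract x) ⌊x⌋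
      rw [Int.fract_add_floor] at this
      exact this
    rw [h3]
    obtain ⟨a, ha⟩ : ∃ a : ℕ, a = ⌊Int.fract x * G⌋₊ := ⟨_, rfl⟩
    rw [← ha]
    have h4 : |Int.fract x - (a : ℝ) / G| ≤ 1 / G := by
      have h5 : (a : ℝ) ≤ Int.fract x * G := by rw [ha]; exact Nat.floor_le (by positivity)
      have h6 : Int.fract x * G < a + 1 := by rw [ha]; exact Nat.lt_floor_add_one _
      rw [abs_le]
      constructor
      · rw [neg_le_sub_iff_le_add, div_le_iff₀ hG0]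
        have : (Int.fract x + 1 / G) * G = Int.fract x * G + 1 := by field_simp
        linarith
      · rw [sub_le_iff_le_add, ← add_div, le_div_iff₀ hG0]
        linarith
    have h7 := Pol_lip hg1 Y m hm (Int.fract x) ((a : ℝ) / G)
    have h8 : (m : ℝ) * (m * (2 * Real.pi * |Int.fract x - (a : ℝ) / G|)) ≤ 1 := by
      have hpi : Real.pi ≤ 3.5 := by have := Real.pi_lt_d2; linarith
      have hmM : (m : ℝ) ≤ M := by exact_mod_cast hm
      have hGr : 7 * ((M : ℝ) + 1) ^ 2 ≤ G := by exact_mod_cast hG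
      calc (m : ℝ) * (m * (2 * Real.pi * |Int.fract x - (a : ℝ) / G|)) ≤ (M + 1) * ((M + 1) * (2 * 3.5 * (1 / G))) := by
            gcongr
            · linarith
            · linarith
        _ = 7 * ((M : ℝ) + 1) ^ 2 / G := by ring
        _ ≤ 1 := by rw [div_le_one hG0]; exact hGr
    have h9 : ‖Pol g Y m (Int.fract x)‖ ≤ ‖Pol g Y m ((a : ℝ) / G)‖ + ‖Pol g Y m (Int.fract x) - Pol g Y m ((a : ℝ) / G)‖ := by
      have := norm_add_le (Pol g Y m ((a : ℝ) / G)) (Pol g Y m (Int.fract x) - Pol g Y m ((a : ℝ) / G))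
      rwa [add_sub_cancel] at this
    linarith

/-- the coefficient vectors -/
noncomputable def cvec (M m a G : ℕ) (j : Bool) : Fin M → ℝ := fun l =>
  if (l : ℕ) < m then (if j then Real.cos (2 * Real.pi * ((l : ℕ) * ((a : ℝ) / G))) else
    Real.sin (2 * Real.pi * ((l : ℕ) * ((a : ℝ) / G)))) else 0

lemma cvec_sq (M m a G : ℕ) (hm : m ≤ M) (j : Bool) : √(∑ l, cvec M m a G j l ^ 2) ≤ √m := by
  apply Real.sqrt_le_sqrt
  have h1 : ∀ l : Fin M, cvec M m a G j l ^ 2 ≤ if (l : ℕ) < m then 1 else 0 := by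
    intro l
    unfold cvec
    by_cases hl : (l : ℕ) < m
    · rw [if_pos hl, if_pos hl]
      cases j
      · simp only [Bool.false_eq_true, if_false]
        exact Real.sin_sq_le_one _
      · simp only [if_true]
        exact Real.cos_sq_le_one _
    · rw [if_neg hl, if_neg hl]
      norm_num
  refine (sum_le_sum fun l _ => h1 l).trans ?_
  rw [← sum_filter, sum_const, card_lt hm, nsmul_eq_mul, mul_one]

lemma Pol_re_im (g : ℕ → ℝ) {M : ℕ} (Y : Fin M → ℕ) (m a G : ℕ) :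
    (Pol g Y m ((a : ℝ) / G)).re = ∑ l, cvec M m a G true l * g (Y l) ∧
    (Pol g Y m ((a : ℝ) / G)).im = ∑ l, cvec M m a G false l * g (Y l) := by
  have hee : ∀ t : ℝ, (ee t).re = Real.cos (2 * Real.pi * t) ∧ (ee t).im = Real.sin (2 * Real.pi * t) := by
    intro t
    rw [Pool.Agent.H807R2.Dav.ee_eq]
    exact ⟨Complex.exp_ofReal_mul_I_re _, Complex.exp_ofReal_mul_I_im _⟩
  rw [Pol_eq]
  constructor
  · rw [Complex.re_sum]
    apply sum_congr rfl
    intro l _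
    unfold cvec
    by_cases hl : (l : ℕ) < m
    · rw [if_pos hl, if_pos hl, Complex.re_ofReal_mul, (hee _).1]
      simp only [if_true]
      ring
    · rw [if_neg hl, if_neg hl, Complex.zero_re, zero_mul]
  · rw [Complex.im_sum]
    apply sum_congr rfl
    intro l _
    unfold cvec
    by_cases hl : (l : ℕ) < m
    · rw [if_pos hl, if_pos hl, Complex.im_ofReal_mul, (hee _).2]
      simp only [Bool.false_eq_true, if_false]
      ring
    · rw [if_neg hl, if_neg hl, Complex.zero_im, zero_mul]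

lemma ev_sup : ∃ N₀ : ℕ, ∀ N : ℕ, N₀ ≤ N → 112 ≤ Real.log N ∧ 1 ≤ Real.log (Real.log N) := by
  obtain ⟨n1, h1⟩ := eventually_atTop.1 (ev_log_ge 112)
  refine ⟨n1, fun N hN => ⟨h1 N hN, ?_⟩⟩
  have h2 := h1 N hN
  rw [Real.le_log_iff_exp_le (by linarith)]
  have := Real.exp_one_lt_three
  linarith

/-- **Sup norms along random sequences.** -/
theorem sup_sparse {g : ℕ → ℝ} (hg1 : ∀ n, |g n| ≤ 1) (hlaw : S_LAWg g) (A T Bq U : ℕ) :
    ∃ V C N₀ : ℕ, ∃ K : ℝ, 0 < K ∧ ∀ N : ℕ, N₀ ≤ N → ∀ (q : ℕ) [NeZero q],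
    (N : ℝ) ^ (1 / 3 : ℝ) * Real.log N ^ C ≤ q → q ≤ Bq * N → ∀ {ι : Type} [DecidableEq ι] (s : Finset ι) (y : ι → ZMod q),
    s.Nonempty → Flat q (1 / Real.log N ^ V) s y → ∀ cc : ℕ, (cc : ℝ) ≤ N * Real.log N ^ T →
    ∀ M : ℕ, (M : ℝ) ≤ Real.log N ^ U →
    ∃ Bad ⊆ Fintype.piFinset (fun _ : Fin M => s), (Bad.card : ℝ) ≤ (s.card : ℝ) ^ M / Real.log N ^ A ∧
      ∀ i ∈ Fintype.piFinset (fun _ : Fin M => s), i ∉ Bad →
      ∃ E ⊆ Icc 1 N, (E.card : ℝ) ≤ N / Real.log N ^ A ∧ ∀ n ∈ Icc 1 N, n ∉ E →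
      ∀ κ : ℕ, 1 ≤ κ → (κ : ℝ) ≤ Real.log N ^ T → ∀ m ≤ M, ∀ x : ℝ,
      ‖Pol g (fun l => n + cc + κ * (y (i l)).val) m x‖ ≤ K * √(m * Real.log (Real.log N)) := by
  classical
  obtain ⟨S, hS⟩ : ∃ S, S = 3 * U + 2 := ⟨_, rfl⟩
  obtain ⟨V, C, N₁, hcl⟩ := sparse_class hg1 hlaw A T Bq U S
  obtain ⟨N₂, hev⟩ := ev_sup
  obtain ⟨R, hR⟩ : ∃ R, R = T + S + 2 * A + 1 := ⟨_, rfl⟩
  rw [← hR] at hcl
  refine ⟨V, C, N₁ + N₂ + 3, 2 * √(2 * R) + 1, by positivity, fun N hN q _ hq1 hq2 ι _ s y hs hf cc hcc M hM => ?_⟩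
  obtain ⟨a1, a2⟩ := hev N (by omega)
  obtain ⟨G, hG⟩ : ∃ G, G = 7 * (M + 1) ^ 2 := ⟨_, rfl⟩
  obtain ⟨𝒞, h𝒞⟩ : ∃ 𝒞 : Finset (Fin M → ℝ), 𝒞 = (range (M + 1) ×ˢ (range G ×ˢ (univ : Finset Bool))).image
    (fun p => cvec M p.1 p.2.1 G p.2.2) := ⟨_, rfl⟩
  have hcard : (𝒞.card : ℝ) ≤ Real.log N ^ S := by
    have h1 : 𝒞.card ≤ (M + 1) * (G * 2) := by
      rw [h𝒞]
      refine card_image_le.trans ?_
      rw [card_product, card_product, card_range, card_range, card_univ, Fintype.card_bool]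
    have hL1 : 1 ≤ Real.log (N : ℝ) ^ U := one_le_pow₀ (by linarith)
    have h2 : (M : ℝ) + 1 ≤ 2 * Real.log N ^ U := by linarith
    calc (𝒞.card : ℝ) ≤ ((M : ℝ) + 1) * (7 * ((M : ℝ) + 1) ^ 2 * 2) := by
          have : (𝒞.card : ℝ) ≤ ((M + 1) * (G * 2) : ℕ) := by exact_mod_cast h1
          refine this.trans (le_of_eq ?_)
          rw [hG]
          push_cast
          ring
      _ = 14 * ((M : ℝ) + 1) ^ 3 := by ring
      _ ≤ 14 * (2 * Real.log N ^ U) ^ 3 := by gcongr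
      _ = 112 * (Real.log N ^ U) ^ 3 := by ring
      _ ≤ (Real.log N * Real.log N) * (Real.log N ^ U) ^ 3 := by
          apply mul_le_mul_of_nonneg_right _ (by positivity)
          nlinarith
      _ = Real.log N ^ S := by rw [hS]; ring
  obtain ⟨Bad, hB1, hB2, hB3⟩ := hcl N (by omega) q hq1 hq2 s y hs hf cc hcc M hM 𝒞 hcard
  refine ⟨Bad, hB1, hB2, fun i hi hbad => ?_⟩
  obtain ⟨E, hE1, hE2, hE3⟩ := hB3 i hi hbad
  refine ⟨E, hE1, hE2, fun n hn hnE κ hκ1 hκ2 m hm x => ?_⟩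
  have hE3 := hE3 n hn hnE κ hκ1 hκ2
  rcases Nat.eq_zero_or_pos m with h0 | h0
  · have : Pol g (fun l => n + cc + κ * (y (i l)).val) m x = 0 := by
      rw [Pol_eq, h0]
      simp
    rw [this, norm_zero]
    positivity
  obtain ⟨a, ha, hx⟩ := Pol_grid hg1 (fun l => n + cc + κ * (y (i l)).val) m hm G (by rw [hG]) x
  refine hx.trans ?_
  have hmem : ∀ j : Bool, cvec M m a G j ∈ 𝒞 := by
    intro j
    rw [h𝒞, mem_image]
    exact ⟨(m, a, j), by simp only [mem_product, mem_range, mem_univ, and_true]; exact ⟨by omega, mem_range.1 ha⟩, rfl⟩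
  have hb : ∀ j : Bool, |∑ l, cvec M m a G j l * g (n + cc + κ * (y (i l)).val)| ≤ √(2 * R) * √(m * Real.log (Real.log N)) := by
    intro j
    refine (hE3 _ (hmem j)).trans ?_
    have hl0 : 0 ≤ Real.log (Real.log (N : ℝ)) := by linarith
    calc √(2 * ((R : ℕ) * Real.log (Real.log N))) * √(∑ l, cvec M m a G j l ^ 2) ≤
        √(2 * ((R : ℕ) * Real.log (Real.log N))) * √m := mul_le_mul_of_nonneg_left (cvec_sq M m a G hm j) (Real.sqrt_nonneg _)
      _ = √(2 * R) * √(m * Real.log (Real.log N)) := by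
          rw [← Real.sqrt_mul (by positivity), ← Real.sqrt_mul (by positivity)]
          congr 1
          ring
  obtain ⟨hre, him⟩ := Pol_re_im g (fun l => n + cc + κ * (y (i l)).val) m a G
  have h1 := hb true
  have h2 := hb false
  rw [← hre] at h1
  rw [← him] at h2
  have h3 := Complex.norm_le_abs_re_add_abs_im (Pol g (fun l => n + cc + κ * (y (i l)).val) m ((a : ℝ) / G))
  have h4 : 1 ≤ √(m * Real.log (Real.log N)) := by
    rw [Real.one_le_sqrt]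
    have : (1 : ℝ) ≤ m := by exact_mod_cast h0
    nlinarith
  calc ‖Pol g (fun l => n + cc + κ * (y (i l)).val) m ((a : ℝ) / G)‖ + 1 ≤
      (√(2 * R) * √(m * Real.log (Real.log N)) + √(2 * R) * √(m * Real.log (Real.log N))) + √(m * Real.log (Real.log N)) := by
        linarith
    _ = _ := by ring

/-- the lower bound of Parseval -/
lemma Pol_lower {g : ℕ → ℝ} {M : ℕ} (Y : Fin M → ℕ) (m : ℕ) (hm : m ≤ M) (hg : ∀ l, |g (Y l)| = 1) :
    ∃ x : ℝ, √m ≤ ‖Pol g Y m x‖ := by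
  rcases Nat.eq_zero_or_pos m with h0 | h0
  · refine ⟨0, ?_⟩
    rw [h0, Nat.cast_zero, Real.sqrt_zero]
    exact norm_nonneg _
  by_contra hcon
  push Not at hcon
  obtain ⟨c, hc⟩ : ∃ c : ℕ → ℂ, ∀ a, c a = if h : a - 1 < M then (g (Y ⟨a - 1, h⟩) : ℂ) else 0 := ⟨_, fun _ => rfl⟩
  have h1 := Pool.Agent.H373R2.T7.parseval_Icc m m h0 le_rfl c 1 (Or.inl rfl)
  have h2 : ∑ a ∈ Icc 1 m, ‖c a‖ ^ 2 = m := by
    have : ∀ a ∈ Icc 1 m, ‖c a‖ ^ 2 = 1 := by
      intro a ha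
      rw [mem_Icc] at ha
      rw [hc, dif_pos (by omega), Complex.norm_real, Real.norm_eq_abs, hg, one_pow]
    rw [sum_congr rfl this, sum_const, Nat.card_Icc, Nat.add_sub_cancel, nsmul_eq_mul, mul_one]
  rw [h2] at h1
  have h3 : ∀ t : ℕ, ‖∑ a ∈ Icc 1 m, c a * ee ((t : ℝ) * (((1 * (a : ℤ) : ℤ) : ℝ) / m))‖ = ‖Pol g Y m ((t : ℝ) / m)‖ := by
    intro t
    have e1 : ∑ a ∈ Icc 1 m, c a * ee ((t : ℝ) * (((1 * (a : ℤ) : ℤ) : ℝ) / m)) = ee ((t : ℝ) / m) * Pol g Y m ((t : ℝ) / m) := by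
      rw [Pol_eq, mul_sum, ← sum_filter_add_sum_filter_not univ (fun l : Fin M => (l : ℕ) < m)]
      have e2 : ∑ l ∈ (univ : Finset (Fin M)).filter (fun l : Fin M => ¬ (l : ℕ) < m),
          ee ((t : ℝ) / m) * (if (l : ℕ) < m then (g (Y l) : ℂ) * ee ((l : ℕ) * ((t : ℝ) / m)) else 0) = 0 := by
        apply sum_eq_zero
        intro l hl
        rw [mem_filter] at hl
        rw [if_neg hl.2, mul_zero]
      rw [e2, add_zero]
      symm
      apply sum_bij (fun (l : Fin M) _ => (l : ℕ) + 1)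
      · intro l hl
        rw [mem_filter] at hl
        rw [mem_Icc]
        omega
      · intro l _ l' _ h
        exact Fin.ext (by omega)
      · intro b hb
        rw [mem_Icc] at hb
        exact ⟨⟨b - 1, by omega⟩, by rw [mem_filter]; exact ⟨mem_univ _, by simp only; omega⟩, by simp only; omega⟩
      · intro l hl
        rw [mem_filter] at hl
        rw [if_pos hl.2, hc, dif_pos (by simp only [Nat.add_sub_cancel]; exact l.2)]
        have e3 : (⟨(l : ℕ) + 1 - 1, by simp only [Nat.add_sub_cancel]; exact l.2⟩ : Fin M) = l := Fin.ext (by simp)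
        rw [e3]
        have e4 : (t : ℝ) * (((1 * (((l : ℕ) + 1 : ℕ) : ℤ) : ℤ) : ℝ) / m) = (t : ℝ) / m + (l : ℕ) * ((t : ℝ) / m) := by
          push_cast; ring
        rw [e4, ee_add]
        ring
    rw [e1, norm_mul, norm_ee, one_mul]
  simp only [h3] at h1
  have hm0 : (0 : ℝ) < m := by exact_mod_cast h0
  have h4 : ∑ t ∈ range m, ‖Pol g Y m ((t : ℝ) / m)‖ ^ 2 < ∑ t ∈ range m, (m : ℝ) := by
    apply sum_lt_sum_of_nonempty
    · exact ⟨0, mem_range.2 h0⟩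
    · intro t _
      have h5 := hcon ((t : ℝ) / m)
      calc ‖Pol g Y m ((t : ℝ) / m)‖ ^ 2 < √m ^ 2 := pow_lt_pow_left₀ h5 (norm_nonneg _) two_ne_zero
        _ = m := Real.sq_sqrt hm0.le
  rw [h1, sum_const, card_range, nsmul_eq_mul] at h4
  exact lt_irrefl _ h4

end Pool.Agent.Run7.h794.MK
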