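import Mathlib
import Pool.Agent.Run7.h794.MK.SupN

/-! Project MKM (helper794): systems of correlations with arbitrary weights at almost all sequences of members of short flat
families (a growing number of factors, arbitrary multiples and translates). -/

set_option autoImplicit false

namespace Pool.Agent.Run7.h794.MK

open Finset Filter
open Pool.Agent.N384.MQ (Flat dis dis_nonneg dis_sum_real ev_log_pow ev_log_ge)
open Pool.Agent.Run7.h27.MK (gI)

lemma gI_abs {g : ℕ → ℝ} (hg1 : ∀ n, |g n| ≤ 1) (k : ℤ) : |gI g k| ≤ 1 := by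
  unfold gI
  split_ifs
  · exact hg1 _
  · simp

/-- the products -/
noncomputable def Dp (g : ℕ → ℝ) {r : ℕ} (e : Fin r → Fin 3) (z : Fin r → ℤ) : ℝ := ∏ l, gI g (z l) ^ (e l : ℕ)

lemma Dp_abs {g : ℕ → ℝ} (hg1 : ∀ n, |g n| ≤ 1) {r : ℕ} (e : Fin r → Fin 3) (z : Fin r → ℤ) : |Dp g e z| ≤ 1 := by
  unfold Dp
  rw [abs_prod]
  apply prod_le_one
  · intro l _; exact abs_nonneg _
  · intro l _
    rw [abs_pow]
    exact pow_le_one₀ (abs_nonneg _) (gI_abs hg1 _)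

/-- multiples -/
lemma sum_mult (f : ℕ → ℝ) (α X N' : ℕ) (hα : 1 ≤ α) (hX : α * X ≤ N') :
    ∑ n ∈ Icc 1 X, f (α * n) = ∑ n ∈ Icc 1 N', (if α ∣ n ∧ n / α ≤ X then f n else 0) := by
  rw [← sum_filter]
  symm
  apply sum_nbij' (fun n => n / α) (fun n => α * n)
  · intro n hn
    rw [mem_filter, mem_Icc] at hn
    rw [mem_Icc]
    obtain ⟨⟨h1, -⟩, h2, h3⟩ := hn
    obtain ⟨k, rfl⟩ := h2
    rw [Nat.mul_div_cancel_left _ (by omega)] at h3 ⊢
    refine ⟨?_, h3⟩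
    rcases Nat.eq_zero_or_pos k with h | h
    · rw [h] at h1; omega
    · exact h
  · intro n hn
    rw [mem_Icc] at hn
    rw [mem_filter, mem_Icc, Nat.mul_div_cancel_left _ (by omega : 0 < α)]
    refine ⟨⟨Nat.mul_pos (by omega) (by omega), ?_⟩, Nat.dvd_mul_right _ _, hn.2⟩
    exact (Nat.mul_le_mul_left α hn.2).trans hX
  · intro n hn
    rw [mem_filter] at hn
    exact Nat.mul_div_cancel' hn.2.1
  · intro n _
    exact Nat.mul_div_cancel_left _ (by omega)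
  · intro n hn
    rw [mem_filter] at hn
    rw [Nat.mul_div_cancel' hn.2.1]

lemma ev_des (T V : ℕ) : ∃ N₀ : ℕ, ∀ N : ℕ, N₀ ≤ N → 100 ≤ Real.log N ∧ (2 : ℝ) ^ V ≤ Real.log N ∧
    (T + 1 : ℝ) * Real.log (Real.log N) ≤ Real.log N := by
  obtain ⟨N₀, h⟩ := ev_oneg T V 0 0
  refine ⟨N₀, fun N hN => ?_⟩
  obtain ⟨a1, a2, -, -, a5⟩ := h N hN
  exact ⟨a1, a2, a5⟩

/-- the mean over the sequences of one correlation -/
lemma des_mean {g : ℕ → ℝ} (hg1 : ∀ n, |g n| ≤ 1) (hlaw : S_LAWg g) (T Bq U : ℕ) :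
    ∃ V C N₀ : ℕ, ∀ N : ℕ, N₀ ≤ N → ∀ (q : ℕ) [NeZero q],
    (N : ℝ) ^ (1 / 3 : ℝ) * Real.log N ^ C ≤ q → q ≤ Bq * N → ∀ {ι : Type} [DecidableEq ι] (s : Finset ι) (y : ι → ZMod q), s.Nonempty →
    Flat q (1 / Real.log N ^ V) s y → ∀ r α X : ℕ, 1 ≤ α → ((α * X : ℕ) : ℝ) ≤ N * Real.log N ^ T →
    ∀ G : ℕ → ℝ, (∀ n ∈ Icc 1 X, |G n| ≤ Real.log N ^ T) → ∀ (e : Fin r → Fin 3) (a b : Fin r → ℤ), (∃ l, e l = 1) →
    (∀ l, a l ≠ 0 ∧ ((a l).natAbs : ℝ) ≤ Real.log N ^ T ∧ |(b l : ℝ)| ≤ N * Real.log N ^ T) →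
    ∑ ω ∈ Fintype.piFinset (fun _ : Fin r => s), |∑ n ∈ Icc 1 X, G n * Dp g e (fun l => (α * n : ℕ) + (b l + a l * ((y (ω l)).val : ℕ)))| ≤
      (s.card : ℝ) ^ r * (N / Real.log N ^ U) := by
  classical
  obtain ⟨V', C', N₁, h1⟩ := oneg hlaw T Bq (U + 2 * T + 1)
  obtain ⟨N₂, hev⟩ := ev_des T (V' + C')
  refine ⟨V' + 1, C' + T + 2, N₁ + N₂ + 3, fun N hN q _ hq1 hq2 ι _ s y hs hf r α X hα hX G hG e a b he hab => ?_⟩
  obtain ⟨a1, a2, a3⟩ := hev N (by omega)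
  have hN0 : (0 : ℝ) < N := by exact_mod_cast (by omega : 0 < N)
  have hN1 : (1 : ℝ) ≤ N := by exact_mod_cast (by omega : 1 ≤ N)
  have hs0 : (0 : ℝ) < s.card := by exact_mod_cast hs.card_pos
  obtain ⟨L, hL⟩ : ∃ L, L = Real.log (N : ℝ) := ⟨_, rfl⟩
  rw [← hL] at a1 a2 a3 hq1 hf hX hG hab ⊢
  have hL0 : 0 < L := by linarith
  have hL1 : 1 ≤ L := by linarith
  have hLT : 1 ≤ L ^ T := one_le_pow₀ hL1
  obtain ⟨K, hK⟩ : ∃ K : ℕ, K = ⌈L ^ T⌉₊ := ⟨_, rfl⟩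
  have hK1 : L ^ T ≤ K := by rw [hK]; exact Nat.le_ceil _
  have hK2 : (K : ℝ) ≤ 2 * L ^ T := by
    rw [hK]
    have := (Nat.ceil_lt_add_one (by positivity : 0 ≤ L ^ T)).le
    linarith
  have hKpos : 1 ≤ K := by
    have : (1 : ℝ) ≤ K := hLT.trans hK1
    exact_mod_cast this
  obtain ⟨N', hN'⟩ : ∃ N' : ℕ, N' = N * K := ⟨_, rfl⟩
  have hNN' : N ≤ N' := by rw [hN']; exact Nat.le_mul_of_pos_right _ (by omega)
  have hKT : (K : ℝ) ≤ L ^ (T + 1) := by
    rw [pow_succ]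
    calc (K : ℝ) ≤ 2 * L ^ T := hK2
      _ ≤ L ^ T * L := by nlinarith
  obtain ⟨l1, l2⟩ := logN_le (by omega : 1 ≤ N) hKpos hL hKT a3
  rw [← hN'] at l1 l2
  obtain ⟨L', hL'⟩ : ∃ L', L' = Real.log (N' : ℝ) := ⟨_, rfl⟩
  rw [← hL'] at l1 l2
  have hL'0 : 0 < L' := by linarith
  -- the distribution at `N'`
  have hmsh : Msh V' C' Bq N' q (dis s y) := by
    apply msh_dis hs
    · rw [← hL']
      have h2 : (N' : ℝ) ^ (1 / 3 : ℝ) ≤ (N : ℝ) ^ (1 / 3 : ℝ) * L ^ (T + 1) := by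
        have h3 : (N' : ℝ) = N * K := by rw [hN']; push_cast; ring
        rw [h3, Real.mul_rpow hN0.le (Nat.cast_nonneg _)]
        apply mul_le_mul_of_nonneg_left _ (by positivity)
        calc (K : ℝ) ^ (1 / 3 : ℝ) ≤ (K : ℝ) ^ (1 : ℝ) :=
              Real.rpow_le_rpow_of_exponent_le (by exact_mod_cast hKpos) (by norm_num)
          _ = K := Real.rpow_one _
          _ ≤ L ^ (T + 1) := hKT
      calc (N' : ℝ) ^ (1 / 3 : ℝ) * L' ^ C' ≤ ((N : ℝ) ^ (1 / 3 : ℝ) * L ^ (T + 1)) * (2 * L) ^ C' := by gcongr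
        _ = (N : ℝ) ^ (1 / 3 : ℝ) * (L ^ (T + 1) * L ^ C' * 2 ^ C') := by rw [mul_pow]; ring
        _ ≤ (N : ℝ) ^ (1 / 3 : ℝ) * (L ^ (T + 1) * L ^ C' * L) := by
            have h4 : (2 : ℝ) ^ C' ≤ L := le_trans (pow_le_pow_right₀ (by norm_num) (Nat.le_add_left _ _)) a2
            gcongr
        _ = (N : ℝ) ^ (1 / 3 : ℝ) * L ^ (C' + T + 2) := by ring
        _ ≤ _ := hq1
    · exact hq2.trans (Nat.mul_le_mul_left _ hNN')
    · refine Flat.mono' hf ?_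
      rw [← hL']
      apply one_div_le_one_div_of_le (by positivity)
      calc L' ^ V' ≤ (2 * L) ^ V' := by gcongr
        _ = 2 ^ V' * L ^ V' := by rw [mul_pow]
        _ ≤ L * L ^ V' := by
            have h4 : (2 : ℝ) ^ V' ≤ L := le_trans (pow_le_pow_right₀ (by norm_num) (Nat.le_add_right _ _)) a2
            gcongr
        _ = L ^ (V' + 1) := by ring
  obtain ⟨l, hl⟩ := he
  have hX' : α * X ≤ N' := by
    have : ((α * X : ℕ) : ℝ) ≤ N' := by
      refine hX.trans ?_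
      rw [hN']; push_cast
      exact mul_le_mul_of_nonneg_left hK1 hN0.le
    exact_mod_cast this
  obtain ⟨F, hF⟩ : ∃ F : (Fin r → ι) → ℝ, ∀ ω, F ω =
      |∑ n ∈ Icc 1 X, G n * Dp g e (fun l => (α * n : ℕ) + (b l + a l * ((y (ω l)).val : ℕ)))| := ⟨_, fun _ => rfl⟩
  have h2 := update_sum s r l F
  have h3 : ∀ ω ∈ Fintype.piFinset (fun _ : Fin r => s), ∑ c ∈ s, F (Function.update ω l c) ≤
      s.card * (N / L ^ U) := by
    intro ω _
    obtain ⟨G', hG'⟩ : ∃ G' : ℕ → ℝ, ∀ n, G' n = if α ∣ n ∧ n / α ≤ X then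
        G (n / α) * ∏ k ∈ univ.erase l, gI g ((n : ℤ) + (b k + a k * ((y (ω k)).val : ℕ))) ^ (e k : ℕ) else 0 := ⟨_, fun _ => rfl⟩
    have h4 := h1 N' (by omega) q (dis s y) hmsh (a l) (hab l).1 (by
      rw [← hL']
      exact (hab l).2.1.trans (pow_le_pow_left₀ hL0.le l1 _)) (b l) (by
      rw [← hL']
      refine (hab l).2.2.trans ?_
      have : (N : ℝ) ≤ N' := by exact_mod_cast hNN'
      gcongr) (L ^ T) (by positivity) G' (by
      intro n hn
      rw [mem_Icc] at hn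
      rw [hG']
      split_ifs with h
      · rw [abs_mul]
        have hn1 : 1 ≤ n / α := by
          obtain ⟨k, hk⟩ := h.1
          rw [hk, Nat.mul_div_cancel_left _ (by omega)]
          rcases Nat.eq_zero_or_pos k with h0 | h0
          · rw [h0, mul_zero] at hk; omega
          · exact h0
        have h5 := hG (n / α) (mem_Icc.2 ⟨hn1, h.2⟩)
        have h6 : |∏ k ∈ univ.erase l, gI g ((n : ℤ) + (b k + a k * ((y (ω k)).val : ℕ))) ^ (e k : ℕ)| ≤ 1 := by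
          rw [abs_prod]
          apply prod_le_one
          · intro k _; exact abs_nonneg _
          · intro k _
            rw [abs_pow]
            exact pow_le_one₀ (abs_nonneg _) (gI_abs hg1 _)
        calc |G (n / α)| * |∏ k ∈ univ.erase l, gI g ((n : ℤ) + (b k + a k * ((y (ω k)).val : ℕ))) ^ (e k : ℕ)| ≤ L ^ T * 1 :=
              mul_le_mul h5 h6 (abs_nonneg _) (by positivity)
          _ = L ^ T := mul_one _
      · rw [abs_zero]; positivity)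
    have h5 : ∀ c : ι, F (Function.update ω l c) =
        |∑ n ∈ Icc 1 N', G' n * gI g ((n : ℤ) + (b l + a l * (((y c).val : ℕ) : ℤ)))| := by
      intro c
      rw [hF]
      congr 1
      have h6 := sum_mult (fun n => G (n / α) * ((∏ k ∈ univ.erase l, gI g ((n : ℤ) + (b k + a k * ((y (ω k)).val : ℕ))) ^ (e k : ℕ)) *
        gI g ((n : ℤ) + (b l + a l * (((y c).val : ℕ) : ℤ))))) α X N' hα hX'
      have h7 : ∑ n ∈ Icc 1 N', G' n * gI g ((n : ℤ) + (b l + a l * (((y c).val : ℕ) : ℤ))) =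
          ∑ n ∈ Icc 1 N', (if α ∣ n ∧ n / α ≤ X then G (n / α) * ((∏ k ∈ univ.erase l, gI g ((n : ℤ) + (b k + a k * ((y (ω k)).val : ℕ))) ^ (e k : ℕ)) *
        gI g ((n : ℤ) + (b l + a l * (((y c).val : ℕ) : ℤ)))) else 0) := by
        apply sum_congr rfl
        intro n _
        rw [hG']
        split_ifs
        · ring
        · rw [zero_mul]
      rw [h7, ← h6]
      apply sum_congr rfl
      intro n _
      rw [Nat.mul_div_cancel_left _ (by omega : 0 < α)]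
      congr 1
      unfold Dp
      rw [← mul_prod_erase univ _ (mem_univ l)]
      have e2 : ∀ k ∈ univ.erase l, gI g (((α * n : ℕ) : ℤ) + (b k + a k * ((y (Function.update ω l c k)).val : ℕ))) ^ (e k : ℕ) =
          gI g (((α * n : ℕ) : ℤ) + (b k + a k * ((y (ω k)).val : ℕ))) ^ (e k : ℕ) := by
        intro k hk
        rw [mem_erase] at hk
        rw [Function.update_of_ne hk.1]
      rw [prod_congr rfl e2]
      simp only [Function.update_self, hl, Fin.val_one, pow_one]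
      ring
    have h6 := dis_sum_real s y q le_rfl
      (fun v => |∑ n ∈ Icc 1 N', G' n * gI g ((n : ℤ) + (b l + a l * ((v : ℕ) : ℤ)))|)
    rw [h6, div_le_iff₀ hs0, ← hL'] at h4
    rw [sum_congr rfl fun c _ => h5 c]
    refine h4.trans ?_
    rw [mul_comm]
    apply mul_le_mul_of_nonneg_left _ hs0.le
    have h8 : (N' : ℝ) / L' ^ (U + 2 * T + 1) ≤ N * (2 * L ^ T) / L ^ (U + 2 * T + 1) := by
      have : (N' : ℝ) ≤ N * (2 * L ^ T) := by
        rw [hN']; push_cast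
        exact mul_le_mul_of_nonneg_left hK2 hN0.le
      gcongr
    calc L ^ T * ((N' : ℝ) / L' ^ (U + 2 * T + 1)) ≤ L ^ T * (N * (2 * L ^ T) / L ^ (U + 2 * T + 1)) :=
          mul_le_mul_of_nonneg_left h8 (by positivity)
      _ = N / L ^ U * (2 / L) := by
          have : L ^ (U + 2 * T + 1) = L ^ U * L ^ T * L ^ T * L := by ring
          rw [this]
          field_simp
      _ ≤ N / L ^ U * 1 := by
          apply mul_le_mul_of_nonneg_left _ (by positivity)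
          rw [div_le_one hL0]; linarith
      _ = _ := mul_one _
  have h7 := sum_le_sum h3
  rw [h2, sum_const, Fintype.card_piFinset_const, nsmul_eq_mul] at h7
  simp only [hF] at h7
  push_cast at h7
  have h8 : (s.card : ℝ) * ∑ ω ∈ Fintype.piFinset (fun _ : Fin r => s),
      |∑ n ∈ Icc 1 X, G n * Dp g e (fun l => (α * n : ℕ) + (b l + a l * ((y (ω l)).val : ℕ)))| ≤
      s.card * ((s.card : ℝ) ^ r * (N / L ^ U)) := by
    push_cast
    refine h7.trans (le_of_eq ?_)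
    ring
  exact le_of_mul_le_mul_left h8 hs0

/-- all prefixes from a grid, bound `c` -/
lemma prefix_grid_c (f : ℕ → ℝ) (c : ℝ) (hc : 0 ≤ c) (X' h : ℕ) (hh : 1 ≤ h) (hf : ∀ n ∈ Icc 1 X', |f n| ≤ c) (w : ℕ) (hw : w ≤ X') :
    |∑ n ∈ Icc 1 w, f n| ≤ ∑ j ∈ range (X' / h + 1), |∑ n ∈ Icc 1 (j * h), f n| + h * c := by
  obtain ⟨j, hj⟩ : ∃ j, j = w / h := ⟨_, rfl⟩
  have h1 : j * h ≤ w := by rw [hj]; exact Nat.div_mul_le_self w h
  have h2 : w < j * h + h := by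
    rw [hj]
    have := Nat.lt_div_mul_add (a := w) (b := h) (by omega)
    exact this
  have h3 : ∑ n ∈ Icc 1 w, f n = ∑ n ∈ Icc 1 (j * h), f n + ∑ n ∈ Ioc (j * h) w, f n := by
    have e1 : Icc 1 w = Ioc 0 w := by ext x; simp only [mem_Icc, mem_Ioc]; omega
    have e2 : Icc 1 (j * h) = Ioc 0 (j * h) := by ext x; simp only [mem_Icc, mem_Ioc]; omega
    rw [e1, e2, sum_Ioc_consecutive _ (Nat.zero_le _) h1]
  have h4 : |∑ n ∈ Ioc (j * h) w, f n| ≤ h * c := by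
    refine (abs_sum_le_sum_abs _ _).trans ?_
    refine (sum_le_sum fun n hn => hf n (by rw [mem_Ioc] at hn; rw [mem_Icc]; omega)).trans ?_
    rw [sum_const, Nat.card_Ioc, nsmul_eq_mul]
    have : w - j * h ≤ h := by omega
    exact mul_le_mul_of_nonneg_right (by exact_mod_cast this) hc
  have h5 : |∑ n ∈ Icc 1 (j * h), f n| ≤ ∑ j ∈ range (X' / h + 1), |∑ n ∈ Icc 1 (j * h), f n| := by
    have h6 : j ∈ range (X' / h + 1) := by
      rw [mem_range, hj]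
      have := Nat.div_le_div_right (c := h) hw
      omega
    exact single_le_sum (f := fun j => |∑ n ∈ Icc 1 (j * h), f n|) (fun j _ => abs_nonneg _) h6
  rw [h3]
  refine (abs_add_le _ _).trans ?_
  linarith

/-- **Systems of correlations at almost all sequences.** -/
theorem designs {g : ℕ → ℝ} (hg1 : ∀ n, |g n| ≤ 1) (hlaw : S_LAWg g) (A T Bq U : ℕ) :
    ∃ V C N₀ : ℕ, ∀ N : ℕ, N₀ ≤ N → ∀ (q : ℕ) [NeZero q],
    (N : ℝ) ^ (1 / 3 : ℝ) * Real.log N ^ C ≤ q → q ≤ Bq * N → ∀ {ι : Type} [DecidableEq ι] (s : Finset ι) (y : ι → ZMod q), s.Nonempty →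
    Flat q (1 / Real.log N ^ V) s y → ∀ (r : ℕ) {τ : Type} (𝒯 : Finset τ), (𝒯.card : ℝ) ≤ Real.log N ^ A →
    ∀ (α : τ → ℕ) (G : τ → ℕ → ℝ) (e : τ → Fin r → Fin 3) (a b : τ → Fin r → ℤ), (∀ t ∈ 𝒯, 1 ≤ α t ∧
      (∀ n : ℕ, ((α t * n : ℕ) : ℝ) ≤ N * Real.log N ^ T → |G t n| ≤ Real.log N ^ T) ∧ (∃ l, e t l = 1) ∧
      (∀ l, a t l ≠ 0 ∧ ((a t l).natAbs : ℝ) ≤ Real.log N ^ T ∧ |(b t l : ℝ)| ≤ N * Real.log N ^ T)) →
    ∃ Bad ⊆ Fintype.piFinset (fun _ : Fin r => s), (Bad.card : ℝ) ≤ (s.card : ℝ) ^ r / Real.log N ^ A ∧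
      ∀ i ∈ Fintype.piFinset (fun _ : Fin r => s), i ∉ Bad → ∀ t ∈ 𝒯, ∀ X : ℕ, ((α t * X : ℕ) : ℝ) ≤ N * Real.log N ^ T →
      |∑ n ∈ Icc 1 X, G t n * Dp g (e t) (fun l => (α t * n : ℕ) + (b t l + a t l * ((y (i l)).val : ℕ)))| ≤
        N / Real.log N ^ U := by
  classical
  obtain ⟨W, hW⟩ : ∃ W, W = T + U + 1 := ⟨_, rfl⟩
  obtain ⟨U2, hU2⟩ : ∃ U2, U2 = 2 * A + T + W + U + 1 := ⟨_, rfl⟩
  obtain ⟨V, C, N₁, hmean⟩ := des_mean hg1 hlaw T Bq U2
  obtain ⟨N₂, hev⟩ := ev_tup W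
  refine ⟨V, C, N₁ + N₂ + 3, fun N hN q _ hq1 hq2 ι _ s y hs hf r τ 𝒯 h𝒯 α G e a b hval => ?_⟩
  obtain ⟨a1, a4⟩ := hev N (by omega)
  have hN0 : (0 : ℝ) < N := by exact_mod_cast (by omega : 0 < N)
  have hs0 : (0 : ℝ) < s.card := by exact_mod_cast hs.card_pos
  have hmean := hmean N (by omega) q hq1 hq2 s y hs hf r
  obtain ⟨L, hL⟩ : ∃ L, L = Real.log (N : ℝ) := ⟨_, rfl⟩
  rw [← hL] at a1 a4 h𝒯 hmean hval ⊢
  have hL0 : 0 < L := by linarith
  have hL1 : 1 ≤ L := by linarith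
  have hLT : 1 ≤ L ^ T := one_le_pow₀ hL1
  obtain ⟨h, hh⟩ : ∃ h : ℕ, h = ⌈(N : ℝ) / L ^ W⌉₊ := ⟨_, rfl⟩
  have hNW : 1 ≤ (N : ℝ) / L ^ W := by
    rw [le_div_iff₀ (by positivity), one_mul]
    exact a4
  have hh1 : (N : ℝ) / L ^ W ≤ h := by rw [hh]; exact Nat.le_ceil _
  have hh2 : (h : ℝ) ≤ 2 * ((N : ℝ) / L ^ W) := by
    rw [hh]
    have := (Nat.ceil_lt_add_one (by positivity : 0 ≤ (N : ℝ) / L ^ W)).le
    linarith
  have hhpos : 1 ≤ h := by
    have : (1 : ℝ) ≤ h := hNW.trans hh1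
    exact_mod_cast this
  have hh0 : (0 : ℝ) < h := by exact_mod_cast hhpos
  -- the largest length
  obtain ⟨Xm, hXm⟩ : ∃ Xm : τ → ℕ, ∀ t, Xm t = ⌊N * L ^ T / α t⌋₊ := ⟨_, fun _ => rfl⟩
  have hXm1 : ∀ t ∈ 𝒯, ((α t * Xm t : ℕ) : ℝ) ≤ N * L ^ T := by
    intro t ht
    have hα : (0 : ℝ) < α t := by exact_mod_cast (hval t ht).1
    push_cast
    have h1 : (Xm t : ℝ) ≤ N * L ^ T / α t := by rw [hXm]; exact Nat.floor_le (by positivity)
    calc (α t : ℝ) * Xm t ≤ α t * (N * L ^ T / α t) := mul_le_mul_of_nonneg_left h1 hα.le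
      _ = N * L ^ T := by field_simp
  have hXm2 : ∀ t ∈ 𝒯, ∀ X : ℕ, ((α t * X : ℕ) : ℝ) ≤ N * L ^ T → X ≤ Xm t := by
    intro t ht X hX
    have hα : (0 : ℝ) < α t := by exact_mod_cast (hval t ht).1
    rw [hXm]
    apply Nat.le_floor
    rw [le_div_iff₀ hα]
    push_cast at hX
    linarith
  have hgrid : ∀ t ∈ 𝒯, ((Xm t / h + 1 : ℕ) : ℝ) ≤ 2 * L ^ (T + W) := by
    intro t ht
    have hα : (1 : ℝ) ≤ α t := by exact_mod_cast (hval t ht).1
    push_cast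
    have h1 : ((Xm t / h : ℕ) : ℝ) ≤ (Xm t : ℝ) / h := Nat.cast_div_le
    have h2 : (Xm t : ℝ) / h ≤ L ^ (T + W) := by
      rw [div_le_iff₀ hh0]
      have h3 : (Xm t : ℝ) ≤ N * L ^ T := by
        have h5 := hXm1 t ht
        push_cast at h5
        refine le_trans ?_ h5
        exact le_mul_of_one_le_left (Nat.cast_nonneg _) hα
      calc (Xm t : ℝ) ≤ N * L ^ T := h3
        _ = L ^ (T + W) * (N / L ^ W) := by rw [pow_add]; field_simp
        _ ≤ L ^ (T + W) * h := mul_le_mul_of_nonneg_left hh1 (by positivity)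
    have h4 : 1 ≤ L ^ (T + W) := one_le_pow₀ hL1
    linarith
  obtain ⟨RR, hRR⟩ : ∃ RR : (Fin r → ι) → ℝ, ∀ ω, RR ω = ∑ t ∈ 𝒯, ∑ j ∈ range (Xm t / h + 1),
    |∑ n ∈ Icc 1 (j * h), G t n * Dp g (e t) (fun l => (α t * n : ℕ) + (b t l + a t l * ((y (ω l)).val : ℕ)))| := ⟨_, fun _ => rfl⟩
  have hRR0 : ∀ ω, 0 ≤ RR ω := by
    intro ω; rw [hRR]; exact sum_nonneg fun _ _ => sum_nonneg fun _ _ => abs_nonneg _
  have htot : ∑ ω ∈ Fintype.piFinset (fun _ : Fin r => s), RR ω ≤ L ^ A * (2 * L ^ (T + W) * ((s.card : ℝ) ^ r * (N / L ^ U2))) := by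
    have e1 : ∑ ω ∈ Fintype.piFinset (fun _ : Fin r => s), RR ω = ∑ t ∈ 𝒯, ∑ j ∈ range (Xm t / h + 1),
        ∑ ω ∈ Fintype.piFinset (fun _ : Fin r => s),
        |∑ n ∈ Icc 1 (j * h), G t n * Dp g (e t) (fun l => (α t * n : ℕ) + (b t l + a t l * ((y (ω l)).val : ℕ)))| := by
      simp only [hRR]
      rw [sum_comm]
      apply sum_congr rfl; intro t _
      rw [sum_comm]
    rw [e1]
    have hX0 : 0 ≤ (s.card : ℝ) ^ r * (N / L ^ U2) := mul_nonneg (pow_nonneg (Nat.cast_nonneg _) _) (by positivity)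
    have e2 : ∀ t ∈ 𝒯, ∑ j ∈ range (Xm t / h + 1), ∑ ω ∈ Fintype.piFinset (fun _ : Fin r => s),
        |∑ n ∈ Icc 1 (j * h), G t n * Dp g (e t) (fun l => (α t * n : ℕ) + (b t l + a t l * ((y (ω l)).val : ℕ)))| ≤
        2 * L ^ (T + W) * ((s.card : ℝ) ^ r * (N / L ^ U2)) := by
      intro t ht
      obtain ⟨v1, v2, v3, v4⟩ := hval t ht
      have e3 : ∀ j ∈ range (Xm t / h + 1), ∑ ω ∈ Fintype.piFinset (fun _ : Fin r => s),
          |∑ n ∈ Icc 1 (j * h), G t n * Dp g (e t) (fun l => (α t * n : ℕ) + (b t l + a t l * ((y (ω l)).val : ℕ)))| ≤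
          (s.card : ℝ) ^ r * (N / L ^ U2) := by
        intro j hj
        rw [mem_range] at hj
        have hjX : j * h ≤ Xm t := by
          calc j * h ≤ (Xm t / h) * h := Nat.mul_le_mul_right _ (by omega)
            _ ≤ Xm t := Nat.div_mul_le_self _ h
        have hle : ((α t * (j * h) : ℕ) : ℝ) ≤ N * L ^ T := by
          refine le_trans ?_ (hXm1 t ht)
          exact_mod_cast Nat.mul_le_mul_left _ hjX
        exact hmean (α t) (j * h) v1 hle (G t) (fun n hn => by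
          apply v2
          rw [mem_Icc] at hn
          refine le_trans ?_ hle
          exact_mod_cast Nat.mul_le_mul_left _ hn.2) (e t) (a t) (b t) v3 v4
      refine (sum_le_sum e3).trans ?_
      rw [sum_const, card_range, nsmul_eq_mul]
      exact mul_le_mul_of_nonneg_right (hgrid t ht) hX0
    refine (sum_le_sum e2).trans ?_
    rw [sum_const, nsmul_eq_mul]
    exact mul_le_mul_of_nonneg_right h𝒯 (mul_nonneg (by positivity) hX0)
  obtain ⟨Bad, hBad⟩ : ∃ Bad : Finset (Fin r → ι), ∀ i, i ∈ Bad ↔ i ∈ Fintype.piFinset (fun _ : Fin r => s) ∧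
    (N : ℝ) / L ^ U * (1 / 4) < RR i := ex_filter _ _
  have hBads : Bad ⊆ Fintype.piFinset (fun _ : Fin r => s) := fun i hi => ((hBad i).1 hi).1
  refine ⟨Bad, hBads, ?_, ?_⟩
  · have h1 : (Bad.card : ℝ) * ((N : ℝ) / L ^ U * (1 / 4)) ≤ ∑ i ∈ Fintype.piFinset (fun _ : Fin r => s), RR i := by
      calc (Bad.card : ℝ) * ((N : ℝ) / L ^ U * (1 / 4)) = ∑ i ∈ Bad, ((N : ℝ) / L ^ U * (1 / 4)) := by
            rw [sum_const, nsmul_eq_mul]
        _ ≤ ∑ i ∈ Bad, RR i := sum_le_sum fun i hi => by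
            rw [hBad] at hi
            exact hi.2.le
        _ ≤ _ := sum_le_sum_of_subset_of_nonneg hBads fun _ _ _ => hRR0 _
    have h2 := h1.trans htot
    have e1 : L ^ U2 = L ^ A * L ^ A * L ^ (T + W) * L ^ U * L := by
      rw [hU2]; ring
    have e2 : L ^ A * (2 * L ^ (T + W) * ((s.card : ℝ) ^ r * (N / L ^ U2))) =
        ((s.card : ℝ) ^ r / L ^ A * (8 / L)) * (N / L ^ U * (1 / 4)) := by
      rw [e1]; field_simp; ring
    rw [e2] at h2
    have h3 : (Bad.card : ℝ) ≤ (s.card : ℝ) ^ r / L ^ A * (8 / L) := le_of_mul_le_mul_right h2 (by positivity)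
    refine h3.trans ?_
    have h4 : 8 / L ≤ 1 := by rw [div_le_one hL0]; linarith
    exact mul_le_of_le_one_right (div_nonneg (pow_nonneg (Nat.cast_nonneg _) _) (by positivity)) h4
  · intro i hi hbad t ht X hX
    have hci : RR i ≤ N / L ^ U * (1 / 4) := by
      by_contra hcon
      push Not at hcon
      apply hbad
      rw [hBad]
      exact ⟨hi, hcon⟩
    obtain ⟨v1, v2, v3, v4⟩ := hval t ht
    have h1 := prefix_grid_c (fun n => G t n * Dp g (e t) (fun l => (α t * n : ℕ) + (b t l + a t l * ((y (i l)).val : ℕ))))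
      (L ^ T) (by positivity) (Xm t) h hhpos (by
        intro n hn
        rw [mem_Icc] at hn
        rw [abs_mul]
        have h2 : |G t n| ≤ L ^ T := by
          apply v2
          refine le_trans ?_ (hXm1 t ht)
          exact_mod_cast Nat.mul_le_mul_left _ hn.2
        calc |G t n| * |Dp g (e t) (fun l => (α t * n : ℕ) + (b t l + a t l * ((y (i l)).val : ℕ)))| ≤ L ^ T * 1 :=
              mul_le_mul h2 (Dp_abs hg1 _ _) (abs_nonneg _) (by positivity)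
          _ = L ^ T := mul_one _) X (hXm2 t ht X hX)
    have h2 : ∑ j ∈ range (Xm t / h + 1), |∑ n ∈ Icc 1 (j * h), G t n * Dp g (e t) (fun l => (α t * n : ℕ) + (b t l + a t l * ((y (i l)).val : ℕ)))| ≤ RR i := by
      rw [hRR]
      exact single_le_sum (f := fun t => ∑ j ∈ range (Xm t / h + 1),
        |∑ n ∈ Icc 1 (j * h), G t n * Dp g (e t) (fun l => (α t * n : ℕ) + (b t l + a t l * ((y (i l)).val : ℕ)))|)
        (fun _ _ => sum_nonneg fun _ _ => abs_nonneg _) ht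
    have h3 : (h : ℝ) * L ^ T ≤ N / L ^ U * (1 / 4) := by
      calc (h : ℝ) * L ^ T ≤ 2 * ((N : ℝ) / L ^ W) * L ^ T := mul_le_mul_of_nonneg_right hh2 (by positivity)
        _ = N / L ^ U * (2 / L) := by
            rw [hW]
            have : L ^ (T + U + 1) = L ^ T * L ^ U * L := by ring
            rw [this]
            field_simp
        _ ≤ N / L ^ U * (1 / 4) := by
            apply mul_le_mul_of_nonneg_left _ (by positivity)
            rw [div_le_div_iff₀ hL0 (by norm_num)]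
            linarith
    refine h1.trans ?_
    have h4 : 0 ≤ (N : ℝ) / L ^ U := by positivity
    linarith

end Pool.Agent.Run7.h794.MK
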