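import Mathlib
import Pool.Agent.Run7.h794.MK.Des
import Pool.Agent.Run7.h794.MK.AllL

/-! Project MKM (helper794): Hardy-Littlewood-Chowla systems (von Mangoldt function at arbitrary forms, Liouville function at almost
all sequences of members of short flat families). -/

set_option autoImplicit false

namespace Pool.Agent.Run7.h794.MK

open Finset Filter
open Pool.Agent.N384.MQ (Flat ev_log_pow ev_log_ge)
open Pool.Agent.Run7.h27.MK (gI)

/-- the Liouville function on the integers, zero at the integers `≤ 0` -/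
noncomputable def lamZ (m : ℤ) : ℝ := if 0 < m then ((ArithmeticFunction.liouville m.toNat : ℤ) : ℝ) else 0

lemma lio_eq (n : ℕ) : ((ArithmeticFunction.liouville n : ℤ) : ℝ) = lio n := by
  unfold lio
  split_ifs with h
  · rw [h]; simp
  · rw [ArithmeticFunction.liouville_apply h]
    push_cast
    rfl

lemma lamZ_eq (m : ℤ) : lamZ m = gI lio m := by
  unfold lamZ gI
  by_cases h : 0 < m
  · rw [if_pos h, if_pos (by omega), lio_eq]
  · rw [if_neg h, if_neg (by omega)]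

lemma lamZ_sq {m : ℤ} (hm : 0 < m) : lamZ m = 1 ∨ lamZ m = -1 := by
  unfold lamZ
  rw [if_pos hm, lio_eq]
  unfold lio
  rw [if_neg (by omega)]
  rcases neg_one_pow_eq_or ℝ m.toNat.primeFactorsList.length with h | h
  · left; exact h
  · right; exact h

/-- the exponents of a set -/
def eS {r : ℕ} (I : Finset (Fin r)) : Fin r → Fin 3 := fun l => if l ∈ I then 1 else 0

lemma Dp_eS (g : ℕ → ℝ) {r : ℕ} (I : Finset (Fin r)) (z : Fin r → ℤ) : Dp g (eS I) z = ∏ l ∈ I, gI g (z l) := by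
  unfold Dp eS
  have h1 : ∀ l : Fin r, gI g (z l) ^ (((if l ∈ I then 1 else 0 : Fin 3)) : ℕ) = if l ∈ I then gI g (z l) else 1 := by
    intro l
    split_ifs <;> simp
  rw [prod_congr rfl fun l _ => h1 l, Finset.prod_ite_mem, univ_inter]

lemma ev_vm (k B T : ℕ) : ∃ N₀ : ℕ, ∀ N : ℕ, N₀ ≤ N → 100 ≤ Real.log N ∧ ((B : ℝ) + 3) ^ k ≤ Real.log N ∧
    Real.log N ^ T ≤ N := by
  obtain ⟨n2, h2⟩ := eventually_atTop.1 (((ev_log_ge 100).and (ev_log_ge (((B : ℝ) + 3) ^ k))).and (ev_log_pow T 1))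
  refine ⟨n2, fun N hN => ?_⟩
  obtain ⟨⟨a1, a2⟩, a3⟩ := h2 N hN
  exact ⟨a1, a2, by linarith⟩

/-- products of values of the von Mangoldt function -/
lemma vm_prod (k B T N : ℕ) (h100 : 100 ≤ Real.log N) (hB : ((B : ℝ) + 3) ^ k ≤ Real.log N) (hT : Real.log N ^ T ≤ N)
    (c d : Fin k → ℕ) (hcd : ∀ j, c j ≤ N ^ B ∧ d j ≤ N ^ B) (n : ℕ) (hn : (n : ℝ) ≤ N * Real.log N ^ T) :
    |∏ j, ArithmeticFunction.vonMangoldt (c j * n + d j)| ≤ Real.log N ^ (k + 1) := by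
  have hN3 : 2 ≤ N := by
    by_contra hcon
    have : N ≤ 1 := by omega
    have h1 : Real.log N ≤ Real.log 1 := by
      rcases Nat.eq_zero_or_pos N with h | h
      · rw [h]; simp
      · exact Real.log_le_log (by exact_mod_cast h) (by exact_mod_cast this)
    rw [Real.log_one] at h1
    linarith
  have hL0 : 0 < Real.log (N : ℝ) := by linarith
  rw [abs_prod]
  calc ∏ j, |ArithmeticFunction.vonMangoldt (c j * n + d j)| ≤ ∏ _j : Fin k, (((B : ℝ) + 3) * Real.log N) := by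
        apply Finset.prod_le_prod
        · intro j _; exact abs_nonneg _
        · intro j _
          rw [abs_of_nonneg ArithmeticFunction.vonMangoldt_nonneg]
          refine ArithmeticFunction.vonMangoldt_le_log.trans ?_
          rcases Nat.eq_zero_or_pos (c j * n + d j) with h0 | h0
          · rw [h0, Nat.cast_zero, Real.log_zero]; positivity
          have h1 : ((c j * n + d j : ℕ) : ℝ) ≤ (N : ℝ) ^ (B + 3) := by
            have h2 : (n : ℝ) ≤ N * N := hn.trans (mul_le_mul_of_nonneg_left hT (Nat.cast_nonneg _))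
            have h3 : (c j : ℝ) ≤ (N : ℝ) ^ B := by exact_mod_cast (hcd j).1
            have h4 : (d j : ℝ) ≤ (N : ℝ) ^ B := by exact_mod_cast (hcd j).2
            have h5 : (2 : ℝ) ≤ N := by exact_mod_cast hN3
            have hNB : (0 : ℝ) ≤ (N : ℝ) ^ B := by positivity
            push_cast
            calc (c j : ℝ) * n + d j ≤ (N : ℝ) ^ B * (N * N) + (N : ℝ) ^ B := add_le_add (mul_le_mul h3 h2 (Nat.cast_nonneg _) hNB) h4
              _ = (N : ℝ) ^ B * (N * N + 1) := by ring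
              _ ≤ (N : ℝ) ^ B * (N * N * N) := by
                  apply mul_le_mul_of_nonneg_left _ hNB
                  nlinarith [mul_le_mul h5 h5 (by norm_num) (by linarith : (0 : ℝ) ≤ N)]
              _ = (N : ℝ) ^ (B + 3) := by ring
          have h6 := Real.log_le_log (by exact_mod_cast h0) h1
          rw [Real.log_pow] at h6
          push_cast at h6 ⊢
          exact h6
    _ = ((B : ℝ) + 3) ^ k * Real.log N ^ k := by
        rw [prod_const, card_univ, Fintype.card_fin, mul_pow]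
    _ ≤ Real.log N * Real.log N ^ k := mul_le_mul_of_nonneg_right hB (by positivity)
    _ = Real.log N ^ (k + 1) := by ring

/-- **Hardy-Littlewood-Chowla systems.** -/
theorem lio_sys (k B A T Bq U : ℕ) : ∃ V C N₀ : ℕ, ∀ N : ℕ, N₀ ≤ N → ∀ (q : ℕ) [NeZero q],
    (N : ℝ) ^ (1 / 3 : ℝ) * Real.log N ^ C ≤ q → q ≤ Bq * N → ∀ {ι : Type} [DecidableEq ι] (s : Finset ι) (y : ι → ZMod q), s.Nonempty →
    Flat q (1 / Real.log N ^ V) s y → ∀ (r : ℕ) {τ : Type} (𝒯 : Finset τ), (𝒯.card : ℝ) ≤ Real.log N ^ A →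
    ∀ (α : τ → ℕ) (w : τ → ℕ → ℝ) (c d : τ → Fin k → ℕ) (I : τ → Finset (Fin r)) (a b : τ → Fin r → ℤ), (∀ t ∈ 𝒯, 1 ≤ α t ∧
      (∀ n, |w t n| ≤ Real.log N ^ T) ∧ (∀ j, c t j ≤ N ^ B ∧ d t j ≤ N ^ B) ∧ (I t).Nonempty ∧
      (∀ l, a t l ≠ 0 ∧ ((a t l).natAbs : ℝ) ≤ Real.log N ^ T ∧ |(b t l : ℝ)| ≤ N * Real.log N ^ T)) →
    ∃ Bad ⊆ Fintype.piFinset (fun _ : Fin r => s), (Bad.card : ℝ) ≤ (s.card : ℝ) ^ r / Real.log N ^ A ∧
      ∀ i ∈ Fintype.piFinset (fun _ : Fin r => s), i ∉ Bad → ∀ t ∈ 𝒯, ∀ X : ℕ, ((α t * X : ℕ) : ℝ) ≤ N * Real.log N ^ T →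
      |∑ n ∈ Icc 1 X, w t n * (∏ j, ArithmeticFunction.vonMangoldt (c t j * n + d t j)) *
          ∏ l ∈ I t, lamZ ((α t * n : ℕ) + (b t l + a t l * ((y (i l)).val : ℕ)))| ≤ N / Real.log N ^ U := by
  classical
  obtain ⟨V, C, N₁, hd⟩ := designs lio_abs law_lio A (T + k + 1) Bq U
  obtain ⟨N₂, hev⟩ := ev_vm k B T
  refine ⟨V, C, N₁ + N₂, fun N hN q _ hq1 hq2 ι _ s y hs hf r τ 𝒯 h𝒯 α w c d I a b hval => ?_⟩
  obtain ⟨a1, a2, a3⟩ := hev N (by omega)
  have hL1 : 1 ≤ Real.log (N : ℝ) := by linarith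
  have hL0 : 0 < Real.log (N : ℝ) := by linarith
  have hTT : Real.log (N : ℝ) ^ T ≤ Real.log N ^ (T + k + 1) := pow_le_pow_right₀ hL1 (by omega)
  obtain ⟨Bad, hB1, hB2, hB3⟩ := hd N (by omega) q hq1 hq2 s y hs hf r 𝒯 h𝒯 α
    (fun t n => if ((α t * n : ℕ) : ℝ) ≤ N * Real.log N ^ T then w t n * ∏ j, ArithmeticFunction.vonMangoldt (c t j * n + d t j) else 0)
    (fun t => eS (I t)) a b (by
      intro t ht
      obtain ⟨v1, v2, v3, v4, v5⟩ := hval t ht
      refine ⟨v1, fun n _ => ?_, ?_, fun l => ⟨(v5 l).1, (v5 l).2.1.trans hTT, (v5 l).2.2.trans ?_⟩⟩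
      · split_ifs with hn
        · rw [abs_mul]
          have hn' : (n : ℝ) ≤ N * Real.log N ^ T := by
            refine le_trans ?_ hn
            exact_mod_cast Nat.le_mul_of_pos_left n (by omega)
          have h1 := vm_prod k B T N a1 a2 a3 (c t) (d t) v3 n hn'
          calc |w t n| * |∏ j, ArithmeticFunction.vonMangoldt (c t j * n + d t j)| ≤ Real.log N ^ T * Real.log N ^ (k + 1) :=
                mul_le_mul (v2 n) h1 (abs_nonneg _) (by positivity)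
            _ = Real.log N ^ (T + k + 1) := by rw [← pow_add]; rfl
        · rw [abs_zero]; positivity
      · obtain ⟨l, hl⟩ := v4
        exact ⟨l, by unfold eS; rw [if_pos hl]⟩
      · exact mul_le_mul_of_nonneg_left hTT (Nat.cast_nonneg _))
  refine ⟨Bad, hB1, hB2, fun i hi hbad t ht X hX => ?_⟩
  obtain ⟨v1, v2, v3, v4, v5⟩ := hval t ht
  have h1 := hB3 i hi hbad t ht X (hX.trans (mul_le_mul_of_nonneg_left hTT (Nat.cast_nonneg _)))
  refine le_trans (le_of_eq ?_) h1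
  congr 1
  apply sum_congr rfl
  intro n hn
  rw [mem_Icc] at hn
  rw [if_pos (le_trans (by exact_mod_cast Nat.mul_le_mul_left _ hn.2) hX), Dp_eS]
  simp only [lamZ_eq]

/-- the indicator function of a pattern -/
lemma pattern_ind {r : ℕ} (x ε : Fin r → ℝ) (hx : ∀ l, x l = 1 ∨ x l = -1) (hε : ∀ l, ε l = 1 ∨ ε l = -1) :
    (if ∀ l, x l = ε l then (1 : ℝ) else 0) = 1 / 2 ^ r * ∑ I ∈ (univ : Finset (Fin r)).powerset, ∏ l ∈ I, (ε l * x l) := by
  rw [← Finset.prod_one_add]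
  split_ifs with h
  · have h1 : ∀ l ∈ (univ : Finset (Fin r)), 1 + ε l * x l = 2 := by
      intro l _
      rw [h l]
      rcases hε l with h2 | h2 <;> rw [h2] <;> norm_num
    rw [prod_congr rfl h1, prod_const, card_univ, Fintype.card_fin]
    field_simp
  · push Not at h
    obtain ⟨l, hl⟩ := h
    rw [prod_eq_zero (mem_univ l), mul_zero]
    rcases hε l with h2 | h2 <;> rcases hx l with h3 | h3
    · exact absurd (h3.trans h2.symm) hl
    · rw [h2, h3]; norm_num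
    · rw [h2, h3]; norm_num
    · exact absurd (h3.trans h2.symm) hl

/-- **The patterns of the Liouville function are equidistributed with respect to all weights of the class.** -/
theorem lio_pat (k B A T Bq U : ℕ) : ∃ V C N₀ : ℕ, ∀ N : ℕ, N₀ ≤ N → ∀ (q : ℕ) [NeZero q],
    (N : ℝ) ^ (1 / 3 : ℝ) * Real.log N ^ C ≤ q → q ≤ Bq * N → ∀ {ι : Type} [DecidableEq ι] (s : Finset ι) (y : ι → ZMod q), s.Nonempty →
    Flat q (1 / Real.log N ^ V) s y → ∀ (r : ℕ), (2 : ℝ) ^ r ≤ Real.log N ^ A →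
    ∀ {τ : Type} (𝒯 : Finset τ), (𝒯.card : ℝ) ≤ Real.log N ^ A →
    ∀ (w : τ → ℕ → ℝ) (c d : τ → Fin k → ℕ), (∀ t ∈ 𝒯, (∀ n, |w t n| ≤ Real.log N ^ T) ∧ (∀ j, c t j ≤ N ^ B ∧ d t j ≤ N ^ B)) →
    ∃ Bad ⊆ Fintype.piFinset (fun _ : Fin r => s), (Bad.card : ℝ) ≤ (s.card : ℝ) ^ r / Real.log N ^ A ∧
      ∀ i ∈ Fintype.piFinset (fun _ : Fin r => s), i ∉ Bad → ∀ t ∈ 𝒯, ∀ κ : ℕ, 1 ≤ κ → (κ : ℝ) ≤ Real.log N ^ T →
      ∀ X ≤ N, ∀ ε : Fin r → ℤ, (∀ l, ε l = 1 ∨ ε l = -1) →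
      |∑ n ∈ (Icc 1 X).filter (fun n => ∀ l, ArithmeticFunction.liouville (n + κ * (y (i l)).val) = ε l),
          w t n * (∏ j, ArithmeticFunction.vonMangoldt (c t j * n + d t j)) -
        1 / 2 ^ r * ∑ n ∈ Icc 1 X, w t n * (∏ j, ArithmeticFunction.vonMangoldt (c t j * n + d t j))| ≤ N / Real.log N ^ U := by
  classical
  obtain ⟨V, C, N₁, hd⟩ := lio_sys k B (2 * A + T) T Bq U
  obtain ⟨N₂, hev⟩ := ev_vm k B T
  refine ⟨V, C, N₁ + N₂, fun N hN q _ hq1 hq2 ι _ s y hs hf r hr τ 𝒯 h𝒯 w c d hval => ?_⟩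
  obtain ⟨a1, a2, a3⟩ := hev N (by omega)
  have hL1 : 1 ≤ Real.log (N : ℝ) := by linarith
  have hL0 : 0 < Real.log (N : ℝ) := by linarith
  have hLT : 1 ≤ Real.log (N : ℝ) ^ T := one_le_pow₀ hL1
  obtain ⟨K, hK⟩ : ∃ K : ℕ, K = ⌊Real.log (N : ℝ) ^ T⌋₊ := ⟨_, rfl⟩
  have hK1 : (K : ℝ) ≤ Real.log N ^ T := by rw [hK]; exact Nat.floor_le (by positivity)
  obtain ⟨P, hP⟩ : ∃ P : Finset (Finset (Fin r)), P = (univ : Finset (Fin r)).powerset.erase ∅ := ⟨_, rfl⟩
  have hPc : (P.card : ℝ) ≤ 2 ^ r := by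
    have : P.card ≤ 2 ^ r := by
      rw [hP]
      refine (card_erase_le).trans (le_of_eq ?_)
      rw [card_powerset, card_univ, Fintype.card_fin]
    exact_mod_cast this
  obtain ⟨Bad, hB1, hB2, hB3⟩ := hd N (by omega) q hq1 hq2 s y hs hf r (𝒯 ×ˢ (P ×ˢ Icc 1 K)) (by
      rw [card_product, card_product, Nat.card_Icc, Nat.add_sub_cancel]
      push_cast
      calc (𝒯.card : ℝ) * (P.card * K) ≤ Real.log N ^ A * (Real.log N ^ A * Real.log N ^ T) := by
            have h2 : (P.card : ℝ) * K ≤ Real.log N ^ A * Real.log N ^ T :=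
              mul_le_mul (hPc.trans hr) hK1 (Nat.cast_nonneg _) (by positivity)
            exact mul_le_mul h𝒯 h2 (by positivity) (by positivity)
        _ = Real.log N ^ (2 * A + T) := by ring)
    (fun _ => 1) (fun t => w t.1) (fun t => c t.1) (fun t => d t.1) (fun t => t.2.1) (fun t _ => (t.2.2 : ℤ)) (fun _ _ => 0) (by
      intro t ht
      rw [mem_product, mem_product, mem_Icc] at ht
      obtain ⟨v1, v2⟩ := hval t.1 ht.1
      refine ⟨le_rfl, v1, v2, ?_, fun l => ⟨by omega, ?_, ?_⟩⟩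
      · have h3 := ht.2.1
        rw [hP, mem_erase] at h3
        exact nonempty_iff_ne_empty.2 h3.1
      · rw [Int.natAbs_natCast]
        have : (t.2.2 : ℝ) ≤ K := by exact_mod_cast ht.2.2.2
        exact this.trans hK1
      · rw [Int.cast_zero, abs_zero]; positivity)
  refine ⟨Bad, hB1, hB2.trans ?_, fun i hi hbad t ht κ hκ1 hκ2 X hX ε hε => ?_⟩
  · apply div_le_div_of_nonneg_left (pow_nonneg (Nat.cast_nonneg _) _) (by positivity)
    exact pow_le_pow_right₀ hL1 (by omega)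
  obtain ⟨Wt, hWt⟩ : ∃ Wt : ℕ → ℝ, ∀ n, Wt n = w t n * (∏ j, ArithmeticFunction.vonMangoldt (c t j * n + d t j)) := ⟨_, fun _ => rfl⟩
  obtain ⟨x, hx⟩ : ∃ x : ℕ → Fin r → ℝ, ∀ n l, x n l = ((ArithmeticFunction.liouville (n + κ * (y (i l)).val) : ℤ) : ℝ) := ⟨_, fun _ _ => rfl⟩
  have hκK : κ ∈ Icc 1 K := by rw [mem_Icc, hK]; exact ⟨hκ1, Nat.le_floor hκ2⟩
  have hlz : ∀ n l, 1 ≤ n → lamZ ((1 * n : ℕ) + ((0 : ℤ) + (κ : ℤ) * ((y (i l)).val : ℕ))) = x n l := by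
    intro n l hn
    rw [hx]
    unfold lamZ
    have e1 : (((1 * n : ℕ) : ℤ) + ((0 : ℤ) + (κ : ℤ) * ((y (i l)).val : ℕ))) = ((n + κ * (y (i l)).val : ℕ) : ℤ) := by
      push_cast; ring
    rw [e1, if_pos (by omega), Int.toNat_natCast]
  have hcor : ∀ I ∈ P, |∑ n ∈ Icc 1 X, Wt n * ∏ l ∈ I, x n l| ≤ N / Real.log N ^ U := by
    intro I hI
    have h1 := hB3 i hi hbad (t, I, κ) (mem_product.2 ⟨ht, mem_product.2 ⟨hI, hκK⟩⟩) X (by
      rw [one_mul]
      calc (X : ℝ) ≤ N := by exact_mod_cast hX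
        _ ≤ N * Real.log N ^ T := le_mul_of_one_le_right (Nat.cast_nonneg _) hLT)
    refine le_trans (le_of_eq ?_) h1
    congr 1
    apply sum_congr rfl
    intro n hn
    rw [mem_Icc] at hn
    rw [hWt]
    congr 1
    apply prod_congr rfl
    intro l _
    exact (hlz n l hn.1).symm
  have hxs : ∀ n ∈ Icc 1 X, ∀ l, x n l = 1 ∨ x n l = -1 := by
    intro n hn l
    rw [mem_Icc] at hn
    rw [← hlz n l hn.1]
    apply lamZ_sq
    have : (0 : ℤ) ≤ (κ : ℤ) * ((y (i l)).val : ℕ) := by positivity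
    omega
  have hεs : ∀ l, (ε l : ℝ) = 1 ∨ (ε l : ℝ) = -1 := by
    intro l
    rcases hε l with h | h
    · left; rw [h]; norm_num
    · right; rw [h]; norm_num
  have hmain : ∑ n ∈ (Icc 1 X).filter (fun n => ∀ l, ArithmeticFunction.liouville (n + κ * (y (i l)).val) = ε l), Wt n -
      1 / 2 ^ r * ∑ n ∈ Icc 1 X, Wt n = 1 / 2 ^ r * ∑ I ∈ P, (∏ l ∈ I, (ε l : ℝ)) * ∑ n ∈ Icc 1 X, Wt n * ∏ l ∈ I, x n l := by
    have h1 : ∑ n ∈ (Icc 1 X).filter (fun n => ∀ l, ArithmeticFunction.liouville (n + κ * (y (i l)).val) = ε l), Wt n =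
        ∑ n ∈ Icc 1 X, Wt n * (1 / 2 ^ r * ∑ I ∈ (univ : Finset (Fin r)).powerset, ∏ l ∈ I, ((ε l : ℝ) * x n l)) := by
      rw [sum_filter]
      apply sum_congr rfl
      intro n hn
      rw [← pattern_ind (x n) (fun l => (ε l : ℝ)) (hxs n hn) hεs]
      by_cases h : ∀ l, ArithmeticFunction.liouville (n + κ * (y (i l)).val) = ε l
      · rw [if_pos h, if_pos (fun l => by rw [hx, h l]), mul_one]
      · rw [if_neg h, if_neg (fun h2 => h fun l => by
          have h3 := h2 l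
          rw [hx] at h3
          exact_mod_cast h3), mul_zero]
    have h2 : ∑ n ∈ Icc 1 X, Wt n * (1 / 2 ^ r * ∑ I ∈ (univ : Finset (Fin r)).powerset, ∏ l ∈ I, ((ε l : ℝ) * x n l)) =
        1 / 2 ^ r * ∑ I ∈ (univ : Finset (Fin r)).powerset, (∏ l ∈ I, (ε l : ℝ)) * ∑ n ∈ Icc 1 X, Wt n * ∏ l ∈ I, x n l := by
      simp only [mul_sum]
      rw [sum_comm]
      apply sum_congr rfl
      intro I _
      apply sum_congr rfl
      intro n _
      rw [prod_mul_distrib]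
      ring
    rw [h1, h2, hP, ← add_sum_erase _ _ (empty_mem_powerset (univ : Finset (Fin r)))]
    simp only [prod_empty, one_mul, mul_one]
    ring
  have hgoal : |∑ n ∈ (Icc 1 X).filter (fun n => ∀ l, ArithmeticFunction.liouville (n + κ * (y (i l)).val) = ε l), Wt n -
      1 / 2 ^ r * ∑ n ∈ Icc 1 X, Wt n| ≤ N / Real.log N ^ U := by
    rw [hmain, abs_mul, abs_of_pos (by positivity : (0 : ℝ) < 1 / 2 ^ r)]
    have h3 : |∑ I ∈ P, (∏ l ∈ I, (ε l : ℝ)) * ∑ n ∈ Icc 1 X, Wt n * ∏ l ∈ I, x n l| ≤ 2 ^ r * (N / Real.log N ^ U) := by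
      refine (abs_sum_le_sum_abs _ _).trans ?_
      have h4 : ∀ I ∈ P, |(∏ l ∈ I, (ε l : ℝ)) * ∑ n ∈ Icc 1 X, Wt n * ∏ l ∈ I, x n l| ≤ N / Real.log N ^ U := by
        intro I hI
        rw [abs_mul]
        have h5 : |∏ l ∈ I, (ε l : ℝ)| = 1 := by
          rw [abs_prod]
          apply prod_eq_one
          intro l _
          rcases hεs l with h | h <;> rw [h] <;> norm_num
        rw [h5, one_mul]
        exact hcor I hI
      refine (sum_le_sum h4).trans ?_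
      rw [sum_const, nsmul_eq_mul]
      exact mul_le_mul_of_nonneg_right hPc (by positivity)
    calc 1 / 2 ^ r * |∑ I ∈ P, (∏ l ∈ I, (ε l : ℝ)) * ∑ n ∈ Icc 1 X, Wt n * ∏ l ∈ I, x n l| ≤
        1 / 2 ^ r * (2 ^ r * (N / Real.log N ^ U)) := mul_le_mul_of_nonneg_left h3 (by positivity)
      _ = N / Real.log N ^ U := by field_simp
  simp only [hWt] at hgoal
  exact hgoal

end Pool.Agent.Run7.h794.MK
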