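import Mathlib
import Pool.Agent.Run7.h794.MK.Fin

set_option autoImplicit false

/-! Sparse windows, uniformly in the dilations. -/

namespace Pool.Agent.Run7.h794.MK

open Finset Filter
open Pool.Agent.N384.MQ (Flat dis dis_nonneg dis_sum_real ev_log_pow ev_log_ge)
open Pool.Agent.Run7.h931.MK (cnt aa ev_sub)

lemma ev_sp (T U V C W : ℕ) (ε : ℝ) (hε : 0 < ε) : ∀ᶠ N : ℕ in atTop,
    4000 ≤ Real.log N ∧ (4 : ℝ) * 2 ^ V ≤ Real.log N ∧ (16 : ℝ) * 2 ^ C ≤ Real.log N ∧ (2 : ℝ) ^ W ≤ Real.log N ∧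
    Real.log 6 + T * Real.log (Real.log N) ≤ ε * Real.log N ∧ 8 * Real.log N ^ (T + U) ≤ N := by
  filter_upwards [ev_log_ge 4000, ev_log_ge (4 * 2 ^ V), ev_log_ge (16 * 2 ^ C), ev_log_ge (2 ^ W),
    ev_sub T (Real.log 6) ε hε, ev_log_pow (T + U) 8] with N h1 h2 h3 h4 h5 h6
  exact ⟨h1, h2, h3, h4, h5, h6⟩

/-- **Sparse windows**, both signs, all dilations at once. -/
theorem sparse_all (h31 : S_T31) (T U : ℕ) (ε : ℝ) (hε : 0 < ε) : ∃ V C W N₀ : ℕ, ∀ N : ℕ, N₀ ≤ N →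
    ∀ (q : ℕ) [NeZero q], (N : ℝ) ^ (1 / 3 : ℝ) * Real.log N ^ C ≤ q → (q : ℝ) * Real.log N ^ W ≤ N →
    ∀ {ι : Type} (s : Finset ι) (y : ι → ZMod q), s.Nonempty → Flat q (1 / Real.log N ^ V) s y →
    ∃ E : Finset ℕ, (E.card : ℝ) ≤ N / Real.log N ^ U ∧ ∀ n : ℕ, 1 ≤ n → n ≤ N → n ∉ E →
      ∀ (j : ℕ) (κ c : ℤ), 1 ≤ j → (j : ℝ) ≤ Real.log N ^ T → κ ≠ 0 → |(κ : ℝ)| ≤ Real.log N ^ T →
        |(c : ℝ)| ≤ Real.log N ^ T → IsCoprime ((j * n + c : ℤ)) κ →
        |((s.filter fun i => ((j * n + c : ℤ) + κ * ((y i).val : ℕ)).toNat.Prime).card : ℝ) -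
          κ.natAbs / (Nat.totient κ.natAbs : ℝ) * (s.card / Real.log N)| ≤
          ε * (κ.natAbs / (Nat.totient κ.natAbs : ℝ) * (s.card / Real.log N)) := by
  classical
  obtain ⟨ε', hε'⟩ : ∃ ε' : ℝ, ε' = min ε 1 / 4 := ⟨_, rfl⟩
  have hε'0 : 0 < ε' := by rw [hε']; have : 0 < min ε 1 := lt_min hε one_pos; positivity
  have hε'1 : 4 * ε' ≤ 1 := by rw [hε']; linarith [min_le_right ε 1]
  have hε'2 : 4 * ε' ≤ ε := by rw [hε']; linarith [min_le_left ε 1]
  obtain ⟨V, C, W, N₁, haa⟩ := aa h31 (T + 1) (U + 4 * T + 1) ε' hε'0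
  obtain ⟨N₂, hev⟩ := eventually_atTop.1 (ev_sp T U V C W ε' hε'0)
  refine ⟨V + 1, C + T + 1, W + 1, N₁ + N₂ + 4, fun N hN q _ hq1 hq2 ι s y hs hf => ?_⟩
  obtain ⟨e1, e2, e3, e4, e5, e6⟩ := hev N (by omega)
  have hN0 : (0 : ℝ) < N := by exact_mod_cast (by omega : 0 < N)
  obtain ⟨L, hL⟩ : ∃ L, L = Real.log (N : ℝ) := ⟨_, rfl⟩
  rw [← hL] at e1 e2 e3 e4 e5 e6
  have hL0 : 0 < L := by linarith
  have hL1 : 1 ≤ L := by linarith
  have hLT : 1 ≤ L ^ T := one_le_pow₀ hL1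
  obtain ⟨M, hM⟩ : ∃ M : ℕ, M = ⌈L ^ T⌉₊ + 1 := ⟨_, rfl⟩
  have hM1 : L ^ T ≤ M := by rw [hM]; push_cast; linarith [Nat.le_ceil (L ^ T)]
  have hM2 : (M : ℝ) ≤ 3 * L ^ T := by
    rw [hM]; push_cast
    have := Nat.ceil_lt_add_one (show 0 ≤ L ^ T by positivity)
    linarith
  have hMpos : 1 ≤ M := by omega
  obtain ⟨N', hN'⟩ : ∃ N' : ℕ, N' = 2 * M * N := ⟨_, rfl⟩
  have hNN' : N ≤ N' := by rw [hN']; exact Nat.le_mul_of_pos_left _ (by omega)
  have hN'0 : (0 : ℝ) < N' := by exact_mod_cast (by omega : 0 < N')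
  obtain ⟨L', hL'⟩ : ∃ L', L' = Real.log (N' : ℝ) := ⟨_, rfl⟩
  have hLL' : L ≤ L' := by
    rw [hL, hL']; exact Real.log_le_log hN0 (by exact_mod_cast hNN')
  have hL'2 : L' ≤ (1 + ε') * L := by
    rw [hL', hN']; push_cast
    have hM0 : (0 : ℝ) < M := by linarith
    rw [Real.log_mul (by positivity) hN0.ne', ← hL]
    have h1 : Real.log (2 * (M : ℝ)) ≤ Real.log (6 * L ^ T) := Real.log_le_log (by positivity) (by linarith)
    have h2 : Real.log (6 * L ^ T) = Real.log 6 + T * Real.log L := by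
      rw [Real.log_mul (by norm_num) (by positivity), Real.log_pow]
    linarith
  have hL'3 : L' ≤ 2 * L := by nlinarith
  have hL'0 : 0 < L' := by linarith
  -- the law at the scale `N'`
  have hmsh : Msh V C 1 N' q (dis s y) := by
    apply msh_dis hs
    · rw [← hL']
      refine le_trans ?_ hq1
      rw [← hL, hN']
      push_cast
      have hM0 : (0 : ℝ) ≤ 2 * M := by positivity
      rw [Real.mul_rpow hM0 hN0.le, mul_comm ((2 * (M : ℝ)) ^ (1 / 3 : ℝ)), mul_assoc]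
      apply mul_le_mul_of_nonneg_left _ (by positivity)
      have h1 : (2 * (M : ℝ)) ^ (1 / 3 : ℝ) ≤ 2 * M := by
        have h2M : (1 : ℝ) ≤ 2 * M := by linarith
        calc (2 * (M : ℝ)) ^ (1 / 3 : ℝ) ≤ (2 * (M : ℝ)) ^ (1 : ℝ) := Real.rpow_le_rpow_of_exponent_le h2M (by norm_num)
          _ = _ := Real.rpow_one _
      calc (2 * (M : ℝ)) ^ (1 / 3 : ℝ) * L' ^ C ≤ (6 * L ^ T) * (2 * L) ^ C := by
            apply mul_le_mul (by linarith) (pow_le_pow_left₀ hL'0.le hL'3 C) (by positivity) (by positivity)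
        _ = (6 * 2 ^ C) * (L ^ C * L ^ T) := by rw [mul_pow]; ring
        _ ≤ L * (L ^ C * L ^ T) := by
            apply mul_le_mul_of_nonneg_right _ (by positivity)
            have : (0 : ℝ) < 2 ^ C := by positivity
            linarith
        _ = L ^ (C + T + 1) := by ring
    · have h1 : (q : ℝ) ≤ N := by
        refine le_trans ?_ hq2
        rw [← hL]
        exact le_mul_of_one_le_right (Nat.cast_nonneg _) (one_le_pow₀ hL1)
      have h2 : q ≤ N := by exact_mod_cast h1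
      omega
    · apply Flat.mono' hf
      rw [← hL, ← hL']
      apply one_div_le_one_div_of_le (by positivity)
      calc L' ^ V ≤ (2 * L) ^ V := pow_le_pow_left₀ hL'0.le hL'3 V
        _ = 2 ^ V * L ^ V := mul_pow _ _ _
        _ ≤ L * L ^ V := by
            apply mul_le_mul_of_nonneg_right _ (by positivity)
            have : (0 : ℝ) < 2 ^ V := by positivity
            linarith
        _ = L ^ (V + 1) := by ring
  have hqW : (q : ℝ) * L' ^ W ≤ N' := by
    rw [← hL] at hq2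
    calc (q : ℝ) * L' ^ W ≤ q * (2 * L) ^ W :=
          mul_le_mul_of_nonneg_left (pow_le_pow_left₀ hL'0.le hL'3 W) (Nat.cast_nonneg _)
      _ = q * (2 ^ W * L ^ W) := by rw [mul_pow]
      _ ≤ q * (L * L ^ W) := by
          apply mul_le_mul_of_nonneg_left _ (Nat.cast_nonneg _)
          exact mul_le_mul_of_nonneg_right e4 (by positivity)
      _ = q * L ^ (W + 1) := by ring
      _ ≤ N := hq2
      _ ≤ N' := by exact_mod_cast hNN'
  have haa' := haa N' (by omega) q (dis s y) hmsh (by rw [← hL']; exact hqW)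
  have hκE : ∀ κ : ℤ, ∃ E : Finset ℕ, κ ≠ 0 → |(κ : ℝ)| ≤ M → (E.card : ℝ) ≤ N' / L ^ (U + 4 * T + 1) ∧
      ∀ n : ℕ, 1 ≤ n → n ≤ N' → n ∉ E → IsCoprime (n : ℤ) κ →
        |cnt q (dis s y) κ 0 n - κ.natAbs / (Nat.totient κ.natAbs : ℝ) / L'| ≤
          ε' * (κ.natAbs / (Nat.totient κ.natAbs : ℝ) / L') := by
    intro κ
    by_cases h : κ ≠ 0 ∧ |(κ : ℝ)| ≤ M
    · have hnat : ((κ.natAbs : ℕ) : ℝ) = |(κ : ℝ)| := by rw [Nat.cast_natAbs]; push_cast; rfl
      obtain ⟨E, hE1, hE2⟩ := haa' κ h.1 (by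
        rw [← hL', hnat]
        calc |(κ : ℝ)| ≤ M := h.2
          _ ≤ 3 * L ^ T := hM2
          _ ≤ L * L ^ T := mul_le_mul_of_nonneg_right (by linarith) (by positivity)
          _ = L ^ (T + 1) := by ring
          _ ≤ L' ^ (T + 1) := pow_le_pow_left₀ hL0.le hLL' _) 0 (by
        rw [← hL']; simp; positivity)
      refine ⟨E, fun _ _ => ⟨?_, fun n hn1 hn2 hnE hc => ?_⟩⟩
      · rw [← hL'] at hE1
        refine hE1.trans ?_
        exact div_le_div_of_nonneg_left hN'0.le (by positivity) (pow_le_pow_left₀ hL0.le hLL' _)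
      · have h3 := hE2 n hn1 hn2 hnE (by omega) (by rwa [add_zero])
        rw [← hL'] at h3
        exact h3
    · exact ⟨∅, fun h1 h2 => absurd ⟨h1, h2⟩ h⟩
  choose Eκ hEκ using hκE
  obtain ⟨Idx, hIdx⟩ : ∃ Idx : Finset (ℕ × ℤ × ℤ), Idx = (Icc 1 M) ×ˢ ((Icc (-(M : ℤ)) M).filter (fun κ => κ ≠ 0)) ×ˢ
    (Icc (-(M : ℤ)) M) := ⟨_, rfl⟩
  obtain ⟨Bad, hBad⟩ : ∃ Bad : ℕ × ℤ × ℤ → Finset ℕ, Bad = fun t => (Icc 1 N).filter (fun n : ℕ =>
    M < n ∧ ((t.1 * n + t.2.2 : ℤ)).toNat ∈ Eκ t.2.1) := ⟨_, rfl⟩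
  obtain ⟨E, hE⟩ : ∃ E : Finset ℕ, E = Icc 1 M ∪ Idx.biUnion Bad := ⟨_, rfl⟩
  have hIdxc : (Idx.card : ℝ) ≤ 9 * M ^ 3 := by
    rw [hIdx, card_product, card_product, Nat.card_Icc, Nat.add_sub_cancel]
    have h1 : ((Icc (-(M : ℤ)) M).filter (fun κ => κ ≠ 0)).card ≤ 2 * M + 1 := by
      refine (card_filter_le _ _).trans (le_of_eq ?_)
      rw [Int.card_Icc]; omega
    have h2 : (Icc (-(M : ℤ)) M).card = 2 * M + 1 := by rw [Int.card_Icc]; omega
    rw [h2]
    have h3 : (((Icc (-(M : ℤ)) M).filter (fun κ => κ ≠ 0)).card : ℝ) ≤ 2 * M + 1 := by exact_mod_cast h1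
    push_cast
    have hM0 : (1 : ℝ) ≤ M := by exact_mod_cast hMpos
    calc (M : ℝ) * ((((Icc (-(M : ℤ)) M).filter (fun κ => κ ≠ 0)).card : ℝ) * (2 * M + 1)) ≤
        M * ((3 * M) * (3 * M)) := by
          apply mul_le_mul_of_nonneg_left _ (by linarith)
          apply mul_le_mul (by linarith) (by linarith) (by positivity) (by positivity)
      _ = 9 * M ^ 3 := by ring
  have hbadc : ∀ t ∈ Idx, ((Bad t).card : ℝ) ≤ N' / L ^ (U + 4 * T + 1) := by
    intro t ht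
    rw [hIdx, mem_product, mem_product, mem_Icc, mem_filter, mem_Icc, mem_Icc] at ht
    obtain ⟨⟨t1, t2⟩, ⟨⟨t3, t4⟩, t5⟩, t6, t7⟩ := ht
    have hκM : |(t.2.1 : ℝ)| ≤ M := by
      rw [abs_le]
      exact ⟨by exact_mod_cast t3, by exact_mod_cast t4⟩
    refine le_trans ?_ (hEκ t.2.1 t5 hκM).1
    have h1 : (Bad t).card ≤ (Eκ t.2.1).card := by
      rw [hBad]
      apply card_le_card_of_injOn (fun n : ℕ => ((t.1 * n + t.2.2 : ℤ)).toNat)
      · intro n hn
        rw [mem_coe, mem_filter] at hn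
        exact hn.2.2
      · intro a ha b hb hab
        rw [mem_coe, mem_filter] at ha hb
        simp only at hab
        have ha2 := ha.2.1
        have hb2 := hb.2.1
        have p1 : (a : ℤ) ≤ t.1 * a := by
          have : (1 : ℤ) ≤ t.1 := by exact_mod_cast t1
          nlinarith
        have p2 : (b : ℤ) ≤ t.1 * b := by
          have : (1 : ℤ) ≤ t.1 := by exact_mod_cast t1
          nlinarith
        have p3 : (t.1 * a + t.2.2 : ℤ) = t.1 * b + t.2.2 := by omega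
        have p4 : (t.1 : ℤ) * a = t.1 * b := by omega
        have p5 : (t.1 : ℤ) ≠ 0 := by omega
        exact_mod_cast mul_left_cancel₀ p5 p4
    exact_mod_cast h1
  refine ⟨E, ?_, fun n hn1 hnN hnE j κ c hj hjT hκ hκT hcT hcop => ?_⟩
  · rw [← hL]
    have h1 : (E.card : ℝ) ≤ M + 9 * M ^ 3 * (N' / L ^ (U + 4 * T + 1)) := by
      have h2 : (E.card : ℝ) ≤ (Icc 1 M).card + (Idx.biUnion Bad).card := by
        rw [hE]; exact_mod_cast card_union_le _ _
      have h3 : ((Idx.biUnion Bad).card : ℝ) ≤ ∑ t ∈ Idx, ((Bad t).card : ℝ) := by exact_mod_cast card_biUnion_le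
      have h4 : ∑ t ∈ Idx, ((Bad t).card : ℝ) ≤ Idx.card * (N' / L ^ (U + 4 * T + 1)) := by
        refine (sum_le_sum hbadc).trans (le_of_eq ?_)
        rw [sum_const, nsmul_eq_mul]
      rw [Nat.card_Icc, Nat.add_sub_cancel] at h2
      have h5 : (Idx.card : ℝ) * (N' / L ^ (U + 4 * T + 1)) ≤ 9 * M ^ 3 * (N' / L ^ (U + 4 * T + 1)) :=
        mul_le_mul_of_nonneg_right hIdxc (by positivity)
      linarith
    refine h1.trans ?_
    have hM0 : (0 : ℝ) ≤ M := Nat.cast_nonneg _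
    have h6 : (M : ℝ) ≤ N / L ^ U / 2 := by
      rw [le_div_iff₀ (by norm_num), le_div_iff₀ (by positivity)]
      calc (M : ℝ) * 2 * L ^ U ≤ (3 * L ^ T) * 2 * L ^ U := by gcongr
        _ = 6 * L ^ (T + U) := by ring
        _ ≤ 8 * L ^ (T + U) := by
            have : (0 : ℝ) ≤ L ^ (T + U) := by positivity
            linarith
        _ ≤ N := e6
    have h7 : 9 * (M : ℝ) ^ 3 * (N' / L ^ (U + 4 * T + 1)) ≤ N / L ^ U / 2 := by
      rw [hN']; push_cast
      calc 9 * (M : ℝ) ^ 3 * (2 * M * N / L ^ (U + 4 * T + 1)) = 18 * M ^ 4 * N / L ^ (U + 4 * T + 1) := by ring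
        _ ≤ 18 * (3 * L ^ T) ^ 4 * N / L ^ (U + 4 * T + 1) := by gcongr
        _ = (N / L ^ U) * (1458 / L) := by
            rw [pow_add, pow_add, pow_mul']
            field_simp
            ring
        _ ≤ (N / L ^ U) * (1 / 2) := by
            apply mul_le_mul_of_nonneg_left _ (by positivity)
            rw [div_le_div_iff₀ hL0 (by norm_num)]
            linarith
        _ = N / L ^ U / 2 := by ring
    linarith
  · rw [← hL] at hjT hκT hcT ⊢
    have hnM : M < n := by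
      by_contra hcon
      apply hnE
      rw [hE, mem_union]
      left
      rw [mem_Icc]
      omega
    have hjM : j ≤ M := by
      have : (j : ℝ) ≤ M := hjT.trans hM1
      exact_mod_cast this
    have hκM : |(κ : ℝ)| ≤ M := hκT.trans hM1
    have hcM : |(c : ℝ)| ≤ M := hcT.trans hM1
    have hκM' : -(M : ℤ) ≤ κ ∧ κ ≤ M := by
      rw [abs_le] at hκM
      exact ⟨by exact_mod_cast hκM.1, by exact_mod_cast hκM.2⟩
    have hcM' : -(M : ℤ) ≤ c ∧ c ≤ M := by
      rw [abs_le] at hcM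
      exact ⟨by exact_mod_cast hcM.1, by exact_mod_cast hcM.2⟩
    have hjn : (n : ℤ) ≤ j * n := by
      have : (1 : ℤ) ≤ j := by exact_mod_cast hj
      nlinarith
    obtain ⟨n', hn'⟩ : ∃ n' : ℕ, n' = ((j * n + c : ℤ)).toNat := ⟨_, rfl⟩
    have hn'2 : (n' : ℤ) = j * n + c := by
      rw [hn']; exact Int.toNat_of_nonneg (by omega)
    have hnotE : n' ∉ Eκ κ := by
      intro h
      apply hnE
      rw [hE, mem_union]
      right
      rw [mem_biUnion]
      refine ⟨(j, κ, c), ?_, ?_⟩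
      · rw [hIdx, mem_product, mem_product, mem_Icc, mem_filter, mem_Icc, mem_Icc]
        exact ⟨⟨hj, hjM⟩, ⟨hκM', hκ⟩, hcM'⟩
      · rw [hBad]
        simp only [mem_filter, mem_Icc]
        rw [hn'] at h
        exact ⟨⟨hn1, hnN⟩, hnM, h⟩
    have hn'N : n' ≤ N' := by
      have h1 : (j : ℤ) * n ≤ M * N := by
        have := Nat.mul_le_mul hjM hnN
        exact_mod_cast this
      have h2 : (M : ℤ) ≤ M * N := by
        have : (1 : ℤ) ≤ N := by exact_mod_cast (by omega : 1 ≤ N)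
        have hM0 : (0 : ℤ) ≤ M := by omega
        nlinarith
      have h3 : (N' : ℤ) = 2 * (M * N) := by rw [hN']; push_cast; ring
      omega
    have hfin := (hEκ κ hκ hκM).2 n' (by omega) hn'N hnotE (by rw [hn'2]; exact hcop)
    obtain ⟨P, hP⟩ : ∃ P : ℝ, P = κ.natAbs / (Nat.totient κ.natAbs : ℝ) := ⟨_, rfl⟩
    rw [← hP] at hfin ⊢
    have hP0 : 0 ≤ P := by rw [hP]; positivity
    have hcnt : cnt q (dis s y) κ 0 n' =
        ((s.filter fun i => ((j * n + c : ℤ) + κ * ((y i).val : ℕ)).toNat.Prime).card : ℝ) / s.card := by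
      unfold cnt
      have h3 := dis_sum_real s y q le_rfl (fun v => if ((n' : ℤ) + (0 + κ * (v : ℕ))).toNat.Prime then (1 : ℝ) else 0)
      rw [h3]
      congr 1
      rw [card_filter]
      push_cast
      apply sum_congr rfl
      intro i _
      rw [hn'2, zero_add]
    rw [hcnt] at hfin
    have hs0 : (0 : ℝ) < s.card := by exact_mod_cast hs.card_pos
    obtain ⟨X, hX⟩ : ∃ X : ℝ, X = ((s.filter fun i => ((j * n + c : ℤ) + κ * ((y i).val : ℕ)).toNat.Prime).card : ℝ) := ⟨_, rfl⟩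
    rw [← hX] at hfin ⊢
    -- `1 / L'` and `1 / L`
    have hinv1 : 1 / L' ≤ 1 / L := one_div_le_one_div_of_le hL0 hLL'
    have hinv2 : (1 - ε') * (1 / L) ≤ 1 / L' := by
      rw [mul_one_div, div_le_div_iff₀ hL0 hL'0]
      nlinarith
    have h1 : |X / s.card - P / L| ≤ 2 * ε' * (P / L) := by
      have h2 : |P / L' - P / L| ≤ ε' * (P / L) := by
        rw [abs_le]
        have a1 : P / L' = P * (1 / L') := by ring
        have a2 : P / L = P * (1 / L) := by ring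
        rw [a1, a2]
        constructor
        · nlinarith [mul_le_mul_of_nonneg_left hinv2 hP0]
        · have := mul_le_mul_of_nonneg_left hinv1 hP0
          have h3 : 0 ≤ ε' * (P * (1 / L)) := by positivity
          linarith
      have h4 : ε' * (P / L') ≤ ε' * (P / L) := by
        apply mul_le_mul_of_nonneg_left _ hε'0.le
        exact div_le_div_of_nonneg_left hP0 hL0 hLL'
      calc |X / s.card - P / L| ≤ |X / s.card - P / L'| + |P / L' - P / L| := abs_sub_le _ _ _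
        _ ≤ ε' * (P / L) + ε' * (P / L) := add_le_add (hfin.trans h4) h2
        _ = 2 * ε' * (P / L) := by ring
    have e : X - P * (s.card / L) = s.card * (X / s.card - P / L) := by field_simp
    rw [e, abs_mul, abs_of_pos hs0]
    calc (s.card : ℝ) * |X / s.card - P / L| ≤ s.card * (2 * ε' * (P / L)) := mul_le_mul_of_nonneg_left h1 hs0.le
      _ = 2 * ε' * (P * (s.card / L)) := by ring
      _ ≤ ε * (P * (s.card / L)) := by
          apply mul_le_mul_of_nonneg_right (by linarith) (by positivity)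

end Pool.Agent.Run7.h794.MK
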