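import Mathlib
import Pool.Agent.Run7.h794.MK.SupR
import Pool.Agent.Run7.h794.MK.Spa

/-! Project MK (helper794): primes along random sequences of members of short flat families (Chernoff's inequality). -/

set_option autoImplicit false

namespace Pool.Agent.Run7.h794.MK

open Finset Filter
open Pool.Agent.N384.MQ (Flat ev_log_pow ev_log_ge)

/-- Chernoff's inequality for the number of hits of the first `m` members of a sequence -/
lemma chern_hits {ι : Type} [DecidableEq ι] (s : Finset ι) (hs : s.Nonempty) (M m : ℕ) (hm : m ≤ M) (X : ι → Prop)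
    [DecidablePred X] (P ε : ℝ) (hP : 0 ≤ P) (hε : 0 < ε) (hε1 : ε ≤ 1)
    (hp : |((s.filter X).card : ℝ) - s.card * P| ≤ ε / 2 * (s.card * P)) :
    (((Fintype.piFinset (fun _ : Fin M => s)).filter (fun i => ε * (m * P) <
      |(((univ : Finset (Fin M)).filter (fun l : Fin M => (l : ℕ) < m ∧ X (i l))).card : ℝ) - m * P|)).card : ℝ) ≤
      (s.card : ℝ) ^ M * (2 * Real.exp (-(ε ^ 2 / 32 * (m * P)))) := by
  classical
  have hs0 : (0 : ℝ) < s.card := by exact_mod_cast hs.card_pos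
  obtain ⟨p, hpd⟩ : ∃ p : ℝ, p = ((s.filter X).card : ℝ) / s.card := ⟨_, rfl⟩
  have hps : ((s.filter X).card : ℝ) = s.card * p := by rw [hpd]; field_simp
  rw [hps, ← mul_sub, abs_mul, abs_of_pos hs0] at hp
  have hp' : |p - P| ≤ ε / 2 * P := by
    have : (s.card : ℝ) * |p - P| ≤ s.card * (ε / 2 * P) := by linarith
    exact le_of_mul_le_mul_left this hs0
  rw [abs_le] at hp'
  have hm0 : (0 : ℝ) ≤ m := Nat.cast_nonneg m
  -- the exponential moments
  have hexp : ∀ t : ℝ, ∀ l : Fin M, ∑ b ∈ s, Real.exp (if (l : ℕ) < m then (if X b then t else 0) else 0) ≤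
      s.card * Real.exp (if (l : ℕ) < m then p * (Real.exp t - 1) else 0) := by
    intro t l
    by_cases hl : (l : ℕ) < m
    · simp only [if_pos hl]
      have h1 : ∀ b ∈ s, Real.exp (if X b then t else 0) = 1 + (if X b then (Real.exp t - 1) else 0) := by
        intro b _
        split_ifs
        · ring
        · simp
      rw [sum_congr rfl h1, sum_add_distrib, sum_const, nsmul_eq_mul, mul_one, ← sum_filter, sum_const, nsmul_eq_mul, hps]
      calc (s.card : ℝ) + s.card * p * (Real.exp t - 1) = s.card * (p * (Real.exp t - 1) + 1) := by ring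
        _ ≤ s.card * Real.exp (p * (Real.exp t - 1)) := mul_le_mul_of_nonneg_left (Real.add_one_le_exp _) hs0.le
    · simp only [if_neg hl]
      simp
  have hsumρ : ∀ t : ℝ, ∑ l : Fin M, (if (l : ℕ) < m then p * (Real.exp t - 1) else 0) = m * (p * (Real.exp t - 1)) := by
    intro t
    rw [← sum_filter, sum_const, card_lt hm, nsmul_eq_mul]
  have hsumw : ∀ (t : ℝ) (i : Fin M → ι), ∑ l : Fin M, (if (l : ℕ) < m then (if X (i l) then t else 0) else 0) =
      t * (((univ : Finset (Fin M)).filter (fun l : Fin M => (l : ℕ) < m ∧ X (i l))).card : ℝ) := by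
    intro t i
    have : ∀ l : Fin M, (if (l : ℕ) < m then (if X (i l) then t else 0) else 0) =
        (if (l : ℕ) < m ∧ X (i l) then t else 0) := by
      intro l
      by_cases h1 : (l : ℕ) < m <;> by_cases h2 : X (i l) <;> simp [h1, h2]
    rw [sum_congr rfl fun l _ => this l, ← sum_filter, sum_const, nsmul_eq_mul, mul_comm]
  obtain ⟨t, ht⟩ : ∃ t : ℝ, t = ε / 4 := ⟨_, rfl⟩
  have ht0 : 0 < t := by rw [ht]; positivity
  have ht1 : t ≤ 1 / 4 := by rw [ht]; linarith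
  have hexp1 : Real.exp t ≤ 1 + t + t ^ 2 := by
    have h1 := Real.abs_exp_sub_one_sub_id_le (x := t) (by rw [abs_of_pos ht0]; linarith)
    rw [abs_le] at h1
    linarith [h1.2]
  have hexp2 : Real.exp (-t) ≤ 1 - t + t ^ 2 := by
    have h1 := Real.abs_exp_sub_one_sub_id_le (x := -t) (by rw [abs_neg, abs_of_pos ht0]; linarith)
    rw [abs_le] at h1
    have : (-t) ^ 2 = t ^ 2 := by ring
    rw [this] at h1
    linarith [h1.2]
  have hmP : 0 ≤ m * P := by positivity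
  -- the two tails
  have hup := chernoff s M (fun l b => if (l : ℕ) < m then (if X b then t else 0) else 0)
    (fun l => if (l : ℕ) < m then p * (Real.exp t - 1) else 0) (t * ((1 + ε) * (m * P))) (hexp t)
  have hlo := chernoff s M (fun l b => if (l : ℕ) < m then (if X b then (-t) else 0) else 0)
    (fun l => if (l : ℕ) < m then p * (Real.exp (-t) - 1) else 0) (-(t * ((1 - ε) * (m * P)))) (hexp (-t))
  rw [hsumρ] at hup hlo
  have hP0 : 0 ≤ p := by rw [hpd]; exact div_nonneg (Nat.cast_nonneg _) (Nat.cast_nonneg _)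
  have hup2 : m * (p * (Real.exp t - 1)) - t * ((1 + ε) * (m * P)) ≤ -(ε ^ 2 / 32 * (m * P)) := by
    have h1 : p * (Real.exp t - 1) ≤ ((1 + ε / 2) * P) * (t + t ^ 2) := by
      apply mul_le_mul (by linarith [hp'.2]) (by linarith) _ (by positivity)
      have := Real.add_one_le_exp t
      linarith
    have h2 : m * (p * (Real.exp t - 1)) ≤ m * (((1 + ε / 2) * P) * (t + t ^ 2)) := mul_le_mul_of_nonneg_left h1 hm0
    have h3 : m * (((1 + ε / 2) * P) * (t + t ^ 2)) - t * ((1 + ε) * (m * P)) =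
        (m * P) * (t * (-(ε / 2) + t * (1 + ε / 2))) := by ring
    have h4 : t * (-(ε / 2) + t * (1 + ε / 2)) ≤ -(ε ^ 2 / 32) := by
      rw [ht]; nlinarith
    have h5 : (m * P) * (t * (-(ε / 2) + t * (1 + ε / 2))) ≤ (m * P) * (-(ε ^ 2 / 32)) := mul_le_mul_of_nonneg_left h4 hmP
    linarith
  have hlo2 : m * (p * (Real.exp (-t) - 1)) - -(t * ((1 - ε) * (m * P))) ≤ -(ε ^ 2 / 32 * (m * P)) := by
    have h1 : p * (Real.exp (-t) - 1) ≤ p * (-t + t ^ 2) := mul_le_mul_of_nonneg_left (by linarith) hP0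
    have h1' : p * (-t + t ^ 2) ≤ ((1 - ε / 2) * P) * (-t + t ^ 2) := by
      have h6 : -t + t ^ 2 ≤ 0 := by nlinarith
      have h7 : (1 - ε / 2) * P ≤ p := by linarith [hp'.1]
      exact mul_le_mul_of_nonpos_right h7 h6
    have h2 : m * (p * (Real.exp (-t) - 1)) ≤ m * (((1 - ε / 2) * P) * (-t + t ^ 2)) :=
      mul_le_mul_of_nonneg_left (h1.trans h1') hm0
    have h3 : m * (((1 - ε / 2) * P) * (-t + t ^ 2)) - -(t * ((1 - ε) * (m * P))) =
        (m * P) * (t * (-(ε / 2) + t * (1 - ε / 2))) := by ring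
    have h4 : t * (-(ε / 2) + t * (1 - ε / 2)) ≤ -(ε ^ 2 / 32) := by
      rw [ht]; nlinarith
    have h5 : (m * P) * (t * (-(ε / 2) + t * (1 - ε / 2))) ≤ (m * P) * (-(ε ^ 2 / 32)) := mul_le_mul_of_nonneg_left h4 hmP
    linarith
  have hsub : (Fintype.piFinset (fun _ : Fin M => s)).filter (fun i => ε * (m * P) <
      |(((univ : Finset (Fin M)).filter (fun l : Fin M => (l : ℕ) < m ∧ X (i l))).card : ℝ) - m * P|) ⊆
      (Fintype.piFinset (fun _ : Fin M => s)).filter (fun i => t * ((1 + ε) * (m * P)) ≤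
        ∑ l : Fin M, (if (l : ℕ) < m then (if X (i l) then t else 0) else 0)) ∪
      (Fintype.piFinset (fun _ : Fin M => s)).filter (fun i => -(t * ((1 - ε) * (m * P))) ≤
        ∑ l : Fin M, (if (l : ℕ) < m then (if X (i l) then (-t) else 0) else 0)) := by
    intro i hi
    rw [mem_filter] at hi
    rw [mem_union, mem_filter, mem_filter, hsumw, hsumw]
    rcases lt_abs.1 hi.2 with h | h
    · left
      refine ⟨hi.1, mul_le_mul_of_nonneg_left ?_ ht0.le⟩
      linarith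
    · right
      refine ⟨hi.1, ?_⟩
      have : t * (((univ : Finset (Fin M)).filter (fun l : Fin M => (l : ℕ) < m ∧ X (i l))).card : ℝ) ≤ t * ((1 - ε) * (m * P)) :=
        mul_le_mul_of_nonneg_left (by linarith) ht0.le
      linarith
  have hc : (((Fintype.piFinset (fun _ : Fin M => s)).filter (fun i => ε * (m * P) <
      |(((univ : Finset (Fin M)).filter (fun l : Fin M => (l : ℕ) < m ∧ X (i l))).card : ℝ) - m * P|)).card : ℝ) ≤
      (((Fintype.piFinset (fun _ : Fin M => s)).filter (fun i => t * ((1 + ε) * (m * P)) ≤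
        ∑ l : Fin M, (if (l : ℕ) < m then (if X (i l) then t else 0) else 0))).card : ℝ) +
      (((Fintype.piFinset (fun _ : Fin M => s)).filter (fun i => -(t * ((1 - ε) * (m * P))) ≤
        ∑ l : Fin M, (if (l : ℕ) < m then (if X (i l) then (-t) else 0) else 0))).card : ℝ) := by
    exact_mod_cast (card_le_card hsub).trans (card_union_le _ _)
  have hA : (s.card : ℝ) ^ M * Real.exp (m * (p * (Real.exp t - 1)) - t * ((1 + ε) * (m * P))) ≤
      (s.card : ℝ) ^ M * Real.exp (-(ε ^ 2 / 32 * (m * P))) :=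
    mul_le_mul_of_nonneg_left (Real.exp_le_exp.2 hup2) (pow_nonneg (Nat.cast_nonneg _) _)
  have hB : (s.card : ℝ) ^ M * Real.exp (m * (p * (Real.exp (-t) - 1)) - -(t * ((1 - ε) * (m * P)))) ≤
      (s.card : ℝ) ^ M * Real.exp (-(ε ^ 2 / 32 * (m * P))) :=
    mul_le_mul_of_nonneg_left (Real.exp_le_exp.2 hlo2) (pow_nonneg (Nat.cast_nonneg _) _)
  calc _ ≤ _ := hc
    _ ≤ (s.card : ℝ) ^ M * Real.exp (-(ε ^ 2 / 32 * (m * P))) + (s.card : ℝ) ^ M * Real.exp (-(ε ^ 2 / 32 * (m * P))) :=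
        add_le_add (hup.trans hA) (hlo.trans hB)
    _ = _ := by ring

/-- the number of primes among the first `m` members of the window -/
noncomputable def hitsP {ι : Type} {q M : ℕ} (y : ι → ZMod q) (i : Fin M → ι) (m : ℕ) (κ b : ℤ) : ℕ :=
  ((univ : Finset (Fin M)).filter (fun l : Fin M => (l : ℕ) < m ∧ (b + κ * ((y (i l)).val : ℕ)).toNat.Prime)).card

lemma dens_ge (κ : ℤ) (hκ : κ ≠ 0) : 1 ≤ (κ.natAbs : ℝ) / (Nat.totient κ.natAbs : ℝ) := by
  have h1 : 0 < Nat.totient κ.natAbs := Nat.totient_pos.2 (Int.natAbs_pos.2 hκ)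
  rw [one_le_div (by exact_mod_cast h1)]
  exact_mod_cast Nat.totient_le _

lemma ev_seq (ε : ℝ) : ∃ N₀ : ℕ, ∀ N : ℕ, N₀ ≤ N → 100 ≤ Real.log N ∧ 2304 / ε ^ 2 ≤ Real.log N := by
  obtain ⟨n2, h2⟩ := eventually_atTop.1 ((ev_log_ge 100).and (ev_log_ge (2304 / ε ^ 2)))
  exact ⟨n2, fun N hN => h2 N hN⟩

/-- **Primes along random sequences**, all lengths and all dilations. -/
theorem prime_seq (h31 : S_T31) (T A : ℕ) (ε : ℝ) (hε : 0 < ε) (hε1 : ε ≤ 1) :
    ∃ V C W N₀ : ℕ, ∃ K : ℝ, 0 < K ∧ ∀ N : ℕ, N₀ ≤ N →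
    ∀ (q : ℕ) [NeZero q], (N : ℝ) ^ (1 / 3 : ℝ) * Real.log N ^ C ≤ q → (q : ℝ) * Real.log N ^ W ≤ N →
    ∀ {ι : Type} [DecidableEq ι] (s : Finset ι) (y : ι → ZMod q), s.Nonempty → Flat q (1 / Real.log N ^ V) s y →
    ∀ M : ℕ, ∃ Bad ⊆ Fintype.piFinset (fun _ : Fin M => s), (Bad.card : ℝ) ≤ (s.card : ℝ) ^ M / Real.log N ^ A ∧
      ∀ i ∈ Fintype.piFinset (fun _ : Fin M => s), i ∉ Bad →
      ∃ E ⊆ Icc 1 N, (E.card : ℝ) ≤ N / Real.log N ^ A ∧ ∀ n ∈ Icc 1 N, n ∉ E →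
      ∀ (j : ℕ) (κ c : ℤ), 1 ≤ j → (j : ℝ) ≤ Real.log N ^ T → κ ≠ 0 → |(κ : ℝ)| ≤ Real.log N ^ T →
        |(c : ℝ)| ≤ Real.log N ^ T → IsCoprime ((j * n + c : ℤ)) κ →
      ∀ m : ℕ, K * (Real.log N * Real.log (Real.log N)) ≤ m → m ≤ M →
      |(hitsP y i m κ (j * n + c : ℤ) : ℝ) - κ.natAbs / (Nat.totient κ.natAbs : ℝ) * (m / Real.log N)| ≤
        ε * (κ.natAbs / (Nat.totient κ.natAbs : ℝ) * (m / Real.log N)) := by
  classical
  obtain ⟨R, hR⟩ : ∃ R, R = 3 * T + 2 * A + 3 := ⟨_, rfl⟩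
  obtain ⟨V, C, W, N₁, hsp⟩ := sparse_all h31 T (A + 1) (ε / 2) (by positivity)
  obtain ⟨N₂, hev⟩ := ev_seq ε
  obtain ⟨K, hKd⟩ : ∃ K : ℝ, K = 32 * R / ε ^ 2 := ⟨_, rfl⟩
  have hR0 : (0 : ℝ) < R := by rw [hR]; push_cast; positivity
  refine ⟨V, C, W, N₁ + N₂ + 3, K, by rw [hKd]; positivity, fun N hN q _ hq1 hq2 ι _ s y hs hf M => ?_⟩
  obtain ⟨a1, a2⟩ := hev N (by omega)
  have hN0 : (0 : ℝ) < N := by exact_mod_cast (by omega : 0 < N)
  have hs0 : (0 : ℝ) < s.card := by exact_mod_cast hs.card_pos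
  obtain ⟨E0, hE01, hE02⟩ := hsp N (by omega) q hq1 hq2 s y hs hf
  obtain ⟨L, hL⟩ : ∃ L, L = Real.log (N : ℝ) := ⟨_, rfl⟩
  rw [← hL] at a1 a2 hE01 hE02 ⊢
  have hL0 : 0 < L := by linarith
  have hL1 : 1 ≤ L := by linarith
  have hlogL : 0 ≤ Real.log L := Real.log_nonneg hL1
  obtain ⟨K0, hK0⟩ : ∃ K0 : ℕ, K0 = ⌊L ^ T⌋₊ := ⟨_, rfl⟩
  have hK01 : (K0 : ℝ) ≤ L ^ T := by rw [hK0]; exact Nat.floor_le (by positivity)
  obtain ⟨m0, hm0⟩ : ∃ m0 : ℕ, m0 = ⌈K * (L * Real.log L)⌉₊ := ⟨_, rfl⟩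
  have hm01 : K * (L * Real.log L) ≤ m0 := by rw [hm0]; exact Nat.le_ceil _
  obtain ⟨a, ha⟩ : ∃ a : ℝ, a = ε ^ 2 / 32 / L := ⟨_, rfl⟩
  have ha0 : 0 < a := by rw [ha]; positivity
  have ha1 : a ≤ 1 := by
    rw [ha, div_div, div_le_one (by positivity)]
    nlinarith
  -- the indices
  obtain ⟨Z, hZ⟩ : ∃ Z : Finset (ℕ × (ℤ × ℤ)), Z = Icc 1 K0 ×ˢ (Icc (-(K0 : ℤ)) K0 ×ˢ Icc (-(K0 : ℤ)) K0) := ⟨_, rfl⟩
  have hZc : (Z.card : ℝ) ≤ 9 * L ^ (3 * T) := by
    have h1 : Z.card = K0 * ((2 * K0 + 1) * (2 * K0 + 1)) := by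
      rw [hZ, card_product, card_product, Nat.card_Icc, Int.card_Icc]
      have : ((K0 : ℤ) + 1 - -(K0 : ℤ)).toNat = 2 * K0 + 1 := by omega
      rw [this]
      simp
    rw [h1]
    push_cast
    have hLT : 1 ≤ L ^ T := one_le_pow₀ hL1
    calc (K0 : ℝ) * ((2 * K0 + 1) * (2 * K0 + 1)) ≤ L ^ T * ((2 * L ^ T + L ^ T) * (2 * L ^ T + L ^ T)) := by gcongr
      _ = 9 * L ^ (3 * T) := by ring
  -- the events
  obtain ⟨ev, hev2⟩ : ∃ ev : ℕ → (ℕ × (ℤ × ℤ)) → ℕ → (Fin M → ι) → Prop, ∀ n z m i, ev n z m i ↔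
      (z.2.1 ≠ 0 ∧ IsCoprime ((z.1 * n + z.2.2 : ℤ)) z.2.1 ∧
      ε * (m * (z.2.1.natAbs / (Nat.totient z.2.1.natAbs : ℝ) / L)) <
        |(hitsP y i m z.2.1 (z.1 * n + z.2.2 : ℤ) : ℝ) - m * (z.2.1.natAbs / (Nat.totient z.2.1.natAbs : ℝ) / L)|) :=
    ⟨_, fun _ _ _ _ => Iff.rfl⟩
  have hone : ∀ n ∈ Icc 1 N \ E0, ∀ z ∈ Z, ∀ m ∈ Ico m0 (M + 1),
      (((Fintype.piFinset (fun _ : Fin M => s)).filter (fun i => ev n z m i)).card : ℝ) ≤
        (s.card : ℝ) ^ M * (2 * Real.exp (-a) ^ m) := by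
    intro n hn z hz m hm
    rw [Finset.mem_sdiff, mem_Icc] at hn
    rw [mem_Ico] at hm
    rw [hZ, mem_product, mem_product, mem_Icc, mem_Icc, mem_Icc] at hz
    by_cases hcond : z.2.1 ≠ 0 ∧ IsCoprime ((z.1 * n + z.2.2 : ℤ)) z.2.1
    · have hD := dens_ge z.2.1 hcond.1
      obtain ⟨D, hDd⟩ : ∃ D : ℝ, D = z.2.1.natAbs / (Nat.totient z.2.1.natAbs : ℝ) := ⟨_, rfl⟩
      have habs : ∀ w : ℤ, -(K0 : ℤ) ≤ w ∧ w ≤ K0 → |(w : ℝ)| ≤ L ^ T := by
        intro w hw
        refine le_trans ?_ hK01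
        rw [abs_le]
        constructor
        · exact_mod_cast hw.1
        · exact_mod_cast hw.2
      have h1 := hE02 n hn.1.1 hn.1.2 hn.2 z.1 z.2.1 z.2.2 hz.1.1 (by
        have : (z.1 : ℝ) ≤ K0 := by exact_mod_cast hz.1.2
        exact this.trans hK01) hcond.1 (habs _ hz.2.1) (habs _ hz.2.2) hcond.2
      rw [← hDd] at h1 hD
      have h2 := chern_hits s hs M m (by omega)
        (fun b => ((z.1 * n + z.2.2 : ℤ) + z.2.1 * ((y b).val : ℕ)).toNat.Prime) (D / L) ε (by positivity) hε hε1 (by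
          have e1 : D * ((s.card : ℝ) / L) = s.card * (D / L) := by ring
          rw [e1] at h1
          exact h1)
      refine le_trans ?_ (h2.trans ?_)
      · apply Nat.cast_le.2
        apply card_le_card
        intro i hi
        rw [mem_filter] at hi ⊢
        refine ⟨hi.1, ?_⟩
        have h3 := ((hev2 n z m i).1 hi.2).2.2
        rw [← hDd] at h3
        exact h3
      · apply mul_le_mul_of_nonneg_left _ (pow_nonneg (Nat.cast_nonneg _) _)
        apply mul_le_mul_of_nonneg_left _ (by norm_num)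
        rw [← Real.exp_nat_mul]
        apply Real.exp_le_exp.2
        have h3 : (m : ℝ) * (1 / L) ≤ m * (D / L) := by gcongr
        have h4 : ε ^ 2 / 32 * (m * (1 / L)) ≤ ε ^ 2 / 32 * (m * (D / L)) := mul_le_mul_of_nonneg_left h3 (by positivity)
        have h5 : (m : ℝ) * -a = -(ε ^ 2 / 32 * (m * (1 / L))) := by rw [ha]; ring
        rw [h5]
        linarith
    · have h1 : (Fintype.piFinset (fun _ : Fin M => s)).filter (fun i => ev n z m i) = ∅ := by
        rw [filter_eq_empty_iff]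
        intro i _ h2
        exact hcond ⟨((hev2 n z m i).1 h2).1, ((hev2 n z m i).1 h2).2.1⟩
      rw [h1, card_empty, Nat.cast_zero]
      exact mul_nonneg (pow_nonneg (Nat.cast_nonneg _) _) (mul_nonneg (by norm_num) (pow_nonneg (Real.exp_pos _).le _))
  obtain ⟨cn, hcn⟩ : ∃ cn : (Fin M → ι) → ℝ, ∀ i, cn i = ∑ n ∈ Icc 1 N \ E0, ∑ z ∈ Z, ∑ m ∈ Ico m0 (M + 1),
    (if ev n z m i then (1 : ℝ) else 0) := ⟨_, fun _ => rfl⟩
  have hcn0 : ∀ i, 0 ≤ cn i := by
    intro i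
    rw [hcn]
    exact sum_nonneg fun _ _ => sum_nonneg fun _ _ => sum_nonneg fun _ _ => by split_ifs <;> norm_num
  have hgeo : ∑ m ∈ Ico m0 (M + 1), Real.exp (-a) ^ m ≤ 64 * L / ε ^ 2 * (1 / L ^ R) := by
    have hr1 : Real.exp (-a) < 1 := by
      rw [Real.exp_lt_one_iff]; linarith
    have h1 := geom_sum_Ico_le_of_lt_one (m := m0) (n := M + 1) (Real.exp_pos (-a)).le hr1
    have h2 : a / 2 ≤ 1 - Real.exp (-a) := by
      have h3 := Real.abs_exp_sub_one_sub_id_le (x := -a) (by rw [abs_neg, abs_of_pos ha0]; exact ha1)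
      rw [abs_le] at h3
      have h4 : Real.exp (-a) ≤ 1 - a + a ^ 2 / 2 := by
        have := Real.exp_bound' (x := a) ha0.le ha1 (n := 2) (by norm_num)
        have h5 := Real.add_one_le_exp a
        have h6 : Real.exp (-a) = 1 / Real.exp a := by rw [Real.exp_neg, one_div]
        rw [h6, div_le_iff₀ (Real.exp_pos _)]
        have h7 : 1 + a + a ^ 2 / 2 ≤ Real.exp a := Real.quadratic_le_exp_of_nonneg ha0.le
        have h8 : 0 ≤ 1 - a + a ^ 2 / 2 := by nlinarith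
        calc (1 : ℝ) ≤ (1 - a + a ^ 2 / 2) * (1 + a + a ^ 2 / 2) := by nlinarith [sq_nonneg (a ^ 2)]
          _ ≤ (1 - a + a ^ 2 / 2) * Real.exp a := mul_le_mul_of_nonneg_left h7 h8
      nlinarith
    have h3 : Real.exp (-a) ^ m0 ≤ 1 / L ^ R := by
      rw [← Real.exp_nat_mul]
      have h4 : (m0 : ℝ) * -a ≤ -(R * Real.log L) := by
        have h5 : a * (K * (L * Real.log L)) ≤ a * m0 := mul_le_mul_of_nonneg_left hm01 ha0.le
        have h6 : a * (K * (L * Real.log L)) = R * Real.log L := by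
          rw [ha, hKd]; field_simp
        linarith
      calc Real.exp ((m0 : ℝ) * -a) ≤ Real.exp (-(R * Real.log L)) := Real.exp_le_exp.2 h4
        _ = 1 / L ^ R := by rw [Real.exp_neg, Real.exp_nat_mul, Real.exp_log hL0, one_div]
    calc ∑ m ∈ Ico m0 (M + 1), Real.exp (-a) ^ m ≤ Real.exp (-a) ^ m0 / (1 - Real.exp (-a)) := h1
      _ ≤ (1 / L ^ R) / (a / 2) := by
          apply div_le_div₀ (by positivity) h3 (by positivity) h2
      _ = 64 * L / ε ^ 2 * (1 / L ^ R) := by rw [ha]; field_simp; ring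
  have htot : ∑ i ∈ Fintype.piFinset (fun _ : Fin M => s), cn i ≤
      N * (9 * L ^ (3 * T) * ((s.card : ℝ) ^ M * (2 * (64 * L / ε ^ 2 * (1 / L ^ R))))) := by
    have e1 : ∑ i ∈ Fintype.piFinset (fun _ : Fin M => s), cn i = ∑ n ∈ Icc 1 N \ E0, ∑ z ∈ Z, ∑ m ∈ Ico m0 (M + 1),
        (((Fintype.piFinset (fun _ : Fin M => s)).filter (fun i => ev n z m i)).card : ℝ) := by
      simp only [hcn]
      rw [sum_comm]
      apply sum_congr rfl; intro n _
      rw [sum_comm]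
      apply sum_congr rfl; intro z _
      rw [sum_comm]
      apply sum_congr rfl; intro m _
      rw [card_filter]
      push_cast
      rfl
    rw [e1]
    have e2 : ((Icc 1 N \ E0).card : ℝ) ≤ N := by
      have := card_le_card (sdiff_subset : Icc 1 N \ E0 ⊆ Icc 1 N)
      rw [Nat.card_Icc, Nat.add_sub_cancel] at this
      exact_mod_cast this
    calc ∑ n ∈ Icc 1 N \ E0, ∑ z ∈ Z, ∑ m ∈ Ico m0 (M + 1),
        (((Fintype.piFinset (fun _ : Fin M => s)).filter (fun i => ev n z m i)).card : ℝ)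
        ≤ ∑ n ∈ Icc 1 N \ E0, ∑ z ∈ Z, ∑ m ∈ Ico m0 (M + 1), ((s.card : ℝ) ^ M * (2 * Real.exp (-a) ^ m)) :=
          sum_le_sum fun n hn => sum_le_sum fun z hz => sum_le_sum fun m hm => hone n hn z hz m hm
      _ = ((Icc 1 N \ E0).card : ℝ) * (Z.card * ((s.card : ℝ) ^ M * (2 * ∑ m ∈ Ico m0 (M + 1), Real.exp (-a) ^ m))) := by
          rw [sum_const, sum_const, ← mul_sum, ← mul_sum]
          simp only [nsmul_eq_mul]
      _ ≤ N * (9 * L ^ (3 * T) * ((s.card : ℝ) ^ M * (2 * (64 * L / ε ^ 2 * (1 / L ^ R))))) := by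
          have h0 : 0 ≤ ∑ m ∈ Ico m0 (M + 1), Real.exp (-a) ^ m := sum_nonneg fun _ _ => pow_nonneg (Real.exp_pos _).le _
          apply mul_le_mul e2 _ (mul_nonneg (Nat.cast_nonneg _) (mul_nonneg (pow_nonneg (Nat.cast_nonneg _) _) (mul_nonneg (by norm_num) h0)))
            hN0.le
          apply mul_le_mul hZc _ (mul_nonneg (pow_nonneg (Nat.cast_nonneg _) _) (mul_nonneg (by norm_num) h0)) (by positivity)
          apply mul_le_mul_of_nonneg_left _ (pow_nonneg (Nat.cast_nonneg _) _)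
          exact mul_le_mul_of_nonneg_left hgeo (by norm_num)
  obtain ⟨Bad, hBad⟩ : ∃ Bad : Finset (Fin M → ι), ∀ i, i ∈ Bad ↔ i ∈ Fintype.piFinset (fun _ : Fin M => s) ∧
    (N : ℝ) / L ^ A * (1 / 2) < cn i := ex_filter _ _
  have hBads : Bad ⊆ Fintype.piFinset (fun _ : Fin M => s) := fun i hi => ((hBad i).1 hi).1
  refine ⟨Bad, hBads, ?_, ?_⟩
  · have h1 : (Bad.card : ℝ) * ((N : ℝ) / L ^ A * (1 / 2)) ≤ ∑ i ∈ Fintype.piFinset (fun _ : Fin M => s), cn i := by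
      calc (Bad.card : ℝ) * ((N : ℝ) / L ^ A * (1 / 2)) = ∑ i ∈ Bad, ((N : ℝ) / L ^ A * (1 / 2)) := by
            rw [sum_const, nsmul_eq_mul]
        _ ≤ ∑ i ∈ Bad, cn i := sum_le_sum fun i hi => by
            rw [hBad] at hi
            exact hi.2.le
        _ ≤ _ := sum_le_sum_of_subset_of_nonneg hBads fun _ _ _ => hcn0 _
    have h2 := h1.trans htot
    have e1 : L ^ R = L ^ (3 * T) * L ^ A * L ^ A * L * L * L := by
      rw [hR]; ring
    have e2 : N * (9 * L ^ (3 * T) * ((s.card : ℝ) ^ M * (2 * (64 * L / ε ^ 2 * (1 / L ^ R))))) =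
        ((s.card : ℝ) ^ M / L ^ A * (2304 / ε ^ 2 / L * (1 / L))) * (N / L ^ A * (1 / 2)) := by
      rw [e1]; field_simp; ring
    rw [e2] at h2
    have h3 : (Bad.card : ℝ) ≤ (s.card : ℝ) ^ M / L ^ A * (2304 / ε ^ 2 / L * (1 / L)) :=
      le_of_mul_le_mul_right h2 (by positivity)
    refine h3.trans ?_
    have h4 : 2304 / ε ^ 2 / L ≤ 1 := by rw [div_le_one hL0]; exact a2
    have h5 : 1 / L ≤ 1 := by rw [div_le_one hL0]; exact hL1
    have h6 : 2304 / ε ^ 2 / L * (1 / L) ≤ 1 := mul_le_one₀ h4 (by positivity) h5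
    exact mul_le_of_le_one_right (div_nonneg (pow_nonneg (Nat.cast_nonneg _) _) (by positivity)) h6
  · intro i hi hbad
    have hci : cn i ≤ N / L ^ A * (1 / 2) := by
      by_contra hcon
      push Not at hcon
      apply hbad
      rw [hBad]
      exact ⟨hi, hcon⟩
    obtain ⟨E', hE'⟩ : ∃ E' : Finset ℕ, ∀ n, n ∈ E' ↔ n ∈ Icc 1 N \ E0 ∧
      ∃ z ∈ Z, ∃ m ∈ Ico m0 (M + 1), ev n z m i := ex_filter _ _
    have hE's : E' ⊆ Icc 1 N \ E0 := fun n hn => ((hE' n).1 hn).1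
    have hE'c : (E'.card : ℝ) ≤ cn i := by
      rw [hcn]
      calc (E'.card : ℝ) = ∑ n ∈ E', (1 : ℝ) := by rw [sum_const, nsmul_eq_mul, mul_one]
        _ ≤ ∑ n ∈ E', ∑ z ∈ Z, ∑ m ∈ Ico m0 (M + 1), (if ev n z m i then (1 : ℝ) else 0) := by
          apply sum_le_sum
          intro n hn
          rw [hE'] at hn
          obtain ⟨-, z, hz, m, hm, h2⟩ := hn
          refine le_trans ?_ (single_le_sum (f := fun z => ∑ m ∈ Ico m0 (M + 1), (if ev n z m i then (1 : ℝ) else 0))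
            (fun _ _ => sum_nonneg fun _ _ => by split_ifs <;> norm_num) hz)
          refine le_trans ?_ (single_le_sum (f := fun m => (if ev n z m i then (1 : ℝ) else 0))
            (fun _ _ => by split_ifs <;> norm_num) hm)
          simp only [if_pos h2, le_refl]
        _ ≤ _ := sum_le_sum_of_subset_of_nonneg hE's fun _ _ _ =>
            sum_nonneg fun _ _ => sum_nonneg fun _ _ => by split_ifs <;> norm_num
    refine ⟨(E0 ∩ Icc 1 N) ∪ E', union_subset inter_subset_right (hE's.trans sdiff_subset), ?_, ?_⟩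
    · have h1 : (((E0 ∩ Icc 1 N) ∪ E').card : ℝ) ≤ (E0 ∩ Icc 1 N).card + E'.card := by exact_mod_cast card_union_le _ _
      have h1' : ((E0 ∩ Icc 1 N).card : ℝ) ≤ E0.card := by exact_mod_cast card_le_card inter_subset_left
      have h2 : (N : ℝ) / L ^ (A + 1) ≤ N / L ^ A * (1 / 2) := by
        rw [pow_succ, ← div_div, div_eq_mul_one_div (_ / L ^ A)]
        apply mul_le_mul_of_nonneg_left _ (by positivity)
        apply one_div_le_one_div_of_le (by norm_num)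
        linarith
      calc (((E0 ∩ Icc 1 N) ∪ E').card : ℝ) ≤ (E0 ∩ Icc 1 N).card + E'.card := h1
        _ ≤ N / L ^ A * (1 / 2) + N / L ^ A * (1 / 2) := add_le_add ((h1'.trans hE01).trans h2) (hE'c.trans hci)
        _ = _ := by ring
    · intro n hn hnE j κ c hj1 hj2 hκ1 hκ2 hc hcop m hm1 hm2
      rw [mem_union, mem_inter, not_or] at hnE
      have hnE0 : n ∉ E0 := fun h => hnE.1 ⟨h, hn⟩
      by_contra hcon
      push Not at hcon
      apply hnE.2
      rw [hE']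
      have habs : ∀ w : ℤ, |(w : ℝ)| ≤ L ^ T → -(K0 : ℤ) ≤ w ∧ w ≤ K0 := by
        intro w hw
        have h1 : w.natAbs ≤ K0 := by
          rw [hK0]
          apply Nat.le_floor
          rw [Nat.cast_natAbs, Int.cast_abs]
          exact hw
        omega
      refine ⟨Finset.mem_sdiff.2 ⟨hn, hnE0⟩, (j, κ, c), ?_, m, ?_, ?_⟩
      · rw [hZ, mem_product, mem_product, mem_Icc, mem_Icc, mem_Icc]
        refine ⟨⟨hj1, ?_⟩, habs κ hκ2, habs c hc⟩
        rw [hK0]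
        exact Nat.le_floor hj2
      · rw [mem_Ico, hm0]
        exact ⟨Nat.ceil_le.2 hm1, by omega⟩
      · rw [hev2]
        refine ⟨hκ1, hcop, ?_⟩
        have e1 : (m : ℝ) * (κ.natAbs / (Nat.totient κ.natAbs : ℝ) / L) = κ.natAbs / (Nat.totient κ.natAbs : ℝ) * (m / L) := by
          ring
        simp only
        rw [e1]
        exact hcon

/-- **Primes along random sequences**, one length `m`, `m / log N → ∞` arbitrarily slowly. -/
theorem prime_one (h31 : S_T31) (T A : ℕ) (ε : ℝ) (hε : 0 < ε) (hε1 : ε ≤ 1) :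
    ∃ V C W N₀ : ℕ, ∀ N : ℕ, N₀ ≤ N →
    ∀ (q : ℕ) [NeZero q], (N : ℝ) ^ (1 / 3 : ℝ) * Real.log N ^ C ≤ q → (q : ℝ) * Real.log N ^ W ≤ N →
    ∀ {ι : Type} [DecidableEq ι] (s : Finset ι) (y : ι → ZMod q), s.Nonempty → Flat q (1 / Real.log N ^ V) s y →
    ∀ (j : ℕ) (κ c : ℤ), 1 ≤ j → (j : ℝ) ≤ Real.log N ^ T → κ ≠ 0 → |(κ : ℝ)| ≤ Real.log N ^ T →
        |(c : ℝ)| ≤ Real.log N ^ T →
    ∀ m : ℕ, ∃ Bad ⊆ Fintype.piFinset (fun _ : Fin m => s),
      (Bad.card : ℝ) ≤ (s.card : ℝ) ^ m * Real.exp (-(ε ^ 2 / 64 * (m / Real.log N))) ∧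
      ∀ i ∈ Fintype.piFinset (fun _ : Fin m => s), i ∉ Bad →
      ∃ E ⊆ Icc 1 N, (E.card : ℝ) ≤ N * (2 * Real.exp (-(ε ^ 2 / 64 * (m / Real.log N))) + 1 / Real.log N ^ A) ∧
        ∀ n ∈ Icc 1 N, n ∉ E → IsCoprime ((j * n + c : ℤ)) κ →
      |(hitsP y i m κ (j * n + c : ℤ) : ℝ) - κ.natAbs / (Nat.totient κ.natAbs : ℝ) * (m / Real.log N)| ≤
        ε * (κ.natAbs / (Nat.totient κ.natAbs : ℝ) * (m / Real.log N)) := by
  classical
  obtain ⟨V, C, W, N₁, hsp⟩ := sparse_all h31 T A (ε / 2) (by positivity)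
  obtain ⟨N₂, hev⟩ := ev_seq ε
  refine ⟨V, C, W, N₁ + N₂ + 3, fun N hN q _ hq1 hq2 ι _ s y hs hf j κ c hj1 hj2 hκ1 hκ2 hc m => ?_⟩
  obtain ⟨a1, -⟩ := hev N (by omega)
  have hN0 : (0 : ℝ) < N := by exact_mod_cast (by omega : 0 < N)
  have hs0 : (0 : ℝ) < s.card := by exact_mod_cast hs.card_pos
  obtain ⟨E0, hE01, hE02⟩ := hsp N (by omega) q hq1 hq2 s y hs hf
  obtain ⟨L, hL⟩ : ∃ L, L = Real.log (N : ℝ) := ⟨_, rfl⟩
  rw [← hL] at a1 hE01 hE02 hj2 hκ2 hc ⊢
  have hL0 : 0 < L := by linarith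
  obtain ⟨X, hX⟩ : ∃ X : ℝ, X = Real.exp (-(ε ^ 2 / 64 * (m / L))) := ⟨_, rfl⟩
  have hX0 : 0 < X := by rw [hX]; exact Real.exp_pos _
  rw [← hX]
  obtain ⟨D, hDd⟩ : ∃ D : ℝ, D = κ.natAbs / (Nat.totient κ.natAbs : ℝ) := ⟨_, rfl⟩
  have hD := dens_ge κ hκ1
  rw [← hDd] at hD ⊢
  obtain ⟨ev, hev2⟩ : ∃ ev : ℕ → (Fin m → ι) → Prop, ∀ n i, ev n i ↔ (IsCoprime ((j * n + c : ℤ)) κ ∧
      ε * (m * (D / L)) < |(hitsP y i m κ (j * n + c : ℤ) : ℝ) - m * (D / L)|) := ⟨_, fun _ _ => Iff.rfl⟩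
  have hone : ∀ n ∈ Icc 1 N \ E0, (((Fintype.piFinset (fun _ : Fin m => s)).filter (fun i => ev n i)).card : ℝ) ≤
        (s.card : ℝ) ^ m * (2 * X ^ 2) := by
    intro n hn
    rw [Finset.mem_sdiff, mem_Icc] at hn
    by_cases hcond : IsCoprime ((j * n + c : ℤ)) κ
    · have h1 := hE02 n hn.1.1 hn.1.2 hn.2 j κ c hj1 hj2 hκ1 hκ2 hc hcond
      rw [← hDd] at h1
      have h2 := chern_hits s hs m m le_rfl
        (fun b => ((j * n + c : ℤ) + κ * ((y b).val : ℕ)).toNat.Prime) (D / L) ε (by positivity) hε hε1 (by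
          have e1 : D * ((s.card : ℝ) / L) = s.card * (D / L) := by ring
          rw [e1] at h1
          exact h1)
      refine le_trans ?_ (h2.trans ?_)
      · apply Nat.cast_le.2
        apply card_le_card
        intro i hi
        rw [mem_filter] at hi ⊢
        exact ⟨hi.1, ((hev2 n i).1 hi.2).2⟩
      · apply mul_le_mul_of_nonneg_left _ (pow_nonneg (Nat.cast_nonneg _) _)
        apply mul_le_mul_of_nonneg_left _ (by norm_num)
        rw [hX, ← Real.exp_nat_mul]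
        apply Real.exp_le_exp.2
        have h3 : (m : ℝ) * (1 / L) ≤ m * (D / L) := by gcongr
        have h4 : ε ^ 2 / 32 * (m * (1 / L)) ≤ ε ^ 2 / 32 * (m * (D / L)) := mul_le_mul_of_nonneg_left h3 (by positivity)
        have h5 : ((2 : ℕ) : ℝ) * -(ε ^ 2 / 64 * (m / L)) = -(ε ^ 2 / 32 * (m * (1 / L))) := by push_cast; ring
        rw [h5]
        linarith
    · have h1 : (Fintype.piFinset (fun _ : Fin m => s)).filter (fun i => ev n i) = ∅ := by
        rw [filter_eq_empty_iff]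
        intro i _ h2
        exact hcond ((hev2 n i).1 h2).1
      rw [h1, card_empty, Nat.cast_zero]
      exact mul_nonneg (pow_nonneg (Nat.cast_nonneg _) _) (by positivity)
  obtain ⟨cn, hcn⟩ : ∃ cn : (Fin m → ι) → ℝ, ∀ i, cn i = ∑ n ∈ Icc 1 N \ E0, (if ev n i then (1 : ℝ) else 0) :=
    ⟨_, fun _ => rfl⟩
  have hcn0 : ∀ i, 0 ≤ cn i := by
    intro i
    rw [hcn]
    exact sum_nonneg fun _ _ => by split_ifs <;> norm_num
  have htot : ∑ i ∈ Fintype.piFinset (fun _ : Fin m => s), cn i ≤ N * ((s.card : ℝ) ^ m * (2 * X ^ 2)) := by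
    have e1 : ∑ i ∈ Fintype.piFinset (fun _ : Fin m => s), cn i = ∑ n ∈ Icc 1 N \ E0,
        (((Fintype.piFinset (fun _ : Fin m => s)).filter (fun i => ev n i)).card : ℝ) := by
      simp only [hcn]
      rw [sum_comm]
      apply sum_congr rfl; intro n _
      rw [card_filter]
      push_cast
      rfl
    rw [e1]
    have e2 : ((Icc 1 N \ E0).card : ℝ) ≤ N := by
      have := card_le_card (sdiff_subset : Icc 1 N \ E0 ⊆ Icc 1 N)
      rw [Nat.card_Icc, Nat.add_sub_cancel] at this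
      exact_mod_cast this
    refine (sum_le_sum hone).trans ?_
    rw [sum_const, nsmul_eq_mul]
    exact mul_le_mul_of_nonneg_right e2 (mul_nonneg (pow_nonneg (Nat.cast_nonneg _) _) (by positivity))
  obtain ⟨Bad, hBad⟩ : ∃ Bad : Finset (Fin m → ι), ∀ i, i ∈ Bad ↔ i ∈ Fintype.piFinset (fun _ : Fin m => s) ∧
    N * (2 * X) < cn i := ex_filter _ _
  have hBads : Bad ⊆ Fintype.piFinset (fun _ : Fin m => s) := fun i hi => ((hBad i).1 hi).1
  refine ⟨Bad, hBads, ?_, ?_⟩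
  · have h1 : (Bad.card : ℝ) * (N * (2 * X)) ≤ ∑ i ∈ Fintype.piFinset (fun _ : Fin m => s), cn i := by
      calc (Bad.card : ℝ) * (N * (2 * X)) = ∑ i ∈ Bad, (N * (2 * X)) := by
            rw [sum_const, nsmul_eq_mul]
        _ ≤ ∑ i ∈ Bad, cn i := sum_le_sum fun i hi => by
            rw [hBad] at hi
            exact hi.2.le
        _ ≤ _ := sum_le_sum_of_subset_of_nonneg hBads fun _ _ _ => hcn0 _
    have h2 := h1.trans htot
    have e2 : N * ((s.card : ℝ) ^ m * (2 * X ^ 2)) = ((s.card : ℝ) ^ m * X) * (N * (2 * X)) := by ring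
    rw [e2] at h2
    exact le_of_mul_le_mul_right h2 (by positivity)
  · intro i hi hbad
    have hci : cn i ≤ N * (2 * X) := by
      by_contra hcon
      push Not at hcon
      apply hbad
      rw [hBad]
      exact ⟨hi, hcon⟩
    obtain ⟨E', hE'⟩ : ∃ E' : Finset ℕ, ∀ n, n ∈ E' ↔ n ∈ Icc 1 N \ E0 ∧ ev n i := ex_filter _ _
    have hE's : E' ⊆ Icc 1 N \ E0 := fun n hn => ((hE' n).1 hn).1
    have hE'c : (E'.card : ℝ) ≤ cn i := by
      rw [hcn]
      calc (E'.card : ℝ) = ∑ n ∈ E', (1 : ℝ) := by rw [sum_const, nsmul_eq_mul, mul_one]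
        _ ≤ ∑ n ∈ E', (if ev n i then (1 : ℝ) else 0) := by
          apply sum_le_sum
          intro n hn
          rw [hE'] at hn
          simp only [if_pos hn.2, le_refl]
        _ ≤ _ := sum_le_sum_of_subset_of_nonneg hE's fun _ _ _ => by split_ifs <;> norm_num
    refine ⟨(E0 ∩ Icc 1 N) ∪ E', union_subset inter_subset_right (hE's.trans sdiff_subset), ?_, ?_⟩
    · have h1 : (((E0 ∩ Icc 1 N) ∪ E').card : ℝ) ≤ (E0 ∩ Icc 1 N).card + E'.card := by exact_mod_cast card_union_le _ _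
      have h1' : ((E0 ∩ Icc 1 N).card : ℝ) ≤ E0.card := by exact_mod_cast card_le_card inter_subset_left
      calc (((E0 ∩ Icc 1 N) ∪ E').card : ℝ) ≤ (E0 ∩ Icc 1 N).card + E'.card := h1
        _ ≤ N / L ^ A + N * (2 * X) := add_le_add (h1'.trans hE01) (hE'c.trans hci)
        _ = _ := by ring
    · intro n hn hnE hcop
      rw [mem_union, mem_inter, not_or] at hnE
      have hnE0 : n ∉ E0 := fun h => hnE.1 ⟨h, hn⟩
      by_contra hcon
      push Not at hcon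
      apply hnE.2
      rw [hE', hev2]
      refine ⟨Finset.mem_sdiff.2 ⟨hn, hnE0⟩, hcop, ?_⟩
      have e1 : (m : ℝ) * (D / L) = D * (m / L) := by ring
      rw [e1]
      exact hcon

end Pool.Agent.Run7.h794.MK
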